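import Pool.Agent.W_3283e1_lw.Defs

set_option autoImplicit false

namespace W3283l

open MeasureTheory

theorem om_meas : Measurable om := by
  unfold om
  exact (Real.measurable_log.comp (measurable_const.sub
    (Real.measurable_exp.comp measurable_neg))).neg

theorem Om_arg_pos {u : ℝ} (hu : 0 < u) : 0 < 1 - Real.exp (-u) := by
  have : Real.exp (-u) < 1 := by
    rw [Real.exp_lt_one_iff]
    linarith
  linarith

theorem om_nonneg (u : ℝ) (hu : 0 < u) : 0 ≤ om u := by
  unfold om
  have h1 := Om_arg_pos hu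
  have h2 : Real.log (1 - Real.exp (-u)) ≤ 0 :=
    Real.log_nonpos h1.le (by linarith [Real.exp_pos (-u)])
  linarith

theorem om_anti (u v : ℝ) (hu : 0 < u) (h : u ≤ v) : om v ≤ om u := by
  unfold om
  have h1 := Om_arg_pos hu
  have h2 : Real.exp (-v) ≤ Real.exp (-u) := Real.exp_le_exp.2 (by linarith)
  have h3 : Real.log (1 - Real.exp (-u)) ≤ Real.log (1 - Real.exp (-v)) :=
    Real.log_le_log h1 (by linarith)
  linarith

theorem Om_le_small {u : ℝ} (hu : 0 < u) (hu1 : u ≤ 1) : om u ≤ Real.log 2 - Real.log u := by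
  unfold om
  have h1 : Real.exp (-u) ≤ 1 / (1 + u) := by
    rw [Real.exp_neg, one_div]
    apply inv_anti₀ (by linarith)
    linarith [Real.add_one_le_exp u]
  have h2 : u / 2 ≤ 1 - Real.exp (-u) := by
    have h3 : u / 2 ≤ 1 - 1 / (1 + u) := by
      have h4 : 1 - 1 / (1 + u) = u / (1 + u) := by
        field_simp
        ring
      rw [h4]
      exact div_le_div_of_nonneg_left hu.le (by linarith) (by linarith)
    linarith
  have h5 : Real.log (u / 2) ≤ Real.log (1 - Real.exp (-u)) :=
    Real.log_le_log (by linarith) h2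
  rw [Real.log_div hu.ne' two_ne_zero] at h5
  linarith

theorem Om_le_large {u : ℝ} (hu : 1 ≤ u) : om u ≤ 2 * Real.exp (-u) := by
  unfold om
  set y := Real.exp (-u) with hy
  have hy0 : 0 < y := Real.exp_pos _
  have hy1 : y ≤ 1 / 2 := by
    have h1 : y ≤ Real.exp (-1) := Real.exp_le_exp.2 (by linarith)
    have h2 : Real.exp (-1) ≤ 1 / 2 := by
      rw [Real.exp_neg, one_div]
      apply inv_anti₀ (by norm_num)
      have := Real.add_one_le_exp (1 : ℝ)
      linarith
    linarith
  have h3 := Real.one_sub_inv_le_log_of_pos (x := 1 - y) (by linarith)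
  have h4 : (1 - y)⁻¹ - 1 ≤ 2 * y := by
    have h5 : (1 - y)⁻¹ - 1 = y / (1 - y) := by
      have : (1 - y) ≠ 0 := by linarith
      field_simp
      ring
    rw [h5, div_le_iff₀ (by linarith)]
    nlinarith
  linarith

/-- On `(0,1]`: `1 - e^{-u} ≥ u/2` (concavity: `e^{-u} ≤ 1 - u + u²/2`), so
`om u ≤ log (2/u) ≤ 2 (2/u)^{1/2}` (`Real.log_le_rpow_div` or `Real.add_one_le_exp`), integrable; on
`(1,∞)`: `-log (1-y) ≤ y/(1-y) ≤ 2 y` for `y = e^{-u} ≤ 1/2`. -/
theorem om_int : IntegrableOn om (Set.Ioi 0) := by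
  have hs : Set.Ioi (0 : ℝ) = Set.Ioc 0 1 ∪ Set.Ioi 1 := (Set.Ioc_union_Ioi_eq_Ioi zero_le_one).symm
  rw [hs]
  apply IntegrableOn.union
  · have hlog : IntegrableOn (fun u : ℝ => Real.log 2 - Real.log u) (Set.Ioc 0 1) := by
      apply Integrable.sub
      · exact integrableOn_const (by simp)
      · have h := intervalIntegral.intervalIntegrable_log' (a := 0) (b := 1)
        exact (intervalIntegrable_iff_integrableOn_Ioc_of_le zero_le_one).1 h
    refine Integrable.mono' hlog om_meas.aestronglyMeasurable ?_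
    refine (ae_restrict_iff' measurableSet_Ioc).2 (Filter.Eventually.of_forall fun u hu => ?_)
    rw [Real.norm_eq_abs, abs_of_nonneg (om_nonneg u hu.1)]
    exact Om_le_small hu.1 hu.2
  · have hexp : IntegrableOn (fun u : ℝ => 2 * Real.exp (-u)) (Set.Ioi 1) := by
      have h := (exp_neg_integrableOn_Ioi 1 (b := 1) one_pos).const_mul 2
      simp only [neg_mul, one_mul] at h
      exact h
    refine Integrable.mono' hexp om_meas.aestronglyMeasurable ?_
    refine (ae_restrict_iff' measurableSet_Ioi).2 (Filter.Eventually.of_forall fun u hu => ?_)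
    have hu' : (1 : ℝ) < u := hu
    rw [Real.norm_eq_abs, abs_of_nonneg (om_nonneg u (by linarith))]
    exact Om_le_large hu'.le

end W3283l
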