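import Mathlib

set_option autoImplicit false

namespace W3283l

/-- Simultaneous approximation (Dirichlet): pigeonhole for the `q^N + 1` points
`(fract (θ i t))_{i ∈ s}`, `t = 0, ..., q^N` (`N = card s`), in the `q^N` boxes with sides `1/q`: for
`t1 < t2` in one box take `t = t2 - t1` and `k i = ⌊θ i t2⌋ - ⌊θ i t1⌋`. -/
theorem dirichlet {ι : Type} (s : Finset ι) (θ : ι → ℝ) (q : ℕ) (hq : 1 ≤ q) :
    ∃ t : ℕ, 1 ≤ t ∧ t ≤ q ^ s.card ∧ ∀ i ∈ s, ∃ k : ℤ, |θ i * t - k| ≤ 1 / q := by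
  classical
  have hq0 : (0:ℝ) < q := by exact_mod_cast hq
  have hbox : ∀ x : ℝ, ⌊Int.fract x * q⌋₊ < q := by
    intro x
    have h0 := Int.fract_nonneg x
    have h1 := Int.fract_lt_one x
    rw [Nat.floor_lt (by positivity)]
    nlinarith
  let f : Fin (q ^ s.card + 1) → (s → Fin q) :=
    fun t i => ⟨⌊Int.fract (θ i * ((t : ℕ) : ℝ)) * q⌋₊, hbox _⟩
  have hcard : Fintype.card (s → Fin q) < Fintype.card (Fin (q ^ s.card + 1)) := by
    simp
  obtain ⟨t1, t2, hne, heq⟩ := Fintype.exists_ne_map_eq_of_card_lt f hcard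
  wlog h12 : t1 < t2 generalizing t1 t2
  · exact this t2 t1 hne.symm heq.symm (lt_of_le_of_ne (not_lt.mp h12) hne.symm)
  have hlt : (t1 : ℕ) < (t2 : ℕ) := h12
  have ht2 : (t2 : ℕ) < q ^ s.card + 1 := t2.2
  refine ⟨(t2 : ℕ) - (t1 : ℕ), by omega, by omega, ?_⟩
  intro i hi
  refine ⟨⌊θ i * ((t2 : ℕ) : ℝ)⌋ - ⌊θ i * ((t1 : ℕ) : ℝ)⌋, ?_⟩
  have h := congrFun heq ⟨i, hi⟩
  have h' : ⌊Int.fract (θ i * ((t1 : ℕ) : ℝ)) * q⌋₊ = ⌊Int.fract (θ i * ((t2 : ℕ) : ℝ)) * q⌋₊ := by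
    simpa [f] using h
  have e1 := Int.floor_add_fract (θ i * ((t1 : ℕ) : ℝ))
  have e2 := Int.floor_add_fract (θ i * ((t2 : ℕ) : ℝ))
  have p1 := Int.fract_nonneg (θ i * ((t1 : ℕ) : ℝ))
  have p2 := Int.fract_nonneg (θ i * ((t2 : ℕ) : ℝ))
  set a := Int.fract (θ i * ((t1 : ℕ) : ℝ))
  set b := Int.fract (θ i * ((t2 : ℕ) : ℝ))
  have a1 := Nat.floor_le (show 0 ≤ a * q by positivity)
  have a2 := Nat.lt_floor_add_one (a * q)
  have b1 := Nat.floor_le (show 0 ≤ b * q by positivity)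
  have b2 := Nat.lt_floor_add_one (b * q)
  rw [h'] at a1 a2
  have hc : (((t2 : ℕ) - (t1 : ℕ) : ℕ) : ℝ) = ((t2 : ℕ) : ℝ) - ((t1 : ℕ) : ℝ) := by
    push_cast [Nat.cast_sub hlt.le]
    ring
  have key : θ i * (((t2 : ℕ) - (t1 : ℕ) : ℕ) : ℝ) -
      ((⌊θ i * ((t2 : ℕ) : ℝ)⌋ - ⌊θ i * ((t1 : ℕ) : ℝ)⌋ : ℤ) : ℝ) = b - a := by
    rw [hc]
    push_cast
    linarith
  rw [key, abs_le]
  have hq1 : (1:ℝ) / q * q = 1 := by field_simp
  constructor
  · by_contra hcon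
    push Not at hcon
    have := mul_lt_mul_of_pos_right hcon hq0
    linarith
  · by_contra hcon
    push Not at hcon
    have := mul_lt_mul_of_pos_right hcon hq0
    linarith

/-- `cos x - 1` and `sin x` at `x = 2π k + y`, `|y| ≤ 2π/q`. -/
theorem dir_trig (x : ℝ) (k : ℤ) (e : ℝ) (h : |x / (2 * Real.pi) - k| ≤ e) :
    |Real.cos x - 1| ≤ 2 * Real.pi * e ∧ |Real.sin x| ≤ 2 * Real.pi * e := by
  have hpi := Real.pi_pos
  obtain ⟨y, hy⟩ : ∃ y : ℝ, x = y + k * (2 * Real.pi) := ⟨x - k * (2 * Real.pi), by ring⟩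
  have hyb : |y| ≤ 2 * Real.pi * e := by
    have e1 : y = (2 * Real.pi) * (x / (2 * Real.pi) - k) := by
      rw [hy]
      field_simp
      ring
    rw [e1, abs_mul, abs_of_pos (by positivity : 0 < 2 * Real.pi)]
    exact mul_le_mul_of_nonneg_left h (by positivity)
  have hc : Real.cos x = Real.cos y := by rw [hy, Real.cos_add_int_mul_two_pi]
  have hs : Real.sin x = Real.sin y := by rw [hy, Real.sin_add_int_mul_two_pi]
  rw [hc, hs]
  constructor
  · refine le_trans ?_ hyb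
    have h1 := Real.one_sub_sq_div_two_le_cos (x := y)
    have h2 := Real.cos_le_one y
    have h3 := Real.neg_one_le_cos y
    rw [abs_of_nonpos (by linarith)]
    rcases le_total |y| 2 with h4 | h4
    · have : y ^ 2 = |y| ^ 2 := (sq_abs y).symm
      nlinarith [abs_nonneg y]
    · linarith
  · exact le_trans Real.abs_sin_le_abs hyb

/-- Almost periods are relatively dense.  The curve `x(t) = (e^{iγ_i t})_{i ∈ s}` in `s → ℂ` is bounded,
so its range is totally bounded: there are `t_1, ..., t_n` such that every `x(t)` is within `ε` of some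
`x(t_j)` (`Metric.totallyBounded_iff` and `TotallyBounded`, with centres in the range:
`Metric.finite_approx_of_totallyBounded` or `TotallyBounded.exists_subset`).  Given `U`, take
`M = max |t_j|`, `t = U + M`, `τ = t - t_j ∈ [U, U + 2M]`: `|e^{iγτ} - 1| = |e^{iγt} - e^{iγt_j}| ≤ ε`;
real and imaginary parts. -/
theorem rel_dense {ι : Type} (s : Finset ι) (γ : ι → ℝ) (ε : ℝ) (hε : 0 < ε) :
    ∃ D : ℝ, 0 < D ∧ ∀ U : ℝ, ∃ τ : ℝ, U ≤ τ ∧ τ ≤ U + D ∧
      ∀ i ∈ s, |Real.cos (γ i * τ) - 1| ≤ ε ∧ |Real.sin (γ i * τ)| ≤ ε := by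
  classical
  let X : ℝ → (s → ℂ) := fun t i => Complex.exp ((γ i * t : ℝ) * Complex.I)
  have hnorm : ∀ t : ℝ, ∀ i : s, ‖X t i‖ = 1 := by
    intro t i
    exact Complex.norm_exp_ofReal_mul_I _
  have hTB : TotallyBounded (Set.range X) := by
    refine ((isCompact_closedBall (0 : s → ℂ) 1).totallyBounded).subset ?_
    rintro _ ⟨t, rfl⟩
    rw [Metric.mem_closedBall, dist_zero_right, pi_norm_le_iff_of_nonneg zero_le_one]
    intro i
    rw [hnorm]
  obtain ⟨T, hTs, hTf, hTc⟩ := Metric.finite_approx_of_totallyBounded hTB ε hε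
  have hch : ∀ y : s → ℂ, ∃ t : ℝ, y ∈ T → X t = y := by
    intro y
    by_cases hy : y ∈ T
    · obtain ⟨t, ht⟩ := hTs hy
      exact ⟨t, fun _ => ht⟩
    · exact ⟨0, fun h => absurd h hy⟩
  choose tt htt using hch
  obtain ⟨M, hM⟩ : ∃ M : ℝ, ∀ y ∈ T, |tt y| ≤ M := by
    have := (hTf.image (fun y => |tt y|)).bddAbove
    obtain ⟨M, hM⟩ := this
    exact ⟨M, fun y hy => hM ⟨y, hy, rfl⟩⟩
  refine ⟨2 * |M| + 1, by positivity, ?_⟩
  intro U
  have hmem : X (U + |M|) ∈ ⋃ y ∈ T, Metric.ball y ε := hTc ⟨_, rfl⟩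
  rw [Set.mem_iUnion₂] at hmem
  obtain ⟨y, hy, hyb⟩ := hmem
  have hyM := hM y hy
  have hMa := le_abs_self M
  obtain ⟨l1, l2⟩ := abs_le.mp hyM
  refine ⟨U + |M| - tt y, by linarith, by linarith, ?_⟩
  intro i hi
  have hd : ‖X (U + |M|) ⟨i, hi⟩ - X (tt y) ⟨i, hi⟩‖ ≤ ε := by
    rw [htt y hy]
    rw [Metric.mem_ball, dist_pi_lt_iff hε] at hyb
    have := hyb ⟨i, hi⟩
    rw [dist_eq_norm] at this
    exact this.le
  have hz : Complex.exp ((γ i * (U + |M| - tt y) : ℝ) * Complex.I) - 1 =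
      (X (U + |M|) ⟨i, hi⟩ - X (tt y) ⟨i, hi⟩) * Complex.exp ((-(γ i * tt y) : ℝ) * Complex.I) := by
    simp only [X]
    rw [sub_mul, ← Complex.exp_add, ← Complex.exp_add]
    congr 1
    · congr 1
      push_cast
      ring
    · rw [← Complex.exp_zero]
      congr 1
      push_cast
      ring
  have hzn : ‖Complex.exp ((γ i * (U + |M| - tt y) : ℝ) * Complex.I) - 1‖ ≤ ε := by
    rw [hz, norm_mul, Complex.norm_exp_ofReal_mul_I, mul_one]
    exact hd
  have hre : (Complex.exp ((γ i * (U + |M| - tt y) : ℝ) * Complex.I) - 1).re =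
      Real.cos (γ i * (U + |M| - tt y)) - 1 := by
    rw [Complex.sub_re, Complex.exp_ofReal_mul_I_re, Complex.one_re]
  have him : (Complex.exp ((γ i * (U + |M| - tt y) : ℝ) * Complex.I) - 1).im =
      Real.sin (γ i * (U + |M| - tt y)) := by
    rw [Complex.sub_im, Complex.exp_ofReal_mul_I_im, Complex.one_im, sub_zero]
  constructor
  · rw [← hre]
    exact le_trans (Complex.abs_re_le_norm _) hzn
  · rw [← him]
    exact le_trans (Complex.abs_im_le_norm _) hzn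

end W3283l
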