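import Pool.Agent.W_3283e1_lw.Smo

set_option autoImplicit false

namespace W3283l

open MeasureTheory

variable {ι : Type} {γ m : ι → ℝ}

theorem SmoN_exp1 (z : ℝ) (hz : 1 ≤ z) :
    IntegrableOn (fun a : ℝ => a * Real.exp (-(z * a))) (Set.Ioi 0) ∧
      z ^ 2 * ∫ a in Set.Ioi (0 : ℝ), a * Real.exp (-(z * a)) = 1 := by
  have hz0 : 0 < z := by linarith
  have h1 := Real.integral_rpow_mul_exp_neg_mul_Ioi (a := 2) (r := z) (by norm_num) hz0
  have h2 : ∫ a in Set.Ioi (0 : ℝ), a * Real.exp (-(z * a)) = (1 / z) ^ (2 : ℝ) * Real.Gamma 2 := by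
    rw [← h1]
    refine setIntegral_congr_fun measurableSet_Ioi fun t _ => ?_
    rw [show (2 : ℝ) - 1 = 1 by norm_num, Real.rpow_one]
  rw [Real.Gamma_two, mul_one, Real.rpow_two] at h2
  constructor
  · by_contra hn
    have h3 := integral_undef hn
    rw [h2] at h3
    have h4 : 0 < (1 / z) ^ 2 := by positivity
    linarith
  · rw [h2]
    field_simp

theorem SmoN_exp0 (z U : ℝ) (hz : 1 ≤ z) :
    IntegrableOn (fun a : ℝ => Real.exp (-(z * a))) (Set.Ioi U) ∧
      ∫ a in Set.Ioi U, Real.exp (-(z * a)) = Real.exp (-(z * U)) / z := by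
  have hz0 : 0 < z := by linarith
  have h1 := integral_exp_mul_Ioi (a := -z) (by linarith) U
  have h2 := integrableOn_exp_mul_Ioi (a := -z) (by linarith) U
  simp only [neg_mul] at h1 h2
  refine ⟨h2, ?_⟩
  rw [h1]
  field_simp

theorem SmoN_split (f : ℝ → ℝ) (U a : ℝ) (hf : IntegrableOn f (Set.Ioc 0 U)) (ha : 0 ≤ a)
    (haU : a ≤ U) :
    ∫ t in Set.Ioc (U - a) U, f t = (∫ t in Set.Ioc 0 U, f t) - ∫ t in Set.Ioc 0 (U - a), f t := by
  have h1 : Set.Ioc 0 U = Set.Ioc 0 (U - a) ∪ Set.Ioc (U - a) U :=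
    (Set.Ioc_union_Ioc_eq_Ioc (by linarith) (by linarith)).symm
  have h2 : IntegrableOn f (Set.Ioc 0 (U - a)) :=
    hf.mono_set (Set.Ioc_subset_Ioc_right (by linarith))
  have h3 : IntegrableOn f (Set.Ioc (U - a) U) :=
    hf.mono_set (Set.Ioc_subset_Ioc_left (by linarith))
  rw [h1, setIntegral_union (Set.Ioc_disjoint_Ioc_of_le le_rfl) measurableSet_Ioc h2 h3]
  ring

theorem SmoN_z (z U : ℝ) (hz : 1 ≤ z) (hU : 1 ≤ U) :
    z * Real.exp (-(z * U)) ≤ 1 ∧ z * U * Real.exp (-(z * U)) ≤ 1 := by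
  have h1 : z * U * Real.exp (-(z * U)) ≤ 1 := by
    have h2 := Real.add_one_le_exp (z * U)
    rw [Real.exp_neg, ← div_eq_mul_inv, div_le_one (Real.exp_pos _)]
    linarith
  refine ⟨le_trans ?_ h1, h1⟩
  have h3 : z ≤ z * U := by nlinarith
  exact mul_le_mul_of_nonneg_right h3 (Real.exp_pos _).le

theorem SmoN_tsum (hZ : ZD γ m) (f : ι → ℝ) (hf : ∀ i, |f i| ≤ 2) :
    Summable (fun i => 2 * m i / (γ i) ^ 2 * f i) ∧
      |∑' i, 2 * m i / (γ i) ^ 2 * f i| ≤ 4 * ∑' i, m i / (γ i) ^ 2 := by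
  have hb : ∀ i, ‖2 * m i / (γ i) ^ 2 * f i‖ ≤ 4 * (m i / (γ i) ^ 2) := by
    intro i
    have h1 := hZ.pos i
    have h2 := hZ.one i
    have h3 : 0 ≤ m i / (γ i) ^ 2 := by positivity
    rw [Real.norm_eq_abs, abs_mul, show 2 * m i / (γ i) ^ 2 = 2 * (m i / (γ i) ^ 2) by ring,
      abs_mul, abs_of_nonneg h3, abs_two]
    nlinarith [hf i]
  have hs : HasSum (fun i => 4 * (m i / (γ i) ^ 2)) (4 * ∑' i, m i / (γ i) ^ 2) :=
    hZ.sm.hasSum.mul_left 4
  exact ⟨Summable.of_norm_bounded hs.summable hb, tsum_of_norm_bounded hs hb⟩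

/-- By `ibp_neg` and `∫_{U-a}^U A = Σ 2m/γ² (cos γ(U-a) - cos γU) + c3 a - ∫_{U-a}^U om`
(`0 ≤ a ≤ U`).  The sum over the zeros, integrated over all `a > 0`, is `Vz (-1) z U` (`trig_sum`); the part
`a > U` is at most `z² · 4 Σ m/γ² · e^{-zU}/z ≤ 4 Σ m/γ²` (`z e^{-zU} ≤ z e^{-z} ≤ 1`).  The other
terms: `z e^{-zU} |∫_0^U A| ≤ z e^{-zU} (4 Σ m/γ² + |c3| U + ∫ om)` is bounded (`z U e^{-zU} ≤ 1`);
`z² ∫_0^U |c3| a e^{-za} ≤ |c3|`; and `z² ∫_0^U (∫_{U-a}^U om) e^{-za} da`: for `a ≤ U/2` the inner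
integral is at most `a om (1/2)`, for `a > U/2` at most `∫ om`, and
`z² ∫_{a > U/2} e^{-za} = z e^{-zU/2} ≤ z e^{-z/2} ≤ 1`. -/
theorem smo_neg (hZ : ZD γ m) (A : ℝ → ℝ) (hA : EF γ m A) : ∃ C : ℝ, 0 ≤ C ∧
    ∀ z U : ℝ, 1 ≤ z → 1 ≤ U →
      |z * (∫ a in Set.Ioc (0 : ℝ) U, A (U - a) * Real.exp (-(z * a))) - Vz γ m (-1) z U| ≤ C := by
  obtain ⟨C₀, hC₀⟩ := hA.bd
  obtain ⟨c3, hex⟩ := hA.ex
  set Sg : ℝ := ∑' i, m i / (γ i) ^ 2 with hSgdef
  set W : ℝ := ∫ t in Set.Ioi (0 : ℝ), om t with hWdef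
  have hW : 0 ≤ W := setIntegral_nonneg measurableSet_Ioi fun t ht => om_nonneg t ht
  have hSg : 0 ≤ Sg := tsum_nonneg fun i => by
    have h1 := hZ.pos i
    have h2 := hZ.one i
    positivity
  have hom : 0 ≤ om (1 / 2) := om_nonneg _ (by norm_num)
  have hc3 := abs_nonneg c3
  refine ⟨8 * Sg + 2 * |c3| + 3 * W + om (1 / 2), by positivity, fun z U hz hU => ?_⟩
  have hz0 : 0 < z := by linarith
  have hU0 : 0 ≤ U := by linarith
  have hz2 : 0 < z ^ 2 := by positivity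
  obtain ⟨he1, he2⟩ := SmoN_z z U hz hU
  obtain ⟨hi1, hv1⟩ := SmoN_exp1 z hz
  obtain ⟨hi0, hv0⟩ := SmoN_exp0 z U hz
  -- integrability of A
  have hC0 : 0 ≤ C₀ := by
    have h1 := hC₀ 0 le_rfl
    rw [mul_zero, Real.exp_zero, mul_one] at h1
    exact (abs_nonneg _).trans h1
  have hAi : IntegrableOn A (Set.Icc 0 U) := by
    refine Measure.integrableOn_of_bounded (M := C₀ * Real.exp (3 / 4 * U)) (by simp)
      hA.meas.aestronglyMeasurable ?_
    refine (ae_restrict_iff' measurableSet_Icc).2 (Filter.Eventually.of_forall fun u hu => ?_)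
    refine (hC₀ u hu.1).trans (mul_le_mul_of_nonneg_left ?_ hC0)
    exact Real.exp_le_exp.2 (by linarith [hu.2])
  have hAi' : IntegrableOn A (Set.Ioc 0 U) := hAi.mono_set Set.Ioc_subset_Icc_self
  have homi : IntegrableOn om (Set.Ioc 0 U) := om_int.mono_set Set.Ioc_subset_Ioi_self
  -- the functions
  let T : ℝ → ℝ := fun a => ∑' i, 2 * m i / (γ i) ^ 2 *
      (-1 * (Real.cos (γ i * U) - Real.cos (γ i * (U + -1 * a))))
  let Pf : ℝ → ℝ := fun a => ∫ t in Set.Ioc (U - a) U, om t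
  let IA : ℝ → ℝ := fun a => ∫ t in Set.Ioc (U - a) U, A t
  obtain ⟨hTi, hTv⟩ := trig_sum hZ (-1) z U (Or.inr rfl) hz
  have hTi' : IntegrableOn (fun a => T a * Real.exp (-(z * a))) (Set.Ioi 0) := hTi
  have hTv' : z ^ 2 * ∫ a in Set.Ioi (0 : ℝ), T a * Real.exp (-(z * a)) = Vz γ m (-1) z U := hTv
  have hcos : ∀ x : ℝ, |1 - Real.cos x| ≤ 2 := fun x => by
    rw [abs_le]
    constructor <;> linarith [Real.cos_le_one x, Real.neg_one_le_cos x]
  have hcos2 : ∀ x y : ℝ, |-1 * (Real.cos x - Real.cos y)| ≤ 2 := fun x y => by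
    rw [abs_le]
    constructor <;> linarith [Real.cos_le_one x, Real.neg_one_le_cos x, Real.cos_le_one y,
      Real.neg_one_le_cos y]
  have hTb : ∀ a, |T a| ≤ 4 * Sg := fun a => (SmoN_tsum hZ _ fun i => hcos2 _ _).2
  have hIA : ∀ a, 0 ≤ a → a ≤ U → IA a = T a + c3 * a - Pf a := by
    intro a ha haU
    have h1 := hex U hU0
    have h2 := hex (U - a) (by linarith)
    have h3 := SmoN_split A U a hAi' ha haU
    have h4 := SmoN_split om U a homi ha haU
    have h5 : T a = (∑' i, 2 * m i / (γ i) ^ 2 * (1 - Real.cos (γ i * U))) -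
        ∑' i, 2 * m i / (γ i) ^ 2 * (1 - Real.cos (γ i * (U - a))) := by
      rw [← (SmoN_tsum hZ _ fun i => hcos (γ i * U)).1.tsum_sub
        (SmoN_tsum hZ _ fun i => hcos (γ i * (U - a))).1]
      refine tsum_congr fun i => ?_
      rw [show U + -1 * a = U - a by ring]
      ring
    change ∫ t in Set.Ioc (U - a) U, A t = T a + c3 * a - ∫ t in Set.Ioc (U - a) U, om t
    rw [h3, h4, h1, h2, h5]
    ring
  have hPf : ∀ a, 0 ≤ a → a ≤ U → 0 ≤ Pf a ∧ Pf a ≤ (om (1 / 2) + 2 * W) * a := by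
    intro a ha haU
    have h0 : 0 ≤ Pf a := setIntegral_nonneg measurableSet_Ioc fun t ht =>
      om_nonneg t (lt_of_le_of_lt (by linarith) ht.1)
    refine ⟨h0, ?_⟩
    have h2W : 0 ≤ 2 * W * a := by positivity
    have hoa : 0 ≤ om (1 / 2) * a := by positivity
    by_cases h2 : a ≤ U / 2
    · have h3 : Pf a ≤ ∫ t in Set.Ioc (U - a) U, om (1 / 2) := by
        refine setIntegral_mono_on
          (homi.mono_set (Set.Ioc_subset_Ioc_left (by linarith))) (by simp)
          measurableSet_Ioc fun t ht => ?_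
        exact om_anti (1 / 2) t (by norm_num) (by linarith [ht.1])
      rw [setIntegral_const, smul_eq_mul] at h3
      have h4 : volume.real (Set.Ioc (U - a) U) = a := by
        rw [Real.volume_real_Ioc_of_le (by linarith)]
        ring
      rw [h4] at h3
      nlinarith
    · push Not at h2
      have h3 : Pf a ≤ W := by
        refine setIntegral_mono_set om_int ?_ ?_
        · exact (ae_restrict_iff' measurableSet_Ioi).2
            (Filter.Eventually.of_forall fun t ht => om_nonneg t ht)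
        · refine Filter.Eventually.of_forall fun t ht => ?_
          exact lt_of_le_of_lt (show (0 : ℝ) ≤ U - a by linarith) ht.1
      nlinarith
  -- integrability of IA
  have hIAi : IntegrableOn (fun a => IA a * Real.exp (-(z * a))) (Set.Ioc 0 U) := by
    have h1 : ContinuousOn (fun x => ∫ t in Set.Ioc 0 x, A t) (Set.Icc 0 U) :=
      intervalIntegral.continuousOn_primitive hAi
    have h2 : ContinuousOn (fun a => ((∫ t in Set.Ioc 0 U, A t) - ∫ t in Set.Ioc 0 (U - a), A t) *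
        Real.exp (-(z * a))) (Set.Icc 0 U) := by
      refine ContinuousOn.mul (continuousOn_const.sub ?_) (by fun_prop)
      refine h1.comp (f := fun a => U - a) (by fun_prop) ?_
      intro a ha
      exact ⟨by linarith [ha.2], by linarith [ha.1]⟩
    have h3 : IntegrableOn (fun a => ((∫ t in Set.Ioc 0 U, A t) -
        ∫ t in Set.Ioc 0 (U - a), A t) * Real.exp (-(z * a))) (Set.Ioc 0 U) :=
      (h2.integrableOn_compact isCompact_Icc).mono_set Set.Ioc_subset_Icc_self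
    refine h3.congr_fun (fun a ha => ?_) measurableSet_Ioc
    simp only
    rw [← SmoN_split A U a hAi' ha.1.le ha.2]
  -- the decomposition
  have hI := ibp_neg A hA.meas C₀ hC₀ z U hz hU0
  have hsplit : ∫ a in Set.Ioi (0 : ℝ), T a * Real.exp (-(z * a)) =
      (∫ a in Set.Ioc (0 : ℝ) U, T a * Real.exp (-(z * a))) +
        ∫ a in Set.Ioi U, T a * Real.exp (-(z * a)) := by
    rw [← Set.Ioc_union_Ioi_eq_Ioi hU0, setIntegral_union (Set.Ioc_disjoint_Ioi le_rfl)
      measurableSet_Ioi (hTi'.mono_set Set.Ioc_subset_Ioi_self)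
      (hTi'.mono_set (Set.Ioi_subset_Ioi hU0))]
  have hdiff : (∫ a in Set.Ioc (0 : ℝ) U, IA a * Real.exp (-(z * a))) -
      ∫ a in Set.Ioc (0 : ℝ) U, T a * Real.exp (-(z * a)) =
      ∫ a in Set.Ioc (0 : ℝ) U, (c3 * a - Pf a) * Real.exp (-(z * a)) := by
    rw [← integral_sub hIAi (hTi'.mono_set Set.Ioc_subset_Ioi_self)]
    refine setIntegral_congr_fun measurableSet_Ioc fun a ha => ?_
    rw [hIA a ha.1.le ha.2]
    ring
  have hb3 : |∫ a in Set.Ioc (0 : ℝ) U, (c3 * a - Pf a) * Real.exp (-(z * a))| ≤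
      (|c3| + om (1 / 2) + 2 * W) * ∫ a in Set.Ioi (0 : ℝ), a * Real.exp (-(z * a)) := by
    have hle : ‖∫ a in Set.Ioc (0 : ℝ) U, (c3 * a - Pf a) * Real.exp (-(z * a))‖ ≤
        ∫ a in Set.Ioc (0 : ℝ) U, (|c3| + om (1 / 2) + 2 * W) * (a * Real.exp (-(z * a))) := by
      refine norm_integral_le_of_norm_le
        ((hi1.mono_set Set.Ioc_subset_Ioi_self).const_mul _) ?_
      refine (ae_restrict_iff' measurableSet_Ioc).2 (Filter.Eventually.of_forall fun a ha => ?_)
      obtain ⟨hp1, hp2⟩ := hPf a ha.1.le ha.2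
      have ha0 := ha.1
      rw [Real.norm_eq_abs, abs_mul, abs_of_pos (Real.exp_pos _), ← mul_assoc]
      refine mul_le_mul_of_nonneg_right ?_ (Real.exp_pos _).le
      have h5 : |c3 * a| = |c3| * a := by rw [abs_mul, abs_of_pos ha0]
      have h6 := abs_sub (c3 * a) (Pf a)
      rw [h5, abs_of_nonneg hp1] at h6
      nlinarith
    rw [Real.norm_eq_abs] at hle
    refine hle.trans ?_
    rw [integral_const_mul]
    refine mul_le_mul_of_nonneg_left ?_ (by positivity)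
    refine setIntegral_mono_set hi1 ?_ ?_
    · refine (ae_restrict_iff' measurableSet_Ioi).2 (Filter.Eventually.of_forall fun t ht => ?_)
      have ht0 : (0 : ℝ) < t := ht
      simp only [Pi.zero_apply]
      positivity
    · exact Filter.Eventually.of_forall fun t ht => ht.1
  have hb2 : |∫ a in Set.Ioi U, T a * Real.exp (-(z * a))| ≤
      4 * Sg * (Real.exp (-(z * U)) / z) := by
    rw [← hv0, ← integral_const_mul, ← Real.norm_eq_abs]
    refine norm_integral_le_of_norm_le (hi0.const_mul _) (Filter.Eventually.of_forall fun a => ?_)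
    rw [Real.norm_eq_abs, abs_mul, abs_of_pos (Real.exp_pos _)]
    exact mul_le_mul_of_nonneg_right (hTb a) (Real.exp_pos _).le
  have hIU : |∫ t in Set.Ioc 0 U, A t| ≤ 4 * Sg + |c3| * U + W := by
    rw [hex U hU0]
    have h1 := (SmoN_tsum hZ _ fun i => hcos (γ i * U)).2
    have h2 : 0 ≤ ∫ t in Set.Ioc 0 U, om t :=
      setIntegral_nonneg measurableSet_Ioc fun t ht => om_nonneg t ht.1
    have h3 : ∫ t in Set.Ioc 0 U, om t ≤ W := by
      refine setIntegral_mono_set om_int ?_ ?_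
      · exact (ae_restrict_iff' measurableSet_Ioi).2
          (Filter.Eventually.of_forall fun t ht => om_nonneg t ht)
      · exact Filter.Eventually.of_forall fun t ht => ht.1
    have h4 : |c3 * U| = |c3| * U := by rw [abs_mul, abs_of_nonneg hU0]
    rw [abs_le] at h1
    have h5 := neg_abs_le (c3 * U)
    have h6 := le_abs_self (c3 * U)
    rw [h4] at h5 h6
    rw [abs_le]
    constructor
    · linarith [h1.1]
    · linarith [h1.2]
  have hmain : z * (∫ a in Set.Ioc (0 : ℝ) U, A (U - a) * Real.exp (-(z * a))) -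
      Vz γ m (-1) z U = z * Real.exp (-(z * U)) * (∫ t in Set.Ioc 0 U, A t) +
      z ^ 2 * (∫ a in Set.Ioc (0 : ℝ) U, (c3 * a - Pf a) * Real.exp (-(z * a))) -
      z ^ 2 * ∫ a in Set.Ioi U, T a * Real.exp (-(z * a)) := by
    rw [hI, ← hTv', hsplit, ← hdiff]
    ring
  rw [hmain]
  have e1 : |z * Real.exp (-(z * U)) * (∫ t in Set.Ioc 0 U, A t)| ≤ 4 * Sg + |c3| + W := by
    have hzp : 0 ≤ z * Real.exp (-(z * U)) := by positivity
    rw [abs_mul, abs_of_nonneg hzp]
    have h1 := mul_le_mul_of_nonneg_left hIU hzp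
    have h2 : z * Real.exp (-(z * U)) * (4 * Sg + |c3| * U + W) =
        z * Real.exp (-(z * U)) * (4 * Sg + W) + |c3| * (z * U * Real.exp (-(z * U))) := by ring
    have h3 := mul_le_mul_of_nonneg_right he1 (show 0 ≤ 4 * Sg + W by positivity)
    have h4 := mul_le_mul_of_nonneg_left he2 hc3
    linarith
  have e2 : |z ^ 2 * (∫ a in Set.Ioc (0 : ℝ) U, (c3 * a - Pf a) * Real.exp (-(z * a)))| ≤
      |c3| + om (1 / 2) + 2 * W := by
    rw [abs_mul, abs_of_pos hz2]
    have h1 := mul_le_mul_of_nonneg_left hb3 hz2.le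
    have h2 : z ^ 2 * ((|c3| + om (1 / 2) + 2 * W) *
        ∫ a in Set.Ioi (0 : ℝ), a * Real.exp (-(z * a))) = |c3| + om (1 / 2) + 2 * W := by
      linear_combination (|c3| + om (1 / 2) + 2 * W) * hv1
    linarith
  have e3 : |z ^ 2 * ∫ a in Set.Ioi U, T a * Real.exp (-(z * a))| ≤ 4 * Sg := by
    rw [abs_mul, abs_of_pos hz2]
    have h1 := mul_le_mul_of_nonneg_left hb2 hz2.le
    have h2 : z ^ 2 * (4 * Sg * (Real.exp (-(z * U)) / z)) =
        4 * Sg * (z * Real.exp (-(z * U))) := by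
      field_simp
    have h3 := mul_le_mul_of_nonneg_left he1 (show 0 ≤ 4 * Sg by positivity)
    linarith
  rw [abs_le] at e1 e2 e3 ⊢
  constructor
  · linarith [e1.1, e2.1, e3.2]
  · linarith [e1.2, e2.2, e3.1]

end W3283l
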