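import Pool.Agent.W_3283e1_lw.SmoP
import Pool.Agent.W_3283e1_lw.SmoN
import Pool.Agent.W_3283e1_lw.Dir

set_option autoImplicit false

namespace W3283l

open MeasureTheory Filter

variable {ι : Type} {γ m : ι → ℝ}

theorem AltA_Y (c : ℝ) : ∃ Y : ℝ, 1 ≤ Y ∧ c * ((Real.log Y + 1) / Y) ≤ 1 / 2 := by
  have h1 : Tendsto (fun Y : ℝ => Real.log Y / Y) atTop (nhds 0) := by
    have := Real.isLittleO_log_id_atTop.tendsto_div_nhds_zero
    simpa using this
  have h2 : Tendsto (fun Y : ℝ => 1 / Y) atTop (nhds 0) := by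
    simpa using tendsto_inv_atTop_zero (𝕜 := ℝ)
  have h3 : Tendsto (fun Y : ℝ => c * ((Real.log Y + 1) / Y)) atTop (nhds 0) := by
    have h4 := (h1.add h2).const_mul c
    simp only [add_zero, mul_zero] at h4
    refine h4.congr fun Y => ?_
    ring
  have h5 : ∀ᶠ Y : ℝ in atTop, c * ((Real.log Y + 1) / Y) ≤ 1 / 2 :=
    h3.eventually_le_const (by norm_num)
  obtain ⟨Y, hY, hY1⟩ := (h5.and (eventually_ge_atTop (1 : ℝ))).exists
  exact ⟨Y, hY1, hY⟩

/-- For every fixed `z ≥ 1` the points `U` with `|Vz η z U - η log z| ≤ C` (both signs), `C` independent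
of `z`, are relatively dense: `at_period` with `Y` so large that `C' z (log Y + 1)/Y ≤ 1` and then `q`
with `C' q Y ≤ 1`; the `U` are the almost periods of `rel_dense` for the finite set `γ i ≤ Y`
(`cnt_fin`), `ε = q`; and `h.asy`. -/
theorem alt_period (h : ZD γ m) : ∃ C : ℝ, 0 ≤ C ∧ ∀ z : ℝ, 1 ≤ z → ∃ D : ℝ, 0 < D ∧
    ∀ U : ℝ, ∃ τ : ℝ, U ≤ τ ∧ τ ≤ U + D ∧
      ∀ η : ℝ, (η = 1 ∨ η = -1) → |Vz γ m η z τ - η * Real.log z| ≤ C := by
  obtain ⟨C1, hC1⟩ := h.asy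
  obtain ⟨C2, hC2, hper⟩ := at_period h
  have hC10 : 0 ≤ C1 := (abs_nonneg _).trans (hC1 1 le_rfl)
  refine ⟨C1 + 1, by linarith, fun z hz => ?_⟩
  obtain ⟨Y, hY1, hY⟩ := AltA_Y (C2 * z)
  have hY0 : 0 < Y := by linarith
  obtain ⟨e, he0, he⟩ : ∃ e : ℝ, 0 < e ∧ C2 * (e * Y) ≤ 1 / 2 := by
    refine ⟨1 / (2 * (C2 + 1) * Y), by positivity, ?_⟩
    have h1 : C2 * (1 / (2 * (C2 + 1) * Y) * Y) = C2 / (2 * (C2 + 1)) := by
      field_simp
    rw [h1, div_le_div_iff₀ (by positivity) (by norm_num)]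
    linarith
  obtain ⟨D, hD, hrel⟩ := rel_dense (cnt_fin h Y).toFinset γ e he0
  refine ⟨D, hD, fun U => ?_⟩
  obtain ⟨τ, hτ1, hτ2, hτ⟩ := hrel U
  refine ⟨τ, hτ1, hτ2, fun η hη => ?_⟩
  have h1 := hper η z τ Y e hη hz hY1 he0.le fun i hi =>
    hτ i ((Set.Finite.mem_toFinset _).2 hi)
  have h2 := hC1 z hz
  have hηa : |η| = 1 := by
    rcases hη with rfl | rfl <;> simp
  have h3 : Vz γ m η z τ - η * Real.log z =
      (Vz γ m η z τ - η * ∑' i, 2 * m i * z / (z ^ 2 + (γ i) ^ 2)) +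
        η * ((∑' i, 2 * m i * z / (z ^ 2 + (γ i) ^ 2)) - Real.log z) := by ring
  rw [h3]
  refine (abs_add_le _ _).trans ?_
  rw [abs_mul, hηa, one_mul]
  have h4 : C2 * (e * Y + z * (Real.log Y + 1) / Y) =
      C2 * (e * Y) + C2 * z * ((Real.log Y + 1) / Y) := by ring
  rw [h4] at h1
  linarith

theorem AltA_shift (f : ℝ → ℝ) :
    ∫ a in Set.Ioi (0 : ℝ), f (a + 1) = ∫ a in Set.Ioi (1 : ℝ), f a := by
  have h := (measurePreserving_add_right (volume : Measure ℝ) 1).setIntegral_preimage_emb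
    (measurableEmbedding_addRight 1) f (Set.Ioi 1)
  have h2 : (fun x : ℝ => x + 1) ⁻¹' Set.Ioi 1 = Set.Ioi 0 := by
    ext x
    simp
  rw [h2] at h
  exact h

theorem AltA_exp (z : ℝ) (hz : 1 ≤ z) :
    IntegrableOn (fun a : ℝ => Real.exp (-(z * a))) (Set.Ioc 0 1) ∧
      z * ∫ a in Set.Ioc (0 : ℝ) 1, Real.exp (-(z * a)) ≤ 1 := by
  have hz0 : 0 < z := by linarith
  have h1 := integral_exp_mul_Ioi (a := -z) (by linarith) 0
  have h2 := integrableOn_exp_mul_Ioi (a := -z) (by linarith) 0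
  simp only [neg_mul] at h1 h2
  refine ⟨h2.mono_set Set.Ioc_subset_Ioi_self, ?_⟩
  have h3 : ∫ a in Set.Ioc (0 : ℝ) 1, Real.exp (-(z * a)) ≤
      ∫ a in Set.Ioi (0 : ℝ), Real.exp (-(z * a)) := by
    refine setIntegral_mono_set h2 ?_ ?_
    · exact Filter.Eventually.of_forall fun a => (Real.exp_pos _).le
    · exact Filter.Eventually.of_forall fun a ha => ha.1
  rw [h1] at h3
  have h4 : z * ∫ a in Set.Ioc (0 : ℝ) 1, Real.exp (-(z * a)) ≤
      z * (-Real.exp (-(z * 0)) / -z) := mul_le_mul_of_nonneg_left h3 hz0.le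
  refine h4.trans (le_of_eq ?_)
  rw [mul_zero, neg_zero, Real.exp_zero]
  field_simp

theorem AltA_intp (A : ℝ → ℝ) (hA : Measurable A) (C : ℝ)
    (hb : ∀ u : ℝ, 0 ≤ u → |A u| ≤ C * Real.exp (3 / 4 * u)) (z U : ℝ) (hz : 1 ≤ z)
    (hU : 0 ≤ U) :
    IntegrableOn (fun a : ℝ => A (U + a) * Real.exp (-(z * a))) (Set.Ioi 0) := by
  have h2 := integrableOn_exp_mul_Ioi (a := 3 / 4 - z) (by linarith) 0
  have hm : Measurable (fun a : ℝ => A (U + a) * Real.exp (-(z * a))) :=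
    (hA.comp (measurable_const.add measurable_id)).mul (by fun_prop)
  refine Integrable.mono' (h2.const_mul (C * Real.exp (3 / 4 * U))) hm.aestronglyMeasurable ?_
  refine (ae_restrict_iff' measurableSet_Ioi).2 (Filter.Eventually.of_forall fun a ha => ?_)
  have ha0 : (0 : ℝ) < a := ha
  rw [Real.norm_eq_abs, abs_mul, abs_of_pos (Real.exp_pos _)]
  have h3 := hb (U + a) (by linarith)
  have h4 : C * Real.exp (3 / 4 * U) * Real.exp ((3 / 4 - z) * a) =
      C * Real.exp (3 / 4 * (U + a)) * Real.exp (-(z * a)) := by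
    rw [mul_assoc, mul_assoc, ← Real.exp_add, ← Real.exp_add]
    congr 2
    ring
  rw [h4]
  exact mul_le_mul_of_nonneg_right h3 (Real.exp_pos _).le

theorem AltA_intn (A : ℝ → ℝ) (hA : Measurable A) (C : ℝ)
    (hb : ∀ u : ℝ, 0 ≤ u → |A u| ≤ C * Real.exp (3 / 4 * u)) (z U : ℝ) (hz : 1 ≤ z)
    (hU : 0 ≤ U) :
    IntegrableOn (fun a : ℝ => A (U - a) * Real.exp (-(z * a))) (Set.Ioc 0 U) := by
  have hm : Measurable (fun a : ℝ => A (U - a) * Real.exp (-(z * a))) :=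
    (hA.comp (measurable_const.sub measurable_id)).mul (by fun_prop)
  have hC0 : 0 ≤ C := by
    have h1 := hb 0 le_rfl
    rw [mul_zero, Real.exp_zero, mul_one] at h1
    exact (abs_nonneg _).trans h1
  refine Measure.integrableOn_of_bounded (M := C * Real.exp (3 / 4 * U)) (by simp)
    hm.aestronglyMeasurable ?_
  refine (ae_restrict_iff' measurableSet_Ioc).2 (Filter.Eventually.of_forall fun a ha => ?_)
  rw [Real.norm_eq_abs, abs_mul, abs_of_pos (Real.exp_pos _)]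
  have h3 := hb (U - a) (by linarith [ha.2])
  have h4 : Real.exp (3 / 4 * (U - a)) ≤ Real.exp (3 / 4 * U) :=
    Real.exp_le_exp.2 (by linarith [ha.1])
  have h5 : Real.exp (-(z * a)) ≤ 1 := by
    rw [Real.exp_le_one_iff]
    have : 0 ≤ z * a := mul_nonneg (by linarith) ha.1.le
    linarith
  calc |A (U - a)| * Real.exp (-(z * a)) ≤ (C * Real.exp (3 / 4 * (U - a))) * 1 :=
        mul_le_mul h3 h5 (Real.exp_pos _).le (mul_nonneg hC0 (Real.exp_pos _).le)
    _ ≤ C * Real.exp (3 / 4 * U) := by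
        rw [mul_one]
        exact mul_le_mul_of_nonneg_left h4 hC0

theorem AltA_ez (z B : ℝ) (hz : 1 ≤ z) (hB : 0 ≤ B) (C : ℝ) (hC : 0 ≤ C) :
    Real.exp (-z) * (B * z + C) ≤ B + C := by
  have h2 := Real.add_one_le_exp z
  have h3 : Real.exp (-z) * z ≤ 1 := by
    rw [Real.exp_neg, inv_mul_le_iff₀ (Real.exp_pos _), mul_one]
    linarith
  have h4 : Real.exp (-z) ≤ 1 := by
    rw [Real.exp_le_one_iff]
    linarith
  nlinarith [mul_le_mul_of_nonneg_left h3 hB, mul_le_mul_of_nonneg_left h4 hC]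

/-- Every long interval contains points where `A ≥ K` and points where `A ≤ -K`.  Take `z` large,
`D'` from `alt_period`, `D = D' + 3`, and for `U ≥ 1` let `τ ∈ [U + 2, U + 2 + D']` be as there.  If
`A < K` on `[τ, τ+1]` then by `smo_pos` at `τ` and at `τ + 1` and `vz_le` (`B = 4 Σ m/γ²`):
`log z - C ≤ z ∫_{a>0} A(τ+a) e^{-za} = z ∫_0^1 + e^{-z} z ∫_{a>0} A(τ+1+a) e^{-za}
≤ |K| + e^{-z} (B z + C) ≤ |K| + B + C`, impossible for large `z`.  If `A > -K` on `[τ-1, τ]`, the same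
with `smo_neg` at `τ` and at `τ - 1 ≥ 1`:
`-log z + C ≥ z ∫_0^τ A(τ-a) e^{-za} ≥ -|K| - e^{-z} (B z + C)`. -/
theorem alt_abs (hZ : ZD γ m) (A : ℝ → ℝ) (hA : EF γ m A) (K : ℝ) :
    ∃ D : ℝ, 0 < D ∧ ∀ U : ℝ, 1 ≤ U →
      (∃ u : ℝ, U ≤ u ∧ u ≤ U + D ∧ K ≤ A u) ∧ ∃ v : ℝ, U ≤ v ∧ v ≤ U + D ∧ A v ≤ -K := by
  obtain ⟨C0, hC0⟩ := hA.bd
  obtain ⟨Cp, hCp, hper⟩ := alt_period hZ
  obtain ⟨C1, hC1, hpos⟩ := smo_pos hZ A hA
  obtain ⟨C2, hC2, hneg⟩ := smo_neg hZ A hA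
  obtain ⟨B, hBdef⟩ : ∃ B : ℝ, B = 4 * ∑' i, m i / (γ i) ^ 2 := ⟨_, rfl⟩
  have hB : 0 ≤ B := by
    rw [hBdef]
    refine mul_nonneg (by norm_num) (tsum_nonneg fun i => ?_)
    have h1 := hZ.pos i
    have h2 := hZ.one i
    positivity
  obtain ⟨z, hz, hzl⟩ : ∃ z : ℝ, 1 ≤ z ∧ |K| + B + 2 * C1 + 2 * C2 + Cp < Real.log z := by
    obtain ⟨z, hz1, hz2⟩ := ((Real.tendsto_log_atTop.eventually_gt_atTop
      (|K| + B + 2 * C1 + 2 * C2 + Cp)).and (eventually_ge_atTop (1 : ℝ))).exists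
    exact ⟨z, hz2, hz1⟩
  have hz0 : 0 < z := by linarith
  obtain ⟨D', hD', hτ⟩ := hper z hz
  obtain ⟨hei, hev⟩ := AltA_exp z hz
  have hvz : ∀ (η U : ℝ), (η = 1 ∨ η = -1) → |Vz γ m η z U| ≤ B * z := by
    intro η U hη
    refine (vz_le hZ η z U hη hz).2.trans (le_of_eq ?_)
    rw [hBdef]
    ring
  have hez : Real.exp (-z) * (B * z + C1) ≤ B + C1 := AltA_ez z B hz hB C1 hC1
  have hez2 : Real.exp (-z) * (B * z + C2) ≤ B + C2 := AltA_ez z B hz hB C2 hC2
  have hnn : 0 ≤ ∫ a in Set.Ioc (0 : ℝ) 1, Real.exp (-(z * a)) :=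
    setIntegral_nonneg measurableSet_Ioc fun a _ => (Real.exp_pos _).le
  have hK : z * (|K| * ∫ a in Set.Ioc (0 : ℝ) 1, Real.exp (-(z * a))) ≤ |K| := by
    have := mul_le_mul_of_nonneg_left hev (abs_nonneg K)
    linarith
  refine ⟨D' + 3, by linarith, fun U hU => ?_⟩
  obtain ⟨τ, hτ1, hτ2, hτv⟩ := hτ (U + 2)
  constructor
  · by_contra hcon
    push Not at hcon
    have hlt : ∀ a, 0 ≤ a → a ≤ 1 → A (τ + a) < K := fun a h0 h1 =>
      hcon (τ + a) (by linarith) (by linarith)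
    have hint := AltA_intp A hA.meas C0 hC0 z τ hz (by linarith)
    have hsplit : ∫ a in Set.Ioi (0 : ℝ), A (τ + a) * Real.exp (-(z * a)) =
        (∫ a in Set.Ioc (0 : ℝ) 1, A (τ + a) * Real.exp (-(z * a))) +
          ∫ a in Set.Ioi (1 : ℝ), A (τ + a) * Real.exp (-(z * a)) := by
      rw [← Set.Ioc_union_Ioi_eq_Ioi (zero_le_one (α := ℝ)),
        setIntegral_union (Set.Ioc_disjoint_Ioi le_rfl)
        measurableSet_Ioi (hint.mono_set Set.Ioc_subset_Ioi_self)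
        (hint.mono_set (Set.Ioi_subset_Ioi zero_le_one))]
    have hshift : ∫ a in Set.Ioi (1 : ℝ), A (τ + a) * Real.exp (-(z * a)) =
        Real.exp (-z) * ∫ a in Set.Ioi (0 : ℝ), A (τ + 1 + a) * Real.exp (-(z * a)) := by
      rw [← integral_const_mul]
      rw [← AltA_shift]
      refine setIntegral_congr_fun measurableSet_Ioi fun a _ => ?_
      show A (τ + (a + 1)) * Real.exp (-(z * (a + 1))) =
        Real.exp (-z) * (A (τ + 1 + a) * Real.exp (-(z * a)))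
      rw [show -(z * (a + 1)) = -z + -(z * a) by ring, Real.exp_add,
        show τ + (a + 1) = τ + 1 + a by ring]
      ring
    have hfirst : ∫ a in Set.Ioc (0 : ℝ) 1, A (τ + a) * Real.exp (-(z * a)) ≤
        |K| * ∫ a in Set.Ioc (0 : ℝ) 1, Real.exp (-(z * a)) := by
      rw [← integral_const_mul]
      refine setIntegral_mono_on (hint.mono_set Set.Ioc_subset_Ioi_self) (hei.const_mul _)
        measurableSet_Ioc fun a ha => ?_
      exact mul_le_mul_of_nonneg_right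
        ((hlt a ha.1.le ha.2).le.trans (le_abs_self K)) (Real.exp_pos _).le
    have h1 := (abs_le.1 (hpos z τ hz (by linarith))).1
    have h2 := (abs_le.1 (hpos z (τ + 1) hz (by linarith))).2
    have h3 := (abs_le.1 (hτv 1 (Or.inl rfl))).1
    have h4 := (abs_le.1 (hvz 1 (τ + 1) (Or.inl rfl))).2
    have h5 : Real.exp (-z) * (z * ∫ a in Set.Ioi (0 : ℝ),
        A (τ + 1 + a) * Real.exp (-(z * a))) ≤ Real.exp (-z) * (B * z + C1) :=
      mul_le_mul_of_nonneg_left (by linarith) (Real.exp_pos _).le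
    have h6 : z * (∫ a in Set.Ioi (0 : ℝ), A (τ + a) * Real.exp (-(z * a))) =
        z * (∫ a in Set.Ioc (0 : ℝ) 1, A (τ + a) * Real.exp (-(z * a))) +
          Real.exp (-z) * (z * ∫ a in Set.Ioi (0 : ℝ),
            A (τ + 1 + a) * Real.exp (-(z * a))) := by
      rw [hsplit, hshift]
      ring
    have h7 := mul_le_mul_of_nonneg_left hfirst hz0.le
    rw [one_mul] at h3
    linarith
  · by_contra hcon
    push Not at hcon
    have hlt : ∀ a, 0 ≤ a → a ≤ 1 → -K < A (τ - a) := fun a h0 h1 =>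
      hcon (τ - a) (by linarith) (by linarith)
    have hint := AltA_intn A hA.meas C0 hC0 z τ hz (by linarith)
    have hsplit : ∫ a in Set.Ioc (0 : ℝ) τ, A (τ - a) * Real.exp (-(z * a)) =
        (∫ a in Set.Ioc (0 : ℝ) 1, A (τ - a) * Real.exp (-(z * a))) +
          ∫ a in Set.Ioc (1 : ℝ) τ, A (τ - a) * Real.exp (-(z * a)) := by
      rw [← Set.Ioc_union_Ioc_eq_Ioc (zero_le_one (α := ℝ)) (show (1 : ℝ) ≤ τ by linarith),
        setIntegral_union (Set.Ioc_disjoint_Ioc_of_le le_rfl)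
        measurableSet_Ioc (hint.mono_set (Set.Ioc_subset_Ioc_right (by linarith)))
        (hint.mono_set (Set.Ioc_subset_Ioc_left zero_le_one))]
    have hshift : ∫ a in Set.Ioc (1 : ℝ) τ, A (τ - a) * Real.exp (-(z * a)) =
        Real.exp (-z) * ∫ a in Set.Ioc (0 : ℝ) (τ - 1),
          A (τ - 1 - a) * Real.exp (-(z * a)) := by
      rw [← integral_const_mul, ← intervalIntegral.integral_of_le (show (1 : ℝ) ≤ τ by linarith),
        ← intervalIntegral.integral_of_le (show (0 : ℝ) ≤ τ - 1 by linarith)]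
      have h1 := intervalIntegral.integral_comp_add_right
        (fun a : ℝ => A (τ - a) * Real.exp (-(z * a))) (a := 0) (b := τ - 1) 1
      rw [zero_add, sub_add_cancel] at h1
      rw [← h1]
      refine intervalIntegral.integral_congr fun a _ => ?_
      show A (τ - (a + 1)) * Real.exp (-(z * (a + 1))) =
        Real.exp (-z) * (A (τ - 1 - a) * Real.exp (-(z * a)))
      rw [show -(z * (a + 1)) = -z + -(z * a) by ring, Real.exp_add,
        show τ - (a + 1) = τ - 1 - a by ring]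
      ring
    have hfirst : -(|K| * ∫ a in Set.Ioc (0 : ℝ) 1, Real.exp (-(z * a))) ≤
        ∫ a in Set.Ioc (0 : ℝ) 1, A (τ - a) * Real.exp (-(z * a)) := by
      rw [← neg_mul, ← integral_const_mul]
      refine setIntegral_mono_on (hei.const_mul _)
        (hint.mono_set (Set.Ioc_subset_Ioc_right (by linarith))) measurableSet_Ioc fun a ha => ?_
      refine mul_le_mul_of_nonneg_right ?_ (Real.exp_pos _).le
      have h8 := (hlt a ha.1.le ha.2).le
      have h9 := le_abs_self K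
      linarith
    have h1 := (abs_le.1 (hneg z τ hz (by linarith))).2
    have h2 := (abs_le.1 (hneg z (τ - 1) hz (by linarith))).1
    have h3 := (abs_le.1 (hτv (-1) (Or.inr rfl))).2
    have h4 := (abs_le.1 (hvz (-1) (τ - 1) (Or.inr rfl))).1
    have h5 : Real.exp (-z) * (-(B * z + C2)) ≤ Real.exp (-z) * (z * ∫ a in
        Set.Ioc (0 : ℝ) (τ - 1), A (τ - 1 - a) * Real.exp (-(z * a))) :=
      mul_le_mul_of_nonneg_left (by linarith) (Real.exp_pos _).le
    have h6 : z * (∫ a in Set.Ioc (0 : ℝ) τ, A (τ - a) * Real.exp (-(z * a))) =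
        z * (∫ a in Set.Ioc (0 : ℝ) 1, A (τ - a) * Real.exp (-(z * a))) +
          Real.exp (-z) * (z * ∫ a in Set.Ioc (0 : ℝ) (τ - 1),
            A (τ - 1 - a) * Real.exp (-(z * a))) := by
      rw [hsplit, hshift]
      ring
    have h7 := mul_le_mul_of_nonneg_left hfirst hz0.le
    linarith

end W3283l
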