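import Pool.Agent.W_3283e1_lw.VD

set_option autoImplicit false

namespace W3283l

open MeasureTheory Filter Topology

/-- Soft threshold of `y` at `t`. -/
noncomputable def altMsoft (y t : ℝ) : ℝ := if t < y then y - t else if y < -t then y + t else 0

theorem altM_soft_abs (y t : ℝ) (ht : 0 ≤ t) : |altMsoft y t| ≤ |y| := by
  unfold altMsoft
  split_ifs with h1 h2
  · rw [abs_of_pos (by linarith), abs_of_pos (by linarith)]; linarith
  · rw [abs_of_neg (by linarith), abs_of_neg (by linarith)]; linarith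
  · simp

theorem altM_soft_diff (y t : ℝ) (ht : 0 ≤ t) : |y - altMsoft y t| ≤ t := by
  unfold altMsoft
  split_ifs with h1 h2
  · rw [show y - (y - t) = t by ring, abs_of_nonneg ht]
  · rw [show y - (y + t) = -t by ring, abs_neg, abs_of_nonneg ht]
  · rw [sub_zero, abs_le]; constructor <;> linarith

theorem altM_soft_pos (y t : ℝ) (h : 0 < altMsoft y t) : t ≤ y := by
  unfold altMsoft at h
  split_ifs at h with h1 h2
  · linarith
  · linarith
  · exact absurd h (lt_irrefl _)

theorem altM_soft_neg (y t : ℝ) (h : altMsoft y t < 0) : t ≤ -y := by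
  unfold altMsoft at h
  split_ifs at h with h1 h2
  · linarith
  · linarith
  · exact absurd h (lt_irrefl _)

theorem altM_soft_meas (e : ℝ → ℝ) (he : Measurable e) (K : ℝ) :
    Measurable (fun u : ℝ => altMsoft (e u) (K / u)) := by
  unfold altMsoft
  have hK : Measurable (fun u : ℝ => K / u) := measurable_const.div measurable_id
  refine Measurable.ite (measurableSet_lt hK he) (he.sub hK) ?_
  exact Measurable.ite (measurableSet_lt he hK.neg) (he.add hK) measurable_const

theorem altM_int_pow (n : ℕ) (b : ℝ) (hb : 0 < b) :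
    IntegrableOn (fun u : ℝ => u ^ n * Real.exp (-(b * u))) (Set.Ioi 0) := by
  have h := integrableOn_rpow_mul_exp_neg_mul_rpow (p := 1) (s := n) (by
    have : (0 : ℝ) ≤ n := Nat.cast_nonneg n
    linarith) one_pos hb
  refine h.congr_fun (fun u hu => ?_) measurableSet_Ioi
  simp only [Real.rpow_natCast, Real.rpow_one, neg_mul]

theorem altM_gamma (n : ℕ) (hn : 1 ≤ n) (x : ℝ) (hx : 0 < x) :
    ∫ u in Set.Ioi (0 : ℝ), u ^ (n - 1) * Real.exp (-(x * u)) = (n - 1).factorial / x ^ n := by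
  have h := Real.integral_rpow_mul_exp_neg_mul_Ioi (a := n) (r := x) (by exact_mod_cast hn) hx
  have e1 : ∫ u in Set.Ioi (0 : ℝ), u ^ (n - 1) * Real.exp (-(x * u)) =
      ∫ t in Set.Ioi (0 : ℝ), t ^ ((n : ℝ) - 1) * Real.exp (-(x * t)) := by
    refine setIntegral_congr_fun measurableSet_Ioi (fun u hu => ?_)
    beta_reduce
    rw [show ((n : ℝ) - 1) = ((n - 1 : ℕ) : ℝ) by rw [Nat.cast_sub hn]; simp, Real.rpow_natCast]
  rw [e1, h]
  rw [Real.rpow_natCast, show (n : ℝ) = ((n - 1 : ℕ) : ℝ) + 1 by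
    rw [Nat.cast_sub hn]; simp, Real.Gamma_nat_eq_factorial]
  rw [one_div, inv_pow]
  field_simp

/-- Integrability on `(0, ∞)`. -/
theorem altM_int_e (e : ℝ → ℝ) (he : Measurable e) (C : ℝ)
    (hb : ∀ u : ℝ, 1 ≤ u → |e u| ≤ C * Real.exp (3 / 4 * u)) (hloc : IntegrableOn e (Set.Ioc 0 1))
    (x : ℝ) (hx : 2 < x) (n : ℕ) :
    IntegrableOn (fun u : ℝ => u ^ n * e u * Real.exp (-(x * u))) (Set.Ioi 0) := by
  have hm : Measurable (fun u : ℝ => u ^ n * e u * Real.exp (-(x * u))) := by fun_prop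
  rw [← Set.Ioc_union_Ioi_eq_Ioi (zero_le_one' ℝ)]
  refine IntegrableOn.union ?_ ?_
  · refine Integrable.mono' hloc.norm hm.aestronglyMeasurable ?_
    refine (ae_restrict_iff' measurableSet_Ioc).2 (Eventually.of_forall fun u hu => ?_)
    rw [Real.norm_eq_abs, abs_mul, abs_mul, abs_of_nonneg (pow_nonneg hu.1.le n), Real.abs_exp,
      Real.norm_eq_abs]
    have h1 : u ^ n ≤ 1 := pow_le_one₀ hu.1.le hu.2
    have h2 : Real.exp (-(x * u)) ≤ 1 := by
      rw [Real.exp_le_one_iff]
      have : 0 ≤ x * u := mul_nonneg (by linarith) hu.1.le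
      linarith
    calc u ^ n * |e u| * Real.exp (-(x * u)) ≤ 1 * |e u| * 1 := by gcongr
      _ = |e u| := by ring
  · have hi : IntegrableOn (fun u : ℝ => C * (u ^ n * Real.exp (-((x - 3 / 4) * u))))
        (Set.Ioi 1) :=
      ((altM_int_pow n (x - 3 / 4) (by linarith)).mono_set
        (Set.Ioi_subset_Ioi zero_le_one)).const_mul C
    refine Integrable.mono' hi hm.aestronglyMeasurable ?_
    refine (ae_restrict_iff' measurableSet_Ioi).2 (Eventually.of_forall fun u hu => ?_)
    have hu1 : (1 : ℝ) < u := hu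
    rw [Real.norm_eq_abs, abs_mul, abs_mul, abs_of_nonneg (pow_nonneg (by linarith) n),
      Real.abs_exp]
    have h := hb u hu1.le
    calc u ^ n * |e u| * Real.exp (-(x * u)) ≤
        u ^ n * (C * Real.exp (3 / 4 * u)) * Real.exp (-(x * u)) := by gcongr
      _ = C * (u ^ n * (Real.exp (3 / 4 * u) * Real.exp (-(x * u)))) := by ring
      _ = C * (u ^ n * Real.exp (-((x - 3 / 4) * u))) := by
          rw [← Real.exp_add]; congr 3; ring

/-- The difference of the two moments. -/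
theorem altM_diff (e : ℝ → ℝ) (he : Measurable e) (C : ℝ)
    (hb : ∀ u : ℝ, 1 ≤ u → |e u| ≤ C * Real.exp (3 / 4 * u)) (hloc : IntegrableOn e (Set.Ioc 0 1))
    (x : ℝ) (hx : 2 < x) (K u0 T : ℝ) (hK : 0 ≤ K) (hu0 : 1 ≤ u0) (hT : u0 ≤ T) (n : ℕ)
    (hn : 1 ≤ n) :
    |(∫ u in Set.Ioi (0 : ℝ), u ^ n * e u * Real.exp (-(x * u))) -
      ∫ u in Set.Icc u0 T, u ^ n * (Real.exp (-(x * u)) * altMsoft (e u) (K / u))| ≤
    u0 ^ n * (∫ u in Set.Ioc 0 u0, |e u|) + K * ((n - 1).factorial / x ^ n) +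
      C * ∫ u in Set.Ioi T, u ^ n * Real.exp (-((x - 3 / 4) * u)) := by
  have hint := altM_int_e e he C hb hloc x hx n
  have hI1 : IntegrableOn (fun u : ℝ => u ^ n * e u * Real.exp (-(x * u))) (Set.Ioc 0 u0) :=
    hint.mono_set Set.Ioc_subset_Ioi_self
  have hI2 : IntegrableOn (fun u : ℝ => u ^ n * e u * Real.exp (-(x * u))) (Set.Ioc u0 T) :=
    hint.mono_set (fun u hu => lt_trans (by linarith) hu.1)
  have hI3 : IntegrableOn (fun u : ℝ => u ^ n * e u * Real.exp (-(x * u))) (Set.Ioi T) :=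
    hint.mono_set (Set.Ioi_subset_Ioi (by linarith))
  have hs1 : Set.Ioi (0 : ℝ) = Set.Ioc 0 u0 ∪ (Set.Ioc u0 T ∪ Set.Ioi T) := by
    rw [Set.Ioc_union_Ioi_eq_Ioi hT, Set.Ioc_union_Ioi_eq_Ioi (by linarith)]
  have hd1 : Disjoint (Set.Ioc (0 : ℝ) u0) (Set.Ioc u0 T ∪ Set.Ioi T) := by
    rw [Set.Ioc_union_Ioi_eq_Ioi hT]
    exact Set.disjoint_left.2 fun u hu hu' => absurd hu.2 (not_le.2 hu')
  have hd2 : Disjoint (Set.Ioc u0 T) (Set.Ioi T) :=
    Set.disjoint_left.2 fun u hu hu' => absurd hu.2 (not_le.2 hu')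
  have hsum : (∫ u in Set.Ioi (0 : ℝ), u ^ n * e u * Real.exp (-(x * u))) =
      (∫ u in Set.Ioc 0 u0, u ^ n * e u * Real.exp (-(x * u))) +
      ((∫ u in Set.Ioc u0 T, u ^ n * e u * Real.exp (-(x * u))) +
       ∫ u in Set.Ioi T, u ^ n * e u * Real.exp (-(x * u))) := by
    rw [hs1, setIntegral_union hd1 (measurableSet_Ioc.union measurableSet_Ioi) hI1
      (hI2.union hI3), setIntegral_union hd2 measurableSet_Ioi hI2 hI3]
  have hmS := altM_soft_meas e he K
  have hIs : IntegrableOn (fun u : ℝ => u ^ n * (Real.exp (-(x * u)) * altMsoft (e u) (K / u)))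
      (Set.Ioc u0 T) := by
    refine Integrable.mono' hI2.norm (by fun_prop) ?_
    refine (ae_restrict_iff' measurableSet_Ioc).2 (Eventually.of_forall fun u hu => ?_)
    have hu1 : (0 : ℝ) < u := by linarith [hu.1]
    rw [Real.norm_eq_abs, Real.norm_eq_abs, abs_mul, abs_mul, abs_mul, abs_mul, Real.abs_exp]
    have h := altM_soft_abs (e u) (K / u) (by positivity)
    calc |u ^ n| * (Real.exp (-(x * u)) * |altMsoft (e u) (K / u)|) ≤
        |u ^ n| * (Real.exp (-(x * u)) * |e u|) := by gcongr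
      _ = |u ^ n| * |e u| * Real.exp (-(x * u)) := by ring
  have hIg : IntegrableOn (fun u : ℝ => u ^ (n - 1) * Real.exp (-(x * u))) (Set.Ioi 0) :=
    altM_int_pow (n - 1) x (by linarith)
  -- first part
  have hEint : IntegrableOn e (Set.Ioc 0 u0) := by
    rw [← Set.Ioc_union_Ioc_eq_Ioc (zero_le_one' ℝ) hu0]
    refine hloc.union ?_
    refine Measure.integrableOn_of_bounded (M := C * Real.exp (3 / 4 * u0)) (by simp)
      he.aestronglyMeasurable ?_
    refine (ae_restrict_iff' measurableSet_Ioc).2 (Eventually.of_forall fun u hu => ?_)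
    have hC : 0 ≤ C := by
      have := (abs_nonneg _).trans (hb 1 le_rfl)
      exact nonneg_of_mul_nonneg_left this (Real.exp_pos _)
    rw [Real.norm_eq_abs]
    refine (hb u hu.1.le).trans ?_
    have := hu.2
    gcongr
  have h1 : |∫ u in Set.Ioc 0 u0, u ^ n * e u * Real.exp (-(x * u))| ≤
      u0 ^ n * (∫ u in Set.Ioc 0 u0, |e u|) := by
    rw [← integral_const_mul, ← Real.norm_eq_abs]
    refine norm_integral_le_of_norm_le (hEint.norm.const_mul _) ?_
    refine (ae_restrict_iff' measurableSet_Ioc).2 (Eventually.of_forall fun u hu => ?_)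
    rw [Real.norm_eq_abs, abs_mul, abs_mul, abs_of_nonneg (pow_nonneg hu.1.le n), Real.abs_exp]
    have h1 : u ^ n ≤ u0 ^ n := pow_le_pow_left₀ hu.1.le hu.2 n
    have h2 : Real.exp (-(x * u)) ≤ 1 := by
      rw [Real.exp_le_one_iff]
      have : 0 ≤ x * u := mul_nonneg (by linarith) hu.1.le
      linarith
    calc u ^ n * |e u| * Real.exp (-(x * u)) ≤ u0 ^ n * |e u| * 1 := by gcongr
      _ = u0 ^ n * |e u| := by ring
  -- second part
  have h2 : |(∫ u in Set.Ioc u0 T, u ^ n * e u * Real.exp (-(x * u))) -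
      ∫ u in Set.Ioc u0 T, u ^ n * (Real.exp (-(x * u)) * altMsoft (e u) (K / u))| ≤
      K * ((n - 1).factorial / x ^ n) := by
    rw [← integral_sub hI2 hIs, ← altM_gamma n hn x (by linarith), ← integral_const_mul,
      ← Real.norm_eq_abs]
    have hss : Set.Ioc u0 T ⊆ Set.Ioi (0 : ℝ) := fun u hu => lt_trans (by linarith) hu.1
    have hstep : ∫ u in Set.Ioc u0 T, K * (u ^ (n - 1) * Real.exp (-(x * u))) ≤
        ∫ u in Set.Ioi (0 : ℝ), K * (u ^ (n - 1) * Real.exp (-(x * u))) := by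
      refine setIntegral_mono_set (hIg.const_mul K) ?_ (LE.le.eventuallyLE hss)
      refine (ae_restrict_iff' measurableSet_Ioi).2 (Eventually.of_forall fun u hu => ?_)
      have hu1 : (0 : ℝ) < u := hu
      simp only [Pi.zero_apply]
      positivity
    refine le_trans (norm_integral_le_of_norm_le ((hIg.mono_set hss).const_mul K) ?_) hstep
    refine (ae_restrict_iff' measurableSet_Ioc).2 (Eventually.of_forall fun u hu => ?_)
    have hu1 : (0 : ℝ) < u := by linarith [hu.1]
    have h := altM_soft_diff (e u) (K / u) (by positivity)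
    rw [Real.norm_eq_abs, show u ^ n * e u * Real.exp (-(x * u)) -
      u ^ n * (Real.exp (-(x * u)) * altMsoft (e u) (K / u)) =
      u ^ n * Real.exp (-(x * u)) * (e u - altMsoft (e u) (K / u)) by ring, abs_mul,
      abs_of_pos (by positivity)]
    calc u ^ n * Real.exp (-(x * u)) * |e u - altMsoft (e u) (K / u)| ≤
        u ^ n * Real.exp (-(x * u)) * (K / u) := by gcongr
      _ = K * (u ^ (n - 1) * Real.exp (-(x * u))) := by
          obtain ⟨m, rfl⟩ : ∃ m, n = m + 1 := ⟨n - 1, by omega⟩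
          rw [Nat.add_sub_cancel]
          field_simp
          ring
  -- third part
  have h3 : |∫ u in Set.Ioi T, u ^ n * e u * Real.exp (-(x * u))| ≤
      C * ∫ u in Set.Ioi T, u ^ n * Real.exp (-((x - 3 / 4) * u)) := by
    rw [← integral_const_mul, ← Real.norm_eq_abs]
    have hi : IntegrableOn (fun u : ℝ => C * (u ^ n * Real.exp (-((x - 3 / 4) * u))))
        (Set.Ioi T) :=
      ((altM_int_pow n (x - 3 / 4) (by linarith)).mono_set
        (Set.Ioi_subset_Ioi (by linarith))).const_mul C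
    refine norm_integral_le_of_norm_le hi ?_
    refine (ae_restrict_iff' measurableSet_Ioi).2 (Eventually.of_forall fun u hu => ?_)
    have hu1 : (1 : ℝ) < u := by
      have : T < u := hu
      linarith
    rw [Real.norm_eq_abs, abs_mul, abs_mul, abs_of_nonneg (pow_nonneg (by linarith) n),
      Real.abs_exp]
    have h := hb u hu1.le
    calc u ^ n * |e u| * Real.exp (-(x * u)) ≤
        u ^ n * (C * Real.exp (3 / 4 * u)) * Real.exp (-(x * u)) := by gcongr
      _ = C * (u ^ n * (Real.exp (3 / 4 * u) * Real.exp (-(x * u)))) := by ring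
      _ = C * (u ^ n * Real.exp (-((x - 3 / 4) * u))) := by
          rw [← Real.exp_add]; congr 3; ring
  rw [integral_Icc_eq_integral_Ioc, hsum]
  have e1 : (∫ u in Set.Ioc 0 u0, u ^ n * e u * Real.exp (-(x * u))) +
      ((∫ u in Set.Ioc u0 T, u ^ n * e u * Real.exp (-(x * u))) +
       ∫ u in Set.Ioi T, u ^ n * e u * Real.exp (-(x * u))) -
      (∫ u in Set.Ioc u0 T, u ^ n * (Real.exp (-(x * u)) * altMsoft (e u) (K / u))) =
      (∫ u in Set.Ioc 0 u0, u ^ n * e u * Real.exp (-(x * u))) +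
      ((∫ u in Set.Ioc u0 T, u ^ n * e u * Real.exp (-(x * u))) -
      (∫ u in Set.Ioc u0 T, u ^ n * (Real.exp (-(x * u)) * altMsoft (e u) (K / u)))) +
      (∫ u in Set.Ioi T, u ^ n * e u * Real.exp (-(x * u))) := by ring
  rw [e1]
  refine (abs_add_three _ _ _).trans ?_
  exact add_le_add (add_le_add h1 h2) h3

theorem altM_tail (x : ℝ) (hx : 2 < x) (T : ℝ) (hT : 0 ≤ T) (n : ℕ) :
    ∫ u in Set.Ioi T, u ^ n * Real.exp (-((x - 3 / 4) * u)) ≤
      n.factorial / ((x - 3 / 4) / 2) ^ n * (Real.exp (-((x - 3 / 4) / 2 * T)) /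
        ((x - 3 / 4) / 2)) := by
  set l : ℝ := (x - 3 / 4) / 2 with hl
  have hl0 : 0 < l := by rw [hl]; linarith
  have hx' : x - 3 / 4 = 2 * l := by rw [hl]; ring
  have hexp : ∫ u in Set.Ioi T, Real.exp (-(l * u)) = Real.exp (-(l * T)) / l := by
    have h := integral_exp_mul_Ioi (a := -l) (by linarith) T
    simp only [neg_mul] at h
    rw [h]
    field_simp
  have hi : IntegrableOn (fun u : ℝ => Real.exp (-(l * u))) (Set.Ioi T) := by
    have := integrableOn_exp_mul_Ioi (a := -l) (by linarith) T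
    simpa only [neg_mul] using this
  rw [← hexp, ← integral_const_mul, hx']
  refine setIntegral_mono_on ?_ (hi.const_mul _) measurableSet_Ioi (fun u hu => ?_)
  · exact (altM_int_pow n (2 * l) (by linarith)).mono_set (Set.Ioi_subset_Ioi hT)
  · have hu0 : 0 < u := lt_of_le_of_lt hT hu
    have h := Real.pow_div_factorial_le_exp (l * u) (by positivity) n
    have hf : (0 : ℝ) < n.factorial := by exact_mod_cast Nat.factorial_pos n
    have h2 : u ^ n ≤ n.factorial / l ^ n * Real.exp (l * u) := by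
      rw [div_le_iff₀ hf, mul_pow] at h
      rw [div_mul_eq_mul_div, le_div_iff₀ (by positivity)]
      linarith
    calc u ^ n * Real.exp (-(2 * l * u)) ≤
        n.factorial / l ^ n * Real.exp (l * u) * Real.exp (-(2 * l * u)) := by gcongr
      _ = n.factorial / l ^ n * (Real.exp (l * u) * Real.exp (-(2 * l * u))) := by ring
      _ = n.factorial / l ^ n * Real.exp (-(l * u)) := by
          rw [← Real.exp_add]; congr 2; ring

/-- The choice of the constants. -/
theorem altM_bound (e : ℝ → ℝ) (he : Measurable e) (C : ℝ) (hC : 0 ≤ C)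
    (hb : ∀ u : ℝ, 1 ≤ u → |e u| ≤ C * Real.exp (3 / 4 * u)) (hloc : IntegrableOn e (Set.Ioc 0 1))
    (x R c : ℝ) (hx : 2 < x) (hR : 0 < R) (hRx : R < x) (hc : 0 < c) (K u0 : ℝ)
    (hK : 0 ≤ K) (hu0 : 1 ≤ u0) :
    ∃ (D : ℝ) (n1 N0 : ℕ), 1 ≤ D ∧ 1 ≤ n1 ∧ ∀ N : ℕ, N0 ≤ N → u0 ≤ D * N → ∀ n : ℕ, n1 ≤ n →
      n ≤ N →
      |(∫ u in Set.Ioi (0 : ℝ), u ^ n * e u * Real.exp (-(x * u))) -
        ∫ u in Set.Icc u0 (D * N), u ^ n * (Real.exp (-(x * u)) * altMsoft (e u) (K / u))| ≤
      3 / 4 * (c * (n.factorial / R ^ n) / n) := by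
  set l : ℝ := (x - 3 / 4) / 2 with hl
  have hl0 : 0 < l := by rw [hl]; linarith
  clear_value l
  set E1 : ℝ := ∫ u in Set.Ioc 0 u0, |e u| with hE1
  have hE1n : 0 ≤ E1 := integral_nonneg fun u => abs_nonneg _
  -- first term
  have t1 : Tendsto (fun n : ℕ => E1 * (2 * (u0 * R)) ^ n / n.factorial) atTop (𝓝 0) := by
    have h := (FloorSemiring.tendsto_pow_div_factorial_atTop (2 * (u0 * R))).const_mul E1
    rw [mul_zero] at h
    refine h.congr fun n => ?_
    ring
  have t2 : Tendsto (fun n : ℕ => K * (R / x) ^ n) atTop (𝓝 0) := by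
    have h := (tendsto_pow_atTop_nhds_zero_of_lt_one (r := R / x) (by positivity)
      ((div_lt_one (by linarith)).2 hRx)).const_mul K
    rwa [mul_zero] at h
  have t3 : Tendsto (fun n : ℕ => C * (1 / 2 : ℝ) ^ n) atTop (𝓝 0) := by
    have h := (tendsto_pow_atTop_nhds_zero_of_lt_one (r := (1 / 2 : ℝ)) (by norm_num)
      (by norm_num)).const_mul C
    rwa [mul_zero] at h
  obtain ⟨a1, ha1⟩ := (t1.eventually (ge_mem_nhds (show (0 : ℝ) < c / 4 by positivity))).exists_forall_of_atTop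
  obtain ⟨a2, ha2⟩ := (t2.eventually (ge_mem_nhds (show (0 : ℝ) < c / 4 by positivity))).exists_forall_of_atTop
  obtain ⟨a3, ha3⟩ := (t3.eventually (ge_mem_nhds (show (0 : ℝ) < c * l / 4 by positivity))).exists_forall_of_atTop
  set q : ℝ := max 1 (R / l) with hq
  have hq1 : 1 ≤ q := le_max_left _ _
  obtain ⟨D', hD'⟩ := exists_nat_gt (Real.log (4 * q) / l)
  set D : ℝ := max 1 D' with hD
  have hD1 : 1 ≤ D := le_max_left _ _
  have hexpD : Real.exp (-(l * D)) * (2 * q) ≤ 1 / 2 := by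
    have h1 : Real.log (4 * q) ≤ l * D := by
      have h2 : Real.log (4 * q) / l ≤ D := hD'.le.trans (le_max_right _ _)
      rw [div_le_iff₀ hl0] at h2
      linarith
    have h3 : 4 * q ≤ Real.exp (l * D) := by
      rw [← Real.log_le_iff_le_exp (by positivity)]
      exact h1
    rw [Real.exp_neg, ← div_eq_inv_mul, div_le_iff₀ (Real.exp_pos _)]
    linarith
  refine ⟨D, max 1 (max a1 a2), a3, hD1, le_max_left _ _, fun N hN hu0N n hn hnN => ?_⟩
  have hn1 : 1 ≤ n := (le_max_left _ _).trans hn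
  have hna1 : a1 ≤ n := ((le_max_left _ _).trans (le_max_right _ _)).trans hn
  have hna2 : a2 ≤ n := ((le_max_right _ _).trans (le_max_right _ _)).trans hn
  have hx0 : 0 < x := by linarith
  have hnr : (1 : ℝ) ≤ n := by exact_mod_cast hn1
  have hfac : (0 : ℝ) < n.factorial := by exact_mod_cast Nat.factorial_pos n
  have hn2 : (n : ℝ) ≤ 2 ^ n := by exact_mod_cast (Nat.lt_two_pow_self (n := n)).le
  refine (altM_diff e he C hb hloc x hx K u0 (D * N) hK hu0 hu0N n hn1).trans ?_
  have b1 : u0 ^ n * E1 ≤ 1 / 4 * (c * (n.factorial / R ^ n) / n) := by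
    have h := ha1 n hna1
    rw [div_le_iff₀ hfac] at h
    rw [show 1 / 4 * (c * (n.factorial / R ^ n) / n) = (c / 4 * n.factorial) / (R ^ n * n) by
      field_simp, le_div_iff₀ (by positivity)]
    calc u0 ^ n * E1 * (R ^ n * n) ≤ u0 ^ n * E1 * (R ^ n * 2 ^ n) := by gcongr
      _ = E1 * (2 * (u0 * R)) ^ n := by rw [mul_pow, mul_pow]; ring
      _ ≤ c / 4 * n.factorial := h
  have b2 : K * ((n - 1).factorial / x ^ n) ≤ 1 / 4 * (c * (n.factorial / R ^ n) / n) := by
    have h := ha2 n hna2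
    rw [div_pow] at h
    have hfn : (n.factorial : ℝ) = n * (n - 1).factorial := by
      exact_mod_cast (Nat.mul_factorial_pred (by omega)).symm
    rw [hfn, show 1 / 4 * (c * (n * (n - 1).factorial / R ^ n) / n) =
      (n - 1).factorial * (c / 4 / R ^ n) by field_simp]
    rw [show K * ((n - 1).factorial / x ^ n) = (n - 1).factorial * (K * (R ^ n / x ^ n) / R ^ n) by
      field_simp]
    refine mul_le_mul_of_nonneg_left ?_ (Nat.cast_nonneg _)
    exact div_le_div_of_nonneg_right h (by positivity)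
  have b3 : C * ∫ u in Set.Ioi (D * N), u ^ n * Real.exp (-((x - 3 / 4) * u)) ≤
      1 / 4 * (c * (n.factorial / R ^ n) / n) := by
    have ht := altM_tail x hx (D * N) (by positivity) n
    rw [← hl] at ht
    have h3 := ha3 N hN
    have hq2 : (R / l) ^ n * n ≤ (2 * q) ^ N := by
      calc (R / l) ^ n * n ≤ q ^ n * 2 ^ n := by
            gcongr
            exact le_max_right _ _
        _ = (2 * q) ^ n := by rw [mul_pow]; ring
        _ ≤ (2 * q) ^ N := pow_le_pow_right₀ (by linarith) hnN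
    have hexp : Real.exp (-(l * (D * N))) = Real.exp (-(l * D)) ^ N := by
      rw [← Real.exp_nat_mul]; congr 1; ring
    have h4 : (R / l) ^ n * n * Real.exp (-(l * (D * N))) ≤ (1 / 2) ^ N := by
      rw [hexp]
      calc (R / l) ^ n * n * Real.exp (-(l * D)) ^ N ≤ (2 * q) ^ N * Real.exp (-(l * D)) ^ N := by
            gcongr
        _ = (Real.exp (-(l * D)) * (2 * q)) ^ N := by rw [← mul_pow, mul_comm]
        _ ≤ (1 / 2) ^ N := by gcongr
    calc C * ∫ u in Set.Ioi (D * N), u ^ n * Real.exp (-((x - 3 / 4) * u)) ≤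
        C * (n.factorial / l ^ n * (Real.exp (-(l * (D * N))) / l)) := by gcongr
      _ = n.factorial / (l * R ^ n * n) * (C * ((R / l) ^ n * n * Real.exp (-(l * (D * N))))) := by
          rw [div_pow]; field_simp
      _ ≤ n.factorial / (l * R ^ n * n) * (C * (1 / 2) ^ N) := by gcongr
      _ ≤ n.factorial / (l * R ^ n * n) * (c * l / 4) := by gcongr
      _ = 1 / 4 * (c * (n.factorial / R ^ n) / n) := by field_simp
  linarith

/-- Alternations for a function whose moments oscillate.  Put `f u = e^{-xu} (soft threshold of e(u) at K/u)` for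
`u ∈ [u0, D N]` (`e - K/u` if `e > K/u`, `e + K/u` if `e < -K/u`, `0` otherwise), `0` elsewhere: bounded.
For `n0' ≤ n ≤ N` the difference between `∫_0^∞ u^n e e^{-xu}` and `∫ u^n f` is at most
`u0^n ∫_0^{u0} |e| + K (n-1)! x^{-n} + ∫_{DN}^∞ u^n |e| e^{-xu}`, and each of the three is at most a quarter of
`c n! R^{-n}/n`: the first since `u0^n R^n n/n! → 0`, the second since `(R/x)^n → 0`; for the third
`|e u| ≤ C e^{3u/4}`, `u^n ≤ n! λ^{-n} e^{λu}` with `λ = (x - 3/4)/2`, so it is at most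
`C n! λ^{-n} e^{-λ D N}/λ`, small if `D` is large (`(R/λ)^n n ≤ e^{λDN}/C'`).  So the moments of `f` at integers alternate
at `J ≥ (N - n0')/(2B) - 1` points (one per block of `B` integers, alternating `η`), and
`descartes` (`Set.Icc u0 (D N)`); `f u > 0` means `e u > K/u`. -/
theorem alt_moments (e : ℝ → ℝ) (he : Measurable e) (C : ℝ)
    (hb : ∀ u : ℝ, 1 ≤ u → |e u| ≤ C * Real.exp (3 / 4 * u)) (hloc : IntegrableOn e (Set.Ioc 0 1))
    (x R c : ℝ) (B n0 : ℕ) (hx : 2 < x) (hR : 0 < R) (hRx : R < x) (hc : 0 < c) (hB : 1 ≤ B)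
    (hmom : ∀ n : ℕ, n0 ≤ n → ∀ η : ℝ, (η = 1 ∨ η = -1) → ∃ k < B,
        c * ((n + k).factorial / R ^ (n + k)) / (n + k) ≤
          η * ∫ u in Set.Ioi (0 : ℝ), u ^ (n + k) * e u * Real.exp (-(x * u))) (K u0 : ℝ)
    (hK : 0 ≤ K) (hu0 : 1 ≤ u0) :
    ∃ (c' U0 : ℝ), 0 < c' ∧ ∀ U : ℝ, U0 ≤ U → ∃ (n : ℕ) (η : ℝ) (v : ℕ → ℝ), c' * U ≤ n ∧
      (η = 1 ∨ η = -1) ∧ (∀ i < n, v i < v (i + 1)) ∧
      ∀ i ≤ n, u0 ≤ v i ∧ v i ≤ U ∧ K / v i ≤ η * (-1) ^ i * e (v i) := by
  have hC : 0 ≤ C := by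
    have := (abs_nonneg _).trans (hb 1 le_rfl)
    exact nonneg_of_mul_nonneg_left this (Real.exp_pos _)
  obtain ⟨D, n1, N0, hD1, hn1, hmain⟩ := altM_bound e he C hC hb hloc x R c hx hR hRx hc K u0 hK hu0
  -- `n2 = max n0 n1 + 1`
  set n2 : ℕ := max n0 n1 with hn2
  have hBr : (1 : ℝ) ≤ B := by exact_mod_cast hB
  have hD0 : 0 < D := by linarith
  refine ⟨1 / (2 * D * B), max (D * (N0 + 1)) (max (D * (u0 + 1)) (2 * D * (1 + n2 + 2 * B))),
    by positivity, fun U hU => ?_⟩
  have hU1 : D * (N0 + 1) ≤ U := (le_max_left _ _).trans hU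
  have hU2 : D * (u0 + 1) ≤ U := ((le_max_left _ _).trans (le_max_right _ _)).trans hU
  have hU3 : 2 * D * (1 + n2 + 2 * B) ≤ U := ((le_max_right _ _).trans (le_max_right _ _)).trans hU
  have hUpos : 0 < U := lt_of_lt_of_le (by positivity) hU3
  set N : ℕ := ⌊U / D⌋₊ with hN
  have hN1 : (N : ℝ) ≤ U / D := Nat.floor_le (by positivity)
  have hN2 : U / D < N + 1 := Nat.lt_floor_add_one _
  have hDN : D * N ≤ U := by
    rw [le_div_iff₀ hD0] at hN1
    linarith
  have hN0N : N0 ≤ N := by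
    rw [hN]
    refine Nat.le_floor ?_
    rw [le_div_iff₀ hD0]
    nlinarith
  have hu0N : u0 ≤ D * N := by
    have h1 : u0 + 1 ≤ U / D := by
      rw [le_div_iff₀ hD0]
      linarith
    have h2 : u0 ≤ N := by linarith
    have h3 : (N : ℝ) ≤ D * N := le_mul_of_one_le_left (Nat.cast_nonneg _) hD1
    linarith
  have hbig : (1 : ℝ) + n2 + 2 * B ≤ U / (2 * D) := by
    rw [le_div_iff₀ (by positivity)]
    linarith
  have hUD : U / D = 2 * (U / (2 * D)) := by field_simp
  have hNn : n2 + 2 * B ≤ N := by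
    have : ((n2 + 2 * B : ℕ) : ℝ) < N + 1 := by
      push_cast
      have h0 : (0 : ℝ) ≤ n2 + 2 * B := by positivity
      linarith
    have h' : (n2 + 2 * B : ℕ) < N + 1 := by exact_mod_cast this
    omega
  set J : ℕ := (N - n2) / B - 1 with hJ
  have hJdiv : 2 ≤ (N - n2) / B := by
    rw [Nat.le_div_iff_mul_le (by omega)]
    omega
  have hJ1 : J + 1 = (N - n2) / B := by omega
  have hJN : n2 + (J + 1) * B ≤ N := by
    rw [hJ1]
    have := Nat.div_mul_le_self (N - n2) B
    omega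
  -- the function
  set f : ℝ → ℝ := (Set.Icc u0 (D * N)).indicator
    (fun u => Real.exp (-(x * u)) * altMsoft (e u) (K / u)) with hf
  have hfm : Measurable f := by
    refine Measurable.indicator ?_ measurableSet_Icc
    have := altM_soft_meas e he K
    fun_prop
  have hfb : ∀ u, |f u| ≤ C := by
    intro u
    rw [hf]
    by_cases hu : u ∈ Set.Icc u0 (D * N)
    · rw [Set.indicator_of_mem hu, abs_mul, Real.abs_exp]
      have hu1 : 1 ≤ u := hu0.trans hu.1
      have h1 := altM_soft_abs (e u) (K / u) (by positivity)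
      calc Real.exp (-(x * u)) * |altMsoft (e u) (K / u)| ≤
          Real.exp (-(x * u)) * (C * Real.exp (3 / 4 * u)) := by
            gcongr
            exact h1.trans (hb u hu1)
        _ = C * (Real.exp (-(x * u)) * Real.exp (3 / 4 * u)) := by ring
        _ = C * Real.exp (-(x * u) + 3 / 4 * u) := by rw [Real.exp_add]
        _ ≤ C * 1 := by
            gcongr
            rw [Real.exp_le_one_iff]
            nlinarith
        _ = C := mul_one C
    · rw [Set.indicator_of_notMem hu, abs_zero]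
      exact hC
  have hmomf : ∀ n : ℕ, ∫ u in Set.Icc u0 (D * N), u ^ (n : ℝ) * f u =
      ∫ u in Set.Icc u0 (D * N), u ^ n * (Real.exp (-(x * u)) * altMsoft (e u) (K / u)) := by
    intro n
    refine setIntegral_congr_fun measurableSet_Icc (fun u hu => ?_)
    beta_reduce
    rw [hf, Set.indicator_of_mem hu, Real.rpow_natCast]
  -- signs of the moments
  have hsign : ∀ n : ℕ, n2 ≤ n → n + B ≤ N → ∀ η : ℝ, (η = 1 ∨ η = -1) → ∃ k < B,
      0 < η * ∫ u in Set.Icc u0 (D * N), u ^ ((n + k : ℕ) : ℝ) * f u := by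
    intro n hn hnB η hη
    obtain ⟨k, hk, hm⟩ := hmom n ((le_max_left _ _).trans hn) η hη
    refine ⟨k, hk, ?_⟩
    rw [hmomf (n + k)]
    have hd := hmain N hN0N hu0N (n + k) (((le_max_right _ _).trans hn).trans (by omega))
      (by omega)
    have hpos : 0 < c * ((n + k).factorial / R ^ (n + k)) / (n + k) := by
      have : 1 ≤ n + k := hn1.trans (((le_max_right _ _).trans hn).trans (by omega))
      have h2 : (0 : ℝ) < (n : ℝ) + k := by exact_mod_cast this
      have h3 : (0 : ℝ) < (n + k).factorial := by exact_mod_cast Nat.factorial_pos _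
      positivity
    push_cast at hd
    rw [abs_le] at hd
    rcases hη with rfl | rfl
    · linarith [hd.1, hd.2]
    · linarith [hd.1, hd.2]
  choose! kk hkB hkpos using hsign
  have hηp : ∀ i : ℕ, ((-1 : ℝ) ^ i = 1 ∨ (-1 : ℝ) ^ i = -1) := fun i => neg_one_pow_eq_or ℝ i
  have hblock : ∀ i ≤ J, n2 + i * B + B ≤ N := by
    intro i hi
    have : (i + 1) * B ≤ (J + 1) * B := Nat.mul_le_mul_right B (by omega)
    have h2 : (i + 1) * B = i * B + B := by ring
    omega
  have hAlt : Alt (fun y : ℝ => ∫ u in Set.Icc u0 (D * N), u ^ y * f u) Set.univ J := by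
    refine ⟨1, fun i => ((n2 + i * B + kk (n2 + i * B) ((-1) ^ i) : ℕ) : ℝ), Or.inl rfl, ?_, ?_⟩
    · intro i hi
      have h1 := hkB (n2 + i * B) (by omega) (hblock i hi.le) ((-1) ^ i) (hηp i)
      have h2 : n2 + i * B + kk (n2 + i * B) ((-1) ^ i) <
          n2 + (i + 1) * B + kk (n2 + (i + 1) * B) ((-1) ^ (i + 1)) := by
        have h3 : (i + 1) * B = i * B + B := by ring
        omega
      beta_reduce
      exact Nat.cast_lt.2 h2
    · intro i hi
      refine ⟨Set.mem_univ _, ?_⟩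
      rw [one_mul]
      exact hkpos (n2 + i * B) (by omega) (hblock i hi) ((-1) ^ i) (hηp i)
  obtain ⟨η, v, hη, hv, hv2⟩ := descartes f hfm C hfb u0 (D * N) (by linarith) J hAlt
  refine ⟨J, η, v, ?_, hη, hv, fun i hi => ?_⟩
  · have h1 : ((N - n2 : ℕ) : ℝ) < (((N - n2) / B : ℕ) + 1) * B := by
      have := Nat.lt_div_mul_add (a := N - n2) (b := B) (by omega)
      have h2 : N - n2 < ((N - n2) / B + 1) * B := by
        rw [add_mul, one_mul]; exact this
      exact_mod_cast h2
    rw [← hJ1, Nat.cast_sub (by omega)] at h1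
    push_cast at h1
    rw [div_mul_eq_mul_div, one_mul, div_le_iff₀ (by positivity)]
    have h4 : (J : ℝ) * (2 * D * B) = 2 * D * (J * B) := by ring
    rw [h4]
    have h5 : U / (2 * D) ≤ J * B := by linarith
    rw [div_le_iff₀ (by positivity)] at h5
    linarith
  · obtain ⟨hmem, hpos⟩ := hv2 i hi
    refine ⟨hmem.1, hmem.2.trans hDN, ?_⟩
    have hE : 0 < Real.exp (-(x * v i)) := Real.exp_pos _
    rw [hf, Set.indicator_of_mem hmem] at hpos
    have hs : η * (-1) ^ i = 1 ∨ η * (-1) ^ i = -1 := by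
      rcases hη with rfl | rfl
      · rw [one_mul]; exact hηp i
      · rcases hηp i with h | h <;> rw [h] <;> norm_num
    rcases hs with hs | hs
    · rw [hs, one_mul] at hpos ⊢
      exact altM_soft_pos _ _ (pos_of_mul_pos_right hpos hE.le)
    · rw [hs] at hpos ⊢
      have h2 : altMsoft (e (v i)) (K / v i) < 0 := by
        by_contra hcon
        rw [not_lt] at hcon
        have : 0 ≤ Real.exp (-(x * v i)) * altMsoft (e (v i)) (K / v i) := mul_nonneg hE.le hcon
        linarith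
      have := altM_soft_neg _ _ h2
      linarith

end W3283l
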