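import Pool.Agent.W_3283e1_lw.ArD

set_option autoImplicit false

namespace W3283l

open Complex W3283e1 W3283f MeasureTheory Filter Topology

theorem Abel_ind (c u : ℝ) (hc : 0 ≤ c) (hcu : c ≤ u) (a : ℝ) :
    IntegrableOn ((Set.Ici c).indicator fun _ => a) (Set.Ioc 0 u) ∧
      ∫ t in Set.Ioc 0 u, (Set.Ici c).indicator (fun _ => a) t = a * (u - c) := by
  constructor
  · exact (integrableOn_const (by simp)).indicator measurableSet_Ici
  · rw [setIntegral_indicator measurableSet_Ici, setIntegral_const, smul_eq_mul, mul_comm]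
    congr 1
    rcases hc.eq_or_lt with h0 | h0
    · have h1 : Set.Ioc 0 u ∩ Set.Ici c = Set.Ioc 0 u := by
        rw [Set.inter_eq_left]
        intro t ht
        exact h0 ▸ ht.1.le
      rw [h1, Real.volume_real_Ioc_of_le (hc.trans hcu), ← h0]
    · have h1 : Set.Ioc 0 u ∩ Set.Ici c = Set.Icc c u := by
        ext t
        constructor
        · rintro ⟨h2, h3⟩
          exact ⟨h3, h2.2⟩
        · rintro ⟨h2, h3⟩
          exact ⟨⟨h0.trans_le h2, h3⟩, h2⟩
      rw [h1, Real.volume_real_Icc_of_le hcu]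

theorem Abel_sum (f : ℕ → ℝ) (u : ℝ) (hu : 0 ≤ u) :
    IntegrableOn (fun t : ℝ => ∑ q ∈ Finset.Icc 1 ⌊Real.exp t⌋₊, f q) (Set.Ioc 0 u) ∧
      ∫ t in Set.Ioc 0 u, ∑ q ∈ Finset.Icc 1 ⌊Real.exp t⌋₊, f q =
        ∑ q ∈ Finset.Icc 1 ⌊Real.exp u⌋₊, f q * (u - Real.log q) := by
  have hq : ∀ q ∈ Finset.Icc 1 ⌊Real.exp u⌋₊, 0 ≤ Real.log q ∧ Real.log q ≤ u := by
    intro q hq
    rw [Finset.mem_Icc] at hq
    have h1 : (1 : ℝ) ≤ q := by exact_mod_cast hq.1
    refine ⟨Real.log_nonneg h1, ?_⟩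
    rw [Real.log_le_iff_le_exp (by linarith)]
    exact (Nat.le_floor_iff (Real.exp_pos u).le).1 hq.2
  have heq : ∀ t ∈ Set.Ioc 0 u, ∑ q ∈ Finset.Icc 1 ⌊Real.exp t⌋₊, f q =
      ∑ q ∈ Finset.Icc 1 ⌊Real.exp u⌋₊, (Set.Ici (Real.log q)).indicator (fun _ => f q) t := by
    intro t ht
    have h1 : Finset.Icc 1 ⌊Real.exp t⌋₊ ⊆ Finset.Icc 1 ⌊Real.exp u⌋₊ :=
      Finset.Icc_subset_Icc le_rfl (Nat.floor_le_floor (Real.exp_le_exp.2 ht.2))
    rw [← Finset.sum_subset h1]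
    · refine Finset.sum_congr rfl fun q hqt => ?_
      rw [Finset.mem_Icc] at hqt
      have h2 : (1 : ℝ) ≤ q := by exact_mod_cast hqt.1
      rw [Set.indicator_of_mem]
      rw [Set.mem_Ici, Real.log_le_iff_le_exp (by linarith)]
      exact (Nat.le_floor_iff (Real.exp_pos t).le).1 hqt.2
    · intro q hqu hqt
      rw [Set.indicator_of_notMem]
      intro h2
      apply hqt
      rw [Finset.mem_Icc] at hqu ⊢
      refine ⟨hqu.1, ?_⟩
      have h3 : (1 : ℝ) ≤ q := by exact_mod_cast hqu.1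
      rw [Set.mem_Ici, Real.log_le_iff_le_exp (by linarith)] at h2
      exact (Nat.le_floor_iff (Real.exp_pos t).le).2 h2
  have hint : IntegrableOn (fun t => ∑ q ∈ Finset.Icc 1 ⌊Real.exp u⌋₊,
      (Set.Ici (Real.log q)).indicator (fun _ => f q) t) (Set.Ioc 0 u) :=
    integrable_finsetSum _ fun q hqm => (Abel_ind _ u (hq q hqm).1 (hq q hqm).2 (f q)).1
  constructor
  · exact hint.congr_fun (fun t ht => (heq t ht).symm) measurableSet_Ioc
  · rw [setIntegral_congr_fun measurableSet_Ioc heq, integral_finsetSum _ fun q hqm =>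
      (Abel_ind _ u (hq q hqm).1 (hq q hqm).2 (f q)).1]
    exact Finset.sum_congr rfl fun q hqm => (Abel_ind _ u (hq q hqm).1 (hq q hqm).2 (f q)).2

/-- Abel summation: `AA α (e^t) = Σ_{q ≤ e^u} el q 1_{log q ≤ t}` for `t ≤ u`, and
`∫_0^u 1_{log q ≤ t} dt = u - log q` for `1 ≤ q ≤ e^u`. -/
theorem abel_id (α : ℕ → ℂ) (u : ℝ) (hu : 0 ≤ u) :
    IntegrableOn (fun t : ℝ => AA α (Real.exp t)) (Set.Ioc 0 u) ∧
    u * AA α (Real.exp u) - ∫ t in Set.Ioc 0 u, AA α (Real.exp t) = ALs α u := by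
  obtain ⟨h1, h2⟩ := Abel_sum (fun q => el α q) u hu
  refine ⟨h1, ?_⟩
  have h3 : ∫ t in Set.Ioc 0 u, AA α (Real.exp t) =
      ∑ q ∈ Finset.Icc 1 ⌊Real.exp u⌋₊, el α q * (u - Real.log q) := h2
  rw [h3, AA, ALs, Finset.mul_sum, ← Finset.sum_sub_distrib]
  exact Finset.sum_congr rfl fun q _ => by ring

/-- `∫_0^u log t dt = u log u - u`. -/
theorem abel_er (α : ℕ → ℂ) (κ : ℝ) (r : ℕ) (u : ℝ) (hu : 0 < u) :
    IntegrableOn (W3283g.er α κ r) (Set.Ioc 0 u) ∧
    u * W3283g.er α κ r u - ∫ t in Set.Ioc 0 u, W3283g.er α κ r t = ALs α u - r * u := by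
  obtain ⟨h1, h2⟩ := abel_id α u hu.le
  have hlog : IntegrableOn Real.log (Set.Ioc 0 u) :=
    (intervalIntegrable_iff_integrableOn_Ioc_of_le hu.le).1
      intervalIntegral.intervalIntegrable_log'
  have hlogv : ∫ t in Set.Ioc 0 u, Real.log t = u * Real.log u - u := by
    rw [← intervalIntegral.integral_of_le hu.le, integral_log]
    simp
  have hk : IntegrableOn (fun _ : ℝ => κ) (Set.Ioc 0 u) := integrableOn_const (by simp)
  have hkv : ∫ _t in Set.Ioc 0 u, κ = u * κ := by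
    rw [setIntegral_const, smul_eq_mul, Real.volume_real_Ioc_of_le hu.le, sub_zero]
  have hr : IntegrableOn (fun t : ℝ => r * Real.log t) (Set.Ioc 0 u) := hlog.const_mul _
  have her : W3283g.er α κ r = fun t => AA α (Real.exp t) - κ - r * Real.log t := rfl
  constructor
  · rw [her]
    exact (h1.sub hk).sub hr
  · have h3 : ∫ t in Set.Ioc 0 u, W3283g.er α κ r t =
        (∫ t in Set.Ioc 0 u, AA α (Real.exp t)) - u * κ - r * (u * Real.log u - u) := by
      rw [her]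
      have e1 : ∫ t in Set.Ioc 0 u, (AA α (Real.exp t) - κ - r * Real.log t) =
          (∫ t in Set.Ioc 0 u, (AA α (Real.exp t) - κ)) - ∫ t in Set.Ioc 0 u, r * Real.log t :=
        integral_sub (h1.sub hk) hr
      have e2 : ∫ t in Set.Ioc 0 u, (AA α (Real.exp t) - κ) =
          (∫ t in Set.Ioc 0 u, AA α (Real.exp t)) - ∫ _t in Set.Ioc 0 u, κ :=
        integral_sub h1 hk
      rw [e1, e2, hkv, integral_const_mul, hlogv]
    rw [h3, her, ← h2]
    ring

/-- `er` is right continuous. -/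
theorem er_right (α : ℕ → ℂ) (κ : ℝ) (r : ℕ) (u : ℝ) (hu : 0 < u) :
    ContinuousWithinAt (W3283g.er α κ r) (Set.Ici u) u := by
  have h1 : ∀ᶠ v in 𝓝[Set.Ici u] u, AA α (Real.exp v) = AA α (Real.exp u) := by
    have h2 : ∀ᶠ v in 𝓝 u, Real.exp v < ⌊Real.exp u⌋₊ + 1 :=
      Real.continuous_exp.continuousAt.eventually_lt continuousAt_const (Nat.lt_floor_add_one _)
    filter_upwards [h2.filter_mono nhdsWithin_le_nhds, self_mem_nhdsWithin] with v hv hv2
    have h3 : ⌊Real.exp v⌋₊ = ⌊Real.exp u⌋₊ := by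
      rw [Nat.floor_eq_iff (Real.exp_pos v).le]
      exact ⟨(Nat.floor_le (Real.exp_pos u).le).trans (Real.exp_le_exp.2 hv2), hv⟩
    rw [AA, AA, h3]
  have h4 : ContinuousWithinAt (fun v : ℝ => AA α (Real.exp u) - κ - r * Real.log v)
      (Set.Ici u) u := by
    refine ContinuousAt.continuousWithinAt ?_
    exact continuousAt_const.sub (continuousAt_const.mul (Real.continuousAt_log hu.ne'))
  refine h4.congr_of_eventuallyEq ?_ rfl
  filter_upwards [h1] with v hv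
  rw [W3283g.er, hv]

end W3283l
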