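import Pool.Agent.W_3283e1_lw.Cheb

set_option autoImplicit false

namespace W3283l

open Complex W3283e1 W3283f MeasureTheory Filter Topology

/-- `ell (α) p = -Σ_{m ≥ 1} 2 Re (α^m)/(m p^m)` for `‖α‖² = p`, `p ≥ 3`
(`Complex.hasSum_taylorSeries_neg_log` at `α/p` and its conjugate; `ell = log |1 - α/p|²`). -/
theorem ell_series (a : ℂ) (p : ℕ) (hp : 3 ≤ p) (ha : ‖a‖ ^ 2 = p) :
    HasSum (fun m : ℕ => 2 * (a ^ (m + 1)).re / (((m : ℝ) + 1) * (p : ℝ) ^ (m + 1))) (-ell a p) := by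
  have hp0 : (0 : ℝ) < p := by
    have : 0 < p := by omega
    exact_mod_cast this
  have hp1 : (3 : ℝ) ≤ p := by exact_mod_cast hp
  have hpc : (p : ℂ) ≠ 0 := by exact_mod_cast hp0.ne'
  set w : ℂ := a / p with hw
  have hw2 : ‖w‖ ^ 2 = 1 / p := by
    rw [hw, _root_.norm_div, div_pow, ha, Complex.norm_natCast]
    field_simp
  have hw1 : ‖w‖ < 1 := by
    have h1 : ‖w‖ ^ 2 < 1 := by
      rw [hw2, div_lt_one hp0]
      linarith
    nlinarith [norm_nonneg w]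
  have h1 := Complex.hasSum_re (Complex.hasSum_taylorSeries_neg_log' hw1)
  have h2 := h1.mul_left 2
  have hwr : w.re = a.re / p := by
    rw [hw, ← Complex.ofReal_natCast, Complex.div_ofReal_re]
  have h3 : ‖1 - w‖ ^ 2 = ((p : ℝ) + 1 - 2 * a.re) / p := by
    rw [Complex.sq_norm, Complex.normSq_sub, map_one, ← Complex.sq_norm, hw2]
    simp only [one_mul, Complex.conj_re, hwr]
    field_simp
  have h4 : 1 - w ≠ 0 := by
    intro h
    have : w = 1 := (sub_eq_zero.1 h).symm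
    rw [this, norm_one] at hw1
    exact lt_irrefl _ hw1
  have h5 : 2 * (-Complex.log (1 - w)).re = -ell a p := by
    rw [Complex.neg_re, Complex.log_re, ell, ← h3, Real.log_pow]
    push_cast
    ring
  rw [h5] at h2
  refine h2.congr_fun ?_
  intro m
  have h6 : w ^ (m + 1) / ((m : ℂ) + 1) = (a ^ (m + 1)) / ((((m : ℝ) + 1) * (p : ℝ) ^ (m + 1) : ℝ) : ℂ) := by
    rw [hw, div_pow]
    push_cast
    have h7 : ((m : ℂ) + 1) ≠ 0 := by exact_mod_cast Nat.succ_ne_zero m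
    field_simp
  rw [h6, Complex.div_ofReal_re]
  ring

/-- `Σ_{p odd prime} Σ_{m ≥ 3} log p p^{-m/2} < ∞`. -/
theorem three_summable : Summable (fun i : OP × ℕ =>
    Real.log (i.1 : ℕ) * (((i.1 : ℕ) : ℝ) ^ (-(1 / 2) : ℝ)) ^ (i.2 + 3)) := by
  set r : ℝ := (3 : ℝ) ^ (-(1 / 2) : ℝ) with hr
  have hr0 : 0 ≤ r := by positivity
  have hr1 : r < 1 := Real.rpow_lt_one_of_one_lt_of_neg (by norm_num) (by norm_num)
  have hsum : Summable (fun i : OP × ℕ => (4 * ((i.1 : ℕ) : ℝ) ^ (-(5 / 4) : ℝ)) * r ^ i.2) :=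
    Summable.mul_of_nonneg ((Cheb_sum (by norm_num : (1 : ℝ) < 5 / 4)).mul_left 4)
      (summable_geometric_of_lt_one hr0 hr1) (fun p => by positivity) (fun m => by positivity)
  refine Summable.of_nonneg_of_le ?_ ?_ hsum
  · rintro ⟨p, m⟩
    have hp := Cheb_three p
    have hlog : 0 ≤ Real.log (p : ℕ) := Real.log_nonneg (by linarith)
    positivity
  rintro ⟨p, m⟩
  have hp := Cheb_three p
  have hp0 : (0 : ℝ) < (p : ℕ) := by linarith
  have hlog : 0 ≤ Real.log (p : ℕ) := Real.log_nonneg (by linarith)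
  have e4 : Real.log (p : ℕ) ≤ ((p : ℕ) : ℝ) ^ (1 / 4 : ℝ) / (1 / 4) :=
    Real.log_le_rpow_div hp0.le (by norm_num)
  have e3 : (((p : ℕ) : ℝ) ^ (-(1 / 2) : ℝ)) ^ m ≤ r ^ m :=
    pow_le_pow_left₀ (by positivity)
      (Real.rpow_le_rpow_of_nonpos (by norm_num) hp (by norm_num)) _
  have e5 : (((p : ℕ) : ℝ) ^ (-(1 / 2) : ℝ)) ^ 3 = ((p : ℕ) : ℝ) ^ (-(3 / 2) : ℝ) := by
    rw [← Real.rpow_natCast, ← Real.rpow_mul hp0.le]
    norm_num
  have e6 : ((p : ℕ) : ℝ) ^ (1 / 4 : ℝ) * ((p : ℕ) : ℝ) ^ (-(3 / 2) : ℝ) =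
      ((p : ℕ) : ℝ) ^ (-(5 / 4) : ℝ) := by
    rw [← Real.rpow_add hp0]
    norm_num
  show Real.log (p : ℕ) * (((p : ℕ) : ℝ) ^ (-(1 / 2) : ℝ)) ^ (m + 3) ≤
    (4 * ((p : ℕ) : ℝ) ^ (-(5 / 4) : ℝ)) * r ^ m
  rw [pow_add, e5]
  calc Real.log (p : ℕ) * ((((p : ℕ) : ℝ) ^ (-(1 / 2) : ℝ)) ^ m * ((p : ℕ) : ℝ) ^ (-(3 / 2) : ℝ))
      ≤ (((p : ℕ) : ℝ) ^ (1 / 4 : ℝ) / (1 / 4)) * (r ^ m * ((p : ℕ) : ℝ) ^ (-(3 / 2) : ℝ)) := by
        refine mul_le_mul e4 ?_ (by positivity) (by positivity)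
        exact mul_le_mul_of_nonneg_right e3 (by positivity)
    _ = (4 * (((p : ℕ) : ℝ) ^ (1 / 4 : ℝ) * ((p : ℕ) : ℝ) ^ (-(3 / 2) : ℝ))) * r ^ m := by ring
    _ = _ := by rw [e6]

theorem Bnd_split {F : OP × ℕ → ℝ} (hF : Summable F) :
    ∑' i, F i = ∑' p : OP, F (p, 0) + ∑' i : OP × ℕ, F (i.1, i.2 + 1) := by
  have h0 : Summable (fun p : OP => F (p, 0)) :=
    hF.comp_injective (i := fun p : OP => (p, (0 : ℕ))) (fun a b h => (Prod.mk.inj h).1)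
  have h1 : Summable (fun i : OP × ℕ => F (i.1, i.2 + 1)) :=
    hF.comp_injective (i := fun i : OP × ℕ => (i.1, i.2 + 1)) (fun a b h => by
      obtain ⟨ha, hb⟩ := Prod.mk.inj h
      exact Prod.ext ha (Nat.succ_injective hb))
  rw [hF.tsum_prod, h1.tsum_prod]
  have h4 : ∀ p : OP, ∑' m : ℕ, F (p, m) = F (p, 0) + ∑' m : ℕ, F (p, m + 1) := fun p =>
    (hF.prod_factor p).tsum_eq_zero_add
  rw [tsum_congr h4, Summable.tsum_add h0 h1.prod]

theorem Bnd_summ {F : OP × ℕ → ℝ} (hF : Summable F) :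
    Summable (fun i : OP × ℕ => F (i.1, i.2 + 1)) :=
  hF.comp_injective (i := fun i : OP × ℕ => (i.1, i.2 + 1)) (fun a b h => by
      obtain ⟨ha, hb⟩ := Prod.mk.inj h
      exact Prod.ext ha (Nat.succ_injective hb))

open Classical in
/-- The sum over the odd primes up to `e^u`. -/
noncomputable def Bnd_PS (f : ℕ → ℝ) (u : ℝ) : ℝ :=
  ∑ q ∈ Finset.Icc 1 ⌊Real.exp u⌋₊, if q.Prime ∧ q ≠ 2 then f q else 0

theorem Bnd_hs (f : ℕ → ℝ) (u : ℝ) :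
    HasSum (fun p : OP => if Real.log (p : ℕ) ≤ u then f p else 0) (Bnd_PS f u) := by
  classical
  set G : ℕ → ℝ := fun q => if (q.Prime ∧ q ≠ 2) ∧ Real.log q ≤ u then f q else 0 with hG
  have h1 : HasSum G (∑ q ∈ Finset.Icc 1 ⌊Real.exp u⌋₊, G q) := by
    refine hasSum_sum_of_ne_finset_zero ?_
    intro q hq
    rw [hG]
    refine if_neg ?_
    rintro ⟨⟨h2, -⟩, h3⟩
    apply hq
    rw [Finset.mem_Icc]
    refine ⟨h2.one_lt.le, Nat.le_floor ?_⟩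
    rw [← Real.log_le_iff_le_exp (by exact_mod_cast h2.pos)]
    exact h3
  have h2 : ∑ q ∈ Finset.Icc 1 ⌊Real.exp u⌋₊, G q = Bnd_PS f u := by
    unfold Bnd_PS
    refine Finset.sum_congr rfl fun q hq => ?_
    rw [Finset.mem_Icc] at hq
    have h3 : (q : ℝ) ≤ Real.exp u :=
      (Nat.cast_le.2 hq.2).trans (Nat.floor_le (Real.exp_pos _).le)
    have h4 : Real.log q ≤ u := by
      rw [Real.log_le_iff_le_exp (by exact_mod_cast hq.1)]
      exact h3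
    by_cases h5 : q.Prime ∧ q ≠ 2
    · rw [hG, if_pos h5]
      exact if_pos ⟨h5, h4⟩
    · rw [hG, if_neg h5]
      exact if_neg fun h => h5 h.1
  rw [h2] at h1
  have h3 := (hasSum_subtype_iff_of_support_subset (f := G) (s := {q : ℕ | q.Prime ∧ q ≠ 2})
    (a := Bnd_PS f u) (by
      intro q hq
      by_contra h
      refine hq ?_
      rw [hG]
      exact if_neg fun h' => h h'.1)).2 h1
  refine h3.congr_fun ?_
  intro p
  have hp : ((p : ℕ).Prime ∧ (p : ℕ) ≠ 2) := p.2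
  show (if Real.log (p : ℕ) ≤ u then f p else 0) =
    if (((p : ℕ)).Prime ∧ (p : ℕ) ≠ 2) ∧ Real.log (p : ℕ) ≤ u then f p else 0
  by_cases h : Real.log (p : ℕ) ≤ u
  · rw [if_pos h, if_pos ⟨hp, h⟩]
  · rw [if_neg h, if_neg fun h' => h h'.2]

theorem Bnd_add (f g : ℕ → ℝ) (u : ℝ) :
    Bnd_PS (fun q => f q + g q) u = Bnd_PS f u + Bnd_PS g u := by
  unfold Bnd_PS
  rw [← Finset.sum_add_distrib]
  refine Finset.sum_congr rfl fun q _ => ?_
  split_ifs <;> simp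

theorem Bnd_smul (c : ℝ) (f : ℕ → ℝ) (u : ℝ) :
    Bnd_PS (fun q => c * f q) u = c * Bnd_PS f u := by
  unfold Bnd_PS
  rw [Finset.mul_sum]
  refine Finset.sum_congr rfl fun q _ => ?_
  split_ifs <;> simp

theorem Bnd_congr {f g : ℕ → ℝ} (h : ∀ q : ℕ, q.Prime → q ≠ 2 → f q = g q) (u : ℝ) :
    Bnd_PS f u = Bnd_PS g u := by
  unfold Bnd_PS
  refine Finset.sum_congr rfl fun q _ => ?_
  split_ifs with h1
  · exact h q h1.1 h1.2
  · rfl

theorem Bnd_dvd (f : ℕ → ℝ) (n : ℕ) (hn : n ≠ 0) (u : ℝ) :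
    |Bnd_PS (fun q => if q ∣ n then f q else 0) u| ≤ ∑ q ∈ n.divisors, |f q| := by
  classical
  unfold Bnd_PS
  refine (Finset.abs_sum_le_sum_abs _ _).trans ?_
  have h1 : ∀ q ∈ Finset.Icc 1 ⌊Real.exp u⌋₊,
      |if q.Prime ∧ q ≠ 2 then (if q ∣ n then f q else 0) else 0| ≤
        if q ∣ n then |f q| else 0 := by
    intro q _
    split_ifs <;> simp
  refine (Finset.sum_le_sum (fun q hq => ?_) : _ ≤
    ∑ q ∈ Finset.Icc 1 ⌊Real.exp u⌋₊, if q ∣ n then |f q| else 0).trans ?_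
  · have := h1 q hq
    split_ifs at this ⊢ <;> simp_all
  · rw [← Finset.sum_filter]
    refine Finset.sum_le_sum_of_subset_of_nonneg ?_ (fun _ _ _ => abs_nonneg _)
    intro q hq
    rw [Finset.mem_filter] at hq
    exact Nat.mem_divisors.2 ⟨hq.2, hn⟩

/-- The tail of the series for `ell`. -/
theorem Bnd_rem (a : ℂ) (p : OP) (ha : ‖a‖ ^ 2 = ((p : ℕ) : ℝ)) :
    |(-ell a p - 2 * a.re / ((p : ℕ) : ℝ) - (a ^ 2).re / ((p : ℕ) : ℝ) ^ 2) *
      Real.log (p : ℕ)| ≤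
      ∑' m : ℕ, 2 * (Real.log (p : ℕ) * (((p : ℕ) : ℝ) ^ (-(1 / 2) : ℝ)) ^ (m + 3)) := by
  have hp := Cheb_three p
  have hp0 : (0 : ℝ) < (p : ℕ) := by linarith
  have hlog : 0 ≤ Real.log (p : ℕ) := Real.log_nonneg (by linarith)
  have hp3 : 3 ≤ (p : ℕ) := by exact_mod_cast hp
  have h1 := ell_series a p hp3 ha
  have h2 : HasSum (fun m : ℕ => 2 * (a ^ (m + 2 + 1)).re /
      ((((m + 2 : ℕ) : ℝ) + 1) * ((p : ℕ) : ℝ) ^ (m + 2 + 1)))
      (-ell a p - 2 * a.re / ((p : ℕ) : ℝ) - (a ^ 2).re / ((p : ℕ) : ℝ) ^ 2) := by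
    have h3 := (hasSum_nat_add_iff' 2).2 h1
    have h4 : ∑ i ∈ Finset.range 2, 2 * (a ^ (i + 1)).re /
        (((i : ℝ) + 1) * ((p : ℕ) : ℝ) ^ (i + 1)) =
        2 * a.re / ((p : ℕ) : ℝ) + (a ^ 2).re / ((p : ℕ) : ℝ) ^ 2 := by
      rw [Finset.sum_range_succ, Finset.sum_range_one]
      norm_num
      field_simp
    rw [h4, ← sub_sub] at h3
    exact h3
  have h5 := h2.mul_right (Real.log (p : ℕ))
  have h6 : Summable (fun m : ℕ =>
      2 * (Real.log (p : ℕ) * (((p : ℕ) : ℝ) ^ (-(1 / 2) : ℝ)) ^ (m + 3))) :=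
    (three_summable.prod_factor p).mul_left 2
  rw [← h5.tsum_eq, ← Real.norm_eq_abs]
  refine tsum_of_norm_bounded h6.hasSum ?_
  intro m
  have hn : ‖a‖ = ((p : ℕ) : ℝ) ^ (1 / 2 : ℝ) := by
    rw [← Real.sqrt_eq_rpow, ← ha, Real.sqrt_sq (norm_nonneg _)]
  have e1 : |(a ^ (m + 3)).re| ≤ (((p : ℕ) : ℝ) ^ (1 / 2 : ℝ)) ^ (m + 3) := by
    refine (Complex.abs_re_le_norm _).trans ?_
    rw [norm_pow, hn]
  have e2 : (((p : ℕ) : ℝ) ^ (1 / 2 : ℝ)) ^ (m + 3) / ((p : ℕ) : ℝ) ^ (m + 3) =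
      (((p : ℕ) : ℝ) ^ (-(1 / 2) : ℝ)) ^ (m + 3) := by
    rw [← div_pow]
    congr 1
    rw [div_eq_iff hp0.ne']
    nth_rewrite 3 [← Real.rpow_one ((p : ℕ) : ℝ)]
    rw [← Real.rpow_add hp0]
    norm_num
  rw [Real.norm_eq_abs, abs_mul, abs_of_nonneg hlog, abs_div, abs_mul, abs_of_pos
    (by positivity : (0 : ℝ) < (((m + 2 : ℕ) : ℝ) + 1) * ((p : ℕ) : ℝ) ^ (m + 2 + 1)),
    abs_of_pos (by norm_num : (0 : ℝ) < 2)]
  have e3 : 2 * |(a ^ (m + 2 + 1)).re| / ((((m + 2 : ℕ) : ℝ) + 1) * ((p : ℕ) : ℝ) ^ (m + 2 + 1)) ≤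
      2 * (((p : ℕ) : ℝ) ^ (-(1 / 2) : ℝ)) ^ (m + 3) := by
    rw [← e2, ← mul_div_assoc]
    refine div_le_div₀ (by positivity) (by linarith) (by positivity) ?_
    have h7 : (1 : ℝ) ≤ ((m + 2 : ℕ) : ℝ) + 1 := by
      have : (0 : ℝ) ≤ ((m + 2 : ℕ) : ℝ) := by positivity
      linarith
    have h8 : (0 : ℝ) ≤ ((p : ℕ) : ℝ) ^ (m + 3) := by positivity
    nlinarith
  calc 2 * |(a ^ (m + 2 + 1)).re| / ((((m + 2 : ℕ) : ℝ) + 1) * ((p : ℕ) : ℝ) ^ (m + 2 + 1)) *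
        Real.log (p : ℕ) ≤ 2 * (((p : ℕ) : ℝ) ^ (-(1 / 2) : ℝ)) ^ (m + 3) * Real.log (p : ℕ) :=
        mul_le_mul_of_nonneg_right e3 hlog
    _ = _ := by ring

/-- The sum of the remainders. -/
theorem Bnd_R (α : ℕ → ℂ) (hα : ∀ p : ℕ, p.Prime → p ≠ 2 → ‖α p‖ ^ 2 = p) (u : ℝ) :
    |Bnd_PS (fun q => (-ell (α q) q - 2 * (α q).re / (q : ℝ) - ((α q) ^ 2).re / (q : ℝ) ^ 2) *
      Real.log q) u| ≤ ∑' i : OP × ℕ,
        2 * (Real.log (i.1 : ℕ) * (((i.1 : ℕ) : ℝ) ^ (-(1 / 2) : ℝ)) ^ (i.2 + 3)) := by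
  have hs := three_summable.mul_left 2
  rw [← (Bnd_hs _ u).tsum_eq, hs.tsum_prod, ← Real.norm_eq_abs]
  refine tsum_of_norm_bounded hs.prod.hasSum ?_
  intro p
  split_ifs with h
  · rw [Real.norm_eq_abs]
    exact Bnd_rem (α p) p (hα p p.2.1 p.2.2)
  · rw [norm_zero]
    have hp := Cheb_three p
    have hlog : 0 ≤ Real.log (p : ℕ) := Real.log_nonneg (by linarith)
    exact tsum_nonneg fun m => by positivity

/-- `ALs + SS` is bounded.  For an odd prime `p ∤ n` with `log p ≤ u` the term of `ALs` is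
`-Σ_m 2 Re(α^m) log p/(m p^m)` and the terms of `SS` are `Σ_{m log p ≤ u} 2 Re(α^m) log p/p^m`: the
terms `m = 1` cancel; the terms `m ≥ 3` are in both sums at most `2 log p p^{-m/2}`
(`three_summable`); the terms `m = 2` give `M2'(u/2) - M2'(u)/2` where `M2'` is `M2` without the primes
dividing `n` (finitely many, so `M2' = M2 + O(1)`), which is bounded by `M2_bd`
(`-u/2 + u/2 = 0`).  The primes `p ∣ n` contribute to `ALs` only, finitely many terms. -/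
theorem B_bd (n j : ℕ) (hj : j = 0 ∨ j = 1) (hn : Odd n) (hs : Squarefree n) :
    ∃ C : ℝ, ∀ u : ℝ, 0 ≤ u → |ALs (alF n j) u + SS n j u| ≤ C := by
  set α := alF n j with hαdef
  have hα : ∀ p : ℕ, p.Prime → p ≠ 2 → ‖α p‖ ^ 2 = p := fun p hp h2 => norm_alF n j p hp h2
  obtain ⟨C, hC⟩ := M2_bd α (LLF n j) WW (dataF_fam n j hj hn hs)
  have hn0 : n ≠ 0 := by
    rintro rfl
    exact absurd hn (by decide)
  set S3 : ℝ := ∑' i : OP × ℕ,
    2 * (Real.log (i.1 : ℕ) * (((i.1 : ℕ) : ℝ) ^ (-(1 / 2) : ℝ)) ^ (i.2 + 3)) with hS3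
  have hs3 : Summable (fun i : OP × ℕ =>
    2 * (Real.log (i.1 : ℕ) * (((i.1 : ℕ) : ℝ) ^ (-(1 / 2) : ℝ)) ^ (i.2 + 3))) :=
    three_summable.mul_left 2
  set F0 : ℕ → ℝ := fun q => 2 * (α q).re * Real.log q / q with hF0
  set F1 : ℕ → ℝ := fun q => 2 * ((α q) ^ 2).re * Real.log q / (q : ℝ) ^ 2 with hF1
  set D0 : ℝ := ∑ q ∈ n.divisors, |F0 q| with hD0
  set D1 : ℝ := ∑ q ∈ n.divisors, |F1 q| with hD1
  refine ⟨D0 + D1 + 2 * C + 2 * S3, ?_⟩
  intro u hu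
  -- the coefficients of `SS`
  set c : OP × ℕ → ℝ := fun i => vL i * cA (aL n j) i with hc
  have hds : DS c vL (1 - 1 / 2) :=
    ds_mul (ds_cA (aL n j) (1 / 2) (by norm_num) (by norm_num) (aL_bd n j))
  have hF := (st_bd hds 1 (by norm_num) u).1
  have hSS : SS n j u = ∑' i, if vL i ≤ u then c i else 0 := rfl
  have hcv : ∀ (p : OP) (m : ℕ), c (p, m) = 2 * Real.log (p : ℕ) * ((aL n j p) ^ (m + 1)).re := by
    intro p m
    simp only [hc, vL, cA]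
    field_simp
  have hc0 : ∀ p : OP, c (p, 0) = F0 p + (-1) * (if (p : ℕ) ∣ n then F0 p else 0) := by
    intro p
    rw [hcv, zero_add, pow_one]
    unfold aL
    split_ifs with h
    · simp
    · rw [← Complex.ofReal_natCast, Complex.div_ofReal_re]
      simp only [hF0]
      ring
  have hc1 : ∀ p : OP, c (p, 1) = F1 p + (-1) * (if (p : ℕ) ∣ n then F1 p else 0) := by
    intro p
    rw [hcv]
    unfold aL
    split_ifs with h
    · simp
    · rw [div_pow, ← Complex.ofReal_natCast, ← Complex.ofReal_pow, Complex.div_ofReal_re]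
      simp only [hF1]
      norm_num
      ring
  have hcb : ∀ (p : OP) (m : ℕ), |c (p, m + 2)| ≤
      2 * (Real.log (p : ℕ) * (((p : ℕ) : ℝ) ^ (-(1 / 2) : ℝ)) ^ (m + 3)) := by
    intro p m
    have hp := Cheb_three p
    have hlog : 0 ≤ Real.log (p : ℕ) := Real.log_nonneg (by linarith)
    rw [hcv, abs_mul, abs_of_nonneg (by positivity : 0 ≤ 2 * Real.log (p : ℕ)), mul_assoc]
    refine mul_le_mul_of_nonneg_left (mul_le_mul_of_nonneg_left ?_ hlog) (by norm_num)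
    refine (Complex.abs_re_le_norm _).trans ?_
    rw [norm_pow]
    exact pow_le_pow_left₀ (norm_nonneg _) (aL_bd n j p) _
  -- splitting
  set T : ℝ := ∑' i : OP × ℕ, (if vL (i.1, i.2 + 1 + 1) ≤ u then c (i.1, i.2 + 1 + 1) else 0)
    with hT
  have hTb : |T| ≤ S3 := by
    rw [hT, ← Real.norm_eq_abs]
    refine tsum_of_norm_bounded hs3.hasSum ?_
    rintro ⟨p, m⟩
    have hp := Cheb_three p
    have hlog : 0 ≤ Real.log (p : ℕ) := Real.log_nonneg (by linarith)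
    show ‖if vL (p, m + 1 + 1) ≤ u then c (p, m + 1 + 1) else 0‖ ≤
      2 * (Real.log (p : ℕ) * (((p : ℕ) : ℝ) ^ (-(1 / 2) : ℝ)) ^ (m + 3))
    split_ifs
    · rw [Real.norm_eq_abs]
      exact hcb p m
    · rw [norm_zero]
      positivity
  have hsplit : SS n j u = ∑' p : OP, (if vL (p, 0) ≤ u then c (p, 0) else 0) +
      (∑' p : OP, (if vL (p, 0 + 1) ≤ u then c (p, 0 + 1) else 0) + T) := by
    rw [hSS, Bnd_split hF, Bnd_split (Bnd_summ hF)]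
  have h0 : ∑' p : OP, (if vL (p, 0) ≤ u then c (p, 0) else 0) =
      Bnd_PS (fun q => F0 q + (-1) * (if q ∣ n then F0 q else 0)) u := by
    rw [← (Bnd_hs _ u).tsum_eq]
    refine tsum_congr fun p => ?_
    have hv : vL (p, 0) = Real.log (p : ℕ) := by simp [vL]
    rw [hv, hc0]
  have h1 : ∑' p : OP, (if vL (p, 0 + 1) ≤ u then c (p, 0 + 1) else 0) =
      Bnd_PS (fun q => F1 q + (-1) * (if q ∣ n then F1 q else 0)) (u / 2) := by
    rw [← (Bnd_hs _ (u / 2)).tsum_eq]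
    refine tsum_congr fun p => ?_
    have hv : vL (p, 0 + 1) = 2 * Real.log (p : ℕ) := by
      simp only [vL]
      norm_num
    have hiff : (vL (p, 0 + 1) ≤ u) ↔ (Real.log (p : ℕ) ≤ u / 2) := by
      rw [hv]
      constructor <;> intro h <;> linarith
    have hc1' : c (p, 0 + 1) = F1 p + (-1) * (if (p : ℕ) ∣ n then F1 p else 0) := hc1 p
    by_cases h : Real.log (p : ℕ) ≤ u / 2
    · rw [if_pos (hiff.2 h), if_pos h, hc1']
    · rw [if_neg (fun h' => h (hiff.1 h')), if_neg h]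
  rw [Bnd_add, Bnd_smul (-1) (fun q => if q ∣ n then F0 q else 0)] at h0
  rw [Bnd_add, Bnd_smul (-1) (fun q => if q ∣ n then F1 q else 0)] at h1
  have hM : ∀ v, Bnd_PS F1 v = M2 α v := fun v => rfl
  have hA : ALs α u = Bnd_PS (fun q => ell (α q) q * Real.log q) u := by
    unfold ALs Bnd_PS el
    refine Finset.sum_congr rfl fun q _ => ?_
    rw [ite_mul, zero_mul]
  set R : ℕ → ℝ := fun q => (-ell (α q) q - 2 * (α q).re / (q : ℝ) -
    ((α q) ^ 2).re / (q : ℝ) ^ 2) * Real.log q with hR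
  have hA2 : ALs α u = (-1) * Bnd_PS F0 u + ((-(1 / 2)) * Bnd_PS F1 u + (-1) * Bnd_PS R u) := by
    rw [hA, ← Bnd_smul, ← Bnd_smul, ← Bnd_smul, ← Bnd_add, ← Bnd_add]
    refine Bnd_congr (fun q hq _ => ?_) u
    simp only [hF0, hF1, hR]
    ring
  have hRb : |Bnd_PS R u| ≤ S3 := Bnd_R α hα u
  have hb0 := Bnd_dvd F0 n hn0 u
  have hb1 := Bnd_dvd F1 n hn0 (u / 2)
  have hm1 := hC u hu
  have hm2 := hC (u / 2) (by linarith)
  rw [hsplit, h0, h1, hA2, hM, hM]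
  rw [abs_le] at hRb hb0 hb1 hm1 hm2 hTb ⊢
  constructor <;> linarith

end W3283l
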