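import Pool.Agent.W_3283e1_lw.Defs

set_option autoImplicit false

namespace W3283l

open MeasureTheory

variable {ι : Type} {γ m : ι → ℝ}

theorem zd_summable (h : ZD γ m) (z : ℝ) : Summable (fun i => m i / (z ^ 2 + (γ i) ^ 2)) := by
  refine Summable.of_nonneg_of_le (fun i => ?_) (fun i => ?_) h.sm
  · have h1 := h.pos i
    have h2 := h.one i
    positivity
  · have h1 := h.pos i
    have h2 := h.one i
    have h3 : (0 : ℝ) < γ i ^ 2 := by positivity
    exact div_le_div_of_nonneg_left (by linarith) h3 (by nlinarith [sq_nonneg z])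

/-- `h.asy` with `z = Y`.  The terms with `γ i ≤ Y` are at least `2 m Y/(2 Y²) = m/Y`, so the sum of the
`m i` over any finite set of them is at most `Y (log Y + C)`; the terms with `γ i > Y` are at least
`2 m Y/(2 γ²)`, so `Σ_{γ > Y} m/γ² ≤ (log Y + C)/Y`.  And `m/γ = γ (m/γ²) ≤ Y m/γ²` for `γ ≤ Y`. -/
theorem cnt (h : ZD γ m) : ∃ C : ℝ, 0 ≤ C ∧ ∀ Y : ℝ, 1 ≤ Y →
    (∀ s : Finset ι, (∀ i ∈ s, γ i ≤ Y) →
      ∑ i ∈ s, m i ≤ Y * (Real.log Y + C) ∧ ∑ i ∈ s, m i / γ i ≤ C * Y) ∧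
    ∑' i, (if γ i ≤ Y then 0 else m i / (γ i) ^ 2) ≤ (Real.log Y + C) / Y := by
  obtain ⟨C0, hC0⟩ := h.asy
  have hC0n : 0 ≤ C0 := (abs_nonneg _).trans (hC0 1 le_rfl)
  have hS : 0 ≤ ∑' i, m i / (γ i) ^ 2 := tsum_nonneg fun i => by
    have h1 := h.pos i
    have h2 := h.one i
    positivity
  refine ⟨C0 + ∑' i, m i / (γ i) ^ 2, by positivity, fun Y hY => ?_⟩
  have hY0 : 0 < Y := by linarith
  have hT : ∑' i, 2 * m i * Y / (Y ^ 2 + (γ i) ^ 2) ≤ Real.log Y + C0 := by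
    have h1 := (abs_le.1 (hC0 Y hY)).2
    linarith
  have hsT : Summable fun i => 2 * m i * Y / (Y ^ 2 + (γ i) ^ 2) := by
    refine ((zd_summable h Y).mul_left (2 * Y)).congr fun i => ?_
    ring
  have hnn : ∀ i, 0 ≤ 2 * m i * Y / (Y ^ 2 + (γ i) ^ 2) := fun i => by
    have h1 := h.pos i
    have h2 := h.one i
    positivity
  refine ⟨fun s hs => ⟨?_, ?_⟩, ?_⟩
  · have h1 : ∑ i ∈ s, m i / Y ≤ Real.log Y + C0 := by
      refine le_trans ?_ (((hsT.sum_le_tsum s fun i _ => hnn i)).trans hT)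
      refine Finset.sum_le_sum fun i hi => ?_
      have h1 := h.pos i
      have h2 := h.one i
      have h3 := hs i hi
      rw [div_le_div_iff₀ hY0 (by positivity)]
      nlinarith [mul_nonneg (by linarith : (0 : ℝ) ≤ m i)
        (mul_nonneg (by linarith : (0 : ℝ) ≤ Y - γ i) (by linarith : (0 : ℝ) ≤ Y + γ i))]
    rw [← Finset.sum_div, div_le_iff₀ hY0] at h1
    nlinarith
  · have h1 : ∑ i ∈ s, m i / γ i ≤ Y * ∑ i ∈ s, m i / (γ i) ^ 2 := by
      rw [Finset.mul_sum]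
      refine Finset.sum_le_sum fun i hi => ?_
      have h1 := h.pos i
      have h2 := h.one i
      have h3 := hs i hi
      rw [mul_div_assoc', div_le_div_iff₀ h1 (by positivity)]
      nlinarith [mul_nonneg (mul_nonneg (by linarith : (0 : ℝ) ≤ m i) h1.le)
        (by linarith : (0 : ℝ) ≤ Y - γ i)]
    have h2 : ∑ i ∈ s, m i / (γ i) ^ 2 ≤ ∑' i, m i / (γ i) ^ 2 :=
      h.sm.sum_le_tsum s fun i _ => by
        have h1 := h.pos i
        have h2 := h.one i
        positivity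
    nlinarith
  · have hle : ∀ i, (if γ i ≤ Y then 0 else m i / (γ i) ^ 2) ≤
        Y⁻¹ * (2 * m i * Y / (Y ^ 2 + (γ i) ^ 2)) := by
      intro i
      have h1 := h.pos i
      have h2 := h.one i
      split_ifs with h3
      · exact mul_nonneg (inv_nonneg.2 hY0.le) (hnn i)
      · push Not at h3
        have h4 : Y⁻¹ * (2 * m i * Y / (Y ^ 2 + (γ i) ^ 2)) = 2 * m i / (Y ^ 2 + (γ i) ^ 2) := by
          field_simp
        rw [h4, div_le_div_iff₀ (by positivity) (by positivity)]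
        nlinarith [mul_nonneg (by linarith : (0 : ℝ) ≤ m i)
          (mul_nonneg (by linarith : (0 : ℝ) ≤ γ i - Y) (by linarith : (0 : ℝ) ≤ Y + γ i))]
    have hs2 : Summable fun i => Y⁻¹ * (2 * m i * Y / (Y ^ 2 + (γ i) ^ 2)) := hsT.mul_left _
    have hs1 : Summable fun i => (if γ i ≤ Y then 0 else m i / (γ i) ^ 2) := by
      refine Summable.of_nonneg_of_le (fun i => ?_) hle hs2
      have h1 := h.pos i
      have h2 := h.one i
      split_ifs
      · exact le_rfl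
      · positivity
    refine (hs1.tsum_le_tsum hle hs2).trans ?_
    rw [tsum_mul_left, le_div_iff₀ hY0, inv_mul_eq_div, div_mul_cancel₀ _ hY0.ne']
    linarith

/-- From `cnt` and `1 ≤ m i` (the cardinality of every finite subset is bounded). -/
theorem cnt_fin (h : ZD γ m) (Y : ℝ) : {i | γ i ≤ Y}.Finite := by
  obtain ⟨C, hC, hcnt⟩ := cnt h
  by_contra hinf
  have hY1 : (1 : ℝ) ≤ max Y 1 := le_max_right _ _
  obtain ⟨N, hN⟩ := exists_nat_gt (max Y 1 * (Real.log (max Y 1) + C))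
  obtain ⟨t, ht, hc⟩ := Set.Infinite.exists_subset_card_eq hinf N
  have h1 := ((hcnt (max Y 1) hY1).1 t fun i hi => (ht hi).trans (le_max_left _ _)).1
  have h2 : (N : ℝ) ≤ ∑ i ∈ t, m i := by
    rw [← hc, Finset.card_eq_sum_ones]
    push_cast
    exact Finset.sum_le_sum fun i _ => h.one i
  linarith

theorem Cnt_abs (h : ZD γ m) (η z U : ℝ) (hη : η = 1 ∨ η = -1) (hz : 1 ≤ z) (i : ι) :
    |2 * m i * z * (z * Real.sin (γ i * U) + η * γ i * Real.cos (γ i * U)) /
      (γ i * (z ^ 2 + (γ i) ^ 2))| ≤ 4 * z * (m i / (γ i) ^ 2) := by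
  have h1 := h.pos i
  have h2 := h.one i
  have hz0 : 0 < z := by linarith
  have hηa : |η| = 1 := by
    rcases hη with rfl | rfl <;> simp
  have h3 : |z * Real.sin (γ i * U) + η * γ i * Real.cos (γ i * U)| ≤ z + γ i := by
    refine (abs_add_le _ _).trans ?_
    rw [abs_mul, abs_mul, abs_mul, hηa, one_mul, abs_of_pos hz0, abs_of_pos h1]
    have h4 := Real.abs_sin_le_one (γ i * U)
    have h5 := Real.abs_cos_le_one (γ i * U)
    nlinarith
  rw [abs_div, abs_mul, abs_of_pos (by positivity : 0 < 2 * m i * z),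
    abs_of_pos (by positivity : 0 < γ i * (z ^ 2 + (γ i) ^ 2))]
  have h4 : 2 * m i * z * |z * Real.sin (γ i * U) + η * γ i * Real.cos (γ i * U)| /
      (γ i * (z ^ 2 + (γ i) ^ 2)) ≤ 2 * m i * z * (z + γ i) / (γ i * (z ^ 2 + (γ i) ^ 2)) := by
    gcongr
  refine h4.trans ?_
  rw [mul_div_assoc', div_le_div_iff₀ (by positivity) (by positivity)]
  have h5 : (z + γ i) * γ i ≤ 2 * (z ^ 2 + γ i ^ 2) := by nlinarith [sq_nonneg (z - γ i)]
  have h6 : 0 ≤ 2 * m i * z * γ i := by positivity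
  nlinarith [mul_le_mul_of_nonneg_left h5 h6]

/-- `|z sin + η γ cos| ≤ z + γ ≤ 2 √(z²+γ²)` and `z (z+γ)/(z²+γ²) ≤ 2`, so the terms of `Vz` are at most
`4 m/γ · min (1, z/γ)`: bound the terms by `4 z m/γ²`
(`z (z + γ) ≤ 2 z √(z²+γ²)`, `1/√(z²+γ²) ≤ 1/γ`). -/
theorem vz_le (h : ZD γ m) (η z U : ℝ) (hη : η = 1 ∨ η = -1) (hz : 1 ≤ z) :
    Summable (fun i => 2 * m i * z * (z * Real.sin (γ i * U) + η * γ i * Real.cos (γ i * U)) /
      (γ i * (z ^ 2 + (γ i) ^ 2))) ∧
    |Vz γ m η z U| ≤ 4 * z * ∑' i, m i / (γ i) ^ 2 := by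
  have hb : ∀ i, ‖2 * m i * z * (z * Real.sin (γ i * U) + η * γ i * Real.cos (γ i * U)) /
      (γ i * (z ^ 2 + (γ i) ^ 2))‖ ≤ 4 * z * (m i / (γ i) ^ 2) := fun i => Cnt_abs h η z U hη hz i
  have hs := h.sm.mul_left (4 * z)
  refine ⟨Summable.of_norm_bounded hs hb, ?_⟩
  have h1 := tsum_of_norm_bounded hs.hasSum hb
  rw [tsum_mul_left] at h1
  exact h1

/-- The sum at an almost period.  For `γ ≤ Y` the term of `Vz η z U` and `η` times the term of the sum
`Σ 2 m z/(z²+γ²)` differ by `2 m z |z sin(γU) + η γ (cos(γU) - 1)|/(γ (z²+γ²))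
≤ 2 m q z (z + γ)/(γ (z²+γ²)) ≤ 4 q m/γ`; for `γ > Y` both terms are at most `4 z m/γ²`.  Sum with `cnt`. -/
theorem at_period (h : ZD γ m) : ∃ C : ℝ, 0 ≤ C ∧ ∀ η z U Y q : ℝ, (η = 1 ∨ η = -1) → 1 ≤ z →
    1 ≤ Y → 0 ≤ q → (∀ i, γ i ≤ Y → |Real.cos (γ i * U) - 1| ≤ q ∧ |Real.sin (γ i * U)| ≤ q) →
    |Vz γ m η z U - η * ∑' i, 2 * m i * z / (z ^ 2 + (γ i) ^ 2)| ≤
      C * (q * Y + z * (Real.log Y + 1) / Y) := by
  obtain ⟨C, hC, hcnt⟩ := cnt h
  refine ⟨6 * (1 + C), by positivity, fun η z U Y q hη hz hY hq hper => ?_⟩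
  have hz0 : 0 < z := by linarith
  have hY0 : 0 < Y := by linarith
  have hηa : |η| = 1 := by
    rcases hη with rfl | rfl <;> simp
  have hs1 := (vz_le h η z U hη hz).1
  have hs2 : Summable fun i => η * (2 * m i * z / (z ^ 2 + (γ i) ^ 2)) := by
    refine ((zd_summable h z).mul_left (η * (2 * z))).congr fun i => ?_
    ring
  have hF := cnt_fin h Y
  have hdiff : Vz γ m η z U - η * ∑' i, 2 * m i * z / (z ^ 2 + (γ i) ^ 2) =
      ∑' i, (2 * m i * z * (z * Real.sin (γ i * U) + η * γ i * Real.cos (γ i * U)) /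
        (γ i * (z ^ 2 + (γ i) ^ 2)) - η * (2 * m i * z / (z ^ 2 + (γ i) ^ 2))) := by
    rw [hs1.tsum_sub hs2, tsum_mul_left, Vz]
  have hbd : ∀ i, ‖2 * m i * z * (z * Real.sin (γ i * U) + η * γ i * Real.cos (γ i * U)) /
      (γ i * (z ^ 2 + (γ i) ^ 2)) - η * (2 * m i * z / (z ^ 2 + (γ i) ^ 2))‖ ≤
      4 * q * (if γ i ≤ Y then m i / γ i else 0) +
        6 * z * (if γ i ≤ Y then 0 else m i / (γ i) ^ 2) := by
    intro i
    have h1 := h.pos i
    have h2 := h.one i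
    rw [Real.norm_eq_abs]
    by_cases h3 : γ i ≤ Y
    · rw [if_pos h3, if_pos h3, mul_zero, add_zero]
      obtain ⟨hc, hsn⟩ := hper i h3
      have h4 : 2 * m i * z * (z * Real.sin (γ i * U) + η * γ i * Real.cos (γ i * U)) /
          (γ i * (z ^ 2 + (γ i) ^ 2)) - η * (2 * m i * z / (z ^ 2 + (γ i) ^ 2)) =
          2 * m i * z * (z * Real.sin (γ i * U) + η * γ i * (Real.cos (γ i * U) - 1)) /
            (γ i * (z ^ 2 + (γ i) ^ 2)) := by
        field_simp
        ring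
      have h5 : |z * Real.sin (γ i * U) + η * γ i * (Real.cos (γ i * U) - 1)| ≤ q * (z + γ i) := by
        refine (abs_add_le _ _).trans ?_
        rw [abs_mul, abs_mul, abs_mul, hηa, one_mul, abs_of_pos hz0, abs_of_pos h1]
        nlinarith
      rw [h4, abs_div, abs_mul, abs_of_pos (by positivity : 0 < 2 * m i * z),
        abs_of_pos (by positivity : 0 < γ i * (z ^ 2 + (γ i) ^ 2))]
      have h6 : 2 * m i * z * |z * Real.sin (γ i * U) + η * γ i * (Real.cos (γ i * U) - 1)| /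
          (γ i * (z ^ 2 + (γ i) ^ 2)) ≤
          2 * m i * z * (q * (z + γ i)) / (γ i * (z ^ 2 + (γ i) ^ 2)) := by
        gcongr
      refine h6.trans ?_
      rw [mul_div_assoc', div_le_div_iff₀ (by positivity) h1]
      have h7 : z * (z + γ i) ≤ 2 * (z ^ 2 + γ i ^ 2) := by nlinarith [sq_nonneg (z - γ i)]
      have h8 : 0 ≤ 2 * m i * q * γ i := by positivity
      nlinarith [mul_le_mul_of_nonneg_left h7 h8]
    · rw [if_neg h3, if_neg h3, mul_zero, zero_add]
      refine (abs_sub _ _).trans ?_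
      have h4 := Cnt_abs h η z U hη hz i
      have h5 : |η * (2 * m i * z / (z ^ 2 + (γ i) ^ 2))| ≤ 2 * z * (m i / (γ i) ^ 2) := by
        rw [abs_mul, hηa, one_mul, abs_of_nonneg (by positivity), mul_div_assoc',
          div_le_div_iff₀ (by positivity) (by positivity)]
        nlinarith [mul_nonneg (by positivity : (0 : ℝ) ≤ 2 * m i * z) (sq_nonneg z)]
      linarith
  have hsA : HasSum (fun i => 4 * q * (if γ i ≤ Y then m i / γ i else 0))
      (4 * q * ∑ i ∈ hF.toFinset, m i / γ i) := by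
    refine HasSum.mul_left _ ?_
    have h1 : ∑ i ∈ hF.toFinset, m i / γ i =
        ∑ i ∈ hF.toFinset, (if γ i ≤ Y then m i / γ i else 0) := by
      refine Finset.sum_congr rfl fun i hi => ?_
      have h2 : γ i ≤ Y := hF.mem_toFinset.1 hi
      rw [if_pos h2]
    rw [h1]
    refine hasSum_sum_of_ne_finset_zero fun i hi => ?_
    rw [if_neg]
    intro h2
    exact hi (hF.mem_toFinset.2 h2)
  have hsB0 : Summable fun i => (if γ i ≤ Y then 0 else m i / (γ i) ^ 2) := by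
    refine Summable.of_nonneg_of_le (fun i => ?_) (fun i => ?_) h.sm
    · have h1 := h.pos i
      have h2 := h.one i
      split_ifs
      · exact le_rfl
      · positivity
    · have h1 := h.pos i
      have h2 := h.one i
      split_ifs
      · positivity
      · exact le_rfl
  have hsB := hsB0.hasSum.mul_left (6 * z)
  rw [hdiff]
  have h1 := tsum_of_norm_bounded (hsA.add hsB) hbd
  rw [Real.norm_eq_abs] at h1
  refine h1.trans ?_
  obtain ⟨ha, hb⟩ := hcnt Y hY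
  have h2 := (ha hF.toFinset fun i hi => hF.mem_toFinset.1 hi).2
  have h3 : 4 * q * ∑ i ∈ hF.toFinset, m i / γ i ≤ 6 * (1 + C) * (q * Y) := by
    have h4 := mul_le_mul_of_nonneg_left h2 (by positivity : (0 : ℝ) ≤ 4 * q)
    have h5 : 0 ≤ C * (q * Y) := by positivity
    have h6 : 0 ≤ q * Y := by positivity
    nlinarith
  have hlog : 0 ≤ Real.log Y := Real.log_nonneg hY
  have h4 : 6 * z * ∑' i, (if γ i ≤ Y then 0 else m i / (γ i) ^ 2) ≤
      6 * (1 + C) * (z * (Real.log Y + 1) / Y) := by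
    refine (mul_le_mul_of_nonneg_left hb (by positivity : (0 : ℝ) ≤ 6 * z)).trans ?_
    rw [mul_div_assoc', mul_div_assoc']
    refine div_le_div_of_nonneg_right ?_ hY0.le
    have h5 : 0 ≤ C * Real.log Y * z := by positivity
    nlinarith
  linarith

end W3283l
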