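import Mathlib

set_option autoImplicit false

namespace W3283l

open MeasureTheory Filter Topology

theorem Ode_inv2i {u v : ℝ} (hu : 0 < u) (huv : u ≤ v) :
    IntervalIntegrable (fun t : ℝ => (t ^ 2)⁻¹) volume u v := by
  refine ContinuousOn.intervalIntegrable ?_
  rw [Set.uIcc_of_le huv]
  refine ContinuousOn.inv₀ (by fun_prop) fun t ht => ?_
  have : 0 < t := lt_of_lt_of_le hu ht.1
  positivity

theorem Ode_inv2 {u v : ℝ} (hu : 0 < u) (huv : u ≤ v) :
    ∫ t in u..v, (t ^ 2)⁻¹ = u⁻¹ - v⁻¹ := by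
  have h1 : ∀ t ∈ Set.uIcc u v, HasDerivAt (fun t : ℝ => -t⁻¹) ((t ^ 2)⁻¹) t := by
    intro t ht
    rw [Set.uIcc_of_le huv] at ht
    have ht0 : t ≠ 0 := (lt_of_lt_of_le hu ht.1).ne'
    have h2 := (hasDerivAt_inv ht0).neg
    rwa [neg_neg] at h2
  rw [intervalIntegral.integral_eq_sub_of_hasDerivAt h1 (Ode_inv2i hu huv)]
  ring

theorem Ode_parts {A : ℝ → ℝ} {u v : ℝ} (hu : 0 < u) (huv : u ≤ v)
    (hA : IntervalIntegrable A volume 0 v) :
    ∫ t in u..v, (t ^ 2)⁻¹ * A t = (v ^ 2)⁻¹ * (∫ s in (0 : ℝ)..v, A s) -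
      (u ^ 2)⁻¹ * (∫ s in (0 : ℝ)..u, A s) +
      ∫ t in u..v, 2 * (t ^ 3)⁻¹ * (∫ s in (0 : ℝ)..t, A s) := by
  have hf : AbsolutelyContinuousOnInterval (fun t : ℝ => (t ^ 2)⁻¹) u v := by
    refine ContDiffOn.absolutelyContinuousOnInterval ?_
    rw [Set.uIcc_of_le huv]
    refine ContDiffOn.inv (by fun_prop) fun t ht => ?_
    have : 0 < t := lt_of_lt_of_le hu ht.1
    positivity
  have hsub : Set.uIcc u v ⊆ Set.uIcc 0 v := by
    rw [Set.uIcc_of_le huv, Set.uIcc_of_le (hu.le.trans huv)]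
    exact Set.Icc_subset_Icc hu.le le_rfl
  have hg : AbsolutelyContinuousOnInterval (fun t : ℝ => ∫ s in (0 : ℝ)..t, A s) u v :=
    (hA.absolutelyContinuousOnInterval_intervalIntegral (c := 0) (by simp)).mono hsub
  have h := AbsolutelyContinuousOnInterval.integral_mul_deriv_eq_deriv_mul hf hg
  have h1 : ∫ t in u..v, (t ^ 2)⁻¹ * deriv (fun t : ℝ => ∫ s in (0 : ℝ)..t, A s) t =
      ∫ t in u..v, (t ^ 2)⁻¹ * A t := by
    refine intervalIntegral.integral_congr_ae ?_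
    filter_upwards [hA.ae_hasDerivAt_integral] with x hx hx2
    have hx3 : x ∈ Set.uIcc 0 v := hsub (Set.uIoc_subset_uIcc hx2)
    rw [(hx hx3 0 (by simp)).deriv]
  have h2 : ∫ t in u..v, deriv (fun t : ℝ => (t ^ 2)⁻¹) t * (∫ s in (0 : ℝ)..t, A s) =
      - ∫ t in u..v, 2 * (t ^ 3)⁻¹ * (∫ s in (0 : ℝ)..t, A s) := by
    rw [← intervalIntegral.integral_neg]
    refine intervalIntegral.integral_congr fun t ht => ?_
    rw [Set.uIcc_of_le huv] at ht
    have ht0 : t ≠ 0 := (lt_of_lt_of_le hu ht.1).ne'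
    have h3 : HasDerivAt (fun t : ℝ => (t ^ 2)⁻¹) (-(2 * t) / (t ^ 2) ^ 2) t := by
      have h4 : HasDerivAt (fun t : ℝ => t ^ 2) (2 * t) t := by
        simpa using hasDerivAt_pow 2 t
      exact h4.fun_inv (pow_ne_zero 2 ht0)
    rw [h3.deriv]
    have h5 : -(2 * t) / (t ^ 2) ^ 2 = -(2 * (t ^ 3)⁻¹) := by
      field_simp
    rw [h5]
    ring
  rw [h1, h2] at h
  rw [h]
  ring

theorem Ode_parts_bd {A : ℝ → ℝ} {u v K : ℝ} (hu : 1 ≤ u) (huv : u ≤ v)
    (hA : IntervalIntegrable A volume 0 v)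
    (hF : ∀ t : ℝ, 1 ≤ t → |∫ s in (0 : ℝ)..t, A s| ≤ K * t) :
    |∫ t in u..v, (t ^ 2)⁻¹ * A t| ≤ 4 * K / u := by
  have hu0 : 0 < u := by linarith
  have hv0 : 0 < v := by linarith
  have hK : 0 ≤ K := by
    have h1 := hF 1 le_rfl
    have h2 := abs_nonneg (∫ s in (0 : ℝ)..1, A s)
    linarith
  rw [Ode_parts hu0 huv hA]
  have h1 : |(v ^ 2)⁻¹ * ∫ s in (0 : ℝ)..v, A s| ≤ K / u := by
    rw [abs_mul, abs_of_pos (by positivity : 0 < (v ^ 2)⁻¹)]
    calc (v ^ 2)⁻¹ * |∫ s in (0 : ℝ)..v, A s| ≤ (v ^ 2)⁻¹ * (K * v) :=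
          mul_le_mul_of_nonneg_left (hF v (hu.trans huv)) (by positivity)
      _ = K / v := by field_simp
      _ ≤ K / u := div_le_div_of_nonneg_left hK hu0 huv
  have h2 : |(u ^ 2)⁻¹ * ∫ s in (0 : ℝ)..u, A s| ≤ K / u := by
    rw [abs_mul, abs_of_pos (by positivity : 0 < (u ^ 2)⁻¹)]
    calc (u ^ 2)⁻¹ * |∫ s in (0 : ℝ)..u, A s| ≤ (u ^ 2)⁻¹ * (K * u) :=
          mul_le_mul_of_nonneg_left (hF u hu) (by positivity)
      _ = K / u := by field_simp
  have h3 : |∫ t in u..v, 2 * (t ^ 3)⁻¹ * (∫ s in (0 : ℝ)..t, A s)| ≤ 2 * K / u := by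
    rw [← Real.norm_eq_abs]
    have h4 : ‖∫ t in u..v, 2 * (t ^ 3)⁻¹ * (∫ s in (0 : ℝ)..t, A s)‖ ≤
        ∫ t in u..v, 2 * K * (t ^ 2)⁻¹ := by
      refine intervalIntegral.norm_integral_le_of_norm_le huv ?_ ((Ode_inv2i hu0 huv).const_mul _)
      refine Eventually.of_forall fun t ht => ?_
      have ht1 : 1 ≤ t := hu.trans ht.1.le
      have ht0 : 0 < t := by linarith
      rw [norm_mul, Real.norm_eq_abs, Real.norm_eq_abs,
        abs_of_pos (by positivity : 0 < 2 * (t ^ 3)⁻¹)]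
      calc 2 * (t ^ 3)⁻¹ * |∫ s in (0 : ℝ)..t, A s| ≤ 2 * (t ^ 3)⁻¹ * (K * t) :=
            mul_le_mul_of_nonneg_left (hF t ht1) (by positivity)
        _ = 2 * K * (t ^ 2)⁻¹ := by field_simp
    refine h4.trans ?_
    rw [intervalIntegral.integral_const_mul, Ode_inv2 hu0 huv]
    have h5 : 0 ≤ v⁻¹ := by positivity
    have h6 : 2 * K / u = 2 * K * u⁻¹ := by ring
    rw [h6]
    exact mul_le_mul_of_nonneg_left (by linarith) (by positivity)
  have h4 : 4 * K / u = K / u + K / u + 2 * K / u := by ring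
  rw [h4]
  refine (abs_add_le _ _).trans (add_le_add ?_ h3)
  exact (abs_sub _ _).trans (add_le_add h1 h2)

/-- Solution of `u I' - I = G` with `I(u)/u → 0`, when `∫_0^u G = c u + O(1)` up to a bounded part.
Let `e` be locally integrable on `(0,∞)` and right continuous, `I u = ∫_0^u e`, and
`u e u - I u = G u` for `u > 0`.  Then `J = I/u` has the right derivative `G/u²`, so
`J(v) - J(u) = ∫_u^v G/t² dt` (`intervalIntegral.integral_eq_sub_of_hasDeriv_right`, `J` continuous,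
`G = A + B` locally bounded and measurable), and `v → ∞`: `J(u) = -lim ∫_u^v G/t²`.
`|∫_u^v B/t²| ≤ C/u`, and with `A1 t = ∫_0^t A`, `|A1 t - c t| ≤ C`, integration by parts
`∫_u^v A/t² = A1 v/v² - A1 u/u² + 2 ∫_u^v A1/t³` is at most `(|c| + C)(...)/u ≤ C'/u` for `u ≥ 1`
(do it by Fubini: `1/t² = 1/v² + 2 ∫_t^v ds/s³`).  So `|I u| ≤ C'` and `|u e u - A u| ≤ C''`. -/
theorem ode_bd (e A B : ℝ → ℝ) (he : ∀ u : ℝ, 0 < u → IntegrableOn e (Set.Ioc 0 u))
    (hr : ∀ u : ℝ, 0 < u → ContinuousWithinAt e (Set.Ici u) u)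
    (hA : Measurable A) (CA : ℝ) (hAb : ∀ u : ℝ, 0 ≤ u → |A u| ≤ CA * Real.exp (3 / 4 * u))
    (c C : ℝ) (hA1 : ∀ u : ℝ, 0 ≤ u → |(∫ t in Set.Ioc 0 u, A t) - c * u| ≤ C)
    (hB : ∀ u : ℝ, 0 ≤ u → |B u| ≤ C)
    (hid : ∀ u : ℝ, 0 < u → u * e u - ∫ t in Set.Ioc 0 u, e t = A u + B u)
    (hlim : Tendsto (fun u : ℝ => u⁻¹ * ∫ t in Set.Ioc 0 u, e t) atTop (𝓝 0)) :
    ∃ C' : ℝ, ∀ u : ℝ, 1 ≤ u → |u * e u - A u| ≤ C' := by
  have hC : 0 ≤ C := (abs_nonneg _).trans (hB 0 le_rfl)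
  have hei : ∀ {a b : ℝ}, 0 ≤ a → 0 < b → a ≤ b → IntervalIntegrable e volume a b := by
    intro a b ha hb hab
    rw [intervalIntegrable_iff_integrableOn_Ioc_of_le hab]
    exact (he b hb).mono_set (Set.Ioc_subset_Ioc_left ha)
  have hAi : ∀ {v : ℝ}, 0 ≤ v → IntervalIntegrable A volume 0 v := by
    intro v hv
    rw [intervalIntegrable_iff_integrableOn_Ioc_of_le hv]
    refine Measure.integrableOn_of_bounded (M := CA * Real.exp (3 / 4 * v)) (by simp)
      hA.aestronglyMeasurable ?_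
    refine (ae_restrict_iff' measurableSet_Ioc).2 (Eventually.of_forall fun t ht => ?_)
    have hCA : 0 ≤ CA := by
      have h1 := (abs_nonneg _).trans (hAb 0 le_rfl)
      rw [mul_zero, Real.exp_zero, mul_one] at h1
      exact h1
    rw [Real.norm_eq_abs]
    refine (hAb t ht.1.le).trans (mul_le_mul_of_nonneg_left ?_ hCA)
    exact Real.exp_le_exp.2 (by linarith [ht.2])
  have hset : ∀ (f : ℝ → ℝ) {t : ℝ}, 0 ≤ t → ∫ s in Set.Ioc 0 t, f s = ∫ s in (0 : ℝ)..t, f s :=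
    fun f t ht => (intervalIntegral.integral_of_le ht).symm
  have hF : ∀ t : ℝ, 1 ≤ t → |∫ s in (0 : ℝ)..t, A s| ≤ (|c| + C) * t := by
    intro t ht
    have h1 := hA1 t (by linarith)
    rw [hset A (by linarith : (0 : ℝ) ≤ t)] at h1
    have h2 : |∫ s in (0 : ℝ)..t, A s| ≤ |(∫ s in (0 : ℝ)..t, A s) - c * t| + |c * t| := by
      have := abs_add_le ((∫ s in (0 : ℝ)..t, A s) - c * t) (c * t)
      rwa [sub_add_cancel] at this
    rw [abs_mul, abs_of_nonneg (by linarith : (0 : ℝ) ≤ t)] at h2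
    nlinarith
  have hder : ∀ t : ℝ, 0 < t → HasDerivWithinAt (fun u : ℝ => ∫ s in (0 : ℝ)..u, e s) (e t)
      (Set.Ioi t) t := by
    intro t ht
    have h1 : HasDerivWithinAt (fun u : ℝ => ∫ s in (0 : ℝ)..u, e s) (e t) (Set.Ici t) t := by
      refine intervalIntegral.integral_hasDerivWithinAt_right (t := Set.Ioi t)
        (hei le_rfl ht ht.le) ?_ ((hr t ht).mono Set.Ioi_subset_Ici_self)
      refine ⟨Set.Ioc t (t + 1), Ioc_mem_nhdsGT (by linarith), ?_⟩
      exact ((he (t + 1) (by linarith)).mono_set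
        (Set.Ioc_subset_Ioc_left ht.le)).aestronglyMeasurable
    exact h1.mono Set.Ioi_subset_Ici_self
  have hcont : ∀ {u v : ℝ}, 0 < u → u ≤ v →
      ContinuousOn (fun t : ℝ => ∫ s in (0 : ℝ)..t, e s) (Set.Icc u v) := by
    intro u v hu huv
    have h1 := intervalIntegral.continuousOn_primitive_interval
      (μ := volume) (f := e) (a := 0) (b := v) (by
        rw [Set.uIcc_of_le (hu.le.trans huv), integrableOn_Icc_iff_integrableOn_Ioc]
        exact he v (lt_of_lt_of_le hu huv))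
    rw [Set.uIcc_of_le (hu.le.trans huv)] at h1
    exact h1.mono (Set.Icc_subset_Icc hu.le le_rfl)
  have hJ : ∀ {u v : ℝ}, 1 ≤ u → u ≤ v →
      |v⁻¹ * (∫ s in (0 : ℝ)..v, e s) - u⁻¹ * (∫ s in (0 : ℝ)..u, e s)| ≤
        (4 * (|c| + C) + C) / u := by
    intro u v hu huv
    have hu0 : 0 < u := by linarith
    have hv0 : 0 < v := by linarith
    have hinvc : ContinuousOn (fun t : ℝ => t⁻¹) (Set.Icc u v) :=
      continuousOn_id.inv₀ fun t ht => (lt_of_lt_of_le hu0 ht.1).ne'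
    have hinv2c : ContinuousOn (fun t : ℝ => -(t ^ 2)⁻¹) (Set.Icc u v) := by
      refine ContinuousOn.neg (ContinuousOn.inv₀ (by fun_prop) fun t ht => ?_)
      have : 0 < t := lt_of_lt_of_le hu0 ht.1
      positivity
    have hint : IntervalIntegrable (fun t : ℝ => (-(t ^ 2)⁻¹) * (∫ s in (0 : ℝ)..t, e s) +
        t⁻¹ * e t) volume u v := by
      refine IntervalIntegrable.add ?_ ?_
      · refine ContinuousOn.intervalIntegrable ?_
        rw [Set.uIcc_of_le huv]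
        exact hinv2c.mul (hcont hu0 huv)
      · refine (hei hu0.le hv0 huv).continuousOn_mul ?_
        rw [Set.uIcc_of_le huv]
        exact hinvc
    have hftc := intervalIntegral.integral_eq_sub_of_hasDeriv_right
      (f := fun t : ℝ => t⁻¹ * ∫ s in (0 : ℝ)..t, e s)
      (f' := fun t : ℝ => (-(t ^ 2)⁻¹) * (∫ s in (0 : ℝ)..t, e s) + t⁻¹ * e t)
      (a := u) (b := v) (by
        rw [Set.uIcc_of_le huv]
        exact hinvc.mul (hcont hu0 huv)) (by
        intro t ht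
        rw [min_eq_left huv, max_eq_right huv] at ht
        have ht0 : 0 < t := hu0.trans ht.1
        exact ((hasDerivAt_inv ht0.ne').hasDerivWithinAt).mul (hder t ht0)) hint
    rw [← hftc]
    have hAi2 : IntervalIntegrable (fun t : ℝ => (t ^ 2)⁻¹ * A t) volume u v := by
      refine IntervalIntegrable.continuousOn_mul ((hAi hv0.le).mono_set ?_) ?_
      · rw [Set.uIcc_of_le huv, Set.uIcc_of_le hv0.le]
        exact Set.Icc_subset_Icc hu0.le le_rfl
      · rw [Set.uIcc_of_le huv]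
        refine ContinuousOn.inv₀ (by fun_prop) fun t ht => ?_
        have : 0 < t := lt_of_lt_of_le hu0 ht.1
        positivity
    have hsplit : ∫ t in u..v, ((-(t ^ 2)⁻¹) * (∫ s in (0 : ℝ)..t, e s) + t⁻¹ * e t) =
        (∫ t in u..v, (((-(t ^ 2)⁻¹) * (∫ s in (0 : ℝ)..t, e s) + t⁻¹ * e t) -
          (t ^ 2)⁻¹ * A t)) + ∫ t in u..v, (t ^ 2)⁻¹ * A t := by
      rw [← intervalIntegral.integral_add (hint.sub hAi2) hAi2]
      refine intervalIntegral.integral_congr fun t _ => ?_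
      ring
    rw [hsplit]
    have hBb : |∫ t in u..v, (((-(t ^ 2)⁻¹) * (∫ s in (0 : ℝ)..t, e s) + t⁻¹ * e t) -
          (t ^ 2)⁻¹ * A t)| ≤ C / u := by
      rw [← Real.norm_eq_abs]
      have h4 : ‖∫ t in u..v, (((-(t ^ 2)⁻¹) * (∫ s in (0 : ℝ)..t, e s) + t⁻¹ * e t) -
          (t ^ 2)⁻¹ * A t)‖ ≤ ∫ t in u..v, C * (t ^ 2)⁻¹ := by
        refine intervalIntegral.norm_integral_le_of_norm_le huv ?_
          ((Ode_inv2i hu0 huv).const_mul _)
        refine Eventually.of_forall fun t ht => ?_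
        have ht0 : 0 < t := hu0.trans ht.1
        have h5 := hid t ht0
        rw [hset e ht0.le] at h5
        have h6 : (-(t ^ 2)⁻¹) * (∫ s in (0 : ℝ)..t, e s) + t⁻¹ * e t - (t ^ 2)⁻¹ * A t =
            (t ^ 2)⁻¹ * B t := by
          have h7 : B t = t * e t - (∫ s in (0 : ℝ)..t, e s) - A t := by linarith
          rw [h7]
          field_simp
          ring
        rw [h6, norm_mul, Real.norm_eq_abs, Real.norm_eq_abs,
          abs_of_pos (by positivity : 0 < (t ^ 2)⁻¹), mul_comm]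
        exact mul_le_mul_of_nonneg_right (hB t ht0.le) (by positivity)
      refine h4.trans ?_
      rw [intervalIntegral.integral_const_mul, Ode_inv2 hu0 huv]
      have h5 : 0 ≤ v⁻¹ := by positivity
      rw [div_eq_mul_inv]
      exact mul_le_mul_of_nonneg_left (by linarith) hC
    have hAb2 := Ode_parts_bd hu huv (hAi hv0.le) hF
    refine (abs_add_le _ _).trans ?_
    have h7 : (4 * (|c| + C) + C) / u = C / u + 4 * (|c| + C) / u := by ring
    rw [h7]
    exact add_le_add hBb hAb2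
  have hI : ∀ u : ℝ, 1 ≤ u → |∫ s in (0 : ℝ)..u, e s| ≤ 4 * (|c| + C) + C := by
    intro u hu
    have hu0 : 0 < u := by linarith
    have h1 : Tendsto (fun v : ℝ => |v⁻¹ * (∫ s in Set.Ioc 0 v, e s) -
        u⁻¹ * (∫ s in (0 : ℝ)..u, e s)|) atTop (𝓝 |0 - u⁻¹ * (∫ s in (0 : ℝ)..u, e s)|) :=
      (hlim.sub tendsto_const_nhds).abs
    have h2 : |0 - u⁻¹ * (∫ s in (0 : ℝ)..u, e s)| ≤ (4 * (|c| + C) + C) / u := by
      refine le_of_tendsto h1 ?_
      filter_upwards [eventually_ge_atTop u] with v hv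
      rw [hset e (by linarith : (0 : ℝ) ≤ v)]
      exact hJ hu hv
    rw [zero_sub, abs_neg, abs_mul, abs_of_pos (inv_pos.2 hu0), le_div_iff₀ hu0] at h2
    calc |∫ s in (0 : ℝ)..u, e s| = u⁻¹ * |∫ s in (0 : ℝ)..u, e s| * u := by field_simp
      _ ≤ _ := h2
  refine ⟨4 * (|c| + C) + C + C, fun u hu => ?_⟩
  have hu0 : 0 < u := by linarith
  have h1 := hid u hu0
  rw [hset e hu0.le] at h1
  have h2 : u * e u - A u = (∫ s in (0 : ℝ)..u, e s) + B u := by linarith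
  rw [h2]
  exact (abs_add_le _ _).trans (add_le_add (hI u hu) (hB u hu0.le))

end W3283l
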