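import Pool.Agent.W_3283e1_lw.Exp
import Pool.Agent.W_3283e1_lw.Bnd
import Pool.Agent.W_3283e1_lw.Abel
import Pool.Agent.W_3283e1_lw.Cnt
import Pool.Agent.W_3283e1_lw.Ode
import Pool.Agent.W_3283e1_h53.Ces

set_option autoImplicit false

namespace W3283l

open Complex W3283e1 W3283f MeasureTheory Filter Topology

/-- For the curves: `e = er`, `A = AF`, `B = ALs + SS` (`abel_er`, `B_bd`): `u er - I = ALs - r u
= AF + (ALs + SS)`; `hA1` by `ef_fam` (the sum is bounded by `4 Σ m/γ²`, `om_int`); the means of `er` tend to `0`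
by `W3283g.rh_l2` (`dataR_fam`, `grw_fam`) and `W3283g.Ces_sq`. -/
theorem er_AF (n j : ℕ) (hj : j = 0 ∨ j = 1) (hn : Odd n) (hs : Squarefree n) (r : ℕ) (l : ℝ)
    (hl : l ≠ 0)
    (hlim : Tendsto (fun s : ℂ => LLF n j (1 + s) / s ^ r) (𝓝[≠] 0) (𝓝 (l : ℂ)))
    (hRH : ∀ s : ℂ, 0 < s.re → LLF n j (1 + s) ≠ 0) :
    EF (gaF n j) (muF n j) (AF n j r) ∧
    ∃ C : ℝ, ∀ u : ℝ, 1 ≤ u → |u * W3283g.er (alF n j) (lGold l r) r u - AF n j r u| ≤ C := by
  have hr := fF_zero n j hj hn hs r l hl hlim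
  have hEF := ef_fam n j hj hn hs hRH r hr
  refine ⟨hEF, ?_⟩
  have hZD := zd_fam n j hj hn hs hRH
  obtain ⟨c3, hc3⟩ := hEF.ex
  obtain ⟨CA, hCA⟩ := hEF.bd
  obtain ⟨CB, hCB⟩ := B_bd n j hj hn hs
  obtain ⟨-, ⟨Cc, hCc⟩, -⟩ := cos_lap (gaF n j) (muF n j) hZD
  obtain ⟨K, A, hG⟩ := W3283g.grw_fam n j hj hn hs
  have hDF := dataF_fam n j hj hn hs
  have hαn : ∀ p : ℕ, p.Prime → p ≠ 2 → ‖alF n j p‖ ^ 2 = p := hDF.norm_α
  have heloc : ∀ U : ℝ, IntegrableOn (W3283g.er (alF n j) (lGold l r) r) (Set.Ioc 0 U) :=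
    W3283g.Ces_loc _ (W3283g.er_int (alF n j) hαn (lGold l r) r 1 (by norm_num))
  have hl2 := W3283g.rh_l2 (alF n j) (LLF n j) WW (dataR_fam n j hj hn hs) K A hG r l hl hlim hRH
  have hmean := W3283g.Ces_sq _ heloc hl2
  have hCc0 : 0 ≤ Cc := (abs_nonneg _).trans (hCc 0)
  have hCB0 : 0 ≤ CB := (abs_nonneg _).trans (hCB 0 le_rfl)
  have hom0 : 0 ≤ ∫ t in Set.Ioi (0 : ℝ), om t :=
    setIntegral_nonneg measurableSet_Ioi fun t ht => om_nonneg t ht
  refine ode_bd (W3283g.er (alF n j) (lGold l r) r) (AF n j r)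
    (fun u => ALs (alF n j) u + SS n j u) (fun u _ => heloc u)
    (fun u hu => er_right (alF n j) (lGold l r) r u hu) hEF.meas CA hCA c3
    (Cc + (∫ t in Set.Ioi (0 : ℝ), om t) + CB) ?_ ?_ ?_ hmean
  · intro u hu
    rw [hc3 u hu]
    have h1 := hCc u
    have h2 : 0 ≤ ∫ t in Set.Ioc 0 u, om t :=
      setIntegral_nonneg measurableSet_Ioc fun t ht => om_nonneg t ht.1
    have h3 : ∫ t in Set.Ioc 0 u, om t ≤ ∫ t in Set.Ioi (0 : ℝ), om t := by
      refine setIntegral_mono_set om_int ?_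
        (HasSubset.Subset.eventuallyLE Set.Ioc_subset_Ioi_self)
      exact (ae_restrict_iff' measurableSet_Ioi).2
        (Eventually.of_forall fun t ht => om_nonneg t ht)
    rw [abs_le] at h1 ⊢
    constructor <;> linarith [h1.1, h1.2]
  · intro u hu
    have h1 := hCB u hu
    linarith
  · intro u hu
    have h1 := (abel_er (alF n j) (lGold l r) r u hu).2
    rw [h1]
    unfold AF
    ring

end W3283l
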