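import Pool.Agent.W_3283e1_lw.LitA
import Pool.Agent.W_3283e1_lw.AltA
import Pool.Agent.W_3283e1_lw.AltF
import Pool.Agent.W_3283e1_lw.Ibd

set_option autoImplicit false

namespace W3283l

open Complex W3283e1 W3283f MeasureTheory Filter Topology

/-- The Riemann hypothesis for `LLF` from that for `L` (`h.hzero`). -/
theorem rh_LLF (k : ℕ) (c : ℤ) (n f i j : ℕ) (L : ℂ → ℂ) (r : ℕ) (l V : ℝ)
    (h : W3283g.SU k c n f i j L r l V) (hRH : ∀ s : ℂ, 1 < s.re → L s ≠ 0) :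
    ∀ s : ℂ, 0 < s.re → LLF n j (1 + s) ≠ 0 := by
  intro s hs h0
  refine hRH (1 + s) ?_ ((h.hzero s hs.le).2 h0)
  rw [Complex.add_re, Complex.one_re]
  linarith

/-- Littlewood's theorem for `er` under the Riemann hypothesis: `er_AF` (with `l/V`), `zd_fam`,
`lit_up`, `lit_dn` with `K` the constant of `er_AF`. -/
theorem er_lit (k : ℕ) (c : ℤ) (n f i j : ℕ) (L : ℂ → ℂ) (r : ℕ) (l V : ℝ)
    (h : W3283g.SU k c n f i j L r l V) (hRH : ∀ s : ℂ, 1 < s.re → L s ≠ 0) (lam X : ℝ)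
    (hlam : lam < 1) :
    (∃ u : ℝ, X ≤ u ∧ 3 ≤ u ∧
      lam * Real.log (Real.log u) ≤ u * W3283g.er (alF n j) (lGold (l / V) r) r u) ∧
    ∃ u : ℝ, X ≤ u ∧ 3 ≤ u ∧
      u * W3283g.er (alF n j) (lGold (l / V) r) r u ≤ -(lam * Real.log (Real.log u)) := by
  have hRH' := rh_LLF k c n f i j L r l V h hRH
  have hlV : l / V ≠ 0 := div_ne_zero h.hl h.hV.ne'
  obtain ⟨hEF, C, hC⟩ := er_AF n j h.hj h.hn h.hs r (l / V) hlV h.hlim' hRH'
  have hZ := zd_fam n j h.hj h.hn h.hs hRH'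
  constructor
  · obtain ⟨u, h1, h2, h3⟩ := lit_up hZ (AF n j r) hEF lam C X hlam
    have h4 := abs_le.1 (hC u (by linarith))
    exact ⟨u, h1, h2, by linarith⟩
  · obtain ⟨u, h1, h2, h3⟩ := lit_dn hZ (AF n j r) hEF lam C X hlam
    have h4 := abs_le.1 (hC u (by linarith))
    exact ⟨u, h1, h2, by linarith⟩

/-- A sequence of alternations from relatively dense points of both signs. -/
theorem FinA_alt (e : ℝ → ℝ) (K u0 D : ℝ) (hu0 : 1 ≤ u0) (hD : 0 < D)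
    (h : ∀ U : ℝ, 1 ≤ U → (∃ u : ℝ, U ≤ u ∧ u ≤ U + D ∧ K / u ≤ e u) ∧
      ∃ u : ℝ, U ≤ u ∧ u ≤ U + D ∧ K / u ≤ -e u) :
    ∃ (c' U0 : ℝ), 0 < c' ∧ ∀ U : ℝ, U0 ≤ U → ∃ (N : ℕ) (η : ℝ) (v : ℕ → ℝ), c' * U ≤ N ∧
      (η = 1 ∨ η = -1) ∧ (∀ a < N, v a < v (a + 1)) ∧
      ∀ a ≤ N, u0 ≤ v a ∧ v a ≤ U ∧ K / v a ≤ η * (-1) ^ a * e (v a) := by
  have h1 : ∀ a : ℕ, ∃ u : ℝ, u0 + a * (D + 1) ≤ u ∧ u ≤ u0 + a * (D + 1) + D ∧
      K / u ≤ (-1) ^ a * e u := by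
    intro a
    have h2 : 1 ≤ u0 + a * (D + 1) := by
      have : 0 ≤ (a : ℝ) * (D + 1) := by positivity
      linarith
    obtain ⟨⟨u, h3, h4, h5⟩, w, h6, h7, h8⟩ := h _ h2
    rcases Nat.even_or_odd a with ha | ha
    · refine ⟨u, h3, h4, ?_⟩
      rw [ha.neg_one_pow, one_mul]
      exact h5
    · refine ⟨w, h6, h7, ?_⟩
      rw [ha.neg_one_pow, neg_one_mul]
      exact h8
  choose v hv1 hv2 hv3 using h1
  refine ⟨1 / (2 * (D + 1)), 2 * u0 + 4 * D + 2, by positivity, fun U hU => ?_⟩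
  have hx : 0 ≤ (U - u0 - D) / (D + 1) := div_nonneg (by linarith) (by linarith)
  refine ⟨⌊(U - u0 - D) / (D + 1)⌋₊, 1, v, ?_, Or.inl rfl, fun a _ => ?_, fun a ha => ?_⟩
  · have h2 := Nat.lt_floor_add_one ((U - u0 - D) / (D + 1))
    have h3 : 1 / (2 * (D + 1)) * U ≤ (U - u0 - D) / (D + 1) - 1 := by
      rw [← sub_nonneg]
      have h4 : (U - u0 - D) / (D + 1) - 1 - 1 / (2 * (D + 1)) * U =
          (U - (2 * u0 + 4 * D + 2)) / (2 * (D + 1)) := by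
        have : D + 1 ≠ 0 := by linarith
        field_simp
        ring
      rw [h4]
      exact div_nonneg (by linarith) (by linarith)
    linarith
  · have h2 := hv2 a
    have h3 := hv1 (a + 1)
    push_cast at h3
    have h4 : ((a : ℝ) + 1) * (D + 1) = a * (D + 1) + (D + 1) := by ring
    linarith
  · have h2 : (a : ℝ) ≤ (U - u0 - D) / (D + 1) :=
      le_trans (by exact_mod_cast ha) (Nat.floor_le hx)
    have h3 : (a : ℝ) * (D + 1) ≤ U - u0 - D := by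
      rwa [le_div_iff₀ (by linarith : (0 : ℝ) < D + 1)] at h2
    have h4 : 0 ≤ (a : ℝ) * (D + 1) := by positivity
    refine ⟨by linarith [hv1 a], by linarith [hv2 a], ?_⟩
    rw [one_mul]
    exact hv3 a

/-- Alternations under the Riemann hypothesis: `er_AF`, `zd_fam`, `alt_abs` with `K + C`; the point `v i` is
taken in `[u0 + i (D+1), u0 + i (D+1) + D]` with the sign `(-1)^i`. -/
theorem er_alt_true (k : ℕ) (c : ℤ) (n f i j : ℕ) (L : ℂ → ℂ) (r : ℕ) (l V : ℝ)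
    (h : W3283g.SU k c n f i j L r l V) (hRH : ∀ s : ℂ, 1 < s.re → L s ≠ 0) (K u0 : ℝ)
    (hK : 0 ≤ K) (hu0 : 1 ≤ u0) :
    ∃ (c' U0 : ℝ), 0 < c' ∧ ∀ U : ℝ, U0 ≤ U → ∃ (N : ℕ) (η : ℝ) (v : ℕ → ℝ), c' * U ≤ N ∧
      (η = 1 ∨ η = -1) ∧ (∀ a < N, v a < v (a + 1)) ∧
      ∀ a ≤ N, u0 ≤ v a ∧ v a ≤ U ∧
        K / v a ≤ η * (-1) ^ a * W3283g.er (alF n j) (lGold (l / V) r) r (v a) := by
  have hRH' := rh_LLF k c n f i j L r l V h hRH
  have hlV : l / V ≠ 0 := div_ne_zero h.hl h.hV.ne'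
  obtain ⟨hEF, C, hC⟩ := er_AF n j h.hj h.hn h.hs r (l / V) hlV h.hlim' hRH'
  have hZ := zd_fam n j h.hj h.hn h.hs hRH'
  obtain ⟨D, hD, hDD⟩ := alt_abs hZ (AF n j r) hEF (K + C)
  refine FinA_alt _ K u0 D hu0 hD fun U hU => ?_
  obtain ⟨⟨u, h1, h2, h3⟩, w, h4, h5, h6⟩ := hDD U hU
  constructor
  · refine ⟨u, h1, h2, ?_⟩
    have hu : 0 < u := by linarith
    have h7 := abs_le.1 (hC u (by linarith))
    rw [div_le_iff₀ hu]
    linarith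
  · refine ⟨w, h4, h5, ?_⟩
    have hw : 0 < w := by linarith
    have h7 := abs_le.1 (hC w (by linarith))
    rw [div_le_iff₀ hw]
    linarith

theorem FinA_bound (α : ℕ → ℂ) (hα : ∀ p : ℕ, p.Prime → p ≠ 2 → ‖α p‖ ^ 2 = p) (κ : ℝ) (r : ℕ)
    (u : ℝ) (hu : 1 ≤ u) :
    |W3283g.er α κ r u| ≤ (14 + |κ| + 2 * r) * Real.exp (3 / 4 * u) := by
  have h1 := W3283g.Er_AA_bound α hα u
  have h2 : Real.exp (u / 2) ≤ Real.exp (3 / 4 * u) := Real.exp_le_exp.2 (by linarith)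
  have h3 : 1 ≤ Real.exp (3 / 4 * u) := Real.one_le_exp (by linarith)
  have h4 : u ≤ 2 * Real.exp (3 / 4 * u) := by
    have := Real.add_one_le_exp (3 / 4 * u)
    linarith
  have h5 : |(r : ℝ) * Real.log u| ≤ r * (2 * Real.exp (3 / 4 * u)) := by
    rw [abs_mul, abs_of_nonneg (Nat.cast_nonneg r), abs_of_nonneg (Real.log_nonneg hu)]
    have h6 := Real.log_le_sub_one_of_pos (by linarith : 0 < u)
    exact mul_le_mul_of_nonneg_left (by linarith) (Nat.cast_nonneg r)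
  have h6 : |κ| ≤ |κ| * Real.exp (3 / 4 * u) := le_mul_of_one_le_right (abs_nonneg κ) h3
  unfold W3283g.er
  have h7 := abs_sub (AA α (Real.exp u) - κ) ((r : ℝ) * Real.log u)
  have h8 := abs_sub (AA α (Real.exp u)) κ
  have h9 : (14 + |κ| + 2 * r) * Real.exp (3 / 4 * u) = 14 * Real.exp (3 / 4 * u) +
      |κ| * Real.exp (3 / 4 * u) + r * (2 * Real.exp (3 / 4 * u)) := by ring
  linarith

theorem FinA_loc (α : ℕ → ℂ) (hα : ∀ p : ℕ, p.Prime → p ≠ 2 → ‖α p‖ ^ 2 = p) (κ : ℝ) (r : ℕ) :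
    IntegrableOn (W3283g.er α κ r) (Set.Ioc 0 1) := by
  have h1 := (W3283g.er_int α hα κ r 1 (by norm_num)).mono_set
    (Set.Ioc_subset_Ioi_self : Set.Ioc (0 : ℝ) 1 ⊆ Set.Ioi 0)
  rw [← integrableOn_Icc_iff_integrableOn_Ioc] at h1 ⊢
  have h2 := h1.mul_continuousOn (Real.continuous_exp.continuousOn) isCompact_Icc
  refine h2.congr_fun (fun u _ => ?_) measurableSet_Icc
  show W3283g.er α κ r u * Real.exp (-(1 * u)) * Real.exp u = W3283g.er α κ r u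
  rw [mul_assoc, ← Real.exp_add]
  simp


/-- Alternations if the Riemann hypothesis is false and `L` has no real zeros: `mom_osc`
(`dataR_fam`, `h.hzero`), `alt_moments` (`W3283g.er_meas`, `W3283g.er_loc` or
`|AA (e^u)| ≤ 14 e^{u/2}`, `W3283g.er_int`). -/
theorem er_alt_false (k : ℕ) (c : ℤ) (n f i j : ℕ) (L : ℂ → ℂ) (r : ℕ) (l V : ℝ)
    (h : W3283g.SU k c n f i j L r l V) (hreal : ∀ σ : ℝ, 1 < σ → L σ ≠ 0)
    (hz : ∃ s : ℂ, 1 < s.re ∧ L s = 0) (K u0 : ℝ) (hK : 0 ≤ K) (hu0 : 1 ≤ u0) :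
    ∃ (c' U0 : ℝ), 0 < c' ∧ ∀ U : ℝ, U0 ≤ U → ∃ (N : ℕ) (η : ℝ) (v : ℕ → ℝ), c' * U ≤ N ∧
      (η = 1 ∨ η = -1) ∧ (∀ a < N, v a < v (a + 1)) ∧
      ∀ a ≤ N, u0 ≤ v a ∧ v a ≤ U ∧
        K / v a ≤ η * (-1) ^ a * W3283g.er (alF n j) (lGold (l / V) r) r (v a) := by
  have hDR := dataR_fam n j h.hj h.hn h.hs
  have hα := hDR.norm_α
  obtain ⟨x, R, cc, B, n0, hx, hR, hRx, hcc, hB, -, hmom⟩ :=
    mom_osc (alF n j) (LLF n j) WW hDR (lGold (l / V) r) r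
    (by
      intro σ hσ h0
      have h1 : L (1 + (σ : ℂ)) = 0 := (h.hzero (σ : ℂ) (by simpa using hσ.le)).2 h0
      refine hreal (1 + σ) (by linarith) ?_
      push_cast
      exact h1)
    (by
      obtain ⟨s, hs, h0⟩ := hz
      refine ⟨s - 1, ?_, ?_⟩
      · rw [Complex.sub_re, Complex.one_re]
        linarith
      · refine (h.hzero (s - 1) ?_).1 ?_
        · rw [Complex.sub_re, Complex.one_re]
          linarith
        · rw [add_sub_cancel]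
          exact h0)
  exact alt_moments _ (W3283g.er_meas _ _ _) _ (FinA_bound _ hα _ _) (FinA_loc _ hα _ _)
    x R cc B n0 hx hR hRx hcc hB hmom K u0 hK hu0

end W3283l
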