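import Pool.Agent.W_3283e1_lw.Cro

set_option autoImplicit false

namespace W3283l

open Complex W3283e1 W3283f MeasureTheory Filter Topology

theorem FinC_pt (e w K : ℝ) (hK : 0 < K) (hw : 2 * K ≤ w) :
    (2 * K / w ≤ e → 1 + K / w ≤ Real.exp e) ∧ (2 * K / w ≤ -e → Real.exp e ≤ 1 - K / w) := by
  have hw0 : 0 < w := by linarith
  have h1 : 2 * K / w = 2 * (K / w) := by ring
  have h2 : 0 < K / w := div_pos hK hw0
  have h3 : K / w ≤ 1 / 2 := by
    rw [div_le_iff₀ hw0]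
    linarith
  rw [h1]
  constructor
  · intro h4
    have h5 := Real.add_one_le_exp e
    linarith
  · intro h4
    have h5 : 1 + 2 * (K / w) ≤ Real.exp (-e) := by
      have := Real.add_one_le_exp (-e)
      linarith
    have h6 : Real.exp e * Real.exp (-e) = 1 := by
      rw [← Real.exp_add, add_neg_cancel, Real.exp_zero]
    have h7 := Real.exp_pos e
    have h8 : Real.exp e * (1 + 2 * (K / w)) ≤ 1 :=
      (mul_le_mul_of_nonneg_left h5 h7.le).trans h6.le
    have h9 : 1 ≤ (1 - K / w) * (1 + 2 * (K / w)) := by nlinarith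
    have h10 : 0 < 1 + 2 * (K / w) := by linarith
    exact le_of_mul_le_mul_right (h8.trans h9) h10

theorem FinC_small (K u : ℝ) (hK : 0 < K) (hu : 40 / K < u) :
    5 / Real.sqrt (Real.exp u) < K / u := by
  have hu0 : 0 < u := lt_trans (by positivity) hu
  have h1 : Real.sqrt (Real.exp u) = Real.exp (u / 2) := by
    rw [Real.exp_half]
  rw [h1, div_lt_div_iff₀ (Real.exp_pos _) hu0]
  have h2 := Real.quadratic_le_exp_of_nonneg (by linarith : 0 ≤ u / 2)
  have h3 : 40 < K * u := by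
    rw [div_lt_iff₀ hK] at hu
    linarith
  have h4 : u ^ 2 / 8 ≤ Real.exp (u / 2) := by
    have : (u / 2) ^ 2 / 2 = u ^ 2 / 8 := by ring
    linarith
  have h5 : K * (u ^ 2 / 8) ≤ K * Real.exp (u / 2) := mul_le_mul_of_nonneg_left h4 hK.le
  have h6 : 5 * u < K * (u ^ 2 / 8) := by
    have h7 : K * (u ^ 2 / 8) = (K * u) * u / 8 := by ring
    rw [h7]
    have h8 : 40 * u < (K * u) * u := mul_lt_mul_of_pos_right h3 hu0
    linarith
  linarith

/-- The alternations with `η = 1`. -/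
theorem FinC_shift (e : ℝ → ℝ) (K u0 : ℝ)
    (h : ∃ (c' U0 : ℝ), 0 < c' ∧ ∀ U : ℝ, U0 ≤ U → ∃ (N : ℕ) (η : ℝ) (v : ℕ → ℝ), c' * U ≤ N ∧
      (η = 1 ∨ η = -1) ∧ (∀ a < N, v a < v (a + 1)) ∧
      ∀ a ≤ N, u0 ≤ v a ∧ v a ≤ U ∧ K / v a ≤ η * (-1) ^ a * e (v a)) :
    ∃ (c' U0 : ℝ), 0 < c' ∧ ∀ U : ℝ, U0 ≤ U → ∃ (N : ℕ) (v : ℕ → ℝ), c' * U ≤ N ∧
      (∀ a < N, v a < v (a + 1)) ∧
      ∀ a ≤ N, u0 ≤ v a ∧ v a ≤ U ∧ K / v a ≤ (-1) ^ a * e (v a) := by
  obtain ⟨c', U0, hc, h⟩ := h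
  refine ⟨c' / 2, max U0 (2 / c'), by positivity, fun U hU => ?_⟩
  have hU1 : U0 ≤ U := (le_max_left _ _).trans hU
  have hU2 : 2 / c' ≤ U := (le_max_right _ _).trans hU
  have hU3 : 2 ≤ c' * U := by
    rw [div_le_iff₀ hc] at hU2
    linarith
  obtain ⟨N, η, v, h1, h2, h3, h4⟩ := h U hU1
  rcases h2 with rfl | rfl
  · refine ⟨N, v, by linarith, h3, fun a ha => ?_⟩
    have h5 := h4 a ha
    rw [one_mul] at h5
    exact h5
  · have hN : 1 ≤ N := by
      by_contra hN
      have : N = 0 := by omega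
      rw [this] at h1
      push_cast at h1
      linarith
    obtain ⟨M, rfl⟩ : ∃ M, N = M + 1 := ⟨N - 1, by omega⟩
    refine ⟨M, fun a => v (a + 1), ?_, fun a ha => h3 (a + 1) (by omega), fun a ha => ?_⟩
    · push_cast at h1
      linarith
    · have h5 := h4 (a + 1) (by omega)
      refine ⟨h5.1, h5.2.1, h5.2.2.trans (le_of_eq ?_)⟩
      rw [pow_succ]
      ring

/-- Alternations of the product: `er_alt_true` or `er_alt_false` with `2K` in place of `K` and `u0` so large that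
`u0 ≥ log (k + 10)`, `2K ≤ u0`, `5 e^{-u/2} < K/u` for `u ≥ u0`; `x a = exp (v a)` (drop `v 0` if `η = -1`);
`e^y ≥ 1 + y` and `e^{-2y} ≤ 1 - y` for `0 ≤ y ≤ 1/2`; `T = e^U`.  `cross` between consecutive points; the point
is not an end point since there `|P/T - 1| ≥ K/log x > 5/√x`. -/
theorem main_alt (k : ℕ) (c : ℤ) (n f i j : ℕ) (L : ℂ → ℂ) (r : ℕ) (l V : ℝ)
    (h : W3283g.SU k c n f i j L r l V) (hreal : ∀ σ : ℝ, 1 < σ → L σ ≠ 0) (K : ℝ) (hK : 0 < K) :
    ∃ (c' T0 : ℝ), 0 < c' ∧ ∀ T : ℝ, T0 ≤ T → ∃ (N : ℕ) (x y : ℕ → ℝ),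
      c' * Real.log T ≤ N ∧ 1 < x 0 ∧ x N ≤ T ∧
      (∀ a < N, x a < y a ∧ y a < x (a + 1) ∧
        |bsdProd (c * k ^ 2) 0 (y a) / (CG r l * (Real.log (y a)) ^ r) - 1| ≤
          5 / Real.sqrt (y a)) ∧
      ∀ a ≤ N,
        (Even a → CG r l * (Real.log (x a)) ^ r * (1 + K / Real.log (x a)) ≤
          bsdProd (c * k ^ 2) 0 (x a)) ∧
        (¬ Even a → bsdProd (c * k ^ 2) 0 (x a) ≤
          CG r l * (Real.log (x a)) ^ r * (1 - K / Real.log (x a))) := by
  classical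
  set e : ℝ → ℝ := W3283g.er (alF n j) (lGold (l / V) r) r with he
  set u0 : ℝ := 1 + Real.log (k + 10) + 2 * K + 40 / K with hu0
  have hk0 : (0 : ℝ) < k := by exact_mod_cast h.hk
  have hlog : 0 ≤ Real.log ((k : ℝ) + 10) := Real.log_nonneg (by linarith)
  have h40 : 0 < 40 / K := by positivity
  have hu1 : 1 ≤ u0 := by linarith
  have halt : ∃ (c' U0 : ℝ), 0 < c' ∧ ∀ U : ℝ, U0 ≤ U → ∃ (N : ℕ) (η : ℝ) (v : ℕ → ℝ),
      c' * U ≤ N ∧ (η = 1 ∨ η = -1) ∧ (∀ a < N, v a < v (a + 1)) ∧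
      ∀ a ≤ N, u0 ≤ v a ∧ v a ≤ U ∧ 2 * K / v a ≤ η * (-1) ^ a * e (v a) := by
    by_cases hRH : ∀ s : ℂ, 1 < s.re → L s ≠ 0
    · exact er_alt_true k c n f i j L r l V h hRH (2 * K) u0 (by linarith) hu1
    · push Not at hRH
      exact er_alt_false k c n f i j L r l V h hreal hRH (2 * K) u0 (by linarith) hu1
  obtain ⟨c', U0, hc', hU0⟩ := FinC_shift e (2 * K) u0 halt
  refine ⟨c', Real.exp U0, hc', fun T hT => ?_⟩
  have hT0 : 0 < T := lt_of_lt_of_le (Real.exp_pos _) hT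
  have hTU : U0 ≤ Real.log T := by
    rw [Real.le_log_iff_exp_le hT0]
    exact hT
  obtain ⟨N, v, h1, h2, h3⟩ := hU0 (Real.log T) hTU
  -- the values at the points
  have hval : ∀ u : ℝ, u0 ≤ u → 0 < CG r l * u ^ r ∧
      bsdProd (c * k ^ 2) 0 (Real.exp u) = CG r l * u ^ r * Real.exp (e u) ∧
      10 ≤ Real.exp u := by
    intro u hu
    have hu' : 0 < u := by linarith
    have hlk : Real.log k ≤ Real.log ((k : ℝ) + 10) := Real.log_le_log hk0 (by linarith)
    refine ⟨mul_pos (CG_pos r l h.hl) (pow_pos hu' r),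
      P_er k c n f i j L r l V h u hu' (by linarith), ?_⟩
    have h4 : Real.log ((k : ℝ) + 10) ≤ u := by linarith
    have h5 := Real.exp_le_exp.2 h4
    rw [Real.exp_log (by linarith)] at h5
    linarith
  have hsgn : ∀ a ≤ N, (Even a → 1 + K / v a ≤ Real.exp (e (v a))) ∧
      (¬ Even a → Real.exp (e (v a)) ≤ 1 - K / v a) := by
    intro a ha
    obtain ⟨h4, h5, h6⟩ := h3 a ha
    have h7 := FinC_pt (e (v a)) (v a) K hK (by linarith)
    constructor
    · intro hev
      rw [hev.neg_one_pow, one_mul] at h6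
      exact h7.1 h6
    · intro hod
      rw [(Nat.not_even_iff_odd.1 hod).neg_one_pow, neg_one_mul] at h6
      exact h7.2 h6
  have hquo : ∀ a ≤ N, K / v a ≤
      |bsdProd (c * k ^ 2) 0 (Real.exp (v a)) /
        (CG r l * (Real.log (Real.exp (v a))) ^ r) - 1| := by
    intro a ha
    obtain ⟨h4, h5, h6⟩ := h3 a ha
    obtain ⟨g1, g2, g3⟩ := hval (v a) h4
    rw [Real.log_exp, g2, mul_div_cancel_left₀ _ g1.ne']
    by_cases hev : Even a
    · have h7 := (hsgn a ha).1 hev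
      exact le_abs.2 (Or.inl (by linarith))
    · have h7 := (hsgn a ha).2 hev
      exact le_abs.2 (Or.inr (by linarith))
  have hex : ∀ a : ℕ, ∃ y : ℝ, a < N → Real.exp (v a) < y ∧ y < Real.exp (v (a + 1)) ∧
      |bsdProd (c * k ^ 2) 0 y / (CG r l * (Real.log y) ^ r) - 1| ≤ 5 / Real.sqrt y := by
    intro a
    by_cases ha : a < N
    · obtain ⟨h4, h5, h6⟩ := h3 a ha.le
      obtain ⟨g1, g2, g3⟩ := hval (v a) h4
      obtain ⟨h4', h5', h6'⟩ := h3 (a + 1) ha
      obtain ⟨g1', g2', g3'⟩ := hval (v (a + 1)) h4'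
      have hxy : Real.exp (v a) < Real.exp (v (a + 1)) := Real.exp_lt_exp.2 (h2 a ha)
      have hk1 : 0 < K / v a := div_pos hK (by linarith)
      have hk2 : 0 < K / v (a + 1) := div_pos hK (by linarith)
      have hprod : (bsdProd (c * k ^ 2) 0 (Real.exp (v a)) -
          CG r l * (Real.log (Real.exp (v a))) ^ r) *
          (bsdProd (c * k ^ 2) 0 (Real.exp (v (a + 1))) -
          CG r l * (Real.log (Real.exp (v (a + 1)))) ^ r) < 0 := by
        rw [Real.log_exp, Real.log_exp, g2, g2']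
        have e1 : CG r l * v a ^ r * Real.exp (e (v a)) - CG r l * v a ^ r =
            CG r l * v a ^ r * (Real.exp (e (v a)) - 1) := by ring
        have e2 : CG r l * v (a + 1) ^ r * Real.exp (e (v (a + 1))) - CG r l * v (a + 1) ^ r =
            CG r l * v (a + 1) ^ r * (Real.exp (e (v (a + 1))) - 1) := by ring
        rw [e1, e2]
        by_cases hev : Even a
        · have h7 := (hsgn a ha.le).1 hev
          have h8 := (hsgn (a + 1) ha).2 (by
            rw [Nat.even_add_one]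
            exact not_not.2 hev)
          exact mul_neg_of_pos_of_neg (mul_pos g1 (by linarith))
            (mul_neg_of_pos_of_neg g1' (by linarith))
        · have h7 := (hsgn a ha.le).2 hev
          have h8 := (hsgn (a + 1) ha).1 (by
            rw [Nat.even_add_one]
            exact hev)
          exact mul_neg_of_neg_of_pos (mul_neg_of_pos_of_neg g1 (by linarith))
            (mul_pos g1' (by linarith))
      obtain ⟨z, hz1, hz2, hz3⟩ := cross k c n f i j L r l V h _ _ g3 hxy hprod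
      refine ⟨z, fun _ => ⟨lt_of_le_of_ne hz1 ?_, lt_of_le_of_ne hz2 ?_, hz3⟩⟩
      · rintro rfl
        have h7 := hquo a ha.le
        have h8 := FinC_small K (v a) hK (by linarith)
        linarith
      · rintro rfl
        have h7 := hquo (a + 1) ha
        have h8 := FinC_small K (v (a + 1)) hK (by linarith)
        linarith
    · exact ⟨0, fun ha' => absurd ha' ha⟩
  choose y hy using hex
  refine ⟨N, fun a => Real.exp (v a), y, h1, ?_, ?_, fun a ha => hy a ha, fun a ha => ?_⟩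
  · have h4 := (h3 0 (Nat.zero_le N)).1
    exact Real.one_lt_exp_iff.2 (by linarith)
  · have h4 := (h3 N le_rfl).2.1
    have h5 := Real.exp_le_exp.2 h4
    rw [Real.exp_log hT0] at h5
    exact h5
  · obtain ⟨h4, h5, h6⟩ := h3 a ha
    obtain ⟨g1, g2, g3⟩ := hval (v a) h4
    have h7 := hsgn a ha
    show (Even a → CG r l * (Real.log (Real.exp (v a))) ^ r *
        (1 + K / Real.log (Real.exp (v a))) ≤ bsdProd (c * k ^ 2) 0 (Real.exp (v a))) ∧
      (¬ Even a → bsdProd (c * k ^ 2) 0 (Real.exp (v a)) ≤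
        CG r l * (Real.log (Real.exp (v a))) ^ r * (1 - K / Real.log (Real.exp (v a))))
    rw [Real.log_exp, g2]
    exact ⟨fun hev => mul_le_mul_of_nonneg_left (h7.1 hev) g1.le,
      fun hod => mul_le_mul_of_nonneg_left (h7.2 hod) g1.le⟩

end W3283l
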