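import Mathlib

set_option autoImplicit false

namespace W3283l

open Complex

theorem Tay_congr {f g : ℕ → ℂ} {s : ℂ} (h : HasSum f s) (e : ∀ n, f n = g n) : HasSum g s := by
  have : f = g := funext e
  rwa [← this]

/-- Summability of `k (k+1) r^k`. -/
theorem Tay_summ (r : ℝ) (h0 : 0 ≤ r) (h1 : r < 1) :
    Summable fun k : ℕ => (k : ℝ) * (k + 1) * r ^ k := by
  have hr : ‖r‖ < 1 := by rwa [Real.norm_of_nonneg h0]
  have a := summable_pow_mul_geometric_of_norm_lt_one 2 hr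
  have b := summable_pow_mul_geometric_of_norm_lt_one 1 hr
  refine (a.add b).congr ?_
  intro k
  ring

/-- The normalised elementary sum. -/
theorem Tay_core (q : ℂ) (hq : ‖q‖ < 1) :
    ∃ C : ℝ, 0 ≤ C ∧ ∀ n : ℕ, 1 ≤ n →
      ‖(∑ k ∈ Finset.range n, q ^ k / ((n - k : ℕ) : ℂ)) - 1 / (n * (1 - q))‖ ≤
        C / (n : ℝ) ^ 2 := by
  have hs := Tay_summ ‖q‖ (norm_nonneg q) hq
  set S : ℝ := ∑' k : ℕ, (k : ℝ) * (k + 1) * ‖q‖ ^ k with hS
  have hS0 : 0 ≤ S := tsum_nonneg (fun k => by positivity)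
  have hq1 : (1 : ℂ) - q ≠ 0 := by
    intro h
    have : q = 1 := (sub_eq_zero.mp h).symm
    rw [this] at hq
    simp at hq
  refine ⟨S + S * ‖(1 - q)⁻¹‖, by positivity, ?_⟩
  intro n hn
  have hn0 : (n : ℂ) ≠ 0 := by
    have : n ≠ 0 := by omega
    exact_mod_cast this
  have hnr : (0 : ℝ) < n := by exact_mod_cast hn
  have hgeo : (1 : ℂ) / (n * (1 - q)) =
      (∑ k ∈ Finset.range n, q ^ k / (n : ℂ)) + q ^ n / n * (1 - q)⁻¹ := by
    have h1 : (∑ k ∈ Finset.range n, q ^ k) * (q - 1) = q ^ n - 1 := geom_sum_mul q n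
    rw [← Finset.sum_div]
    have h2 : (∑ k ∈ Finset.range n, q ^ k) = (1 - q ^ n) * (1 - q)⁻¹ := by
      field_simp
      linear_combination -h1
    rw [h2]
    field_simp
    ring
  have hdiff : (∑ k ∈ Finset.range n, q ^ k / ((n - k : ℕ) : ℂ)) - 1 / (n * (1 - q)) =
      (∑ k ∈ Finset.range n, (q ^ k / ((n - k : ℕ) : ℂ) - q ^ k / (n : ℂ))) -
        q ^ n / n * (1 - q)⁻¹ := by
    rw [hgeo, Finset.sum_sub_distrib]
    ring
  have hterm : ∀ k ∈ Finset.range n,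
      ‖q ^ k / ((n - k : ℕ) : ℂ) - q ^ k / (n : ℂ)‖ ≤
        ((k : ℝ) * (k + 1) * ‖q‖ ^ k) / (n : ℝ) ^ 2 := by
    intro k hk
    have hk' : k < n := Finset.mem_range.mp hk
    have hnk : (((n - k : ℕ) : ℂ)) ≠ 0 := by
      have : n - k ≠ 0 := by omega
      exact_mod_cast this
    have e1 : q ^ k / ((n - k : ℕ) : ℂ) - q ^ k / (n : ℂ) =
        q ^ k * (((n : ℂ) - ((n - k : ℕ) : ℂ)) / (((n - k : ℕ) : ℂ) * n)) := by
      field_simp
    have e2 : (n : ℂ) - ((n - k : ℕ) : ℂ) = (k : ℂ) := by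
      rw [Nat.cast_sub hk'.le]
      ring
    rw [e1, e2, norm_mul, norm_div, norm_mul, norm_pow]
    rw [Complex.norm_natCast, Complex.norm_natCast, Complex.norm_natCast]
    have hmr : (1 : ℝ) ≤ ((n - k : ℕ) : ℝ) := by
      have : 1 ≤ n - k := by omega
      exact_mod_cast this
    have hmn : (n : ℝ) ≤ (k + 1) * ((n - k : ℕ) : ℝ) := by
      have h3 : ((n - k : ℕ) : ℝ) = n - k := by
        rw [Nat.cast_sub hk'.le]
      have hk0 : (0 : ℝ) ≤ k := Nat.cast_nonneg k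
      nlinarith
    have h4 : (k : ℝ) / (((n - k : ℕ) : ℝ) * n) ≤ (k : ℝ) * (k + 1) / (n : ℝ) ^ 2 := by
      rw [div_le_div_iff₀ (by positivity) (by positivity)]
      have hk0 : (0 : ℝ) ≤ k := Nat.cast_nonneg k
      have := mul_le_mul_of_nonneg_left hmn (mul_nonneg hk0 hnr.le)
      nlinarith
    calc ‖q‖ ^ k * ((k : ℝ) / (((n - k : ℕ) : ℝ) * n))
        ≤ ‖q‖ ^ k * ((k : ℝ) * (k + 1) / (n : ℝ) ^ 2) :=
          mul_le_mul_of_nonneg_left h4 (by positivity)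
      _ = ((k : ℝ) * (k + 1) * ‖q‖ ^ k) / (n : ℝ) ^ 2 := by ring
  have hsum : ‖∑ k ∈ Finset.range n, (q ^ k / ((n - k : ℕ) : ℂ) - q ^ k / (n : ℂ))‖ ≤
      S / (n : ℝ) ^ 2 := by
    refine le_trans (norm_sum_le _ _) ?_
    refine le_trans (Finset.sum_le_sum hterm) ?_
    rw [← Finset.sum_div]
    refine div_le_div_of_nonneg_right ?_ (by positivity)
    exact hs.sum_le_tsum _ (fun k _ => by positivity)
  have hlast : ‖q ^ n / (n : ℂ)‖ ≤ S / (n : ℝ) ^ 2 := by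
    rw [norm_div, norm_pow, Complex.norm_natCast]
    have h5 : (n : ℝ) * (n + 1) * ‖q‖ ^ n ≤ S :=
      hs.le_tsum n (fun k _ => by positivity)
    rw [div_le_div_iff₀ hnr (by positivity)]
    have h6 : 0 ≤ ‖q‖ ^ n := by positivity
    nlinarith [mul_nonneg hnr.le h6, mul_le_mul_of_nonneg_left h5 hnr.le]
  rw [hdiff]
  calc ‖(∑ k ∈ Finset.range n, (q ^ k / ((n - k : ℕ) : ℂ) - q ^ k / (n : ℂ))) -
        q ^ n / n * (1 - q)⁻¹‖
      ≤ ‖∑ k ∈ Finset.range n, (q ^ k / ((n - k : ℕ) : ℂ) - q ^ k / (n : ℂ))‖ +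
        ‖q ^ n / n * (1 - q)⁻¹‖ := norm_sub_le _ _
    _ ≤ S / (n : ℝ) ^ 2 + S / (n : ℝ) ^ 2 * ‖(1 - q)⁻¹‖ := by
        rw [norm_mul]
        exact add_le_add hsum (mul_le_mul_of_nonneg_right hlast (norm_nonneg _))
    _ = (S + S * ‖(1 - q)⁻¹‖) / (n : ℝ) ^ 2 := by ring

/-- The elementary sum: with `q = y0/x`, `‖q‖ < 1`,
`Σ_{k<n} x^{-(k+1)} y0^{-(n-k)}/(n-k) - y0^{-n}/(n (x - y0))
= (y0^{-n}/x) (Σ_{k<n} q^k k/(n (n-k)) - Σ_{k≥n} q^k/n)`; `Σ_{k ≤ n/2} ‖q‖^k k/(n (n-k)) ≤ (2/n²) Σ k ‖q‖^k`,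
the others are at most `Σ_{k > n/2} ‖q‖^k ≤ C/n²`. -/
theorem coeff_log (x : ℝ) (y0 : ℂ) (hy : y0 ≠ 0) (hx : ‖y0‖ < x) :
    ∃ C : ℝ, 0 ≤ C ∧ ∀ n : ℕ, 1 ≤ n →
      ‖(∑ k ∈ Finset.range n, (x : ℂ)⁻¹ ^ (k + 1) * y0⁻¹ ^ (n - k) / ((n - k : ℕ) : ℂ)) -
        y0⁻¹ ^ n / (n * ((x : ℂ) - y0))‖ ≤ C * ‖y0‖⁻¹ ^ n / (n : ℝ) ^ 2 := by
  have hy0 : 0 < ‖y0‖ := norm_pos_iff.mpr hy
  have hxp : 0 < x := lt_trans hy0 hx
  have hxc : (x : ℂ) ≠ 0 := by exact_mod_cast hxp.ne'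
  have hq : ‖y0 / (x : ℂ)‖ < 1 := by
    rw [norm_div, Complex.norm_real, Real.norm_of_nonneg hxp.le, div_lt_one hxp]
    exact hx
  have hxy : (x : ℂ) - y0 ≠ 0 := by
    intro h
    have h1 : y0 = x := (sub_eq_zero.mp h).symm
    rw [h1, Complex.norm_real, Real.norm_of_nonneg hxp.le] at hx
    exact lt_irrefl _ hx
  obtain ⟨C, hC0, hC⟩ := Tay_core (y0 / x) hq
  refine ⟨x⁻¹ * C, by positivity, ?_⟩
  intro n hn
  have h := hC n hn
  have hn0 : (n : ℂ) ≠ 0 := by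
    have : n ≠ 0 := by omega
    exact_mod_cast this
  have key : (∑ k ∈ Finset.range n,
      (x : ℂ)⁻¹ ^ (k + 1) * y0⁻¹ ^ (n - k) / ((n - k : ℕ) : ℂ)) -
        y0⁻¹ ^ n / (n * ((x : ℂ) - y0)) =
      y0⁻¹ ^ n * (x : ℂ)⁻¹ * ((∑ k ∈ Finset.range n, (y0 / x) ^ k / ((n - k : ℕ) : ℂ)) -
        1 / (n * (1 - y0 / x))) := by
    rw [mul_sub (y0⁻¹ ^ n * (x : ℂ)⁻¹), Finset.mul_sum]
    congr 1
    · refine Finset.sum_congr rfl ?_
      intro k hk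
      have hk' : k < n := Finset.mem_range.mp hk
      have e : y0⁻¹ ^ n = y0⁻¹ ^ (n - k) * y0⁻¹ ^ k := by
        rw [← pow_add]
        congr 1
        omega
      rw [e, div_pow, pow_succ, inv_pow y0 k, inv_pow (x : ℂ) k]
      have hyk : y0 ^ k ≠ 0 := pow_ne_zero k hy
      have hxk : (x : ℂ) ^ k ≠ 0 := pow_ne_zero k hxc
      field_simp
    · have h1 : (1 : ℂ) - y0 / x = (x - y0) / x := by field_simp
      rw [h1]
      field_simp
  rw [key, norm_mul, norm_mul, norm_pow, norm_inv, norm_inv, Complex.norm_real,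
    Real.norm_of_nonneg hxp.le]
  calc ‖y0‖⁻¹ ^ n * x⁻¹ * ‖(∑ k ∈ Finset.range n, (y0 / x) ^ k / ((n - k : ℕ) : ℂ)) -
        1 / (n * (1 - y0 / x))‖
      ≤ ‖y0‖⁻¹ ^ n * x⁻¹ * (C / (n : ℝ) ^ 2) := mul_le_mul_of_nonneg_left h (by positivity)
    _ = x⁻¹ * C * ‖y0‖⁻¹ ^ n / (n : ℝ) ^ 2 := by ring

/-- The power series of `-(x - y)⁻¹ log (1 - y/y0)` is the product of the geometric series
`Σ x^{-(k+1)} y^k` and `Σ_{l ≥ 1} (y/y0)^l/l` (Cauchy product). -/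
theorem series_log (x : ℝ) (y0 : ℂ) (hy : y0 ≠ 0) (hx : ‖y0‖ < x) (y : ℂ) (h : ‖y‖ < ‖y0‖) :
    HasSum (fun n : ℕ => (∑ k ∈ Finset.range n,
      (x : ℂ)⁻¹ ^ (k + 1) * y0⁻¹ ^ (n - k) / ((n - k : ℕ) : ℂ)) * y ^ n)
      (-(Complex.log (1 - y / y0)) / ((x : ℂ) - y)) := by
  have hy0 : 0 < ‖y0‖ := norm_pos_iff.mpr hy
  have hxp : 0 < x := lt_trans hy0 hx
  have hxc : (x : ℂ) ≠ 0 := by exact_mod_cast hxp.ne'
  have hxy : (x : ℂ) - y ≠ 0 := by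
    intro h'
    have h1 : y = x := (sub_eq_zero.mp h').symm
    have h2 : ‖y‖ < x := lt_trans h hx
    rw [h1, Complex.norm_real, Real.norm_of_nonneg hxp.le] at h2
    exact lt_irrefl _ h2
  have hg : ‖y / (x : ℂ)‖ < 1 := by
    rw [norm_div, Complex.norm_real, Real.norm_of_nonneg hxp.le, div_lt_one hxp]
    exact lt_trans h hx
  have hl : ‖y / y0‖ < 1 := by
    rw [norm_div, div_lt_one hy0]
    exact h
  have hf : HasSum (fun k : ℕ => (x : ℂ)⁻¹ * (y / x) ^ k) ((x : ℂ)⁻¹ * (1 - y / x)⁻¹) :=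
    (hasSum_geometric_of_norm_lt_one hg).mul_left _
  have hgl := Complex.hasSum_taylorSeries_neg_log hl
  have hprod := hasSum_sum_range_mul_of_summable_norm hf.summable.norm hgl.summable.norm
  rw [hf.tsum_eq, hgl.tsum_eq] at hprod
  have hval : (x : ℂ)⁻¹ * (1 - y / x)⁻¹ * -Complex.log (1 - y / y0) =
      -(Complex.log (1 - y / y0)) / ((x : ℂ) - y) := by
    have h1 : (1 : ℂ) - y / x = (x - y) / x := by field_simp
    rw [h1]
    field_simp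
  rw [hval] at hprod
  refine Tay_congr hprod ?_
  intro n
  rw [Finset.sum_range_succ, Nat.sub_self]
  simp only [Nat.cast_zero, div_zero, mul_zero, add_zero]
  rw [Finset.sum_mul]
  refine Finset.sum_congr rfl ?_
  intro k hk
  have hk' : k < n := Finset.mem_range.mp hk
  have e : y ^ n = y ^ (n - k) * y ^ k := by
    rw [← pow_add]
    congr 1
    omega
  rw [e, div_pow, div_pow, pow_succ, inv_pow, inv_pow]
  field_simp

/-- Uniqueness of power series. -/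
theorem Tay_uniq (a b : ℕ → ℂ) (f : ℂ → ℂ) (δ : ℝ) (hδ : 0 < δ)
    (ha : ∀ y : ℂ, ‖y‖ < δ → HasSum (fun n : ℕ => a n * y ^ n) (f y))
    (hb : ∀ y : ℂ, ‖y‖ < δ → HasSum (fun n : ℕ => b n * y ^ n) (f y)) (n : ℕ) : a n = b n := by
  have h1 : ∀ c : ℕ → ℂ, (∀ y : ℂ, ‖y‖ < δ → HasSum (fun n : ℕ => c n * y ^ n) (f y)) →
      HasFPowerSeriesAt f (FormalMultilinearSeries.ofScalars ℂ c) 0 := by
    intro c hc
    rw [hasFPowerSeriesAt_iff]
    filter_upwards [Metric.ball_mem_nhds (0 : ℂ) hδ] with z hz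
    rw [mem_ball_zero_iff] at hz
    have := hc z hz
    simp only [FormalMultilinearSeries.coeff_ofScalars, zero_add, smul_eq_mul]
    refine Tay_congr this ?_
    intro k
    ring
  have h2 := (h1 a ha).eq_formalMultilinearSeries (h1 b hb)
  have h3 := congrArg (fun p : FormalMultilinearSeries ℂ ℂ ℂ => p.coeff n) h2
  simpa [FormalMultilinearSeries.coeff_ofScalars] using h3

/-- Cauchy bound in the form needed here. -/
theorem Tay_cauchy (r R' : ℝ) (hr : 0 < r) (hR : r < R') (Φ : ℂ → ℂ)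
    (hΦ : ∀ y : ℂ, ‖y‖ < R' → DifferentiableAt ℂ Φ y) :
    ∃ φ : ℕ → ℂ, (∀ y : ℂ, ‖y‖ < R' → HasSum (fun n : ℕ => φ n * y ^ n) (Φ y)) ∧
      ∃ C : ℝ, 0 ≤ C ∧ ∀ n : ℕ, 1 ≤ n → ‖φ n‖ ≤ C * r⁻¹ ^ n / (n : ℝ) ^ 2 := by
  have hd : DifferentiableOn ℂ Φ (Metric.ball 0 R') := by
    intro y hy
    rw [mem_ball_zero_iff] at hy
    exact (hΦ y hy).differentiableWithinAt
  have hsum : ∀ y : ℂ, ‖y‖ < R' →
      HasSum (fun n : ℕ => ((n.factorial : ℂ)⁻¹ * iteratedDeriv n Φ 0) * y ^ n) (Φ y) := by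
    intro y hy
    have := Complex.hasSum_taylorSeries_on_ball hd (z := y) (by rwa [mem_ball_zero_iff])
    refine Tay_congr this ?_
    intro n
    simp only [sub_zero, smul_eq_mul]
    ring
  refine ⟨fun n => (n.factorial : ℂ)⁻¹ * iteratedDeriv n Φ 0, hsum, ?_⟩
  obtain ⟨ρ, hρ1, hρ2⟩ := exists_between hR
  have hρ0 : 0 < ρ := lt_trans hr hρ1
  have hs := (hsum (ρ : ℂ) (by rwa [Complex.norm_real, Real.norm_of_nonneg hρ0.le])).summable
  set φ : ℕ → ℂ := fun n => (n.factorial : ℂ)⁻¹ * iteratedDeriv n Φ 0 with hφ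
  have hsn : Summable fun n : ℕ => ‖φ n‖ * ρ ^ n := by
    refine hs.norm.congr ?_
    intro n
    rw [norm_mul, norm_pow, Complex.norm_real, Real.norm_of_nonneg hρ0.le]
  have hq1 : r / ρ < 1 := (div_lt_one hρ0).mpr hρ1
  have hq0 : 0 ≤ r / ρ := by positivity
  have hs2 := Tay_summ (r / ρ) hq0 hq1
  refine ⟨(∑' n, ‖φ n‖ * ρ ^ n) * (∑' k : ℕ, (k : ℝ) * (k + 1) * (r / ρ) ^ k), ?_, ?_⟩
  · refine mul_nonneg (tsum_nonneg fun n => by positivity) (tsum_nonneg fun n => by positivity)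
  intro n hn
  have hnr : (0 : ℝ) < n := by exact_mod_cast hn
  have e1 : ‖φ n‖ * ρ ^ n ≤ ∑' n, ‖φ n‖ * ρ ^ n := hsn.le_tsum n (fun k _ => by positivity)
  have e2 : (n : ℝ) * (n + 1) * (r / ρ) ^ n ≤ ∑' k : ℕ, (k : ℝ) * (k + 1) * (r / ρ) ^ k :=
    hs2.le_tsum n (fun k _ => by positivity)
  set A := ∑' n, ‖φ n‖ * ρ ^ n
  set B := ∑' k : ℕ, (k : ℝ) * (k + 1) * (r / ρ) ^ k
  have e3 : (n : ℝ) ^ 2 * (r / ρ) ^ n ≤ B := by
    refine le_trans ?_ e2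
    have : 0 ≤ (r / ρ) ^ n := by positivity
    nlinarith
  have e4 : (‖φ n‖ * ρ ^ n) * ((n : ℝ) ^ 2 * (r / ρ) ^ n) ≤ A * B :=
    mul_le_mul e1 e3 (by positivity) (le_trans (by positivity) e1)
  have e5 : (‖φ n‖ * ρ ^ n) * ((n : ℝ) ^ 2 * (r / ρ) ^ n) = ‖φ n‖ * ((n : ℝ) ^ 2 * r ^ n) := by
    rw [div_pow]
    field_simp
  rw [e5] at e4
  have e6 : ‖φ n‖ ≤ A * B / ((n : ℝ) ^ 2 * r ^ n) := by
    rw [le_div_iff₀ (by positivity)]
    exact e4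
  refine le_trans e6 (le_of_eq ?_)
  rw [inv_pow]
  field_simp

/-- Taylor coefficients of a function with one pair of logarithmic singularities on its circle of
convergence.  Uniqueness of power series: `a n = φ n + mm (coefficient for y0) + mm (coefficient for conj y0)`
with `Σ φ n y^n = Φ y` on the ball of radius `R'`, so
`‖φ n‖ ≤ C R''^{-n}`, `‖y0‖ < R'' < R'`; `coeff_log` for `y0` and its conjugate. -/
theorem taylor (x R' δ : ℝ) (mm : ℕ) (y0 : ℂ) (hy : y0 ≠ 0) (hR : ‖y0‖ < R') (hx : R' < x)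
    (hδ : 0 < δ) (Φ : ℂ → ℂ) (hΦ : ∀ y : ℂ, ‖y‖ < R' → DifferentiableAt ℂ Φ y) (a : ℕ → ℂ)
    (ha : ∀ y : ℂ, ‖y‖ < δ → HasSum (fun n : ℕ => a n * y ^ n)
      (Φ y - mm * (Complex.log (1 - y / y0) + Complex.log (1 - y / (starRingEnd ℂ y0))) /
        ((x : ℂ) - y))) :
    ∃ C : ℝ, 0 ≤ C ∧ ∀ n : ℕ, 1 ≤ n →
      ‖a n - mm / n * (y0⁻¹ ^ n / ((x : ℂ) - y0) +
        (starRingEnd ℂ y0)⁻¹ ^ n / ((x : ℂ) - starRingEnd ℂ y0))‖ ≤ C * ‖y0‖⁻¹ ^ n / (n : ℝ) ^ 2 := by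
  have hy0 : 0 < ‖y0‖ := norm_pos_iff.mpr hy
  have hc : starRingEnd ℂ y0 ≠ 0 := by
    simpa using hy
  have hcn : ‖starRingEnd ℂ y0‖ = ‖y0‖ := Complex.norm_conj y0
  obtain ⟨φ, hφ, C0, hC0, hφb⟩ := Tay_cauchy ‖y0‖ R' hy0 hR Φ hΦ
  obtain ⟨C1, hC1, h1⟩ := coeff_log x y0 hy (lt_trans hR hx)
  obtain ⟨C2, hC2, h2⟩ := coeff_log x (starRingEnd ℂ y0) hc (by rw [hcn]; exact lt_trans hR hx)
  rw [hcn] at h2
  set c1 : ℕ → ℂ := fun n => ∑ k ∈ Finset.range n,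
    (x : ℂ)⁻¹ ^ (k + 1) * y0⁻¹ ^ (n - k) / ((n - k : ℕ) : ℂ) with hc1
  set c2 : ℕ → ℂ := fun n => ∑ k ∈ Finset.range n,
    (x : ℂ)⁻¹ ^ (k + 1) * (starRingEnd ℂ y0)⁻¹ ^ (n - k) / ((n - k : ℕ) : ℂ) with hc2
  have hab : ∀ n, a n = φ n + (mm * c1 n + mm * c2 n) := by
    intro n
    refine Tay_uniq a (fun n => φ n + (mm * c1 n + mm * c2 n)) _ (min δ ‖y0‖) (lt_min hδ hy0)
      (fun y hy' => ha y (lt_of_lt_of_le hy' (min_le_left _ _))) ?_ n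
    intro y hy'
    have hyl : ‖y‖ < ‖y0‖ := lt_of_lt_of_le hy' (min_le_right _ _)
    have s0 := hφ y (lt_trans hyl hR)
    have s1 := (series_log x y0 hy (lt_trans hR hx) y hyl).mul_left (mm : ℂ)
    have s2 := (series_log x (starRingEnd ℂ y0) hc (by rw [hcn]; exact lt_trans hR hx) y
      (by rw [hcn]; exact hyl)).mul_left (mm : ℂ)
    have s3 := s0.add (s1.add s2)
    have hval : Φ y - mm * (Complex.log (1 - y / y0) +
        Complex.log (1 - y / (starRingEnd ℂ y0))) / ((x : ℂ) - y) =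
        Φ y + (mm * (-Complex.log (1 - y / y0) / ((x : ℂ) - y)) +
          mm * (-Complex.log (1 - y / (starRingEnd ℂ y0)) / ((x : ℂ) - y))) := by ring
    rw [hval]
    refine Tay_congr s3 ?_
    intro n
    simp only [hc1, hc2]
    ring
  refine ⟨C0 + (mm * C1 + mm * C2), by positivity, ?_⟩
  intro n hn
  have hn0 : (n : ℂ) ≠ 0 := by
    have : n ≠ 0 := by omega
    exact_mod_cast this
  have e : a n - mm / n * (y0⁻¹ ^ n / ((x : ℂ) - y0) +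
        (starRingEnd ℂ y0)⁻¹ ^ n / ((x : ℂ) - starRingEnd ℂ y0)) =
      φ n + (mm * (c1 n - y0⁻¹ ^ n / (n * ((x : ℂ) - y0))) +
        mm * (c2 n - (starRingEnd ℂ y0)⁻¹ ^ n / (n * ((x : ℂ) - starRingEnd ℂ y0)))) := by
    rw [hab n]
    have e1 : y0⁻¹ ^ n / ((n : ℂ) * ((x : ℂ) - y0)) = (y0⁻¹ ^ n / ((x : ℂ) - y0)) / n := by
      rw [div_div, mul_comm]
    have e2 : (starRingEnd ℂ y0)⁻¹ ^ n / ((n : ℂ) * ((x : ℂ) - starRingEnd ℂ y0)) =
        ((starRingEnd ℂ y0)⁻¹ ^ n / ((x : ℂ) - starRingEnd ℂ y0)) / n := by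
      rw [div_div, mul_comm]
    rw [e1, e2]
    ring
  rw [e]
  calc ‖φ n + (mm * (c1 n - y0⁻¹ ^ n / (n * ((x : ℂ) - y0))) +
        mm * (c2 n - (starRingEnd ℂ y0)⁻¹ ^ n / (n * ((x : ℂ) - starRingEnd ℂ y0))))‖
      ≤ ‖φ n‖ + (mm * ‖c1 n - y0⁻¹ ^ n / (n * ((x : ℂ) - y0))‖ +
        mm * ‖c2 n - (starRingEnd ℂ y0)⁻¹ ^ n / (n * ((x : ℂ) - starRingEnd ℂ y0))‖) := by
        refine le_trans (norm_add_le _ _) (add_le_add le_rfl ?_)
        refine le_trans (norm_add_le _ _) ?_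
        rw [norm_mul, norm_mul, Complex.norm_natCast]
    _ ≤ C0 * ‖y0‖⁻¹ ^ n / (n : ℝ) ^ 2 + (mm * (C1 * ‖y0‖⁻¹ ^ n / (n : ℝ) ^ 2) +
        mm * (C2 * ‖y0‖⁻¹ ^ n / (n : ℝ) ^ 2)) := by
        have m0 : (0 : ℝ) ≤ mm := Nat.cast_nonneg mm
        exact add_le_add (hφb n hn) (add_le_add (mul_le_mul_of_nonneg_left (h1 n hn) m0)
          (mul_le_mul_of_nonneg_left (h2 n hn) m0))
    _ = (C0 + (mm * C1 + mm * C2)) * ‖y0‖⁻¹ ^ n / (n : ℝ) ^ 2 := by ring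

/-- The positive half of `rot_block`. -/
theorem Tay_rot (w v : ℂ) (hw : w ≠ 0) (hv : 0 < v.im) :
    ∃ (B : ℕ) (c : ℝ), 0 < c ∧ ∀ n : ℕ, ∃ k < B, c * ‖v‖ ^ (n + k) ≤ (w * v ^ (n + k)).re := by
  have hpi := Real.pi_pos
  have hφ0 : 0 < Complex.arg v := by
    have h1 : 0 ≤ Complex.arg v := Complex.arg_nonneg_iff.mpr hv.le
    have h2 : Complex.arg v ≠ 0 := by
      intro h
      have := (Complex.arg_eq_zero_iff.mp h).2
      linarith
    exact lt_of_le_of_ne h1 (Ne.symm h2)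
  have hφ1 : Complex.arg v < Real.pi := Complex.arg_lt_pi_iff.mpr (Or.inr hv.ne')
  set φ := Complex.arg v with hφ
  set θ := Complex.arg w with hθ
  have hwn : 0 < ‖w‖ := norm_pos_iff.mpr hw
  have hcos : 0 < Real.cos (φ / 2) := by
    apply Real.cos_pos_of_mem_Ioo
    constructor <;> linarith
  refine ⟨⌈2 * Real.pi / φ⌉₊ + 2, ‖w‖ * Real.cos (φ / 2), by positivity, ?_⟩
  intro n
  -- the target multiple of `2π`
  obtain ⟨m, hm1, hm2⟩ : ∃ m : ℤ, θ + n * φ ≤ 2 * Real.pi * m ∧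
      2 * Real.pi * m < θ + n * φ + 2 * Real.pi := by
    refine ⟨⌈(θ + n * φ) / (2 * Real.pi)⌉, ?_, ?_⟩
    · have := Int.le_ceil ((θ + n * φ) / (2 * Real.pi))
      rw [div_le_iff₀ (by positivity)] at this
      linarith
    · have := Int.ceil_lt_add_one ((θ + n * φ) / (2 * Real.pi))
      rw [← sub_lt_iff_lt_add, lt_div_iff₀ (by positivity)] at this
      linarith
  set d : ℝ := (2 * Real.pi * m - (θ + n * φ)) / φ with hd
  have hd0 : 0 ≤ d := div_nonneg (by linarith) hφ0.le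
  have hd1 : d < 2 * Real.pi / φ := by
    rw [hd]
    exact div_lt_div_of_pos_right (by linarith) hφ0
  have hdd : d * φ = 2 * Real.pi * m - (θ + n * φ) := by
    rw [hd]
    field_simp
  have hk := Nat.floor_le (show 0 ≤ d + 1 / 2 by linarith)
  have hk2 := Nat.lt_floor_add_one (d + 1 / 2)
  set k := ⌊d + 1 / 2⌋₊ with hkd
  refine ⟨k, ?_, ?_⟩
  · have h1 := Nat.le_ceil (2 * Real.pi / φ)
    have h2 : (k : ℝ) < (⌈2 * Real.pi / φ⌉₊ : ℝ) + 1 := by linarith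
    have h3 : k < ⌈2 * Real.pi / φ⌉₊ + 1 := by exact_mod_cast h2
    omega
  have hv2 : v = ‖v‖ * Complex.exp (φ * Complex.I) := (Complex.norm_mul_exp_arg_mul_I v).symm
  have hw2 : w = ‖w‖ * Complex.exp (θ * Complex.I) := (Complex.norm_mul_exp_arg_mul_I w).symm
  have hre : (w * v ^ (n + k)).re = ‖w‖ * ‖v‖ ^ (n + k) * Real.cos (θ + (n + k) * φ) := by
    have e1 : w * v ^ (n + k) =
        ((‖w‖ * ‖v‖ ^ (n + k) : ℝ) : ℂ) *
          Complex.exp (((θ + (n + k) * φ : ℝ) : ℂ) * Complex.I) := by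
      conv_lhs => rw [hw2, hv2]
      rw [mul_pow, ← Complex.exp_nat_mul]
      push_cast
      have e2 : Complex.exp ((↑θ + (↑n + ↑k) * ↑φ) * Complex.I) =
          Complex.exp (θ * Complex.I) * Complex.exp ((↑n + ↑k) * (φ * Complex.I)) := by
        rw [← Complex.exp_add]
        congr 1
        ring
      rw [e2]
      ring
    rw [e1, Complex.re_ofReal_mul, Complex.exp_ofReal_mul_I_re]
  rw [hre]
  have hang : Real.cos (φ / 2) ≤ Real.cos (θ + (n + k) * φ) := by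
    have e1 : Real.cos (θ + (n + k) * φ) = Real.cos (θ + (n + k) * φ - m * (2 * Real.pi)) := by
      rw [Real.cos_sub_int_mul_two_pi]
    rw [e1, ← Real.cos_abs (θ + (n + k) * φ - m * (2 * Real.pi))]
    have e2 : θ + (n + k) * φ - m * (2 * Real.pi) = (k - d) * φ := by
      rw [sub_mul, hdd]
      ring
    have e3 : |θ + (n + k) * φ - m * (2 * Real.pi)| ≤ φ / 2 := by
      rw [e2, abs_mul, abs_of_pos hφ0]
      have : |(k : ℝ) - d| ≤ 1 / 2 := by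
        rw [abs_le]
        constructor <;> linarith
      nlinarith
    exact Real.cos_le_cos_of_nonneg_of_le_pi (abs_nonneg _) (by linarith) e3
  have hvn : 0 ≤ ‖v‖ ^ (n + k) := by positivity
  calc ‖w‖ * Real.cos (φ / 2) * ‖v‖ ^ (n + k)
      = ‖w‖ * ‖v‖ ^ (n + k) * Real.cos (φ / 2) := by ring
    _ ≤ ‖w‖ * ‖v‖ ^ (n + k) * Real.cos (θ + (n + k) * φ) :=
        mul_le_mul_of_nonneg_left hang (by positivity)

/-- A rotation by an angle `φ ∈ (0, π)`: among any `B` consecutive powers the real part of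
`w ζ^n` is at least `c` for one and at most `-c` for another one.  Here `ζ = v/‖v‖` with `Im v > 0`.  (With
`w = ‖w‖ e^{iθ}`, `v = ‖v‖ e^{iφ}`, `0 < φ < π`: the arguments `θ + n φ` advance by `φ`, so one of
`⌈2π/φ⌉ + 1` consecutive ones is within `φ/2` of `0` mod `2π`, and one within `φ/2` of `π`;
`c = ‖w‖ cos (φ/2)`.) -/
theorem rot_block (w v : ℂ) (hw : w ≠ 0) (hv : 0 < v.im) :
    ∃ (B : ℕ) (c : ℝ), 0 < c ∧ ∀ n : ℕ, (∃ k < B, c * ‖v‖ ^ (n + k) ≤ (w * v ^ (n + k)).re) ∧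
      ∃ k < B, (w * v ^ (n + k)).re ≤ -(c * ‖v‖ ^ (n + k)) := by
  obtain ⟨B1, c1, hc1, h1⟩ := Tay_rot w v hw hv
  obtain ⟨B2, c2, hc2, h2⟩ := Tay_rot (-w) v (neg_ne_zero.mpr hw) hv
  refine ⟨max B1 B2, min c1 c2, lt_min hc1 hc2, ?_⟩
  intro n
  constructor
  · obtain ⟨k, hk, h⟩ := h1 n
    refine ⟨k, lt_of_lt_of_le hk (le_max_left _ _), le_trans ?_ h⟩
    exact mul_le_mul_of_nonneg_right (min_le_left _ _) (by positivity)
  · obtain ⟨k, hk, h⟩ := h2 n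
    refine ⟨k, lt_of_lt_of_le hk (le_max_right _ _), ?_⟩
    have h3 : min c1 c2 * ‖v‖ ^ (n + k) ≤ c2 * ‖v‖ ^ (n + k) :=
      mul_le_mul_of_nonneg_right (min_le_right _ _) (by positivity)
    rw [neg_mul, Complex.neg_re] at h
    linarith

end W3283l
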