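import Pool.Agent.W_3283e1_lw.Near
import Pool.Agent.W_3283e1_lw.Tay
import Pool.Agent.W_3283e1_h53.FinH3
import Pool.Agent.W_3283e1_h53.LapD

set_option autoImplicit false

namespace W3283l

open Complex W3283e1 W3283f MeasureTheory Filter Topology

/-- Power series of a Laplace transform: `∫ e(u) e^{-(x-y)u} du = Σ a_n y^n` for `‖y‖ < x - b`,
`a_n = ∫ u^n e(u) e^{-xu} du/n!` (`integral_tsum` / `hasSum_integral_of_summable_norm`:
`Σ ‖y‖^n u^n/n! = e^{‖y‖u}`). -/
theorem lap_series (e : ℝ → ℝ) (he : Measurable e) (b : ℝ)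
    (h : ∀ σ : ℝ, b < σ → IntegrableOn (fun v : ℝ => e v * Real.exp (-(σ * v))) (Set.Ioi 0))
    (x : ℝ) (hx : b < x) (y : ℂ) (hy : ‖y‖ < x - b) :
    HasSum (fun n : ℕ => (((n.factorial : ℝ)⁻¹ *
      ∫ u in Set.Ioi (0 : ℝ), u ^ n * e u * Real.exp (-(x * u)) : ℝ) : ℂ) * y ^ n)
      (∫ u in Set.Ioi (0 : ℝ), (e u : ℂ) * Complex.exp (-(((x : ℂ) - y) * u))) := by
  have hσ : b < x - ‖y‖ := by linarith
  have hbase := (h (x - ‖y‖) hσ).norm
  set D : ℝ → ℝ := fun u => ‖e u * Real.exp (-((x - ‖y‖) * u))‖ with hD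
  set F : ℕ → ℝ → ℂ := fun n u => (((n.factorial : ℝ)⁻¹ * (u ^ n * e u * Real.exp (-(x * u))) : ℝ) : ℂ)
    * y ^ n with hF
  have hFn : ∀ n u, 0 < u → ‖F n u‖ = (‖y‖ * u) ^ n / n.factorial * (|e u| * Real.exp (-(x * u))) := by
    intro n u hu
    rw [hF]
    simp only []
    rw [norm_mul, Complex.norm_real, norm_pow, Real.norm_eq_abs, abs_mul, abs_mul, abs_mul,
      abs_of_pos (Real.exp_pos _), abs_of_pos (pow_pos hu n),
      abs_of_nonneg (inv_nonneg.2 (Nat.cast_nonneg _)), mul_pow, div_eq_inv_mul]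
    ring
  have hDe : ∀ u, D u = Real.exp (‖y‖ * u) * (|e u| * Real.exp (-(x * u))) := by
    intro u
    rw [hD]
    simp only []
    rw [norm_mul, Real.norm_eq_abs, Real.norm_eq_abs, abs_of_pos (Real.exp_pos _)]
    rw [show -((x - ‖y‖) * u) = ‖y‖ * u + -(x * u) by ring, Real.exp_add]
    ring
  have hFs : ∀ (N : ℕ) u, 0 < u → ∑ n ∈ Finset.range N, ‖F n u‖ ≤ D u := by
    intro N u hu
    rw [Finset.sum_congr rfl (fun n _ => hFn n u hu), ← Finset.sum_mul, hDe]
    apply mul_le_mul_of_nonneg_right _ (by positivity)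
    exact Real.sum_le_exp_of_nonneg (by positivity) N
  have hFle : ∀ (n : ℕ) u, 0 < u → ‖F n u‖ ≤ D u := by
    intro n u hu
    refine le_trans ?_ (hFs (n + 1) u hu)
    exact Finset.single_le_sum (f := fun n => ‖F n u‖) (fun _ _ => norm_nonneg _)
      (Finset.mem_range.2 (Nat.lt_succ_self n))
  have hFm : ∀ n, AEStronglyMeasurable (F n) (volume.restrict (Set.Ioi (0 : ℝ))) := by
    intro n
    refine Measurable.aestronglyMeasurable ?_
    rw [hF]
    refine Measurable.mul_const ?_ _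
    refine Complex.measurable_ofReal.comp ?_
    refine Measurable.const_mul ?_ _
    exact ((measurable_id.pow_const n).mul he).mul (by fun_prop)
  have hFi : ∀ n, Integrable (F n) (volume.restrict (Set.Ioi (0 : ℝ))) := by
    intro n
    refine Integrable.mono' hbase (hFm n) ?_
    exact (ae_restrict_mem measurableSet_Ioi).mono fun u hu => hFle n u hu
  have hsum : Summable fun n => ∫ u in Set.Ioi (0 : ℝ), ‖F n u‖ := by
    refine summable_of_sum_range_le (c := ∫ u in Set.Ioi (0 : ℝ), D u)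
      (fun n => integral_nonneg fun u => norm_nonneg _) ?_
    intro N
    rw [← integral_finset_sum _ (fun n _ => (hFi n).norm)]
    refine integral_mono_ae (integrable_finset_sum _ (fun n _ => (hFi n).norm)) hbase ?_
    exact (ae_restrict_mem measurableSet_Ioi).mono fun u hu => hFs N u hu
  have hmain := hasSum_integral_of_summable_integral_norm hFi hsum
  have e1 : (fun n : ℕ => ∫ u in Set.Ioi (0 : ℝ), F n u) = fun n : ℕ =>
      (((n.factorial : ℝ)⁻¹ * ∫ u in Set.Ioi (0 : ℝ), u ^ n * e u * Real.exp (-(x * u)) : ℝ) : ℂ) *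
        y ^ n := by
    funext n
    rw [hF]
    simp only []
    rw [integral_mul_const, integral_complex_ofReal, integral_const_mul]
  have e2 : ∫ u in Set.Ioi (0 : ℝ), ∑' n, F n u =
      ∫ u in Set.Ioi (0 : ℝ), (e u : ℂ) * Complex.exp (-(((x : ℂ) - y) * u)) := by
    refine setIntegral_congr_fun measurableSet_Ioi fun u hu => ?_
    have h1 : HasSum (fun n : ℕ => (y * u) ^ n / (n.factorial : ℂ)) (Complex.exp (y * u)) := by
      rw [Complex.exp_eq_exp_ℂ]
      exact NormedSpace.expSeries_div_hasSum_exp (y * u)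
    have h2 := h1.mul_left ((e u : ℂ) * Complex.exp (-((x : ℂ) * u)))
    have h3 : (fun n : ℕ => (e u : ℂ) * Complex.exp (-((x : ℂ) * u)) *
        ((y * u) ^ n / (n.factorial : ℂ))) = fun n => F n u := by
      funext n
      rw [hF]
      simp only []
      push_cast
      rw [mul_pow, div_eq_inv_mul]
      ring
    rw [h3] at h2
    show ∑' n, F n u = _
    rw [h2.tsum_eq, mul_assoc, ← Complex.exp_add]
    congr 2
    ring
  rw [e1, e2] at hmain
  exact hmain

/-- Reflection principle for `s ↦ L (1 + s)`. -/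
theorem AltS_refl (L : ℂ → ℂ) (hL : DifferentiableOn ℂ L {s : ℂ | 3 / 4 < s.re})
    (hr : ∀ σ : ℝ, 3 / 4 < σ → (L σ).im = 0) (s : ℂ) (hs : 0 < s.re) :
    L (1 + starRingEnd ℂ s) = starRingEnd ℂ (L (1 + s)) := by
  have ho : IsOpen {s : ℂ | 0 < s.re} := isOpen_lt continuous_const Complex.continuous_re
  set f : ℂ → ℂ := fun s => L (1 + s) with hf
  have hfa : AnalyticOnNhd ℂ f {s : ℂ | 0 < s.re} := fun s hs => W3283g.NearR_L L hL s hs
  have hgd : DifferentiableOn ℂ (starRingEnd ℂ ∘ f ∘ starRingEnd ℂ) {s : ℂ | 0 < s.re} := by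
    intro z hz
    apply DifferentiableAt.differentiableWithinAt
    apply differentiableAt_conj_conj_iff.2
    apply (hfa _ _).differentiableAt
    show 0 < (starRingEnd ℂ z).re
    rw [Complex.conj_re]
    exact hz
  have hga : AnalyticOnNhd ℂ (starRingEnd ℂ ∘ f ∘ starRingEnd ℂ) {s : ℂ | 0 < s.re} :=
    hgd.analyticOnNhd ho
  have hc : IsPreconnected {s : ℂ | 0 < s.re} := (convex_halfSpace_re_gt 0).isPreconnected
  have h1 : (1 : ℂ) ∈ {s : ℂ | 0 < s.re} := by
    show 0 < (1 : ℂ).re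
    rw [Complex.one_re]
    norm_num
  have hfreq : ∃ᶠ z in 𝓝[≠] (1 : ℂ), f z = (starRingEnd ℂ ∘ f ∘ starRingEnd ℂ) z := by
    have ht : Tendsto (fun n : ℕ => (((1 : ℝ) + 1 / ((n : ℝ) + 1) : ℝ) : ℂ)) atTop (𝓝[≠] (1 : ℂ)) := by
      refine tendsto_nhdsWithin_iff.2 ⟨?_, Eventually.of_forall fun n => ?_⟩
      · have h2 : Tendsto (fun n : ℕ => (1 : ℝ) + 1 / ((n : ℝ) + 1)) atTop (𝓝 (1 + 0)) :=
          tendsto_const_nhds.add tendsto_one_div_add_atTop_nhds_zero_nat
        rw [add_zero] at h2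
        have h3 := (Complex.continuous_ofReal.tendsto 1).comp h2
        rw [Complex.ofReal_one] at h3
        exact h3
      · show (((1 : ℝ) + 1 / ((n : ℝ) + 1) : ℝ) : ℂ) ≠ 1
        intro h
        have h4 : (1 : ℝ) + 1 / ((n : ℝ) + 1) = 1 := by exact_mod_cast h
        have h5 : 0 < 1 / ((n : ℝ) + 1) := by positivity
        linarith
    refine ht.frequently (Eventually.frequently (Eventually.of_forall fun n => ?_))
    set t : ℝ := 1 + 1 / ((n : ℝ) + 1) with htdef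
    have ht0 : 0 < t := by
      have h5 : 0 < 1 / ((n : ℝ) + 1) := by positivity
      linarith
    show L (1 + (t : ℂ)) = starRingEnd ℂ (L (1 + starRingEnd ℂ (t : ℂ)))
    rw [Complex.conj_ofReal]
    have h6 := hr (1 + t) (by linarith)
    push_cast at h6
    exact (Complex.conj_eq_iff_im.2 h6).symm
  have heq := hfa.eqOn_of_preconnected_of_frequently_eq hga hc h1 hfreq
  have h7 := heq (x := starRingEnd ℂ s) (by
    show 0 < (starRingEnd ℂ s).re
    rw [Complex.conj_re]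
    exact hs)
  have h8 : L (1 + starRingEnd ℂ s) = starRingEnd ℂ (L (1 + starRingEnd ℂ (starRingEnd ℂ s))) := h7
  rw [Complex.conj_conj] at h8
  exact h8

/-- Splitting off a zero. -/
theorem AltS_fac (U : Set ℂ) (f : ℂ → ℂ) (hf : AnalyticOnNhd ℂ f U) (ρ : ℂ) (hρ : ρ ∈ U)
    (hne : ¬ ∀ᶠ z in 𝓝 ρ, f z = 0) :
    ∃ (m : ℕ) (H : ℂ → ℂ), AnalyticOnNhd ℂ H U ∧ H ρ ≠ 0 ∧ ∀ s, f s = (s - ρ) ^ m * H s := by
  classical
  obtain ⟨m, g, hg, hg0, hgf⟩ := (hf ρ hρ).exists_eventuallyEq_pow_smul_nonzero_iff.2 hne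
  refine ⟨m, Function.update (fun s => f s / (s - ρ) ^ m) ρ (g ρ), ?_, ?_, ?_⟩
  · intro s hs
    by_cases h : s = ρ
    · subst h
      refine hg.congr ?_
      filter_upwards [hgf] with z hz
      by_cases h : z = s
      · subst h
        rw [Function.update_self]
      · rw [Function.update_of_ne h, hz, smul_eq_mul,
          mul_div_cancel_left₀ _ (pow_ne_zero m (sub_ne_zero.2 h))]
    · have h1 : AnalyticAt ℂ (fun s => f s / (s - ρ) ^ m) s :=
        (hf s hs).div ((analyticAt_id.sub analyticAt_const).pow m)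
          (pow_ne_zero m (sub_ne_zero.2 h))
      refine h1.congr ?_
      filter_upwards [isOpen_ne.mem_nhds h] with z hz
      rw [Function.update_of_ne hz]
  · rw [Function.update_self]
    exact hg0
  · intro s
    by_cases h : s = ρ
    · subst h
      rw [Function.update_self]
      have := hgf.self_of_nhds
      rw [this, smul_eq_mul]
    · rw [Function.update_of_ne h, mul_div_cancel₀]
      exact pow_ne_zero m (sub_ne_zero.2 h)

/-- Splitting off a pair of conjugate zeros. -/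
theorem AltS_pair (x R : ℝ) (f : ℂ → ℂ) (hf : AnalyticOnNhd ℂ f (Metric.ball (x : ℂ) R))
    (hsym : ∀ s ∈ Metric.ball (x : ℂ) R, f (starRingEnd ℂ s) = starRingEnd ℂ (f s)) (ρ : ℂ)
    (hρ : ρ ∈ Metric.ball (x : ℂ) R) (him : 0 < ρ.im) (hx : f x ≠ 0) (h0 : f ρ = 0)
    (hz : ∀ s ∈ Metric.ball (x : ℂ) R, f s = 0 → s = ρ ∨ s = starRingEnd ℂ ρ) :
    ∃ (m : ℕ) (H : ℂ → ℂ), 1 ≤ m ∧ AnalyticOnNhd ℂ H (Metric.ball (x : ℂ) R) ∧
      (∀ s ∈ Metric.ball (x : ℂ) R, H s ≠ 0) ∧
      ∀ s ∈ Metric.ball (x : ℂ) R, f s = (s - ρ) ^ m * (s - starRingEnd ℂ ρ) ^ m * H s := by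
  classical
  have hR : 0 < R := by
    have := Metric.mem_ball.1 hρ
    exact lt_of_le_of_lt dist_nonneg this
  have hpre : IsPreconnected (Metric.ball (x : ℂ) R) := (convex_ball _ _).isPreconnected
  have hxm : (x : ℂ) ∈ Metric.ball (x : ℂ) R := Metric.mem_ball_self hR
  have hne : ¬ ∀ᶠ z in 𝓝 ρ, f z = 0 := by
    intro h
    have h1 := hf.eqOn_zero_of_preconnected_of_eventuallyEq_zero hpre hρ h
    exact hx (h1 hxm)
  have hconjball : ∀ s ∈ Metric.ball (x : ℂ) R, starRingEnd ℂ s ∈ Metric.ball (x : ℂ) R := by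
    intro s hs
    rw [Metric.mem_ball, dist_eq_norm] at hs ⊢
    have h1 : starRingEnd ℂ s - (x : ℂ) = starRingEnd ℂ (s - x) := by
      rw [map_sub, Complex.conj_ofReal]
    rw [h1, RCLike.norm_conj]
    exact hs
  obtain ⟨m, H1, hH1, hH10, hH1f⟩ := AltS_fac _ f hf ρ hρ hne
  have hm : 1 ≤ m := by
    rcases Nat.eq_zero_or_pos m with h | h
    · exfalso
      have h2 := hH1f ρ
      rw [h, h0, pow_zero, one_mul] at h2
      exact hH10 h2.symm
    · exact h
  set ρ' : ℂ := starRingEnd ℂ ρ with hρ'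
  have hρρ' : ρ ≠ ρ' := by
    intro h
    have h1 : ρ.im = 0 := Complex.conj_eq_iff_im.1 h.symm
    linarith
  have hρ'm : ρ' ∈ Metric.ball (x : ℂ) R := hconjball ρ hρ
  set H2 : ℂ → ℂ := starRingEnd ℂ ∘ H1 ∘ starRingEnd ℂ with hH2
  have hH2a : AnalyticOnNhd ℂ H2 (Metric.ball (x : ℂ) R) := by
    refine DifferentiableOn.analyticOnNhd ?_ Metric.isOpen_ball
    intro z hz'
    apply DifferentiableAt.differentiableWithinAt
    apply differentiableAt_conj_conj_iff.2
    exact (hH1 _ (hconjball z hz')).differentiableAt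
  -- `f s = (s - ρ')^m H2 s`
  have hfH2 : ∀ s ∈ Metric.ball (x : ℂ) R, f s = (s - ρ') ^ m * H2 s := by
    intro s hs
    have h1 := hsym _ (hconjball s hs)
    rw [Complex.conj_conj] at h1
    rw [h1, hH1f, map_mul, map_pow, map_sub, Complex.conj_conj]
    rfl
  refine ⟨m, Function.update (fun s => H1 s / (s - ρ') ^ m) ρ' (H2 ρ' / (ρ' - ρ) ^ m), hm,
    ?_, ?_, ?_⟩
  · intro s hs
    by_cases h : s = ρ'
    · rw [h]
      have h1 : AnalyticAt ℂ (fun s => H2 s / (s - ρ) ^ m) ρ' :=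
        (hH2a ρ' hρ'm).div ((analyticAt_id.sub analyticAt_const).pow m)
          (pow_ne_zero m (sub_ne_zero.2 (Ne.symm hρρ')))
      refine h1.congr ?_
      filter_upwards [Metric.isOpen_ball.mem_nhds hρ'm, isOpen_ne.mem_nhds (Ne.symm hρρ')]
        with z hz1 hz2
      by_cases h : z = ρ'
      · rw [h, Function.update_self]
      · rw [Function.update_of_ne h]
        have h2 := hfH2 z hz1
        rw [hH1f z] at h2
        rw [div_eq_div_iff (pow_ne_zero m (sub_ne_zero.2 hz2)) (pow_ne_zero m (sub_ne_zero.2 h))]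
        linear_combination -h2
    · have h1 : AnalyticAt ℂ (fun s => H1 s / (s - ρ') ^ m) s :=
        (hH1 s hs).div ((analyticAt_id.sub analyticAt_const).pow m)
          (pow_ne_zero m (sub_ne_zero.2 h))
      refine h1.congr ?_
      filter_upwards [isOpen_ne.mem_nhds h] with z hz
      rw [Function.update_of_ne hz]
  · intro s hs
    by_cases h : s = ρ'
    · rw [h, Function.update_self]
      refine div_ne_zero ?_ (pow_ne_zero m (sub_ne_zero.2 (Ne.symm hρρ')))
      show starRingEnd ℂ (H1 (starRingEnd ℂ (starRingEnd ℂ ρ))) ≠ 0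
      rw [Complex.conj_conj]
      exact (map_ne_zero _).2 hH10
    · rw [Function.update_of_ne h]
      refine div_ne_zero ?_ (pow_ne_zero m (sub_ne_zero.2 h))
      intro h3
      have h4 := hH1f s
      rw [h3, mul_zero] at h4
      rcases hz s hs h4 with h5 | h5
      · rw [h5] at h3
        exact hH10 h3
      · exact h h5
  · intro s hs
    by_cases h : s = ρ'
    · rw [h, Function.update_self, hfH2 ρ' hρ'm]
      have := pow_ne_zero m (sub_ne_zero.2 (Ne.symm hρρ'))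
      field_simp
    · rw [Function.update_of_ne h, hH1f s]
      have := pow_ne_zero m (sub_ne_zero.2 h)
      field_simp

/-- The nearest singularities of the transform of `er` (no real zeros, a zero with positive real part).
`near_zero` for `f s = L (1+s)` (analytic for `Re s > -1/4`; real on the real axis, so symmetric by the
identity theorem) with `x0 = 2` gives `x`, `R'`, `ρ`; `y0 = x - ρ`, `mm` the order of `f` at `ρ` (and at `conj ρ`).  On the
ball `‖s - x‖ < R'` (convex, in `Re s > 0`): `f s = (s-ρ)^mm (s - conj ρ)^mm H s`, `H` without zeros;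
`Q` of `W3283g.Q_full`; there is a holomorphic `h` with
`exp (2 h) = Q (x-ρ)^{-2mm} (x - conj ρ)^{-2mm} H^{-2}`, so for `‖s - x‖` small
`exp (2 GG s) = exp (2 h s) (1 - (x-s)/y0)^{-2mm} (1 - (x-s)/conj y0)^{-2mm}`
and `GG s = h s - mm (Log (..) + Log (..)) + const` near `x` (continuity).  With `W3283g.er_transform`:
`∫ er e^{-su} = (GG s + r (γ + log s) - κ)/s`, and `Φ y` is `(h s + const + r (γ + log s) - κ)/s` at
`s = x - y`. -/
theorem er_sing (α : ℕ → ℂ) (L W : ℂ → ℂ) (hD : DataR α L W) (κ : ℝ) (r : ℕ)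
    (hreal : ∀ σ : ℝ, 0 < σ → L (1 + σ) ≠ 0) (hz : ∃ s : ℂ, 0 < s.re ∧ L (1 + s) = 0) :
    ∃ (x R' δ : ℝ) (mm : ℕ) (y0 : ℂ) (Φ : ℂ → ℂ), 2 < x ∧ 1 ≤ mm ∧ y0.im < 0 ∧ 0 < y0.re ∧
      ‖y0‖ < R' ∧ R' < x ∧ 0 < δ ∧ (∀ y : ℂ, ‖y‖ < R' → DifferentiableAt ℂ Φ y) ∧
      ∀ y : ℂ, ‖y‖ < δ →
        ∫ u in Set.Ioi (0 : ℝ), (W3283g.er α κ r u : ℂ) * Complex.exp (-(((x : ℂ) - y) * u)) =
          Φ y - mm * (Complex.log (1 - y / y0) + Complex.log (1 - y / (starRingEnd ℂ y0))) /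
            ((x : ℂ) - y) := by
  have hfa : ∀ s : ℂ, 0 < s.re → AnalyticAt ℂ (fun s : ℂ => L (1 + s)) s :=
    fun s hs => W3283g.NearR_L L hD.L_diff s hs
  obtain ⟨x, R', ρ, hx, hρre, hρim, hρ0, hρR, hRx, hzero⟩ := near_zero (fun s => L (1 + s)) hfa
    ⟨1, by rw [Complex.one_re]; norm_num, by
      have := hreal 1 one_pos
      rwa [Complex.ofReal_one] at this⟩ hreal
    (fun s hs h0 => by
      show L (1 + starRingEnd ℂ s) = 0
      rw [AltS_refl L hD.L_diff hD.L_real s hs]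
      show starRingEnd ℂ (L (1 + s)) = 0
      rw [show L (1 + s) = 0 from h0, map_zero]) hz 2
  obtain ⟨Q, hQ, _, _, hid⟩ := W3283g.Q_full α L W hD
  have hρhalf : ρ.re ≤ 1 / 2 := by
    by_contra hcon
    push Not at hcon
    have h1 := hid ρ hcon
    have h2 : L (1 + ρ) = 0 := hρ0
    rw [h2] at h1
    refine (hQ ρ hρre.le).2 ?_
    rw [← h1]
    ring
  have hball : ∀ s ∈ Metric.ball (x : ℂ) R', 0 < s.re := by
    intro s hs
    rw [Metric.mem_ball, dist_eq_norm] at hs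
    have h1 : |(s - (x : ℂ)).re| ≤ ‖s - (x : ℂ)‖ := Complex.abs_re_le_norm _
    rw [Complex.sub_re, Complex.ofReal_re] at h1
    have h2 := (abs_le.1 (h1.trans hs.le)).1
    linarith
  have hsw : ∀ s : ℂ, s ∈ Metric.ball (x : ℂ) R' ↔ ‖(x : ℂ) - s‖ < R' := by
    intro s
    rw [Metric.mem_ball, dist_eq_norm, norm_sub_rev]
  have hR' : 0 < R' := lt_of_le_of_lt (norm_nonneg _) hρR
  obtain ⟨m, H, hm, hH, hH0, hHf⟩ := AltS_pair x R' (fun s => L (1 + s))
    (fun s hs => hfa s (hball s hs))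
    (fun s hs => AltS_refl L hD.L_diff hD.L_real s (hball s hs)) ρ ((hsw ρ).2 hρR) hρim
    (hreal x (by linarith)) hρ0 (fun s hs h0 => hzero s ((hsw s).1 hs) h0)
  set y0 : ℂ := (x : ℂ) - ρ with hy0
  have hyim : y0.im < 0 := by
    rw [hy0, Complex.sub_im, Complex.ofReal_im]
    linarith
  have hyre : 0 < y0.re := by
    rw [hy0, Complex.sub_re, Complex.ofReal_re]
    linarith
  have hy0n : y0 ≠ 0 := by
    intro h
    rw [h] at hyim
    simp at hyim
  have hny : 0 < ‖y0‖ := norm_pos_iff.2 hy0n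
  have hyc : starRingEnd ℂ y0 = (x : ℂ) - starRingEnd ℂ ρ := by
    rw [hy0, map_sub, Complex.conj_ofReal]
  have hycn : starRingEnd ℂ y0 ≠ 0 := (map_ne_zero _).2 hy0n
  have hnyc : ‖starRingEnd ℂ y0‖ = ‖y0‖ := RCLike.norm_conj _
  set δ : ℝ := min ‖y0‖ 1 with hδ
  have hδ0 : 0 < δ := lt_min hny one_pos
  have hδR : δ ≤ R' := (min_le_left _ _).trans hρR.le
  have hVre : ∀ s ∈ Metric.ball (x : ℂ) δ, 1 / 2 < s.re := by
    intro s hs
    rw [Metric.mem_ball, dist_eq_norm] at hs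
    have h1 : |(s - (x : ℂ)).re| ≤ ‖s - (x : ℂ)‖ := Complex.abs_re_le_norm _
    rw [Complex.sub_re, Complex.ofReal_re] at h1
    have h2 := (abs_le.1 (h1.trans hs.le)).1
    have h3 : δ ≤ 1 := min_le_right _ _
    linarith
  have hslit : ∀ w : ℂ, w ≠ 0 → ‖w‖ = ‖y0‖ → ∀ s ∈ Metric.ball (x : ℂ) δ,
      1 - ((x : ℂ) - s) / w ∈ Complex.slitPlane := by
    intro w hw hwn s hs
    have h1 : ‖-(((x : ℂ) - s) / w)‖ < 1 := by
      rw [norm_neg, _root_.norm_div, hwn, div_lt_one hny, norm_sub_rev, ← dist_eq_norm]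
      exact lt_of_lt_of_le (Metric.mem_ball.1 hs) (min_le_left _ _)
    have h2 := Complex.mem_slitPlane_of_norm_lt_one h1
    rwa [← sub_eq_add_neg] at h2
  have hlogc : ∀ w : ℂ, w ≠ 0 → ‖w‖ = ‖y0‖ → ContinuousOn
      (fun s : ℂ => Complex.log (1 - ((x : ℂ) - s) / w)) (Metric.ball (x : ℂ) δ) := by
    intro w hw hwn
    refine ContinuousOn.clog ?_ (hslit w hw hwn)
    exact (continuous_const.sub ((continuous_const.sub continuous_id).div_const _)).continuousOn
  set K : ℂ → ℂ := fun s => Q s / ((y0 * starRingEnd ℂ y0) ^ (2 * m) * (H s) ^ 2) with hK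
  set G1 : ℂ → ℂ := fun s => GG α s + m * (Complex.log (1 - ((x : ℂ) - s) / y0) +
    Complex.log (1 - ((x : ℂ) - s) / (starRingEnd ℂ y0))) with hG1
  have hden : ∀ s ∈ Metric.ball (x : ℂ) R', (y0 * starRingEnd ℂ y0) ^ (2 * m) * (H s) ^ 2 ≠ 0 :=
    fun s hs => mul_ne_zero (pow_ne_zero _ (mul_ne_zero hy0n hycn)) (pow_ne_zero _ (hH0 s hs))
  have hKa : AnalyticOnNhd ℂ K (Metric.ball (x : ℂ) R') := fun s hs =>
    (hQ s (hball s hs).le).1.div (analyticAt_const.mul ((hH s hs).pow 2)) (hden s hs)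
  have hK0 : ∀ s ∈ Metric.ball (x : ℂ) R', K s ≠ 0 := fun s hs =>
    div_ne_zero (hQ s (hball s hs).le).2 (hden s hs)
  have hG1c : ContinuousOn G1 (Metric.ball (x : ℂ) δ) := by
    refine ContinuousOn.add (fun s hs => ?_) (continuousOn_const.mul
      ((hlogc y0 hy0n rfl).add (hlogc _ hycn hnyc)))
    exact (W3283g.NearR_GG α hD.norm_α s (hVre s hs)).continuousAt.continuousWithinAt
  have hG1K : ∀ s ∈ Metric.ball (x : ℂ) δ, Complex.exp (2 * G1 s) = K s := by
    intro s hs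
    have hsU : s ∈ Metric.ball (x : ℂ) R' := Metric.ball_subset_ball hδR hs
    have h1 := hid s (hVre s hs)
    have h2 := hHf s hsU
    have e1 : Complex.exp (Complex.log (1 - ((x : ℂ) - s) / y0)) = (s - ρ) / y0 := by
      rw [Complex.exp_log (Complex.slitPlane_ne_zero (hslit y0 hy0n rfl s hs)), eq_div_iff hy0n,
        sub_mul, div_mul_cancel₀ _ hy0n, hy0]
      ring
    have e2 : Complex.exp (Complex.log (1 - ((x : ℂ) - s) / (starRingEnd ℂ y0))) =
        (s - starRingEnd ℂ ρ) / starRingEnd ℂ y0 := by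
      rw [Complex.exp_log (Complex.slitPlane_ne_zero (hslit _ hycn hnyc s hs)), eq_div_iff hycn,
        sub_mul, div_mul_cancel₀ _ hycn, hyc]
      ring
    have e3 : Complex.exp (2 * G1 s) = Complex.exp (2 * GG α s) *
        (Complex.exp (Complex.log (1 - ((x : ℂ) - s) / y0)) *
          Complex.exp (Complex.log (1 - ((x : ℂ) - s) / (starRingEnd ℂ y0)))) ^ (2 * m) := by
      rw [← Complex.exp_add, ← Complex.exp_nat_mul, ← Complex.exp_add, hG1]
      congr 1
      push_cast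
      ring
    rw [e3, e1, e2, hK]
    simp only []
    rw [eq_div_iff (hden s hsU), ← h1]
    have h2' : L (1 + s) = (s - ρ) ^ m * (s - starRingEnd ℂ ρ) ^ m * H s := h2
    rw [h2', mul_pow y0, mul_pow ((s - ρ) / y0), div_pow, div_pow]
    have p1 : y0 ^ (2 * m) ≠ 0 := pow_ne_zero _ hy0n
    have p2 : (starRingEnd ℂ y0) ^ (2 * m) ≠ 0 := pow_ne_zero _ hycn
    have q1 : (s - ρ) ^ (2 * m) = ((s - ρ) ^ m) ^ 2 := by rw [← pow_mul, mul_comm]
    have q2 : (s - starRingEnd ℂ ρ) ^ (2 * m) = ((s - starRingEnd ℂ ρ) ^ m) ^ 2 := by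
      rw [← pow_mul, mul_comm]
    rw [q1, q2]
    field_simp
  obtain ⟨g, hga, _, hgG⟩ := W3283g.log_ext (Metric.ball (x : ℂ) R') (Metric.ball (x : ℂ) δ)
    Metric.isOpen_ball (convex_ball _ _) (convex_ball _ _).isPreconnected
    ⟨_, Metric.mem_ball_self hδ0⟩ (Metric.ball_subset_ball hδR) K G1 hKa hK0 hG1c hG1K
  have hyball : ∀ (y : ℂ) (t : ℝ), ‖y‖ < t → (x : ℂ) - y ∈ Metric.ball (x : ℂ) t := by
    intro y t hy
    rw [Metric.mem_ball, dist_eq_norm, sub_sub_cancel_left, norm_neg]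
    exact hy
  refine ⟨x, R', δ, m, y0, fun y => (g ((x : ℂ) - y) + r * ((Real.eulerMascheroniConstant : ℂ) +
    Complex.log ((x : ℂ) - y)) - κ) / ((x : ℂ) - y), hx, hm, hyim, hyre, hρR, hRx, hδ0, ?_, ?_⟩
  · intro y hy
    have h1 := hyball y R' hy
    have h2 := hball _ h1
    have h3 : DifferentiableAt ℂ (fun y : ℂ => (x : ℂ) - y) y :=
      (differentiableAt_const _).sub differentiableAt_id
    have h4 : DifferentiableAt ℂ (fun y : ℂ => g ((x : ℂ) - y)) y :=
      DifferentiableAt.comp (g := g) (f := fun y : ℂ => (x : ℂ) - y) y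
        (hga _ h1).differentiableAt h3
    have h5 : DifferentiableAt ℂ (fun y : ℂ => Complex.log ((x : ℂ) - y)) y :=
      h3.clog (Or.inl h2)
    refine DifferentiableAt.div ?_ h3 ?_
    · exact (h4.add ((h5.const_add _).const_mul _)).sub_const _
    · intro h0
      rw [h0] at h2
      simp at h2
  · intro y hy
    have h1 := hyball y δ hy
    have h2 := hVre _ h1
    have h3 := W3283g.er_transform α hD.norm_α κ r ((x : ℂ) - y) h2
    have h4 := hgG _ h1
    have hne : (x : ℂ) - y ≠ 0 := by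
      intro h0
      rw [h0] at h2
      simp at h2
      linarith
    rw [hG1] at h4
    simp only [sub_sub_cancel] at h4
    beta_reduce
    rw [h4]
    have h5 : (∫ u in Set.Ioi (0 : ℝ), (W3283g.er α κ r u : ℂ) *
        Complex.exp (-(((x : ℂ) - y) * u))) = (GG α ((x : ℂ) - y) + r *
          ((Real.eulerMascheroniConstant : ℂ) + Complex.log ((x : ℂ) - y)) - κ) /
            ((x : ℂ) - y) := by
      rw [eq_div_iff hne, mul_comm]
      exact h3
    rw [h5, ← sub_div]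
    congr 1
    ring

/-- The moments `a_n = ∫ u^n er(u) e^{-xu} du/n!` oscillate: `lap_series` (`W3283g.er_int`, `b = 1/2`),
`er_sing`, `taylor`, `rot_block` with `v = y0⁻¹` (`Im v > 0`), `w = 1/(x - y0)`: the main term
is `(2 mm/n) Re (y0^{-n}/(x-y0))`. -/
theorem mom_osc (α : ℕ → ℂ) (L W : ℂ → ℂ) (hD : DataR α L W) (κ : ℝ) (r : ℕ)
    (hreal : ∀ σ : ℝ, 0 < σ → L (1 + σ) ≠ 0) (hz : ∃ s : ℂ, 0 < s.re ∧ L (1 + s) = 0) :
    ∃ (x R c : ℝ) (B n0 : ℕ), 2 < x ∧ 0 < R ∧ R < x ∧ 0 < c ∧ 1 ≤ B ∧ 1 ≤ n0 ∧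
      ∀ n : ℕ, n0 ≤ n → ∀ η : ℝ, (η = 1 ∨ η = -1) → ∃ k < B,
        c * ((n + k).factorial / R ^ (n + k)) / (n + k) ≤
          η * ∫ u in Set.Ioi (0 : ℝ), u ^ (n + k) * W3283g.er α κ r u * Real.exp (-(x * u)) := by
  obtain ⟨x, R', δ, mm, y0, Φ, hx, hmm, hy0, hy0r, hyR, hRx, hδ, hΦ, hint⟩ :=
    er_sing α L W hD κ r hreal hz
  have hy0n : y0 ≠ 0 := by
    rintro rfl
    simp at hy0
  have hny : 0 < ‖y0‖ := norm_pos_iff.2 hy0n
  set a : ℕ → ℝ := fun n => (n.factorial : ℝ)⁻¹ *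
      ∫ u in Set.Ioi (0 : ℝ), u ^ n * W3283g.er α κ r u * Real.exp (-(x * u)) with ha
  have hser : ∀ y : ℂ, ‖y‖ < min δ (x - 1 / 2) → HasSum (fun n : ℕ => (a n : ℂ) * y ^ n)
      (Φ y - mm * (Complex.log (1 - y / y0) + Complex.log (1 - y / (starRingEnd ℂ y0))) /
        ((x : ℂ) - y)) := by
    intro y hy
    have h1 := lap_series (W3283g.er α κ r) (W3283g.er_meas α κ r) (1 / 2)
      (fun σ hσ => W3283g.er_int α hD.norm_α κ r σ hσ) x (by linarith) y
      (lt_of_lt_of_le hy (min_le_right _ _))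
    rw [hint y (lt_of_lt_of_le hy (min_le_left _ _))] at h1
    exact h1
  obtain ⟨C, hC, hCn⟩ := taylor x R' (min δ (x - 1 / 2)) mm y0 hy0n hyR hRx
    (lt_min hδ (by linarith)) Φ hΦ (fun n => (a n : ℂ)) hser
  have hxy : (x : ℂ) - y0 ≠ 0 := by
    intro h0
    have h1 : (x : ℂ) = y0 := sub_eq_zero.1 h0
    have h2 : ‖(x : ℂ)‖ = x := by
      rw [Complex.norm_real, Real.norm_eq_abs, abs_of_pos (by linarith)]
    rw [h1] at h2
    linarith
  have hvim : 0 < (y0⁻¹).im := by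
    rw [Complex.inv_im]
    exact div_pos (by linarith) (Complex.normSq_pos.2 hy0n)
  obtain ⟨B, c, hc, hrot⟩ := rot_block (1 / ((x : ℂ) - y0)) y0⁻¹ (one_div_ne_zero hxy) hvim
  have hB : 1 ≤ B := by
    obtain ⟨⟨k, hk, _⟩, _⟩ := hrot 0
    omega
  obtain ⟨n1, hn1⟩ := exists_nat_gt (C / c)
  refine ⟨x, ‖y0‖, c, B, n1 + 1, hx, hny, by linarith, hc, hB, by omega, ?_⟩
  -- the main estimate
  have hmm' : (1 : ℝ) ≤ (mm : ℝ) := by exact_mod_cast hmm
  have hkey : ∀ N : ℕ, n1 + 1 ≤ N → ∀ η : ℝ, (η = 1 ∨ η = -1) →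
      c * ‖y0⁻¹‖ ^ N ≤ η * (1 / ((x : ℂ) - y0) * y0⁻¹ ^ N).re →
      c * (N.factorial / ‖y0‖ ^ N) / N ≤
        η * ∫ u in Set.Ioi (0 : ℝ), u ^ N * W3283g.er α κ r u * Real.exp (-(x * u)) := by
    intro N hN η hη hre
    have hN0 : 0 < (N : ℝ) := by
      have : 0 < N := by omega
      exact_mod_cast this
    have hfac : 0 < (N.factorial : ℝ) := by exact_mod_cast Nat.factorial_pos N
    have haN : (∫ u in Set.Ioi (0 : ℝ), u ^ N * W3283g.er α κ r u * Real.exp (-(x * u))) =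
        N.factorial * a N := by
      rw [ha]
      simp only []
      rw [← mul_assoc, mul_inv_cancel₀ hfac.ne', one_mul]
    have hz2 := hCn N (by omega)
    set z : ℂ := y0⁻¹ ^ N / ((x : ℂ) - y0) with hzdef
    have hzc : (starRingEnd ℂ y0)⁻¹ ^ N / ((x : ℂ) - starRingEnd ℂ y0) = starRingEnd ℂ z := by
      rw [hzdef, map_div₀, map_pow, map_inv₀, map_sub, Complex.conj_ofReal]
    have hre' : (1 / ((x : ℂ) - y0) * y0⁻¹ ^ N).re = z.re := by
      rw [hzdef]
      congr 1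
      ring
    rw [hzc, Complex.add_conj] at hz2
    have hz3 : ((a N : ℂ) - (mm : ℂ) / (N : ℂ) * ((2 * z.re : ℝ) : ℂ)) =
        ((a N - mm / N * (2 * z.re) : ℝ) : ℂ) := by push_cast; ring
    rw [hz3, Complex.norm_real, Real.norm_eq_abs] at hz2
    rw [hre'] at hre
    have hvn : ‖y0⁻¹‖ = ‖y0‖⁻¹ := norm_inv _
    rw [hvn] at hre
    set P : ℝ := ‖y0‖⁻¹ ^ N with hP
    have hP0 : 0 < P := by positivity
    have hCN : C / c < N := by
      have : (n1 : ℝ) < N := by exact_mod_cast (by omega : n1 < N)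
      linarith
    have hCN2 : C / (N : ℝ) ≤ c := by
      rw [div_le_iff₀ hN0]
      rw [div_lt_iff₀ hc] at hCN
      linarith
    have hηa : mm / N * (2 * (η * z.re)) - C * P / (N : ℝ) ^ 2 ≤ η * a N := by
      rcases hη with h | h
      · rw [h, one_mul, one_mul]
        have := (abs_le.1 hz2).1
        linarith
      · rw [h]
        have := (abs_le.1 hz2).2
        linarith
    have hstep : c * P / N ≤ η * a N := by
      refine le_trans ?_ hηa
      have h1 : mm / (N : ℝ) * (2 * (c * P)) ≤ mm / N * (2 * (η * z.re)) := by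
        apply mul_le_mul_of_nonneg_left _ (by positivity)
        linarith
      have h2 : 1 / (N : ℝ) * (2 * (c * P)) ≤ mm / (N : ℝ) * (2 * (c * P)) := by
        apply mul_le_mul_of_nonneg_right _ (by positivity)
        exact div_le_div_of_nonneg_right hmm' hN0.le
      have h3 : C * P / (N : ℝ) ^ 2 = (C / N) * (P / N) := by
        field_simp
      have h4 : (C / N) * (P / N) ≤ c * (P / N) :=
        mul_le_mul_of_nonneg_right hCN2 (by positivity)
      have h5 : 1 / (N : ℝ) * (2 * (c * P)) = 2 * (c * P / N) := by ring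
      have h6 : c * (P / N) = c * P / N := by ring
      rw [h3]
      linarith
    rw [haN]
    have h7 : c * ((N.factorial : ℝ) / ‖y0‖ ^ N) / N = N.factorial * (c * P / N) := by
      rw [hP, inv_pow]
      field_simp
    rw [h7]
    calc (N.factorial : ℝ) * (c * P / N) ≤ N.factorial * (η * a N) :=
          mul_le_mul_of_nonneg_left hstep hfac.le
      _ = η * (N.factorial * a N) := by ring
  intro n hn η hη
  obtain ⟨⟨k1, hk1, hk1'⟩, k2, hk2, hk2'⟩ := hrot n
  rcases hη with h | h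
  · refine ⟨k1, hk1, ?_⟩
    have := hkey (n + k1) (by omega) η (Or.inl h) (by rw [h, one_mul]; exact hk1')
    exact_mod_cast this
  · refine ⟨k2, hk2, ?_⟩
    have := hkey (n + k2) (by omega) η (Or.inr h) (by rw [h]; linarith)
    exact_mod_cast this

end W3283l
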