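import Pool.Agent.W_3283e1_lw.Ser
import Pool.Agent.W_3283e1_h53.FinH3

set_option autoImplicit false

namespace W3283l

open Complex W3283e1 W3283f MeasureTheory Filter Topology

/-- The index `(p, m)` stands for the prime power `p^(m+1)`, `p` odd. -/
noncomputable def vL (i : OP × ℕ) : ℝ := ((i.2 : ℝ) + 1) * Real.log (i.1 : ℕ)

/-- Coefficients of `-Σ_p (log (1 - a_p p^{-s}) + log (1 - conj a_p p^{-s}))`. -/
noncomputable def cA (a : OP → ℂ) (i : OP × ℕ) : ℝ := 2 * ((a i.1) ^ (i.2 + 1)).re / ((i.2 : ℝ) + 1)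

/-- `α_p/p`, without the primes dividing `n`. -/
noncomputable def aL (n j : ℕ) (p : OP) : ℂ := if (p : ℕ) ∣ n then 0 else alF n j p / (p : ℕ)

/-- `α_p²/p²`. -/
noncomputable def aM (α : ℕ → ℂ) (p : OP) : ℂ := (α p) ^ 2 / ((p : ℕ) : ℂ) ^ 2

/-- `Σ 2 Re (α_p^m) log p / p^m` over the prime powers `p^m ≤ e^u`, `p` prime to `2n`. -/
noncomputable def SS (n j : ℕ) (u : ℝ) : ℝ := St (fun i => vL i * cA (aL n j) i) vL u

/-- The main part of `u er(u)`. -/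
noncomputable def AF (n j r : ℕ) (u : ℝ) : ℝ := -SS n j u - r * u

open Classical in
/-- `Σ_{p ≤ e^u} 2 Re (α_p²) log p/p²` over the odd primes. -/
noncomputable def M2 (α : ℕ → ℂ) (u : ℝ) : ℝ :=
  ∑ q ∈ Finset.Icc 1 ⌊Real.exp u⌋₊,
    if q.Prime ∧ q ≠ 2 then 2 * ((α q) ^ 2).re * Real.log q / (q : ℝ) ^ 2 else 0

/-- `Σ_{q ≤ e^u} el(q) log q`. -/
noncomputable def ALs (α : ℕ → ℂ) (u : ℝ) : ℝ :=
  ∑ q ∈ Finset.Icc 1 ⌊Real.exp u⌋₊, el α q * Real.log q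

theorem ArD_third (p : OP) {t : ℝ} (ht : 1 ≤ t) : ((p : ℕ) : ℝ) ^ (-t) ≤ 1 / 3 := by
  have h3 : 3 ≤ (p : ℕ) := by
    have := p.2.1.two_le
    have := p.2.2
    omega
  have h3' : (3 : ℝ) ≤ ((p : ℕ) : ℝ) := by exact_mod_cast h3
  have h1 : ((p : ℕ) : ℝ) ^ (-t) ≤ ((p : ℕ) : ℝ) ^ (-1 : ℝ) :=
    Real.rpow_le_rpow_of_exponent_le (by linarith) (by linarith)
  rw [Real.rpow_neg_one] at h1
  have h2 : (((p : ℕ) : ℝ))⁻¹ ≤ (3 : ℝ)⁻¹ := inv_anti₀ (by norm_num) h3'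
  linarith

theorem ArD_ne {w : ℂ} (hw : ‖w‖ < 1) : 1 - w ≠ 0 := by
  intro h
  have : w = 1 := (sub_eq_zero.mp h).symm
  rw [this, norm_one] at hw
  exact lt_irrefl _ hw

theorem ArD_log {w : ℂ} (hw : ‖w‖ < 1) :
    HasSum (fun m : ℕ => w ^ (m + 1) / ((m : ℂ) + 1)) (-Complex.log (1 - w)) := by
  have h := Complex.hasSum_taylorSeries_neg_log hw
  rw [← hasSum_nat_add_iff' 1] at h
  simp only [Finset.range_one, Finset.sum_singleton, Nat.cast_zero, div_zero, sub_zero] at h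
  refine h.congr_fun ?_
  intro m
  push_cast
  ring

theorem vL_pos (i : OP × ℕ) : 1 ≤ vL i := by
  obtain ⟨p, m⟩ := i
  have hp := p.2.1
  have h2 := p.2.2
  have h3 : 3 ≤ (p : ℕ) := by
    have := hp.two_le
    omega
  have h3' : (3 : ℝ) ≤ ((p : ℕ) : ℝ) := by exact_mod_cast h3
  have hl : 1 ≤ Real.log ((p : ℕ) : ℝ) := by
    rw [Real.le_log_iff_exp_le (by linarith)]
    have := Real.exp_one_lt_d9
    linarith
  have hm : (0 : ℝ) ≤ m := Nat.cast_nonneg m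
  simp only [vL]
  nlinarith

/-- `|cA| ≤ 2 p^{-e(m+1)}` and `e^{-σ v} = p^{-σ(m+1)}`: a double geometric series
(`Σ_m x^{m+1} ≤ 2x` for `x ≤ 1/2`; and `Σ_p p^{-(e+σ)} < ∞` for `e + σ > 1`, `e + σ ≥ 1` gives
`p^{-(e+σ)} ≤ 1/3`). -/
theorem ds_cA (a : OP → ℂ) (e : ℝ) (he : 0 < e) (he1 : e ≤ 1)
    (ha : ∀ p : OP, ‖a p‖ ≤ ((p : ℕ) : ℝ) ^ (-e)) : DS (cA a) vL (1 - e) := by
  refine ⟨inferInstance, by linarith, vL_pos, ?_⟩
  intro σ hσ
  have hx : ∀ p : OP, ((p : ℕ) : ℝ) ^ (-(e + σ)) ≤ 1 / 3 ∧ 0 ≤ ((p : ℕ) : ℝ) ^ (-(e + σ)) :=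
    fun p => ⟨ArD_third p (by linarith), by positivity⟩
  have hg : Summable (fun i : OP × ℕ => 2 * (((i.1 : ℕ) : ℝ) ^ (-(e + σ))) ^ (i.2 + 1)) := by
    rw [summable_prod_of_nonneg (fun i => by positivity)]
    have hgeo : ∀ p : OP, HasSum (fun m : ℕ => 2 * (((p : ℕ) : ℝ) ^ (-(e + σ))) ^ (m + 1))
        (2 * (((p : ℕ) : ℝ) ^ (-(e + σ)) * (1 - ((p : ℕ) : ℝ) ^ (-(e + σ)))⁻¹)) := by
      intro p
      have h1 := hasSum_geometric_of_lt_one (hx p).2 (lt_of_le_of_lt (hx p).1 (by norm_num))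
      have h2 := (h1.mul_left (((p : ℕ) : ℝ) ^ (-(e + σ)))).mul_left 2
      refine h2.congr_fun ?_
      intro m
      rw [pow_succ]
      ring
    refine ⟨fun p => (hgeo p).summable, ?_⟩
    have hsum : Summable (fun p : OP => ((p : ℕ) : ℝ) ^ (-(e + σ))) := by
      have h1 : Summable (fun n : ℕ => (n : ℝ) ^ (-(e + σ))) :=
        Real.summable_nat_rpow.mpr (by linarith)
      exact h1.comp_injective Subtype.val_injective
    refine Summable.of_nonneg_of_le (fun p => ?_) (fun p => ?_) (hsum.mul_left 3)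
    · exact tsum_nonneg (fun m => by positivity)
    · show ∑' m : ℕ, 2 * (((p : ℕ) : ℝ) ^ (-(e + σ))) ^ (m + 1) ≤ _
      rw [(hgeo p).tsum_eq]
      have h1 := (hx p).1
      have h0 := (hx p).2
      have h2 : (1 - ((p : ℕ) : ℝ) ^ (-(e + σ)))⁻¹ ≤ 3 / 2 := by
        rw [inv_le_comm₀ (by linarith) (by norm_num)]
        linarith
      nlinarith
  refine Summable.of_nonneg_of_le (fun i => by positivity) (fun i => ?_) hg
  obtain ⟨p, m⟩ := i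
  have hp0 : (0 : ℝ) < ((p : ℕ) : ℝ) := by exact_mod_cast p.2.1.pos
  have h1 : |cA a (p, m)| ≤ 2 * (((p : ℕ) : ℝ) ^ (-e)) ^ (m + 1) := by
    simp only [cA]
    rw [abs_div, abs_mul, abs_two]
    have hm : (0 : ℝ) ≤ m := Nat.cast_nonneg m
    have h2 : |((a p) ^ (m + 1)).re| ≤ (((p : ℕ) : ℝ) ^ (-e)) ^ (m + 1) := by
      refine (Complex.abs_re_le_norm _).trans ?_
      rw [norm_pow]
      exact pow_le_pow_left₀ (norm_nonneg _) (ha p) _
    rw [abs_of_pos (by linarith : (0 : ℝ) < (m : ℝ) + 1)]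
    refine (div_le_self (by positivity) (by linarith)).trans ?_
    linarith
  have h3 : Real.exp (-(σ * vL (p, m))) = (((p : ℕ) : ℝ) ^ (-σ)) ^ (m + 1) := by
    rw [Real.rpow_def_of_pos hp0, ← Real.exp_nat_mul]
    congr 1
    simp only [vL]
    push_cast
    ring
  have h4 : ((p : ℕ) : ℝ) ^ (-(e + σ)) = ((p : ℕ) : ℝ) ^ (-e) * ((p : ℕ) : ℝ) ^ (-σ) := by
    rw [← Real.rpow_add hp0]
    congr 1
    ring
  show |cA a (p, m)| * Real.exp (-(σ * vL (p, m))) ≤ 2 * (((p : ℕ) : ℝ) ^ (-(e + σ))) ^ (m + 1)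
  rw [h3, h4, mul_pow, ← mul_assoc]
  exact mul_le_mul_of_nonneg_right h1 (by positivity)

/-- An Euler product as the exponential of a series: `(1 - w)⁻¹ = exp (Σ w^m/m)` for `‖w‖ < 1`, with
`w = a_p p^{-s}` and `w = conj a_p p^{-s}` (`Complex.hasSum_taylorSeries_neg_log`), `HasSum` over
`OP × ℕ` (`ds_cA`), `HasSum.sigma`/`HasSum.prod_fiberwise` and `HasSum.cexp` (product of exponentials),
uniqueness of the product. -/
theorem prod_exp (a : OP → ℂ) (e : ℝ) (he : 0 < e) (he1 : e ≤ 1)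
    (ha : ∀ p : OP, ‖a p‖ ≤ ((p : ℕ) : ℝ) ^ (-e)) (s : ℂ) (hs : 1 - e < s.re) (P : ℂ)
    (hP : HasProd (fun p : OP => ((1 - a p * ((p : ℕ) : ℂ) ^ (-s)) *
      (1 - (starRingEnd ℂ (a p)) * ((p : ℕ) : ℂ) ^ (-s)))⁻¹) P) :
    P = Complex.exp (ES (cA a) vL s) := by
  have hds := ds_cA a e he he1 ha
  have hsum : Summable (fun i : OP × ℕ => (cA a i : ℂ) * Complex.exp (-(s * vL i))) := by
    rw [← summable_norm_iff]
    refine (hds.sm s.re hs).congr ?_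
    intro i
    rw [norm_mul, Complex.norm_real, Complex.norm_exp, Real.norm_eq_abs]
    congr 2
    simp
  have hES : HasSum (fun i : OP × ℕ => (cA a i : ℂ) * Complex.exp (-(s * vL i)))
      (ES (cA a) vL s) := hsum.hasSum
  have hw : ∀ (b : ℂ) (p : OP), ‖b‖ ≤ ((p : ℕ) : ℝ) ^ (-e) → ‖b * ((p : ℕ) : ℂ) ^ (-s)‖ < 1 := by
    intro b p hb
    have hp0 : (0 : ℝ) < ((p : ℕ) : ℝ) := by exact_mod_cast p.2.1.pos
    rw [norm_mul, Complex.norm_natCast_cpow_of_pos p.2.1.pos]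
    have h1 : ‖b‖ * ((p : ℕ) : ℝ) ^ (-s).re ≤ ((p : ℕ) : ℝ) ^ (-(e + s.re)) := by
      have h2 : ((p : ℕ) : ℝ) ^ (-(e + s.re)) = ((p : ℕ) : ℝ) ^ (-e) * ((p : ℕ) : ℝ) ^ (-s).re := by
        rw [← Real.rpow_add hp0]
        congr 1
        rw [Complex.neg_re]
        ring
      rw [h2]
      exact mul_le_mul_of_nonneg_right hb (by positivity)
    have h3 := ArD_third p (by linarith : 1 ≤ e + s.re)
    linarith
  have hfib : ∀ p : OP, HasSum (fun m : ℕ => (cA a (p, m) : ℂ) * Complex.exp (-(s * vL (p, m))))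
      (-Complex.log (1 - a p * ((p : ℕ) : ℂ) ^ (-s)) +
        -Complex.log (1 - (starRingEnd ℂ (a p)) * ((p : ℕ) : ℂ) ^ (-s))) := by
    intro p
    have hpc : ((p : ℕ) : ℂ) ≠ 0 := by exact_mod_cast p.2.1.ne_zero
    have h1 := ArD_log (hw (a p) p (ha p))
    have h2 := ArD_log (hw (starRingEnd ℂ (a p)) p (by rw [RCLike.norm_conj]; exact ha p))
    refine (h1.add h2).congr_fun ?_
    intro m
    have h3 : Complex.exp (-(s * vL (p, m))) = (((p : ℕ) : ℂ) ^ (-s)) ^ (m + 1) := by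
      rw [Complex.cpow_def_of_ne_zero hpc, ← Complex.exp_nat_mul]
      congr 1
      simp only [vL]
      push_cast
      ring
    have h4 : ((2 * ((a p) ^ (m + 1)).re : ℝ) : ℂ) =
        (a p) ^ (m + 1) + (starRingEnd ℂ (a p)) ^ (m + 1) := by
      rw [← map_pow, Complex.add_conj]
    have h5 : (cA a (p, m) : ℂ) = ((a p) ^ (m + 1) + (starRingEnd ℂ (a p)) ^ (m + 1)) /
        ((m : ℂ) + 1) := by
      rw [← h4]
      simp only [cA]
      push_cast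
      ring
    rw [h3, h5, mul_pow, mul_pow]
    ring
  have hG := (hES.prod_fiberwise hfib).cexp
  refine hP.unique (hG.congr_fun ?_)
  intro p
  have n1 : 1 - a p * ((p : ℕ) : ℂ) ^ (-s) ≠ 0 := ArD_ne (hw (a p) p (ha p))
  have n2 : 1 - (starRingEnd ℂ (a p)) * ((p : ℕ) : ℂ) ^ (-s) ≠ 0 :=
    ArD_ne (hw (starRingEnd ℂ (a p)) p (by rw [RCLike.norm_conj]; exact ha p))
  simp only [Function.comp_apply]
  rw [Complex.exp_add, Complex.exp_neg, Complex.exp_neg, Complex.exp_log n1, Complex.exp_log n2,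
    mul_inv]

/-- `‖α_p/p‖ = p^{-1/2}` (`norm_alF`). -/
theorem aL_bd (n j : ℕ) (p : OP) : ‖aL n j p‖ ≤ ((p : ℕ) : ℝ) ^ (-(1 / 2) : ℝ) := by
  have hp0 : (0 : ℝ) < ((p : ℕ) : ℝ) := by exact_mod_cast p.2.1.pos
  unfold aL
  split_ifs with h
  · rw [norm_zero]
    positivity
  · have h1 := norm_alF n j p p.2.1 p.2.2
    have h2 : ‖alF n j p‖ = ((p : ℕ) : ℝ) ^ (1 / 2 : ℝ) := by
      rw [← Real.sqrt_eq_rpow, ← h1, Real.sqrt_sq (norm_nonneg _)]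
    rw [_root_.norm_div, h2, Complex.norm_natCast]
    have h3 : ((p : ℕ) : ℝ) ^ (1 / 2 : ℝ) / ((p : ℕ) : ℝ) = ((p : ℕ) : ℝ) ^ (-(1 / 2) : ℝ) := by
      rw [div_eq_iff hp0.ne']
      nth_rewrite 3 [← Real.rpow_one ((p : ℕ) : ℝ)]
      rw [← Real.rpow_add hp0]
      norm_num
    rw [h3]

theorem aM_bd (α : ℕ → ℂ) (hα : ∀ p : ℕ, p.Prime → p ≠ 2 → ‖α p‖ ^ 2 = p) (p : OP) :
    ‖aM α p‖ ≤ ((p : ℕ) : ℝ) ^ (-1 : ℝ) := by
  have hp0 : (0 : ℝ) < ((p : ℕ) : ℝ) := by exact_mod_cast p.2.1.pos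
  have h1 := hα p p.2.1 p.2.2
  unfold aM
  rw [_root_.norm_div, norm_pow, norm_pow, h1, Complex.norm_natCast, Real.rpow_neg_one]
  apply le_of_eq
  field_simp

/-- `euler_fam`, `LG_eq` (`thData_fam`) and `prod_exp` with `a = aL n j`, `e = 1/2`:
`fL α p (1+s) = (1 - (α/p) p^{-s}) (1 - (conj α/p) p^{-s})`. -/
theorem LG_exp (n j : ℕ) (hj : j = 0 ∨ j = 1) (hn : Odd n) (hs : Squarefree n) (s : ℂ)
    (h : 1 / 2 < s.re) :
    LG (aFam n j) (kF n j) (1 + s) = Complex.exp (ES (cA (aL n j)) vL s) := by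
  have hT := thData_fam n j hj hn hs
  have hre : (1 + s).re = 1 + s.re := by simp
  have h32 : 3 / 2 < (1 + s).re := by
    rw [hre]
    linarith
  rw [(LG_eq (aFam n j) (kF n j) (eF n j) hT (1 + s) h32).2]
  refine prod_exp (aL n j) (1 / 2) (by norm_num) (by norm_num) (fun p => aL_bd n j p) s
    (by linarith) _ ?_
  refine (euler_fam n j hn (1 + s) h32).congr_fun ?_
  intro p
  have hpc : ((p : ℕ) : ℂ) ≠ 0 := by exact_mod_cast p.2.1.ne_zero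
  by_cases hd : (p : ℕ) ∣ n
  · rw [if_pos hd]
    simp [aL, hd]
  · rw [if_neg hd]
    have e1 : ((p : ℕ) : ℂ) ^ (-(1 + s)) = (((p : ℕ) : ℂ))⁻¹ * ((p : ℕ) : ℂ) ^ (-s) := by
      rw [neg_add, Complex.cpow_add _ _ hpc, Complex.cpow_neg_one]
    simp only [aL, hd, if_false, fL, e1, map_div₀, Complex.conj_natCast]
    congr 1
    ring

/-- `W_prod` and `prod_exp` with `a = aM α`, `e = 1`. -/
theorem W_exp (α : ℕ → ℂ) (L W : ℂ → ℂ) (hD : DataF α L W) (w : ℂ) (hw : 0 < w.re) :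
    W w / (riemannZeta (1 + w) * t2 w) = Complex.exp (ES (cA (aM α)) vL w) := by
  refine prod_exp (aM α) 1 one_pos le_rfl (fun p => aM_bd α hD.norm_α p) w (by linarith) _ ?_
  refine (hD.W_prod w hw).congr_fun ?_
  intro p
  have hpc : ((p : ℕ) : ℂ) ≠ 0 := by exact_mod_cast p.2.1.ne_zero
  have e1 : ((p : ℕ) : ℂ) ^ (-2 - w) = ((((p : ℕ) : ℂ)) ^ 2)⁻¹ * ((p : ℕ) : ℂ) ^ (-w) := by
    rw [sub_eq_add_neg, Complex.cpow_add _ _ hpc, Complex.cpow_neg]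
    congr 2
    exact_mod_cast Complex.cpow_natCast ((p : ℕ) : ℂ) 2
  simp only [aM, fM, e1, map_div₀, map_pow, Complex.conj_natCast]
  congr 1
  ring

end W3283l
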