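import Pool.Agent.W_3283e1_lw.ArD

set_option autoImplicit false

namespace W3283l

open Complex W3283e1 W3283f MeasureTheory Filter Topology

open Classical in
/-- `Σ_{p ≤ e^u} 2 Re (α_p²) log p/p` over the odd primes. -/
noncomputable def N2 (α : ℕ → ℂ) (u : ℝ) : ℝ :=
  ∑ q ∈ Finset.Icc 1 ⌊Real.exp u⌋₊,
    if q.Prime ∧ q ≠ 2 then 2 * ((α q) ^ 2).re * Real.log q / q else 0

/-- The coefficients of `N2`. -/
noncomputable def ChA_b (α : ℕ → ℂ) (q : ℕ) : ℝ := 2 * ((α q) ^ 2).re * Real.log q / q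

theorem ChA_le (q : ℕ) (hq : 1 ≤ q) (u : ℝ) : q ≤ ⌊Real.exp u⌋₊ ↔ Real.log q ≤ u := by
  have hq' : (0 : ℝ) < q := by exact_mod_cast hq
  rw [Nat.le_floor_iff (Real.exp_pos u).le, Real.log_le_iff_le_exp hq']

theorem ChA_b_le (α : ℕ → ℂ) (hα : ∀ p : ℕ, p.Prime → p ≠ 2 → ‖α p‖ ^ 2 = p) (q : ℕ)
    (hq : q.Prime) (hq2 : q ≠ 2) : |ChA_b α q| ≤ 2 * Real.log q := by
  have hq' : (0 : ℝ) < q := by exact_mod_cast hq.pos
  have hl : 0 ≤ Real.log q := Real.log_natCast_nonneg q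
  have h1 : |((α q) ^ 2).re| ≤ q := by
    refine (Complex.abs_re_le_norm _).trans ?_
    rw [norm_pow, hα q hq hq2]
  rw [ChA_b, abs_div, abs_mul, abs_mul, abs_of_pos hq', abs_of_nonneg hl,
    abs_of_pos (by norm_num : (0 : ℝ) < 2), div_le_iff₀ hq']
  calc 2 * |((α q) ^ 2).re| * Real.log q ≤ 2 * (q : ℝ) * Real.log q := by gcongr
    _ = 2 * Real.log q * q := by ring

/-- `|2 Re (α²)/p| ≤ 2` and Chebyshev's bound `θ(x) ≤ log 4 · x` (`Chebyshev.theta_le_log4_mul_x`). -/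
theorem N2_bd (α : ℕ → ℂ) (hα : ∀ p : ℕ, p.Prime → p ≠ 2 → ‖α p‖ ^ 2 = p) (u : ℝ) (hu : 0 ≤ u) :
    |N2 α u| ≤ 3 * Real.exp u := by
  classical
  have h1 : |N2 α u| ≤ 2 * Chebyshev.theta (Real.exp u) := by
    rw [Chebyshev.theta_eq_sum_Icc, Finset.mul_sum]
    unfold N2
    refine (Finset.abs_sum_le_sum_abs _ _).trans ?_
    have h2 : ∀ q ∈ Finset.Icc 1 ⌊Real.exp u⌋₊,
        |(if q.Prime ∧ q ≠ 2 then 2 * ((α q) ^ 2).re * Real.log q / q else 0)| ≤
        if q.Prime then 2 * Real.log q else 0 := by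
      intro q _
      by_cases h3 : q.Prime
      · rw [if_pos h3]
        by_cases h4 : q = 2
        · rw [if_neg (fun h => h.2 h4), abs_zero]
          have hl : 0 ≤ Real.log q := Real.log_natCast_nonneg q
          positivity
        · rw [if_pos ⟨h3, h4⟩]
          exact ChA_b_le α hα q h3 h4
      · rw [if_neg h3, if_neg (fun h => h3 h.1), abs_zero]
    refine (Finset.sum_le_sum h2).trans ?_
    rw [← Finset.sum_filter]
    refine Finset.sum_le_sum_of_subset_of_nonneg ?_ ?_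
    · intro q hq
      rw [Finset.mem_filter, Finset.mem_Icc] at hq
      rw [Finset.mem_filter, Finset.mem_Icc]
      exact ⟨⟨Nat.zero_le _, hq.1.2⟩, hq.2⟩
    · intro q _ _
      have hl : 0 ≤ Real.log q := Real.log_natCast_nonneg q
      positivity
  have h2 := Chebyshev.theta_le_log4_mul_x (Real.exp_pos u).le
  have h3 : Real.log 4 ≤ 3 / 2 := by
    have h4 : Real.log 4 = 2 * Real.log 2 := by
      rw [show (4 : ℝ) = 2 ^ 2 by norm_num, Real.log_pow]
      norm_num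
    have h5 := Real.log_two_lt_d9
    rw [h4]
    linarith
  have h6 : Real.log 4 * Real.exp u ≤ 3 / 2 * Real.exp u :=
    mul_le_mul_of_nonneg_right h3 (Real.exp_pos u).le
  linarith

open Classical in
theorem ChA_eq (α : ℕ → ℂ) (u T : ℝ) (h : u ≤ T) :
    N2 α u = ∑ q ∈ Finset.Icc 1 ⌊Real.exp T⌋₊,
      if (q.Prime ∧ q ≠ 2) ∧ Real.log q ≤ u then ChA_b α q else 0 := by
  unfold N2
  have hsub : Finset.Icc 1 ⌊Real.exp u⌋₊ ⊆ Finset.Icc 1 ⌊Real.exp T⌋₊ :=
    Finset.Icc_subset_Icc le_rfl (Nat.floor_mono (Real.exp_le_exp.2 h))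
  rw [← Finset.sum_subset hsub]
  · refine Finset.sum_congr rfl fun q hq => ?_
    rw [Finset.mem_Icc] at hq
    have h1 := (ChA_le q hq.1 u).1 hq.2
    by_cases h2 : q.Prime ∧ q ≠ 2
    · rw [if_pos h2, if_pos ⟨h2, h1⟩, ChA_b]
    · rw [if_neg h2, if_neg (fun h => h2 h.1)]
  · intro q hq hq'
    rw [Finset.mem_Icc] at hq hq'
    rw [if_neg]
    rintro ⟨_, h3⟩
    exact hq' ⟨hq.1, (ChA_le q hq.1 u).2 h3⟩

/-- One term of the integral. -/
theorem ChA_term (b : ℝ) (q : ℕ) (hq : q.Prime) (T : ℝ) (hT : Real.log q ≤ T) :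
    IntegrableOn ((Set.Ici (Real.log q)).indicator fun u : ℝ => Real.exp (-u) * b) (Set.Ioc 0 T) ∧
    ∫ u in Set.Ioc 0 T, (Set.Ici (Real.log q)).indicator (fun u : ℝ => Real.exp (-u) * b) u =
      b / q - Real.exp (-T) * b := by
  have hq1 : (1 : ℝ) < q := by exact_mod_cast hq.one_lt
  have hl : 0 < Real.log q := Real.log_pos hq1
  have hc : Continuous fun u : ℝ => Real.exp (-u) * b := by fun_prop
  constructor
  · exact (hc.integrableOn_Ioc).indicator measurableSet_Ici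
  · have hset : Set.Ioc 0 T ∩ Set.Ici (Real.log q) = Set.Icc (Real.log q) T := by
      ext x
      simp only [Set.mem_inter_iff, Set.mem_Ioc, Set.mem_Ici, Set.mem_Icc]
      constructor
      · rintro ⟨⟨_, h2⟩, h3⟩
        exact ⟨h3, h2⟩
      · rintro ⟨h1, h2⟩
        exact ⟨⟨by linarith, h2⟩, h1⟩
    rw [setIntegral_indicator measurableSet_Ici, hset, integral_Icc_eq_integral_Ioc,
      integral_mul_const, ← intervalIntegral.integral_of_le hT,
      intervalIntegral.integral_comp_neg (fun x => Real.exp x), integral_exp, Real.exp_neg,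
      Real.exp_log (by linarith)]
    ring

/-- `∫_0^T e^{-u} N2(u) du = M2(T) - e^{-T} N2(T)`: for a prime `p ≤ e^T`,
`∫_{log p}^T e^{-u} du = 1/p - e^{-T}`. -/
theorem N2_int (α : ℕ → ℂ) (T : ℝ) (hT : 0 ≤ T) :
    IntegrableOn (fun u : ℝ => Real.exp (-u) * N2 α u + 1) (Set.Ioc 0 T) ∧
    ∫ u in Set.Ioc 0 T, (Real.exp (-u) * N2 α u + 1) = M2 α T - Real.exp (-T) * N2 α T + T := by
  classical
  set S : Finset ℕ := (Finset.Icc 1 ⌊Real.exp T⌋₊).filter fun q => q.Prime ∧ q ≠ 2 with hS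
  have hmem : ∀ q ∈ S, q.Prime ∧ Real.log q ≤ T := by
    intro q hq
    rw [hS, Finset.mem_filter, Finset.mem_Icc] at hq
    exact ⟨hq.2.1, (ChA_le q hq.1.1 T).1 hq.1.2⟩
  have hfun : ∀ u ∈ Set.Ioc 0 T, (∑ q ∈ S, (Set.Ici (Real.log q)).indicator
      (fun u : ℝ => Real.exp (-u) * ChA_b α q) u) + 1 = Real.exp (-u) * N2 α u + 1 := by
    intro u hu
    rw [ChA_eq α u T hu.2, Finset.mul_sum, hS, Finset.sum_filter]
    congr 1
    refine Finset.sum_congr rfl fun q _ => ?_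
    by_cases h2 : q.Prime ∧ q ≠ 2
    · rw [if_pos h2]
      by_cases h3 : Real.log q ≤ u
      · rw [if_pos ⟨h2, h3⟩, Set.indicator_of_mem (Set.mem_Ici.2 h3)]
      · rw [if_neg (fun h => h3 h.2), Set.indicator_of_notMem (fun h => h3 (Set.mem_Ici.1 h)),
          mul_zero]
    · rw [if_neg h2, if_neg (fun h => h2 h.1), mul_zero]
  have hi : IntegrableOn (fun u : ℝ => (∑ q ∈ S, (Set.Ici (Real.log q)).indicator
      (fun u : ℝ => Real.exp (-u) * ChA_b α q) u)) (Set.Ioc 0 T) := by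
    refine integrable_finsetSum _ fun q hq => ?_
    exact (ChA_term (ChA_b α q) q (hmem q hq).1 T (hmem q hq).2).1
  have hone : IntegrableOn (fun _ : ℝ => (1 : ℝ)) (Set.Ioc 0 T) :=
    (continuous_const).integrableOn_Ioc
  constructor
  · exact (integrableOn_congr_fun hfun measurableSet_Ioc).1 (hi.add hone)
  · rw [← setIntegral_congr_fun measurableSet_Ioc hfun, integral_add hi hone,
      integral_finsetSum _ fun q hq =>
        (ChA_term (ChA_b α q) q (hmem q hq).1 T (hmem q hq).2).1]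
    have h1 : ∑ q ∈ S, ∫ u in Set.Ioc 0 T, (Set.Ici (Real.log q)).indicator
        (fun u : ℝ => Real.exp (-u) * ChA_b α q) u =
        ∑ q ∈ S, (ChA_b α q / q - Real.exp (-T) * ChA_b α q) :=
      Finset.sum_congr rfl fun q hq => (ChA_term (ChA_b α q) q (hmem q hq).1 T (hmem q hq).2).2
    have h2 : ∑ q ∈ S, ChA_b α q / q = M2 α T := by
      rw [hS, Finset.sum_filter]
      unfold M2
      refine Finset.sum_congr rfl fun q _ => ?_
      split_ifs
      · rw [ChA_b, div_div, sq (q : ℝ)]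
      · rfl
    have h3 : ∑ q ∈ S, Real.exp (-T) * ChA_b α q = Real.exp (-T) * N2 α T := by
      rw [← Finset.mul_sum, hS, Finset.sum_filter]
      rfl
    have h4 : ∫ _ in Set.Ioc 0 T, (1 : ℝ) = T := by
      simp [hT]
    rw [h1, Finset.sum_sub_distrib, h2, h3, h4]

/-- The terms `m = 0` of the series `ES (vL · cA (aM α)) vL`, as a series over the odd primes:
coefficients `2 Re (α_p²) log p/p²`. -/
noncomputable def c1 (α : ℕ → ℂ) (p : OP) : ℝ := 2 * ((α p) ^ 2).re * Real.log (p : ℕ) / ((p : ℕ) : ℝ) ^ 2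

/-- The exponents. -/
noncomputable def ChA_v (p : OP) : ℝ := Real.log (p : ℕ)

theorem ChA_one_le (p : OP) : 1 ≤ ChA_v p := by
  have h1 := p.2.1.two_le
  have h2 := p.2.2
  have h3 : 3 ≤ (p : ℕ) := by omega
  have h4 : (3 : ℝ) ≤ (p : ℕ) := by exact_mod_cast h3
  rw [ChA_v, Real.le_log_iff_exp_le (by linarith)]
  have h5 := Real.exp_one_lt_d9
  linarith

theorem ChA_ds (α : ℕ → ℂ) (hα : ∀ p : ℕ, p.Prime → p ≠ 2 → ‖α p‖ ^ 2 = p) :
    DS (fun p : OP => ChA_b α p) ChA_v 1 := by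
  refine ⟨inferInstance, zero_le_one, ChA_one_le, fun σ hσ => ?_⟩
  have hδ : 0 < (σ - 1) / 2 := by linarith
  have hs : Summable fun n : ℕ => (n : ℝ) ^ (-((1 + σ) / 2)) :=
    Real.summable_nat_rpow.2 (by linarith)
  have hs' : Summable fun p : OP => ((p : ℕ) : ℝ) ^ (-((1 + σ) / 2)) :=
    hs.comp_injective Subtype.val_injective
  refine Summable.of_nonneg_of_le (fun i => by positivity) (fun p => ?_)
    (hs'.mul_left (2 / ((σ - 1) / 2)))
  have hp : (0 : ℝ) < (p : ℕ) := by exact_mod_cast p.2.1.pos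
  have h1 : Real.log (p : ℕ) ≤ ((p : ℕ) : ℝ) ^ ((σ - 1) / 2) / ((σ - 1) / 2) :=
    Real.log_le_rpow_div hp.le hδ
  have h2 : Real.exp (-(σ * ChA_v p)) = ((p : ℕ) : ℝ) ^ (-σ) := by
    rw [Real.rpow_def_of_pos hp, ChA_v]
    congr 1
    ring
  rw [h2]
  calc |ChA_b α p| * ((p : ℕ) : ℝ) ^ (-σ) ≤
      2 * (((p : ℕ) : ℝ) ^ ((σ - 1) / 2) / ((σ - 1) / 2)) * ((p : ℕ) : ℝ) ^ (-σ) := by
        refine mul_le_mul_of_nonneg_right ((ChA_b_le α hα p p.2.1 p.2.2).trans ?_) (by positivity)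
        linarith
    _ = 2 / ((σ - 1) / 2) * (((p : ℕ) : ℝ) ^ ((σ - 1) / 2) * ((p : ℕ) : ℝ) ^ (-σ)) := by ring
    _ = 2 / ((σ - 1) / 2) * ((p : ℕ) : ℝ) ^ (-((1 + σ) / 2)) := by
        rw [← Real.rpow_add hp]
        congr 2
        ring

theorem ChA_St (α : ℕ → ℂ) (u : ℝ) : St (fun p : OP => ChA_b α p) ChA_v u = N2 α u := by
  classical
  unfold St
  have h1 : ∑' p : OP, (if ChA_v p ≤ u then ChA_b α p else 0) =
      ∑' q : ℕ, Set.indicator {q : ℕ | q.Prime ∧ q ≠ 2}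
        (fun q : ℕ => if Real.log q ≤ u then ChA_b α q else 0) q :=
    tsum_subtype {q : ℕ | q.Prime ∧ q ≠ 2} (fun q : ℕ => if Real.log q ≤ u then ChA_b α q else 0)
  rw [h1, tsum_eq_sum (s := Finset.Icc 1 ⌊Real.exp u⌋₊)]
  · unfold N2
    refine Finset.sum_congr rfl fun q hq => ?_
    rw [Finset.mem_Icc] at hq
    have h2 := (ChA_le q hq.1 u).1 hq.2
    rw [Set.indicator_apply]
    by_cases h3 : q.Prime ∧ q ≠ 2
    · rw [if_pos h3, if_pos (show q ∈ {q : ℕ | q.Prime ∧ q ≠ 2} from h3), if_pos h2, ChA_b]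
    · rw [if_neg h3, if_neg (show ¬ q ∈ {q : ℕ | q.Prime ∧ q ≠ 2} from h3)]
  · intro q hq
    rw [Set.indicator_apply]
    by_cases h3 : q.Prime ∧ q ≠ 2
    · rw [if_pos (show q ∈ {q : ℕ | q.Prime ∧ q ≠ 2} from h3), if_neg]
      intro h4
      apply hq
      rw [Finset.mem_Icc]
      exact ⟨h3.1.one_le, (ChA_le q h3.1.one_le u).2 h4⟩
    · rw [if_neg (show ¬ q ∈ {q : ℕ | q.Prime ∧ q ≠ 2} from h3)]

/-- The transform: for `Re z > 0`, `∫_0^∞ e^{-u} N2(u) e^{-zu} du = (1+z)⁻¹ Σ_p c1 p^{-z}`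
(`∫_{log p}^∞ e^{-(1+z)u} du = p^{-(1+z)}/(1+z)`; absolute convergence by `|2 Re α²/p| ≤ 2` and
`Σ log p p^{-1-x} < ∞`). -/
theorem N2_lap (α : ℕ → ℂ) (hα : ∀ p : ℕ, p.Prime → p ≠ 2 → ‖α p‖ ^ 2 = p) (z : ℂ)
    (hz : 0 < z.re) :
    ∫ t in Set.Ioi (0 : ℝ), ((Real.exp (-t) * N2 α t + 1 : ℝ) : ℂ) * Complex.exp (-(z * t)) =
      (∑' p : OP, (c1 α p : ℂ) * ((p : ℕ) : ℂ) ^ (-z)) / (1 + z) + 1 / z := by
  have hre : (-z).re < 0 := by
    rw [Complex.neg_re]
    linarith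
  have hz0 : (1 + z) ≠ 0 := by
    intro h
    have h1 := congrArg Complex.re h
    rw [Complex.add_re, Complex.one_re, Complex.zero_re] at h1
    linarith
  obtain ⟨h1, h2⟩ := st_lap (ChA_ds α hα) (1 + z) (by
    rw [Complex.add_re, Complex.one_re]
    linarith)
  simp only [ChA_St] at h1 h2
  have h3 : ES (fun p : OP => ChA_b α p) ChA_v (1 + z) =
      ∑' p : OP, (c1 α p : ℂ) * ((p : ℕ) : ℂ) ^ (-z) := by
    unfold ES
    refine tsum_congr fun p => ?_
    have hp : ((p : ℕ) : ℂ) ≠ 0 := by exact_mod_cast p.2.1.ne_zero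
    have h4 : Complex.exp (-((1 + z) * ChA_v p)) = ((p : ℕ) : ℂ)⁻¹ * ((p : ℕ) : ℂ) ^ (-z) := by
      rw [ChA_v, Complex.natCast_log, Complex.cpow_def_of_ne_zero hp, ← Complex.exp_log hp,
        ← Complex.exp_neg, Complex.exp_log hp, ← Complex.exp_add]
      congr 1
      ring
    rw [h4]
    show ((ChA_b α (p : ℕ) : ℝ) : ℂ) * _ = _
    rw [ChA_b, c1]
    push_cast
    field_simp
  have h5 : ∫ t in Set.Ioi (0 : ℝ), Complex.exp (-(z * t)) = 1 / z := by
    have h6 := integral_exp_mul_complex_Ioi hre 0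
    rw [Complex.ofReal_zero, mul_zero, Complex.exp_zero, neg_div_neg_eq] at h6
    rw [← h6]
    simp only [neg_mul]
  have h7 : IntegrableOn (fun t : ℝ => Complex.exp (-(z * t))) (Set.Ioi 0) := by
    have h8 := integrableOn_exp_mul_complex_Ioi hre 0
    simpa only [neg_mul] using h8
  have h9 : ∀ t : ℝ, ((Real.exp (-t) * N2 α t + 1 : ℝ) : ℂ) * Complex.exp (-(z * t)) =
      (N2 α t : ℂ) * Complex.exp (-((1 + z) * t)) + Complex.exp (-(z * t)) := by
    intro t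
    have h10 : Complex.exp (-((1 + z) * t)) = Complex.exp (-(t : ℂ)) * Complex.exp (-(z * t)) := by
      rw [← Complex.exp_add]
      congr 1
      ring
    rw [h10]
    push_cast
    ring
  simp only [h9]
  rw [integral_add h1 h7, h5, ← h3, ← h2, mul_div_assoc, mul_comm, div_mul_cancel₀ _ hz0]

end W3283l
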