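import Mathlib

set_option autoImplicit false

namespace W3283l

open MeasureTheory

/-- auxiliary integral -/
theorem New_integral_exp (x : ℝ) (hx : x < 0) (T : ℝ) :
    ∫ t in (0 : ℝ)..T, Real.exp (-x * t) = (Real.exp (-x * T) - Real.exp (-x * 0)) / (-x) := by
  have hx' : -x ≠ 0 := by linarith
  have h : ∀ t : ℝ, HasDerivAt (fun t : ℝ => Real.exp (-x * t) / (-x)) (Real.exp (-x * t)) t := by
    intro t
    have h1 : HasDerivAt (fun t : ℝ => -x * t) (-x) t := by
      simpa using (hasDerivAt_id t).const_mul (-x)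
    have h2 := h1.exp.div_const (-x)
    refine h2.congr_deriv ?_
    exact mul_div_cancel_right₀ _ hx'
  rw [intervalIntegral.integral_eq_sub_of_hasDerivAt (fun t _ => h t)
    (Continuous.intervalIntegrable (by fun_prop) _ _)]
  rw [sub_div]

/-- Newman's contour argument (bounded version).  For `T ≥ 0` let `gT z = ∫_0^T f t e^{-zt} dt`, an entire
function (bounded measurable `f`; differentiate under the integral, or as a limit).  By Cauchy's formula for the disc `‖z‖ ≤ δ`
(`Complex.circleIntegral_sub_inv_smul_of_differentiable_on_...`),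
`gT 0 - g 0 = (2πi)⁻¹ ∮_{‖z‖=δ} (gT z - g z) e^{zT} (1 + z²/δ²) dz/z`.  On the circle, with `x = Re z`,
`‖1 + z²/δ²‖ = 2|x|/δ`.  For `x > 0`: `‖gT z - g z‖ = ‖∫_T^∞ f e^{-zt}‖ ≤ M e^{-xT}/x`.  For
`x < 0`: `‖gT z‖ ≤ M e^{-xT}/|x|` and `‖e^{zT}‖ ≤ 1`, `‖g z‖ ≤ S = sup`.  For `x = 0` the kernel is
`0`.  So the integrand has norm at most `(2M/δ + 2S)/δ`, and
(`circleIntegral.norm_integral_le_of_norm_le_const`) `|∫_0^T f| ≤ 2M/δ + 3 S`. -/
theorem newman_bdd (f : ℝ → ℝ) (hf : Measurable f) (M : ℝ) (hM : ∀ t : ℝ, 0 < t → |f t| ≤ M)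
    (δ : ℝ) (hδ : 0 < δ) (g : ℂ → ℂ) (hg : ∀ z : ℂ, ‖z‖ ≤ δ → AnalyticAt ℂ g z)
    (hgf : ∀ z : ℂ, 0 < z.re → ‖z‖ ≤ δ →
      g z = ∫ t in Set.Ioi (0 : ℝ), (f t : ℂ) * Complex.exp (-(z * t))) :
    ∃ C : ℝ, ∀ T : ℝ, 0 ≤ T → |∫ t in Set.Ioc 0 T, f t| ≤ C := by
  classical
  have hM0 : 0 ≤ M := le_trans (abs_nonneg _) (hM 1 one_pos)
  -- `S`
  have hgcont : ContinuousOn (fun z : ℂ => ‖g z‖) (Metric.closedBall 0 δ) := by
    refine ContinuousOn.norm fun z hz => ?_
    exact (hg z (by simpa using hz)).continuousAt.continuousWithinAt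
  obtain ⟨S0, hS0⟩ := (isCompact_closedBall (0 : ℂ) δ).bddAbove_image hgcont
  have hS : ∀ z : ℂ, ‖z‖ ≤ δ → ‖g z‖ ≤ |S0| := by
    intro z hz
    exact (hS0 ⟨z, by simpa using hz, rfl⟩).trans (le_abs_self _)
  refine ⟨2 * M / δ + 3 * |S0|, fun T hT => ?_⟩
  -- the truncated transform
  set gT : ℂ → ℂ := fun z => ∫ t in Set.Ioc (0 : ℝ) T, (f t : ℂ) * Complex.exp (-(z * t)) with hgT
  have hfm : Measurable (fun t : ℝ => (f t : ℂ)) := Complex.measurable_ofReal.comp hf
  have hem : ∀ z : ℂ, Measurable (fun t : ℝ => Complex.exp (-(z * t))) := fun z => by fun_prop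
  have hexpn : ∀ (z : ℂ) (t : ℝ), ‖Complex.exp (-(z * t))‖ = Real.exp (-(z.re * t)) := by
    intro z t
    rw [Complex.norm_exp]
    congr 1
    simp
  have hfin : IsFiniteMeasure (volume.restrict (Set.Ioc (0 : ℝ) T)) := ⟨by
    rw [Measure.restrict_apply_univ]; exact measure_Ioc_lt_top⟩
  have hintT : ∀ z : ℂ, Integrable (fun t : ℝ => (f t : ℂ) * Complex.exp (-(z * t)))
      (volume.restrict (Set.Ioc (0 : ℝ) T)) := by
    intro z
    refine Integrable.of_bound (hfm.mul (hem z)).aestronglyMeasurable (M * Real.exp (|z.re| * T)) ?_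
    refine (ae_restrict_iff' measurableSet_Ioc).2 (Filter.Eventually.of_forall fun t ht => ?_)
    rw [norm_mul, hexpn, Complex.norm_real, Real.norm_eq_abs]
    refine mul_le_mul (hM t ht.1) (Real.exp_le_exp.2 ?_) (Real.exp_pos _).le hM0
    calc -(z.re * t) ≤ |z.re * t| := neg_le_abs _
      _ = |z.re| * t := by rw [abs_mul, abs_of_pos ht.1]
      _ ≤ |z.re| * T := mul_le_mul_of_nonneg_left ht.2 (abs_nonneg _)
  have hdiff : Differentiable ℂ gT := by
    intro z0
    have hres := hasDerivAt_integral_of_dominated_loc_of_deriv_le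
      (μ := volume.restrict (Set.Ioc (0 : ℝ) T))
      (F := fun (z : ℂ) (t : ℝ) => (f t : ℂ) * Complex.exp (-(z * t)))
      (F' := fun (z : ℂ) (t : ℝ) => (f t : ℂ) * (Complex.exp (-(z * t)) * (-(t : ℂ))))
      (x₀ := z0) (s := Metric.ball z0 1)
      (bound := fun _ => M * (Real.exp ((‖z0‖ + 1) * T) * T))
      (Metric.ball_mem_nhds z0 one_pos)
      (Filter.Eventually.of_forall fun z => (hfm.mul (hem z)).aestronglyMeasurable)
      (hintT z0)
      ((hfm.mul ((hem z0).mul (by fun_prop))).aestronglyMeasurable)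
      ((ae_restrict_iff' measurableSet_Ioc).2 (Filter.Eventually.of_forall fun t ht z hz => by
        rw [norm_mul, norm_mul, hexpn, norm_neg, Complex.norm_real, Complex.norm_real,
          Real.norm_eq_abs, Real.norm_eq_abs, abs_of_pos ht.1]
        have hz1 : ‖z‖ ≤ ‖z0‖ + 1 := by
          have h1 : ‖z - z0‖ < 1 := by rwa [← dist_eq_norm, ← Metric.mem_ball]
          calc ‖z‖ = ‖z0 + (z - z0)‖ := by ring_nf
            _ ≤ ‖z0‖ + ‖z - z0‖ := norm_add_le _ _
            _ ≤ _ := by linarith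
        have h2 : -(z.re * t) ≤ (‖z0‖ + 1) * T := by
          calc -(z.re * t) ≤ |z.re * t| := neg_le_abs _
            _ = |z.re| * t := by rw [abs_mul, abs_of_pos ht.1]
            _ ≤ (‖z0‖ + 1) * T := mul_le_mul ((Complex.abs_re_le_norm z).trans hz1) ht.2
                ht.1.le (by positivity)
        exact mul_le_mul (hM t ht.1) (mul_le_mul (Real.exp_le_exp.2 h2) ht.2 ht.1.le
          (Real.exp_pos _).le) (mul_nonneg (Real.exp_pos _).le ht.1.le) hM0))
      (integrable_const _)
      (Filter.Eventually.of_forall fun t z _ => by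
        have h1 : HasDerivAt (fun z : ℂ => -(z * (t : ℂ))) (-(t : ℂ)) z := by
          have h0 := ((hasDerivAt_id z).mul_const (t : ℂ)).neg
          rw [one_mul] at h0
          exact h0
        exact (h1.cexp).const_mul (f t : ℂ))
    exact hres.2.differentiableAt
  -- the integrand
  set F : ℂ → ℂ := fun z => (gT z - g z) * Complex.exp (z * T) * (1 + z ^ 2 / δ ^ 2) with hFdef
  have hFd : DifferentiableOn ℂ F (Metric.closedBall 0 δ) := by
    intro z hz
    have h1 : DifferentiableAt ℂ g z := (hg z (by simpa using hz)).differentiableAt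
    have h2 : DifferentiableAt ℂ gT z := hdiff z
    have h3 : DifferentiableAt ℂ F z :=
      ((h2.sub h1).mul (by fun_prop)).mul (by fun_prop)
    exact h3.differentiableWithinAt
  have hcauchy := hFd.circleIntegral_sub_inv_smul (w := 0) (Metric.mem_ball_self hδ)
  -- the pointwise bound on the circle
  have hδc : (δ : ℂ) ≠ 0 := by exact_mod_cast hδ.ne'
  have hbound : ∀ z : ℂ, ‖z‖ = δ → ‖F z‖ ≤ 2 * M / δ + 2 * |S0| := by
    intro z hz
    have hker : ‖(1 : ℂ) + z ^ 2 / δ ^ 2‖ = 2 * |z.re| / δ := by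
      have hzz : z * (starRingEnd ℂ) z = ((δ : ℂ)) ^ 2 := by
        rw [Complex.mul_conj, Complex.normSq_eq_norm_sq, hz]
        push_cast
        ring
      have h1 : (1 : ℂ) + z ^ 2 / δ ^ 2 = z * ((2 * z.re : ℝ) : ℂ) / δ ^ 2 := by
        have h2 : ((2 * z.re : ℝ) : ℂ) = z + (starRingEnd ℂ) z := (Complex.add_conj z).symm
        rw [h2]
        field_simp
        linear_combination -hzz
      rw [h1, norm_div, norm_mul, hz, norm_pow, Complex.norm_real, Complex.norm_real,
        Real.norm_eq_abs, Real.norm_eq_abs, abs_mul, abs_two, abs_of_pos hδ]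
      field_simp
    have hez : ‖Complex.exp (z * T)‖ = Real.exp (z.re * T) := by
      rw [Complex.norm_exp]; congr 1; simp
    have hker2 : ‖(1 : ℂ) + z ^ 2 / δ ^ 2‖ ≤ 2 := by
      rw [hker, div_le_iff₀ hδ]
      have := Complex.abs_re_le_norm z
      rw [hz] at this
      linarith
    have hFn : ‖F z‖ = ‖gT z - g z‖ * Real.exp (z.re * T) * (2 * |z.re| / δ) := by
      rw [hFdef]
      simp only
      rw [norm_mul, norm_mul, hez, hker]
    rcases lt_trichotomy z.re 0 with hx | hx | hx
    · -- x < 0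
      have h1 : ‖gT z‖ ≤ M * (Real.exp (-(z.re * T)) / -z.re) := by
        have h2 : ‖gT z‖ ≤ ∫ t in Set.Ioc (0 : ℝ) T, M * Real.exp (-z.re * t) := by
          rw [hgT]
          refine (norm_integral_le_integral_norm _).trans ?_
          refine setIntegral_mono_on (hintT z).norm ?_ measurableSet_Ioc ?_
          · exact (Continuous.integrableOn_Icc (by fun_prop)).mono_set Set.Ioc_subset_Icc_self
          · intro t ht
            rw [norm_mul, hexpn, Complex.norm_real, Real.norm_eq_abs, neg_mul]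
            exact mul_le_mul_of_nonneg_right (hM t ht.1) (Real.exp_pos _).le
        refine h2.trans ?_
        rw [integral_const_mul]
        refine mul_le_mul_of_nonneg_left ?_ hM0
        rw [← intervalIntegral.integral_of_le hT]
        rw [New_integral_exp z.re hx T]
        rw [div_le_div_iff_of_pos_right (by linarith)]
        rw [← neg_mul]
        linarith [Real.exp_pos (-z.re * 0)]
      have hxn : 0 < -z.re := by linarith
      have habs : |z.re| = -z.re := abs_of_neg hx
      have h3 : Real.exp (z.re * T) ≤ 1 := by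
        rw [Real.exp_le_one_iff]
        exact mul_nonpos_of_nonpos_of_nonneg hx.le hT
      rw [hFn]
      have h4 : ‖gT z - g z‖ ≤ M * (Real.exp (-(z.re * T)) / -z.re) + |S0| :=
        (norm_sub_le _ _).trans (add_le_add h1 (hS z hz.le))
      have h5 : 2 * |z.re| / δ ≤ 2 := by rw [← hker]; exact hker2
      have h6 : 0 ≤ 2 * |z.re| / δ := by positivity
      calc ‖gT z - g z‖ * Real.exp (z.re * T) * (2 * |z.re| / δ)
          ≤ (M * (Real.exp (-(z.re * T)) / -z.re) + |S0|) * Real.exp (z.re * T)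
              * (2 * |z.re| / δ) := by gcongr
        _ = M * (Real.exp (-(z.re * T)) * Real.exp (z.re * T)) * (2 / δ) * (|z.re| / -z.re)
            + |S0| * Real.exp (z.re * T) * (2 * |z.re| / δ) := by
            field_simp
        _ = 2 * M / δ + |S0| * Real.exp (z.re * T) * (2 * |z.re| / δ) := by
            rw [← Real.exp_add, habs, div_self hxn.ne', neg_add_cancel, Real.exp_zero]
            ring
        _ ≤ 2 * M / δ + |S0| * 1 * 2 := by gcongr
        _ = 2 * M / δ + 2 * |S0| := by ring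
    · rw [hFn, hx]
      simp
      positivity
    · -- x > 0
      have h1 : gT z - g z = -∫ t in Set.Ioi T, (f t : ℂ) * Complex.exp (-(z * t)) := by
        rw [hgf z hx hz.le]
        have hi : IntegrableOn (fun t : ℝ => (f t : ℂ) * Complex.exp (-(z * t))) (Set.Ioi 0) := by
          have h2 : IntegrableOn (fun t : ℝ => M * Real.exp (-z.re * t)) (Set.Ioi 0) :=
            (integrableOn_exp_mul_Ioi (by linarith) 0).const_mul M
          refine h2.mono' (hfm.mul (hem z)).aestronglyMeasurable ?_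
          refine (ae_restrict_iff' measurableSet_Ioi).2 (Filter.Eventually.of_forall fun t ht => ?_)
          rw [norm_mul, hexpn, Complex.norm_real, Real.norm_eq_abs, neg_mul]
          exact mul_le_mul_of_nonneg_right (hM t ht) (Real.exp_pos _).le
        have h3 : Set.Ioi (0 : ℝ) = Set.Ioc 0 T ∪ Set.Ioi T := (Set.Ioc_union_Ioi_eq_Ioi hT).symm
        rw [h3, setIntegral_union (Set.Ioc_disjoint_Ioi le_rfl) measurableSet_Ioi
          (hi.mono_set Set.Ioc_subset_Ioi_self) (hi.mono_set (Set.Ioi_subset_Ioi hT))]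
        rw [hgT]
        simp only
        ring
      have h2 : ‖gT z - g z‖ ≤ M * (Real.exp (-(z.re * T)) / z.re) := by
        rw [h1, norm_neg]
        have h3 : IntegrableOn (fun t : ℝ => M * Real.exp (-z.re * t)) (Set.Ioi T) :=
          (integrableOn_exp_mul_Ioi (by linarith) T).const_mul M
        have h4 : ‖∫ t in Set.Ioi T, (f t : ℂ) * Complex.exp (-(z * t))‖
            ≤ ∫ t in Set.Ioi T, M * Real.exp (-z.re * t) := by
          refine norm_integral_le_of_norm_le h3 ?_
          refine (ae_restrict_iff' measurableSet_Ioi).2 (Filter.Eventually.of_forall fun t ht => ?_)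
          rw [norm_mul, hexpn, Complex.norm_real, Real.norm_eq_abs, neg_mul]
          exact mul_le_mul_of_nonneg_right (hM t (lt_of_le_of_lt hT ht)) (Real.exp_pos _).le
        refine h4.trans (le_of_eq ?_)
        rw [integral_const_mul, integral_exp_mul_Ioi (by linarith) T]
        rw [neg_mul]
        congr 1
        rw [neg_div_neg_eq]
      rw [hFn, abs_of_pos hx]
      calc ‖gT z - g z‖ * Real.exp (z.re * T) * (2 * z.re / δ)
          ≤ (M * (Real.exp (-(z.re * T)) / z.re)) * Real.exp (z.re * T) * (2 * z.re / δ) := by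
            gcongr
        _ = M * (Real.exp (-(z.re * T)) * Real.exp (z.re * T)) * (2 / δ) * (z.re / z.re) := by
            field_simp
        _ = 2 * M / δ := by
            rw [← Real.exp_add, div_self hx.ne', neg_add_cancel, Real.exp_zero]
            ring
        _ ≤ 2 * M / δ + 2 * |S0| := by linarith [abs_nonneg S0]
  have hcirc : ‖∮ z in C(0, δ), (z - 0)⁻¹ • F z‖ ≤ 2 * Real.pi * δ * ((2 * M / δ + 2 * |S0|) / δ) := by
    refine circleIntegral.norm_integral_le_of_norm_le_const hδ.le fun z hz => ?_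
    have hz' : ‖z‖ = δ := by simpa using hz
    rw [norm_smul, sub_zero, norm_inv, hz', div_eq_inv_mul]
    exact mul_le_mul_of_nonneg_left (hbound z hz') (by positivity)
  rw [hcauchy, norm_smul] at hcirc
  have hF0 : F 0 = gT 0 - g 0 := by
    rw [hFdef]; simp
  have hn2 : ‖(2 * Real.pi * Complex.I : ℂ)‖ = 2 * Real.pi := by
    simp [abs_of_pos Real.pi_pos]
  rw [hn2, hF0] at hcirc
  have h7 : ‖gT 0 - g 0‖ ≤ 2 * M / δ + 2 * |S0| := by
    have hpi : 0 < 2 * Real.pi := by positivity
    have e : 2 * Real.pi * δ * ((2 * M / δ + 2 * |S0|) / δ)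
        = 2 * Real.pi * (2 * M / δ + 2 * |S0|) := by
      field_simp
    rw [e] at hcirc
    exact le_of_mul_le_mul_left hcirc hpi
  have h8 : gT 0 = ((∫ t in Set.Ioc (0 : ℝ) T, f t : ℝ) : ℂ) := by
    rw [hgT]
    simp only [zero_mul, neg_zero, Complex.exp_zero, mul_one]
    exact integral_ofReal
  have h9 : |∫ t in Set.Ioc (0 : ℝ) T, f t| = ‖gT 0‖ := by
    rw [h8, Complex.norm_real, Real.norm_eq_abs]
  rw [h9]
  calc ‖gT 0‖ = ‖(gT 0 - g 0) + g 0‖ := by ring_nf
    _ ≤ ‖gT 0 - g 0‖ + ‖g 0‖ := norm_add_le _ _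
    _ ≤ (2 * M / δ + 2 * |S0|) + |S0| := add_le_add h7 (hS 0 (by simpa using hδ.le))
    _ = 2 * M / δ + 3 * |S0| := by ring

end W3283l
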