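import Pool.Agent.W_3283e1_lw.ChA
import Pool.Agent.W_3283e1_lw.New

set_option autoImplicit false

namespace W3283l

open Complex W3283e1 W3283f MeasureTheory Filter Topology

theorem Cheb_three (p : OP) : (3 : ℝ) ≤ ((p : ℕ) : ℝ) := by
  have h := p.2.1.two_le
  have h2 := p.2.2
  exact_mod_cast (by omega : 3 ≤ (p : ℕ))

theorem Cheb_sum {s : ℝ} (hs : 1 < s) : Summable (fun p : OP => ((p : ℕ) : ℝ) ^ (-s)) := by
  have h := (Real.summable_nat_rpow.2 (by linarith : -s < -1))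
  exact h.comp_injective Subtype.val_injective

/-- The coefficients with `m ≥ 1`, renumbered. -/
noncomputable def Cheb_cH (α : ℕ → ℂ) (i : OP × ℕ) : ℝ :=
  vL (i.1, i.2 + 1) * cA (aM α) (i.1, i.2 + 1)

noncomputable def Cheb_vH (i : OP × ℕ) : ℝ := vL (i.1, i.2 + 1)

noncomputable def Cheb_cK (α : ℕ → ℂ) (i : OP × ℕ) : ℝ :=
  Cheb_cH α i * Real.exp (Cheb_vH i / 2)

theorem Cheb_cH_bd (α : ℕ → ℂ) (hα : ∀ p : ℕ, p.Prime → p ≠ 2 → ‖α p‖ ^ 2 = p) (p : OP) (m : ℕ) :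
    |Cheb_cH α (p, m)| ≤ 2 * Real.log (p : ℕ) * ((p : ℕ) : ℝ) ^ (-((m : ℝ) + 2)) := by
  have hp := Cheb_three p
  have hlog : 0 ≤ Real.log (p : ℕ) := Real.log_nonneg (by linarith)
  have h1 : Cheb_cH α (p, m) = 2 * Real.log (p : ℕ) * ((aM α p) ^ (m + 1 + 1)).re := by
    simp only [Cheb_cH, vL, cA]
    push_cast
    field_simp
  rw [h1, abs_mul, abs_of_nonneg (by positivity : 0 ≤ 2 * Real.log (p : ℕ))]
  refine mul_le_mul_of_nonneg_left ?_ (by positivity)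
  calc |((aM α p) ^ (m + 1 + 1)).re| ≤ ‖(aM α p) ^ (m + 1 + 1)‖ := Complex.abs_re_le_norm _
    _ = ‖aM α p‖ ^ (m + 2) := norm_pow _ _
    _ ≤ (((p : ℕ) : ℝ) ^ (-1 : ℝ)) ^ (m + 2) :=
        pow_le_pow_left₀ (norm_nonneg _) (aM_bd α hα p) _
    _ = ((p : ℕ) : ℝ) ^ (-((m : ℝ) + 2)) := by
        rw [← Real.rpow_natCast, ← Real.rpow_mul (by positivity)]
        push_cast
        congr 1
        ring

theorem Cheb_ds (α : ℕ → ℂ) (hα : ∀ p : ℕ, p.Prime → p ≠ 2 → ‖α p‖ ^ 2 = p) :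
    DS (Cheb_cK α) Cheb_vH 0 := by
  refine ⟨inferInstance, le_rfl, fun i => vL_pos _, ?_⟩
  intro σ hσ
  set r : ℝ := (3 : ℝ) ^ (-(1 / 2 + σ)) with hr
  have hr0 : 0 ≤ r := by positivity
  have hr1 : r < 1 := Real.rpow_lt_one_of_one_lt_of_neg (by norm_num) (by linarith)
  have hsum : Summable (fun i : OP × ℕ => (2 / σ * ((i.1 : ℕ) : ℝ) ^ (-(1 + σ))) * r ^ i.2) :=
    Summable.mul_of_nonneg ((Cheb_sum (by linarith : 1 < 1 + σ)).mul_left (2 / σ))
      (summable_geometric_of_lt_one hr0 hr1) (fun p => by positivity) (fun m => by positivity)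
  refine Summable.of_nonneg_of_le (fun i => by positivity) ?_ hsum
  rintro ⟨p, m⟩
  have hp := Cheb_three p
  have hp0 : (0 : ℝ) < (p : ℕ) := by linarith
  have hlog : 0 ≤ Real.log (p : ℕ) := Real.log_nonneg (by linarith)
  have e1 : |Cheb_cK α (p, m)| * Real.exp (-(σ * Cheb_vH (p, m))) =
      |Cheb_cH α (p, m)| * ((p : ℕ) : ℝ) ^ ((1 / 2 - σ) * ((m : ℝ) + 2)) := by
    unfold Cheb_cK
    rw [abs_mul, Real.abs_exp, mul_assoc, ← Real.exp_add, Real.rpow_def_of_pos hp0]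
    congr 2
    simp only [Cheb_vH, vL]
    push_cast
    ring
  have e2 : ((p : ℕ) : ℝ) ^ (-((m : ℝ) + 2)) * ((p : ℕ) : ℝ) ^ ((1 / 2 - σ) * ((m : ℝ) + 2)) =
      ((p : ℕ) : ℝ) ^ (-(1 + 2 * σ)) * (((p : ℕ) : ℝ) ^ (-(1 / 2 + σ))) ^ m := by
    rw [← Real.rpow_add hp0, ← Real.rpow_natCast, ← Real.rpow_mul hp0.le, ← Real.rpow_add hp0]
    congr 1
    ring
  have e3 : (((p : ℕ) : ℝ) ^ (-(1 / 2 + σ))) ^ m ≤ r ^ m :=
    pow_le_pow_left₀ (by positivity)
      (Real.rpow_le_rpow_of_nonpos (by norm_num) hp (by linarith)) _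
  have e4 : Real.log (p : ℕ) ≤ ((p : ℕ) : ℝ) ^ σ / σ := Real.log_le_rpow_div hp0.le hσ
  have e5 : ((p : ℕ) : ℝ) ^ σ * ((p : ℕ) : ℝ) ^ (-(1 + 2 * σ)) = ((p : ℕ) : ℝ) ^ (-(1 + σ)) := by
    rw [← Real.rpow_add hp0]
    congr 1
    ring
  rw [e1]
  calc |Cheb_cH α (p, m)| * ((p : ℕ) : ℝ) ^ ((1 / 2 - σ) * ((m : ℝ) + 2))
      ≤ (2 * Real.log (p : ℕ) * ((p : ℕ) : ℝ) ^ (-((m : ℝ) + 2))) *
          ((p : ℕ) : ℝ) ^ ((1 / 2 - σ) * ((m : ℝ) + 2)) :=
        mul_le_mul_of_nonneg_right (Cheb_cH_bd α hα p m) (by positivity)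
    _ = 2 * Real.log (p : ℕ) * (((p : ℕ) : ℝ) ^ (-(1 + 2 * σ)) *
          (((p : ℕ) : ℝ) ^ (-(1 / 2 + σ))) ^ m) := by rw [← e2]; ring
    _ ≤ 2 * (((p : ℕ) : ℝ) ^ σ / σ) * (((p : ℕ) : ℝ) ^ (-(1 + 2 * σ)) * r ^ m) := by
        refine mul_le_mul ?_ ?_ (by positivity) (by positivity)
        · linarith
        · exact mul_le_mul_of_nonneg_left e3 (by positivity)
    _ = (2 / σ * (((p : ℕ) : ℝ) ^ σ * ((p : ℕ) : ℝ) ^ (-(1 + 2 * σ)))) * r ^ m := by ring
    _ = (2 / σ * ((p : ℕ) : ℝ) ^ (-(1 + σ))) * r ^ m := by rw [e5]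

/-- The terms of the series. -/
noncomputable def Cheb_F (α : ℕ → ℂ) (w : ℂ) (i : OP × ℕ) : ℂ :=
  ((vL i * cA (aM α) i : ℝ) : ℂ) * Complex.exp (-(w * vL i))

theorem Cheb_F_sum (α : ℕ → ℂ) (hα : ∀ p : ℕ, p.Prime → p ≠ 2 → ‖α p‖ ^ 2 = p) {w : ℂ}
    (hw : 0 < w.re) : Summable (Cheb_F α w) := by
  have h := (ds_mul (ds_cA (aM α) 1 one_pos le_rfl (aM_bd α hα))).sm w.re (by linarith)
  refine Summable.of_norm ?_
  refine h.congr fun i => ?_
  unfold Cheb_F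
  rw [norm_mul, Complex.norm_real, Real.norm_eq_abs, Complex.norm_exp]
  congr 2
  simp

theorem Cheb_F_zero (α : ℕ → ℂ) (w : ℂ) (p : OP) :
    Cheb_F α w (p, 0) = (c1 α p : ℂ) * ((p : ℕ) : ℂ) ^ (-w) := by
  have hp := Cheb_three p
  have hp0 : ((p : ℕ) : ℂ) ≠ 0 := by
    have : (0 : ℝ) < (p : ℕ) := by linarith
    exact_mod_cast this.ne'
  unfold Cheb_F
  congr 1
  · congr 1
    simp only [vL, cA, aM, c1]
    have h1 : ((α p) ^ 2 / ((p : ℕ) : ℂ) ^ 2).re = ((α p) ^ 2).re / ((p : ℕ) : ℝ) ^ 2 := by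
      rw [← Complex.ofReal_natCast, ← Complex.ofReal_pow, Complex.div_ofReal_re]
    push_cast
    rw [zero_add, pow_one, h1]
    ring
  · rw [Complex.cpow_def_of_ne_zero hp0]
    congr 1
    simp only [vL]
    push_cast
    ring

theorem Cheb_F_succ (α : ℕ → ℂ) (w : ℂ) (i : OP × ℕ) :
    Cheb_F α w (i.1, i.2 + 1) =
      (Cheb_cK α i : ℂ) * Complex.exp (-((w + 1 / 2) * Cheb_vH i)) := by
  unfold Cheb_F Cheb_cK
  rw [Complex.ofReal_mul (Cheb_cH α i), Complex.ofReal_exp, mul_assoc, ← Complex.exp_add]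
  show ((Cheb_cH α i : ℝ) : ℂ) * Complex.exp (-(w * (Cheb_vH i : ℝ))) = _
  congr 2
  push_cast
  ring

/-- The terms `m ≥ 1` converge absolutely for `Re w > -1/2`, to a function which is analytic there
(`es_deriv`-like: a series with exponents `v ≥ 1`, terms at most
`2 log p p^{-(m+2)(1 + Re w)}`, `m ≥ 0`). -/
theorem high (α : ℕ → ℂ) (hα : ∀ p : ℕ, p.Prime → p ≠ 2 → ‖α p‖ ^ 2 = p) :
    ∃ H : ℂ → ℂ, (∀ w : ℂ, -(1 / 2) < w.re → AnalyticAt ℂ H w) ∧
      ∀ w : ℂ, 0 < w.re → Summable (fun p : OP => (c1 α p : ℂ) * ((p : ℕ) : ℂ) ^ (-w)) ∧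
        ES (fun i => vL i * cA (aM α) i) vL w = (∑' p : OP, (c1 α p : ℂ) * ((p : ℕ) : ℂ) ^ (-w)) + H w := by
  refine ⟨fun w => ES (Cheb_cK α) Cheb_vH (w + 1 / 2), ?_, ?_⟩
  · intro w hw
    have hd : DifferentiableOn ℂ (fun w => ES (Cheb_cK α) Cheb_vH (w + 1 / 2))
        {w : ℂ | -(1 / 2) < w.re} := by
      intro z hz
      have hz' : -(1 / 2) < z.re := hz
      have h1 : (0 : ℝ) < (z + 1 / 2).re := by
        rw [Complex.add_re]
        have : ((1 / 2 : ℂ)).re = 1 / 2 := by norm_num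
        rw [this]
        linarith
      have h2 := es_deriv (Cheb_ds α hα) (z + 1 / 2) h1
      exact (HasDerivAt.comp_add_const z (1 / 2) h2).differentiableAt.differentiableWithinAt
    exact hd.analyticAt ((isOpen_lt continuous_const Complex.continuous_re).mem_nhds hw)
  · intro w hw
    have hS := Cheb_F_sum α hα hw
    have h0 : Summable (fun p : OP => Cheb_F α w (p, 0)) :=
      hS.comp_injective (i := fun p : OP => (p, (0 : ℕ))) (fun a b h => (Prod.mk.inj h).1)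
    have h1 : Summable (fun i : OP × ℕ => Cheb_F α w (i.1, i.2 + 1)) :=
      hS.comp_injective (i := fun i : OP × ℕ => (i.1, i.2 + 1)) (fun a b h => by
        obtain ⟨ha, hb⟩ := Prod.mk.inj h
        exact Prod.ext ha (Nat.succ_injective hb))
    refine ⟨h0.congr (fun p => (Cheb_F_zero α w p)), ?_⟩
    have h2 : ES (fun i => vL i * cA (aM α) i) vL w = ∑' i, Cheb_F α w i := rfl
    have h3 : ES (Cheb_cK α) Cheb_vH (w + 1 / 2) = ∑' i : OP × ℕ, Cheb_F α w (i.1, i.2 + 1) :=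
      tsum_congr fun i => (Cheb_F_succ α w i).symm
    show _ = _ + ES (Cheb_cK α) Cheb_vH (w + 1 / 2)
    rw [h2, h3, hS.tsum_prod, h1.tsum_prod]
    have h4 : ∀ p : OP, ∑' m : ℕ, Cheb_F α w (p, m) =
        Cheb_F α w (p, 0) + ∑' m : ℕ, Cheb_F α w (p, m + 1) := fun p =>
      (hS.prod_factor p).tsum_eq_zero_add
    rw [tsum_congr h4, Summable.tsum_add h0 h1.prod]
    congr 1
    exact tsum_congr fun p => Cheb_F_zero α w p

/-- By `W_exp` and `es_deriv`, `-ES (vL cA) vL w = W'/W(w) - ζ'/ζ(1+w) - t2'/t2(w)` for `Re w > 0` (logarithmic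
derivatives), and `ζ(1+w) = ZZ w/w`, so `Σ c1 p^{-w} = -1/w + an w` with
`an = -W'/W + ZZ'/ZZ + t2'/t2 - H`, analytic at every point with `Re w ≥ 0` (`W_ne`, `ZZ_ne`, `t2_ne`,
`ZZ_diff`), hence on a neighbourhood of `closedBall 0 δ` for a small `δ` (an open set containing `0`);
`(1+z)⁻¹ (-1/z + an z) + 1/z = (an z + 1)/(1+z)`. -/
theorem N2_cont (α : ℕ → ℂ) (L W : ℂ → ℂ) (hD : DataF α L W) :
    ∃ (δ : ℝ) (g : ℂ → ℂ), 0 < δ ∧ (∀ z : ℂ, ‖z‖ ≤ δ → AnalyticAt ℂ g z) ∧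
      ∀ z : ℂ, 0 < z.re → ‖z‖ ≤ δ →
        g z = ∫ t in Set.Ioi (0 : ℝ), ((Real.exp (-t) * N2 α t + 1 : ℝ) : ℂ) * Complex.exp (-(z * t)) := by
  obtain ⟨H, hHa, hH⟩ := high α hD.norm_α
  set an : ℂ → ℂ := fun z => -(deriv W z / W z) + deriv ZZ z / ZZ z + deriv t2 z / t2 z - H z
    with han
  set g : ℂ → ℂ := fun z => (an z + 1) / (1 + z) with hg
  have hWa : ∀ z, AnalyticAt ℂ W z := fun z => hD.W_diff.analyticAt z
  have hZa : ∀ z, AnalyticAt ℂ ZZ z := fun z => ZZ_diff.analyticAt z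
  have hta : ∀ z, AnalyticAt ℂ t2 z := fun z => t2_diff.analyticAt z
  have hg0 : AnalyticAt ℂ g 0 := by
    refine AnalyticAt.div ?_ (by fun_prop) (by simp)
    refine AnalyticAt.add ?_ analyticAt_const
    refine AnalyticAt.sub (AnalyticAt.add (AnalyticAt.add ?_ ?_) ?_) (hHa 0 (by simp))
    · exact ((hWa 0).deriv.div (hWa 0) (hD.W_ne 0 (by simp))).neg
    · exact (hZa 0).deriv.div (hZa 0) (ZZ_ne 0 (by simp))
    · exact (hta 0).deriv.div (hta 0) (t2_ne 0 (by simp))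
  obtain ⟨ε, hε, hεa⟩ := Metric.eventually_nhds_iff.1 hg0.eventually_analyticAt
  refine ⟨ε / 2, g, by positivity, fun z hz => hεa (by rw [dist_zero_right]; linarith), ?_⟩
  intro z hz hzδ
  have hz0 : z ≠ 0 := by
    rintro rfl
    simp at hz
  have h1z : (1 : ℂ) + z ≠ 0 := by
    intro h
    have := congrArg Complex.re h
    simp at this
    linarith
  rw [N2_lap α hD.norm_α z hz]
  -- the logarithmic derivative
  have hE : HasDerivAt (fun w => Complex.exp (ES (cA (aM α)) vL w))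
      (Complex.exp (ES (cA (aM α)) vL z) * (-ES (fun i => vL i * cA (aM α) i) vL z)) z :=
    (es_deriv (ds_cA (aM α) 1 one_pos le_rfl (aM_bd α hD.norm_α)) z (by linarith)).cexp
  have hev : (fun w => W w * w / (ZZ w * t2 w)) =ᶠ[𝓝 z]
      fun w => Complex.exp (ES (cA (aM α)) vL w) := by
    filter_upwards [(isOpen_lt continuous_const Complex.continuous_re).mem_nhds hz] with w hw
    have hw' : 0 < w.re := hw
    have hw0 : w ≠ 0 := by
      rintro rfl
      simp at hw'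
    rw [← W_exp α L W hD w hw']
    have hζ : ZZ w = w * riemannZeta (1 + w) := by simp only [ZZ, hw0, if_false]
    have hζ0 : riemannZeta (1 + w) ≠ 0 := by
      intro h
      apply ZZ_ne w hw'.le
      rw [hζ, h, mul_zero]
    have ht0 := t2_ne w (by linarith)
    rw [hζ]
    field_simp
  have hlog : logDeriv (fun w => W w * w / (ZZ w * t2 w)) z =
      -ES (fun i => vL i * cA (aM α) i) vL z := by
    rw [logDeriv_apply, hev.deriv_eq, hev.eq_of_nhds, hE.deriv]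
    exact mul_div_cancel_left₀ _ (Complex.exp_ne_zero _)
  have hlog2 : logDeriv (fun w => W w * w / (ZZ w * t2 w)) z =
      deriv W z / W z + 1 / z - (deriv ZZ z / ZZ z + deriv t2 z / t2 z) := by
    have w0 := hD.W_ne z hz.le
    have z0 := ZZ_ne z hz.le
    have t0 := t2_ne z (by linarith)
    rw [logDeriv_div (f := fun w => W w * w) (g := fun w => ZZ w * t2 w) z
      (mul_ne_zero w0 hz0) (mul_ne_zero z0 t0)
      ((hWa z).differentiableAt.mul differentiableAt_fun_id)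
      ((hZa z).differentiableAt.mul (hta z).differentiableAt),
      logDeriv_mul (f := W) (g := fun w => w) z w0 hz0 (hWa z).differentiableAt
        differentiableAt_fun_id,
      logDeriv_mul (f := ZZ) (g := t2) z z0 t0 (hZa z).differentiableAt (hta z).differentiableAt]
    simp only [logDeriv_apply]
    rw [show deriv (fun w : ℂ => w) z = 1 from (hasDerivAt_id z).deriv]
  have hS := (hH z hz).2
  have key : (∑' p : OP, (c1 α p : ℂ) * ((p : ℕ) : ℂ) ^ (-z)) = -1 / z + an z := by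
    have h1 := hlog.symm.trans hlog2
    have h2 : ES (fun i => vL i * cA (aM α) i) vL z =
        -(deriv W z / W z + 1 / z - (deriv ZZ z / ZZ z + deriv t2 z / t2 z)) := by
      rw [← h1, neg_neg]
    have h3 := hS.symm.trans h2
    have h4 : (∑' p : OP, (c1 α p : ℂ) * ((p : ℕ) : ℂ) ^ (-z)) =
        -(deriv W z / W z + 1 / z - (deriv ZZ z / ZZ z + deriv t2 z / t2 z)) - H z := by
      rw [← h3]; ring
    rw [h4, han]
    ring
  rw [key]
  show (an z + 1) / (1 + z) = _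
  field_simp
  ring

/-- Mertens' theorem for the squares: `newman_bdd` with `f t = e^{-t} N2 t + 1` (`N2_bd`), `N2_cont`,
`N2_int`. -/
theorem M2_bd (α : ℕ → ℂ) (L W : ℂ → ℂ) (hD : DataF α L W) :
    ∃ C : ℝ, ∀ u : ℝ, 0 ≤ u → |M2 α u + u| ≤ C := by
  obtain ⟨δ, g, hδ, hg, hgf⟩ := N2_cont α L W hD
  have hmeas : Measurable (fun t : ℝ => Real.exp (-t) * N2 α t + 1) := by
    have h1 : Measurable (N2 α) := by
      classical
      have h2 : N2 α = (fun n : ℕ => ∑ q ∈ Finset.Icc 1 n,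
          if q.Prime ∧ q ≠ 2 then 2 * ((α q) ^ 2).re * Real.log q / q else 0) ∘
          (fun u : ℝ => ⌊Real.exp u⌋₊) := by
        funext u
        simp only [N2, Function.comp]
      rw [h2]
      exact (measurable_from_nat).comp (Nat.measurable_floor.comp Real.measurable_exp)
    exact ((Real.measurable_exp.comp measurable_neg).mul h1).add_const 1
  have hb : ∀ u : ℝ, 0 ≤ u → |Real.exp (-u) * N2 α u| ≤ 3 := by
    intro u hu
    rw [abs_mul, Real.abs_exp]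
    have h1 := N2_bd α hD.norm_α u hu
    calc Real.exp (-u) * |N2 α u| ≤ Real.exp (-u) * (3 * Real.exp u) :=
          mul_le_mul_of_nonneg_left h1 (Real.exp_pos _).le
      _ = 3 * (Real.exp (-u) * Real.exp u) := by ring
      _ = 3 := by rw [← Real.exp_add, neg_add_cancel, Real.exp_zero, mul_one]
  obtain ⟨C, hC⟩ := newman_bdd _ hmeas 4 (fun t ht => by
    have h1 := hb t ht.le
    have h2 := abs_add_le (Real.exp (-t) * N2 α t) 1
    rw [abs_one] at h2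
    linarith) δ hδ g hg hgf
  refine ⟨C + 3, fun u hu => ?_⟩
  have h1 := hC u hu
  rw [(N2_int α u hu).2] at h1
  have h2 := hb u hu
  have h3 : M2 α u + u = (M2 α u - Real.exp (-u) * N2 α u + u) + Real.exp (-u) * N2 α u := by
    ring
  rw [h3]
  exact (abs_add_le _ _).trans (by linarith)

end W3283l
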