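import Pool.Agent.W_3283e1_lw.Defs

set_option autoImplicit false

namespace W3283l

open MeasureTheory Filter Topology

theorem Cos_int (g : ℝ) {s : ℂ} (hs : 0 < s.re) :
    IntegrableOn (fun u : ℝ => ((1 - Real.cos (g * u) : ℝ) : ℂ) * Complex.exp (-(s * u)))
      (Set.Ioi 0) ∧
    ∫ u in Set.Ioi (0 : ℝ), ((1 - Real.cos (g * u) : ℝ) : ℂ) * Complex.exp (-(s * u)) =
      (g : ℂ) ^ 2 / (s * (s ^ 2 + (g : ℂ) ^ 2)) := by
  have e : ∀ u : ℝ, ((1 - Real.cos (g * u) : ℝ) : ℂ) * Complex.exp (-(s * u)) =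
      Complex.exp ((-s) * u) - (1 / 2) * Complex.exp ((-s + Complex.I * g) * u) -
        (1 / 2) * Complex.exp ((-s - Complex.I * g) * u) := by
    intro u
    have h1 : ((1 - Real.cos (g * u) : ℝ) : ℂ) =
        1 - (Complex.exp ((g * u : ℂ) * Complex.I) + Complex.exp (-(g * u : ℂ) * Complex.I)) / 2 := by
      push_cast
      rw [← Complex.cos]
    have h2 : Complex.exp ((-s + Complex.I * g) * u) =
        Complex.exp ((g * u : ℂ) * Complex.I) * Complex.exp (-(s * u)) := by
      rw [← Complex.exp_add]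
      congr 1
      ring
    have h3 : Complex.exp ((-s - Complex.I * g) * u) =
        Complex.exp (-(g * u : ℂ) * Complex.I) * Complex.exp (-(s * u)) := by
      rw [← Complex.exp_add]
      congr 1
      ring
    have h4 : Complex.exp ((-s) * u) = Complex.exp (-(s * u)) := by
      congr 1
      ring
    rw [h1, h2, h3, h4]
    ring
  have r1 : (-s).re < 0 := by
    rw [Complex.neg_re]
    linarith
  have r2 : (-s + Complex.I * g).re < 0 := by
    simp
    exact hs
  have r3 : (-s - Complex.I * g).re < 0 := by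
    simp
    exact hs
  have i1 := integrableOn_exp_mul_complex_Ioi r1 0
  have i2 := (integrableOn_exp_mul_complex_Ioi r2 0).const_mul (1 / 2 : ℂ)
  have i3 := (integrableOn_exp_mul_complex_Ioi r3 0).const_mul (1 / 2 : ℂ)
  simp_rw [e]
  refine ⟨(i1.sub i2).sub i3, ?_⟩
  have i12 : Integrable (fun u : ℝ => Complex.exp ((-s) * u) -
      (1 / 2) * Complex.exp ((-s + Complex.I * g) * u)) (volume.restrict (Set.Ioi 0)) := i1.sub i2
  rw [integral_sub i12 i3, integral_sub i1 i2, integral_const_mul, integral_const_mul,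
    integral_exp_mul_complex_Ioi r1, integral_exp_mul_complex_Ioi r2,
    integral_exp_mul_complex_Ioi r3]
  have n1 : s ≠ 0 := by
    rintro rfl
    simp at hs
  have n2 : -s + Complex.I * g ≠ 0 := by
    intro h
    rw [h] at r2
    simp at r2
  have n3 : -s - Complex.I * g ≠ 0 := by
    intro h
    rw [h] at r3
    simp at r3
  have n4 : s ^ 2 + (g : ℂ) ^ 2 = (-s + Complex.I * g) * (-s - Complex.I * g) := by
    ring_nf
    rw [Complex.I_sq]
    ring
  have n5 : s ^ 2 + (g : ℂ) ^ 2 ≠ 0 := by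
    rw [n4]
    exact mul_ne_zero n2 n3
  simp only [Complex.ofReal_zero, mul_zero, Complex.exp_zero]
  have q2 : -1 / (-s + Complex.I * g) = (s + Complex.I * g) / (s ^ 2 + (g : ℂ) ^ 2) := by
    rw [n4]
    field_simp
    ring
  have q3 : -1 / (-s - Complex.I * g) = (s - Complex.I * g) / (s ^ 2 + (g : ℂ) ^ 2) := by
    rw [n4]
    field_simp
    ring
  rw [q2, q3]
  field_simp
  ring

/-- The transform of `Σ 2m/γ² (1 - cos γu)` is `Σ 2m/(s (s²+γ²))` (`Re s > 0`; absolute convergence by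
`Σ m/γ² < ∞`), and the function is continuous and bounded. -/
theorem cos_lap {ι : Type} (γ m : ι → ℝ) (h : ZD γ m) :
    Continuous (fun u : ℝ => ∑' i, 2 * m i / (γ i) ^ 2 * (1 - Real.cos (γ i * u))) ∧
    (∃ C : ℝ, ∀ u : ℝ, |∑' i, 2 * m i / (γ i) ^ 2 * (1 - Real.cos (γ i * u))| ≤ C) ∧
    ∀ s : ℂ, 0 < s.re →
      s * ∫ u in Set.Ioi (0 : ℝ), ((∑' i, 2 * m i / (γ i) ^ 2 * (1 - Real.cos (γ i * u)) : ℝ) : ℂ) *
        Complex.exp (-(s * u)) = ∑' i, 2 * (m i : ℂ) / (s ^ 2 + (γ i : ℂ) ^ 2) := by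
  have hcs : Summable (fun i => 2 * (2 * m i / (γ i) ^ 2)) := by
    have := (h.sm.mul_left 2).mul_left 2
    refine this.congr ?_
    intro i
    ring
  have hc0 : ∀ i, 0 ≤ 2 * m i / (γ i) ^ 2 := fun i => by
    have := h.one i
    have := h.pos i
    positivity
  have hb : ∀ i (u : ℝ), ‖2 * m i / (γ i) ^ 2 * (1 - Real.cos (γ i * u))‖ ≤
      2 * (2 * m i / (γ i) ^ 2) := by
    intro i u
    rw [norm_mul, Real.norm_of_nonneg (hc0 i), mul_comm]
    apply mul_le_mul_of_nonneg_right _ (hc0 i)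
    rw [Real.norm_eq_abs, abs_le]
    constructor <;> linarith [Real.cos_le_one (γ i * u), Real.neg_one_le_cos (γ i * u)]
  refine ⟨?_, ⟨∑' i, 2 * (2 * m i / (γ i) ^ 2), fun u => ?_⟩, ?_⟩
  · exact continuous_tsum (fun i => by fun_prop) hcs hb
  · exact tsum_of_norm_bounded hcs.hasSum (fun i => hb i u)
  intro s hs
  have : Countable ι := by
    have h1 := h.sm.countable_support
    have h2 : Function.support (fun i => m i / (γ i) ^ 2) = Set.univ := by
      ext i
      simp only [Function.mem_support, Set.mem_univ, iff_true]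
      have := h.one i
      have := h.pos i
      positivity
    rw [h2] at h1
    exact Set.countable_univ_iff.mp h1
  have hsn : s ≠ 0 := by
    rintro rfl
    simp at hs
  set G : ι → ℝ → ℂ := fun i u => ((2 * m i / (γ i) ^ 2 : ℝ) : ℂ) *
    (((1 - Real.cos (γ i * u) : ℝ) : ℂ) * Complex.exp (-(s * u))) with hG
  have hGi : ∀ i, Integrable (G i) (volume.restrict (Set.Ioi 0)) := fun i =>
    ((Cos_int (γ i) hs).1).const_mul _
  have hdom : IntegrableOn (fun u : ℝ => Real.exp (-s.re * u)) (Set.Ioi 0) :=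
    integrableOn_exp_mul_Ioi (by linarith) 0
  have hGn : ∀ i (u : ℝ), ‖G i u‖ ≤ 2 * (2 * m i / (γ i) ^ 2) * Real.exp (-s.re * u) := by
    intro i u
    have h1 : G i u = ((2 * m i / (γ i) ^ 2 * (1 - Real.cos (γ i * u)) : ℝ) : ℂ) *
        Complex.exp (-(s * u)) := by
      simp only [hG]
      push_cast
      ring
    rw [h1, norm_mul, Complex.norm_real, Complex.norm_exp]
    have h2 : (-(s * u)).re = -s.re * u := by
      simp
    rw [h2]
    exact mul_le_mul_of_nonneg_right (hb i u) (Real.exp_pos _).le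
  have hGs : Summable (fun i => ∫ u in Set.Ioi (0 : ℝ), ‖G i u‖) := by
    refine Summable.of_nonneg_of_le (fun i => integral_nonneg (fun u => norm_nonneg _))
      (fun i => ?_) (hcs.mul_right (∫ u in Set.Ioi (0 : ℝ), Real.exp (-s.re * u)))
    rw [← integral_const_mul]
    exact integral_mono (hGi i).norm (hdom.const_mul _) (fun u => hGn i u)
  have hsum := hasSum_integral_of_summable_integral_norm hGi hGs
  have e1 : ∀ u : ℝ, ((∑' i, 2 * m i / (γ i) ^ 2 * (1 - Real.cos (γ i * u)) : ℝ) : ℂ) *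
      Complex.exp (-(s * u)) = ∑' i, G i u := by
    intro u
    rw [Complex.ofReal_tsum, ← tsum_mul_right]
    refine tsum_congr (fun i => ?_)
    simp only [hG]
    push_cast
    ring
  simp_rw [e1]
  rw [← hsum.tsum_eq, ← tsum_mul_left]
  refine tsum_congr (fun i => ?_)
  have e2 : ∫ u in Set.Ioi (0 : ℝ), G i u = ((2 * m i / (γ i) ^ 2 : ℝ) : ℂ) *
      ((γ i : ℂ) ^ 2 / (s * (s ^ 2 + (γ i : ℂ) ^ 2))) := by
    simp only [hG]
    rw [integral_const_mul, (Cos_int (γ i) hs).2]
  rw [e2]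
  have hγ : (γ i : ℂ) ≠ 0 := by
    exact_mod_cast (h.pos i).ne'
  push_cast
  by_cases hz : s ^ 2 + (γ i : ℂ) ^ 2 = 0
  · rw [hz]
    simp
  · field_simp

end W3283l
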