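import Pool.Agent.W_3283e1_lw.FinB

set_option autoImplicit false

namespace W3283l

open Complex W3283e1 W3283f MeasureTheory Filter Topology

/-- The product depends on the floor. -/
theorem Cro_floor (a b : ℤ) (x y : ℝ) (h : ⌊x⌋₊ = ⌊y⌋₊) : bsdProd a b x = bsdProd a b y := by
  unfold bsdProd
  rw [h]

/-- The new factor. -/
theorem Cro_succ (a b : ℤ) (q : ℕ) :
    bsdProd a b ((q : ℝ) + 1) = bsdProd a b q *
      (if Nat.Prime (q + 1) ∧ ¬ (((q + 1 : ℕ) : ℤ) ∣ 16 * (4 * a ^ 3 + 27 * b ^ 2)) then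
        (npts a b (q + 1) : ℝ) / ((q + 1 : ℕ) : ℝ) else 1) := by
  unfold bsdProd
  have h1 : ⌊(q : ℝ) + 1⌋₊ = q + 1 := by
    have : ((q : ℝ) + 1) = ((q + 1 : ℕ) : ℝ) := by push_cast; ring
    rw [this, Nat.floor_natCast]
  rw [h1, Nat.floor_natCast, Finset.range_add_one (n := q + 1), Finset.filter_insert]
  split_ifs with h
  · rw [Finset.prod_insert (by simp), mul_comm]
  · rw [mul_one]

/-- One step of the product, for all `x ≥ 1`: `P` is constant on `[m, m+1)` and for `m ≥ 2` the quotient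
`P m/P (m - 1)` is `1` or `#E(F_p)/p` with `p = m` not dividing `2k`, and
`|#E(F_p)/p - 1| ≤ 1/p + 2/√p` (`h`: `npts = p + 1 - 2 Re α`, `|α| = √p`: `W3283f.npts_fam`,
`norm_alF`). -/
theorem P_step (k : ℕ) (c : ℤ) (n f i j : ℕ) (L : ℂ → ℂ) (r : ℕ) (l V : ℝ)
    (h : W3283g.SU k c n f i j L r l V) (q : ℕ) (hq : 9 ≤ q) :
    (∀ x : ℝ, (q : ℝ) ≤ x → x < q + 1 →
      bsdProd (c * k ^ 2) 0 x = bsdProd (c * k ^ 2) 0 q) ∧
    |bsdProd (c * k ^ 2) 0 ((q : ℝ) + 1) - bsdProd (c * k ^ 2) 0 q| ≤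
      3 / Real.sqrt (q + 1) * bsdProd (c * k ^ 2) 0 q := by
  constructor
  · intro x hx1 hx2
    apply Cro_floor
    rw [Nat.floor_natCast]
    exact (Nat.floor_eq_iff (le_trans (Nat.cast_nonneg q) hx1)).2 ⟨hx1, hx2⟩
  · have hP : 0 < bsdProd (c * k ^ 2) 0 q := W3283g.bsd_pos _ _ _
    rw [Cro_succ]
    have hfac : |(if Nat.Prime (q + 1) ∧ ¬ (((q + 1 : ℕ) : ℤ) ∣
        16 * (4 * (c * (k : ℤ) ^ 2) ^ 3 + 27 * (0 : ℤ) ^ 2)) then
        (npts (c * k ^ 2) 0 (q + 1) : ℝ) / ((q + 1 : ℕ) : ℝ) else 1) - 1| ≤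
        3 / Real.sqrt (q + 1) := by
      split_ifs with hc
      · obtain ⟨hp, hd⟩ := hc
        rw [FinG_cond k c h.hc (q + 1) hp] at hd
        push Not at hd
        obtain ⟨h2, hpk⟩ := hd
        rw [npts_fam n f i k c j h.hn h.hkf h.hk h.hcase (q + 1) hp h2 hpk]
        have hn := norm_alF n j (q + 1) hp h2
        have hre := Complex.abs_re_le_norm (alF n j (q + 1))
        have hq1 : (0 : ℝ) < (q : ℝ) + 1 := by positivity
        have hq10 : (10 : ℝ) ≤ (q : ℝ) + 1 := by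
          have : (9 : ℝ) ≤ q := by exact_mod_cast hq
          linarith
        set s := Real.sqrt ((q : ℝ) + 1) with hs
        have hs2 : s * s = (q : ℝ) + 1 := Real.mul_self_sqrt hq1.le
        have hspos : 0 < s := Real.sqrt_pos.2 hq1
        have hs1 : 1 ≤ s := by nlinarith
        have hnorm : ‖alF n j (q + 1)‖ = s := by
          have h0 : 0 ≤ ‖alF n j (q + 1)‖ := norm_nonneg _
          have : ‖alF n j (q + 1)‖ ^ 2 = s ^ 2 := by
            rw [hn]
            push_cast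
            rw [← hs2]
            ring
          exact (pow_left_inj₀ h0 hspos.le (by norm_num)).1 this
        rw [hnorm] at hre
        push_cast
        have hb := abs_le.1 hre
        have e : ((q : ℝ) + 1 + 1 - 2 * (alF n j (q + 1)).re) / ((q : ℝ) + 1) - 1 =
            (1 - 2 * (alF n j (q + 1)).re) / ((q : ℝ) + 1) := by
          field_simp
          ring
        rw [e, abs_div, abs_of_pos hq1, div_le_div_iff₀ hq1 hspos]
        have h3 : |1 - 2 * (alF n j (q + 1)).re| ≤ 1 + 2 * s := by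
          rw [abs_le]
          constructor <;> linarith [hb.1, hb.2]
        calc |1 - 2 * (alF n j (q + 1)).re| * s ≤ (1 + 2 * s) * s :=
              mul_le_mul_of_nonneg_right h3 hspos.le
          _ ≤ 3 * ((q : ℝ) + 1) := by nlinarith
      · simp only [sub_self, abs_zero]
        positivity
    have e : ∀ F : ℝ, bsdProd (c * k ^ 2) 0 q * F - bsdProd (c * k ^ 2) 0 q =
        (F - 1) * bsdProd (c * k ^ 2) 0 q := fun F => by ring
    rw [e, abs_mul, abs_of_pos hP]
    exact mul_le_mul_of_nonneg_right hfac hP.le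

/-- The crossing argument for a step function `P` and a continuous `T`. -/
theorem Cro_gen (P T : ℝ → ℝ) (x y : ℝ) (hx : 10 ≤ x) (hxy : x < y)
    (hT : ContinuousOn T (Set.Icc x y)) (hT0 : ∀ z : ℝ, x ≤ z → z ≤ y → 0 < T z)
    (hP0 : ∀ z : ℝ, 0 < P z)
    (hc : ∀ q : ℕ, 9 ≤ q → ∀ z : ℝ, (q : ℝ) ≤ z → z < q + 1 → P z = P q)
    (hj : ∀ q : ℕ, 9 ≤ q → |P ((q : ℝ) + 1) - P q| ≤ 3 / Real.sqrt (q + 1) * P q)
    (σ : ℝ) (hσ : σ = 1 ∨ σ = -1) (h1 : 0 < σ * (P x - T x)) (h2 : σ * (P y - T y) < 0) :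
    ∃ z : ℝ, x ≤ z ∧ z ≤ y ∧ |P z / T z - 1| ≤ 5 / Real.sqrt z := by
  classical
  have hx0 : 0 ≤ x := by linarith
  have hy0 : 0 ≤ y := by linarith
  -- the least `q ≥ ⌊x⌋` after which the sign changes
  have hex : ∃ q : ℕ, ⌊x⌋₊ ≤ q ∧ (y < (q : ℝ) + 1 ∨ σ * (P ((q : ℝ) + 1) - T ((q : ℝ) + 1)) ≤ 0) :=
    ⟨⌊y⌋₊, Nat.floor_le_floor hxy.le, Or.inl (Nat.lt_floor_add_one y)⟩
  obtain ⟨hq1, hq2⟩ := Nat.find_spec hex
  have hmin := fun m (hm : m < Nat.find hex) => Nat.find_min hex hm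
  set q := Nat.find hex with hqdef
  have h10 : 10 ≤ ⌊x⌋₊ := Nat.le_floor (by exact_mod_cast hx)
  have hq9 : 9 ≤ q := by omega
  -- the starting point
  obtain ⟨x', hx'1, hx'2, hx'q, hx'q1, hx'D⟩ : ∃ x' : ℝ, x ≤ x' ∧ x' ≤ y ∧ (q : ℝ) ≤ x' ∧
      x' < (q : ℝ) + 1 ∧ 0 < σ * (P x' - T x') := by
    rcases Nat.lt_or_ge ⌊x⌋₊ q with hlt | hge
    · have hq' : ((q - 1 : ℕ) : ℝ) + 1 = q := by
        rw [← Nat.cast_add_one]
        congr 1
        omega
      have hm := hmin (q - 1) (by omega)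
      rw [hq'] at hm
      push Not at hm
      obtain ⟨hm1, hm2⟩ := hm (by omega)
      refine ⟨q, ?_, hm1, le_refl _, by linarith, hm2⟩
      have : x < (⌊x⌋₊ : ℝ) + 1 := Nat.lt_floor_add_one x
      have h3 : ((⌊x⌋₊ : ℝ) + 1) ≤ q := by exact_mod_cast hlt
      linarith
    · have he : q = ⌊x⌋₊ := le_antisymm hge hq1
      refine ⟨x, le_refl _, hxy.le, ?_, ?_, h1⟩
      · rw [he]
        exact Nat.floor_le hx0
      · rw [he]
        exact Nat.lt_floor_add_one x
  have hPx' : P x' = P q := hc q hq9 x' hx'q hx'q1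
  -- the intermediate value theorem for `σ (P q - T)`
  have hIVT : ∀ b : ℝ, x' ≤ b → b ≤ y → σ * (P q - T b) ≤ 0 → ∃ z, x' ≤ z ∧ z ≤ b ∧ T z = P q := by
    intro b hb1 hb2 hb3
    have hcont : ContinuousOn (fun z => σ * (P q - T z)) (Set.Icc x' b) := by
      refine ContinuousOn.mul continuousOn_const (ContinuousOn.sub continuousOn_const ?_)
      exact hT.mono (Set.Icc_subset_Icc hx'1 hb2)
    have h3 := intermediate_value_Icc' hb1 hcont
    have h4 : (0 : ℝ) ∈ Set.Icc (σ * (P q - T b)) (σ * (P q - T x')) := by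
      refine ⟨hb3, ?_⟩
      rw [← hPx']
      exact hx'D.le
    obtain ⟨z, hz1, hz2⟩ := h3 h4
    refine ⟨z, hz1.1, hz1.2, ?_⟩
    have hσ0 : σ ≠ 0 := by rcases hσ with h | h <;> rw [h] <;> norm_num
    have h5 : P q - T z = 0 := by
      have := hz2
      simpa [hσ0] using this
    linarith
  have hzero : ∀ z : ℝ, x' ≤ z → z ≤ y → z < (q : ℝ) + 1 → T z = P q →
      |P z / T z - 1| ≤ 5 / Real.sqrt z := by
    intro z hz1 hz2 hz3 hz4
    have h3 : P z = P q := hc q hq9 z (by linarith) hz3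
    have h4 : 0 < T z := hT0 z (by linarith) hz2
    rw [h3, ← hz4, div_self h4.ne', sub_self, abs_zero]
    positivity
  by_cases hyq : y < (q : ℝ) + 1
  · have hPy : P y = P q := hc q hq9 y (by linarith) hyq
    rw [hPy] at h2
    obtain ⟨z, hz1, hz2, hz3⟩ := hIVT y hx'2 (le_refl _) h2.le
    exact ⟨z, by linarith, hz2, hzero z hz1 hz2 (by linarith) hz3⟩
  · have hyq' : (q : ℝ) + 1 ≤ y := not_lt.1 hyq
    have hD : σ * (P ((q : ℝ) + 1) - T ((q : ℝ) + 1)) ≤ 0 := hq2.resolve_left hyq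
    have hq10 : (10 : ℝ) ≤ (q : ℝ) + 1 := by
      have : (9 : ℝ) ≤ q := by exact_mod_cast hq9
      linarith
    have hT1 : 0 < T ((q : ℝ) + 1) := hT0 _ (by linarith) hyq'
    have hPq := hP0 q
    set s := Real.sqrt ((q : ℝ) + 1) with hs
    have hs2 : s * s = (q : ℝ) + 1 := Real.mul_self_sqrt (by linarith)
    have hspos : 0 < s := Real.sqrt_pos.2 (by linarith)
    have hs3 : 3 / s ≤ 5 / s := by
      apply div_le_div_of_nonneg_right _ hspos.le
      norm_num
    have hs1 : 3 / s < 1 := by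
      rw [div_lt_one hspos]
      nlinarith
    have hs0 : 0 < 3 / s := by positivity
    have hjq := abs_le.1 (hj q hq9)
    by_cases hD0 : σ * (P q - T ((q : ℝ) + 1)) ≤ 0
    · obtain ⟨z, hz1, hz2, hz3⟩ := hIVT ((q : ℝ) + 1) hx'q1.le hyq' hD0
      rcases lt_or_eq_of_le hz2 with hlt | heq
      · exact ⟨z, by linarith, by linarith, hzero z hz1 (by linarith) hlt hz3⟩
      · refine ⟨z, by linarith, by linarith, ?_⟩
        rw [heq] at hz3 ⊢
        refine le_trans ?_ hs3
        rw [hz3, div_sub_one hPq.ne', abs_div, abs_of_pos hPq, div_le_iff₀ hPq]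
        exact hj q hq9
    · refine ⟨(q : ℝ) + 1, by linarith, hyq', ?_⟩
      refine le_trans ?_ hs3
      rw [div_sub_one hT1.ne', abs_div, abs_of_pos hT1, div_le_iff₀ hT1, abs_le]
      have hD0' := not_le.1 hD0
      rcases hσ with h | h
      · rw [h] at hD hD0'
        have h3 : T ((q : ℝ) + 1) < P q := by linarith
        have h4 : P ((q : ℝ) + 1) ≤ T ((q : ℝ) + 1) := by linarith
        constructor
        · have h5 : (1 - 3 / s) * T ((q : ℝ) + 1) ≤ (1 - 3 / s) * P q :=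
            mul_le_mul_of_nonneg_left h3.le (by linarith)
          nlinarith [hjq.1]
        · have : 0 ≤ 3 / s * T ((q : ℝ) + 1) := by positivity
          linarith
      · rw [h] at hD hD0'
        have h3 : P q < T ((q : ℝ) + 1) := by linarith
        have h4 : T ((q : ℝ) + 1) ≤ P ((q : ℝ) + 1) := by linarith
        constructor
        · have : 0 ≤ 3 / s * T ((q : ℝ) + 1) := by positivity
          linarith
        · have h5 : (1 + 3 / s) * P q ≤ (1 + 3 / s) * T ((q : ℝ) + 1) :=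
            mul_le_mul_of_nonneg_left h3.le (by linarith)
          nlinarith [hjq.2]

/-- Crossings.  Let `T z = C (log z)^r`, increasing and continuous.  If `P - T` has different signs at `x < y` let
`z` be the supremum of the points of `[x,y]` where the sign is that at `x`.  `P` is right continuous, so
`P z` is on the other side (or equal), and there are points `z' < z`, `z' → z`, on the first side, so
`P(z-)` is on the first side, weakly; `P z/P(z-)` is `1`, or `z = p` is a prime and the quotient is between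
`1 - 3/√z` and `1 + 3/√z` (`P_step`).  (Or by a discrete argument as in `cross_aux`, module `Cross` of
W_MP_3283e1_h19: the first integer `m > x`, `m ≤ y`, where `P m` is on the other side of
`T m`; if there is none, `P` is constant on `[⌊y⌋, y]` and `T` crosses it continuously.) -/
theorem cross (k : ℕ) (c : ℤ) (n f i j : ℕ) (L : ℂ → ℂ) (r : ℕ) (l V : ℝ)
    (h : W3283g.SU k c n f i j L r l V) (x y : ℝ) (hx : 10 ≤ x) (hxy : x < y)
    (hs : (bsdProd (c * k ^ 2) 0 x - CG r l * (Real.log x) ^ r) *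
      (bsdProd (c * k ^ 2) 0 y - CG r l * (Real.log y) ^ r) < 0) :
    ∃ z : ℝ, x ≤ z ∧ z ≤ y ∧
      |bsdProd (c * k ^ 2) 0 z / (CG r l * (Real.log z) ^ r) - 1| ≤ 5 / Real.sqrt z := by
  have hC := CG_pos r l h.hl
  have hT : ContinuousOn (fun z : ℝ => CG r l * (Real.log z) ^ r) (Set.Icc x y) := by
    refine ContinuousOn.mul continuousOn_const (ContinuousOn.pow ?_ r)
    refine Real.continuousOn_log.mono ?_
    intro z hz
    have : 0 < z := by linarith [hz.1]
    exact this.ne'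
  have hT0 : ∀ z : ℝ, x ≤ z → z ≤ y → 0 < CG r l * (Real.log z) ^ r := by
    intro z hz _
    have : 0 < Real.log z := Real.log_pos (by linarith)
    positivity
  rcases mul_neg_iff.1 hs with ⟨h1, h2⟩ | ⟨h1, h2⟩
  · exact Cro_gen (fun z => bsdProd (c * k ^ 2) 0 z) (fun z => CG r l * (Real.log z) ^ r) x y hx hxy
      hT hT0 (fun z => W3283g.bsd_pos _ _ _)
      (fun q hq => (P_step k c n f i j L r l V h q hq).1)
      (fun q hq => (P_step k c n f i j L r l V h q hq).2) 1 (Or.inl rfl)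
      (by simpa using h1) (by simpa using h2)
  · exact Cro_gen (fun z => bsdProd (c * k ^ 2) 0 z) (fun z => CG r l * (Real.log z) ^ r) x y hx hxy
      hT hT0 (fun z => W3283g.bsd_pos _ _ _)
      (fun q hq => (P_step k c n f i j L r l V h q hq).1)
      (fun q hq => (P_step k c n f i j L r l V h q hq).2) (-1) (Or.inr rfl)
      (by linarith) (by linarith)

end W3283l
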