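import Mathlib

set_option autoImplicit false

namespace W3283l

open MeasureTheory

/-- `-log (1 - e^{-u})`. -/
noncomputable def om (u : ℝ) : ℝ := -Real.log (1 - Real.exp (-u))

/-- Ordinates `γ i > 0` of the zeros `± i γ` with multiplicities `m i`. -/
structure ZD {ι : Type} (γ m : ι → ℝ) : Prop where
  pos : ∀ i, 0 < γ i
  one : ∀ i, 1 ≤ m i
  sm : Summable (fun i => m i / (γ i) ^ 2)
  asy : ∃ C : ℝ, ∀ z : ℝ, 1 ≤ z →
    |(∑' i, 2 * m i * z / (z ^ 2 + (γ i) ^ 2)) - Real.log z| ≤ C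

/-- A function with an explicit formula. -/
structure EF {ι : Type} (γ m : ι → ℝ) (A : ℝ → ℝ) : Prop where
  meas : Measurable A
  bd : ∃ C : ℝ, ∀ u : ℝ, 0 ≤ u → |A u| ≤ C * Real.exp (3 / 4 * u)
  ex : ∃ c3 : ℝ, ∀ u : ℝ, 0 ≤ u → ∫ t in Set.Ioc 0 u, A t =
    (∑' i, 2 * m i / (γ i) ^ 2 * (1 - Real.cos (γ i * u))) + c3 * u - ∫ t in Set.Ioc 0 u, om t

/-- The value at `U` of the sum over the zeros belonging to the exponential mean of rate `z`
(`η = 1`: over `a > 0` of `A (U + a)`, `η = -1`: of `A (U - a)`). -/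
noncomputable def Vz {ι : Type} (γ m : ι → ℝ) (η z U : ℝ) : ℝ :=
  ∑' i, 2 * m i * z * (z * Real.sin (γ i * U) + η * γ i * Real.cos (γ i * U)) /
    (γ i * (z ^ 2 + (γ i) ^ 2))

end W3283l
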