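import Pool.Agent.W_3283e1_lw.Om

set_option autoImplicit false

namespace W3283l

open MeasureTheory

/-- The real digamma function. -/
noncomputable def Dig_psi (x : ℝ) : ℝ := deriv Real.Gamma x / Real.Gamma x

theorem Dig_ne (x : ℝ) (hx : 0 < x) : ∀ m : ℕ, x ≠ -m := by
  intro m h
  have : (0 : ℝ) ≤ m := Nat.cast_nonneg m
  linarith

theorem Dig_ne' (s : ℂ) (hs : 0 < s.re) : ∀ m : ℕ, s ≠ -m := by
  intro m h
  have h1 : s.re = -(m : ℝ) := by rw [h, Complex.neg_re, Complex.natCast_re]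
  have : (0 : ℝ) ≤ m := Nat.cast_nonneg m
  linarith

theorem Dig_real (x : ℝ) (hx : 0 < x) : Complex.digamma (x : ℂ) = (Dig_psi x : ℂ) := by
  have h1 : HasDerivAt (fun y : ℝ => Complex.Gamma (y : ℂ)) (deriv Complex.Gamma (x : ℂ)) x :=
    (Complex.differentiableAt_Gamma (x : ℂ) (Dig_ne' _ (by simpa using hx))).hasDerivAt.comp_ofReal
  have h2 : HasDerivAt (fun y : ℝ => ((Real.Gamma y : ℝ) : ℂ)) ((deriv Real.Gamma x : ℝ) : ℂ) x :=
    (Real.differentiableAt_Gamma (Dig_ne x hx)).hasDerivAt.ofReal_comp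
  have h3 : (fun y : ℝ => Complex.Gamma (y : ℂ)) = fun y : ℝ => ((Real.Gamma y : ℝ) : ℂ) :=
    funext fun y => Complex.Gamma_ofReal y
  rw [h3] at h1
  rw [Complex.digamma_def, logDeriv_apply, h1.unique h2, Complex.Gamma_ofReal, Dig_psi,
    Complex.ofReal_div]

theorem Dig_bounds (x : ℝ) (hx : 0 < x) :
    Real.log x ≤ Dig_psi (x + 1) ∧ Dig_psi (x + 1) ≤ Real.log (x + 1) := by
  have hd : ∀ y : ℝ, 0 < y → HasDerivAt (Real.log ∘ Real.Gamma) (Dig_psi y) y := fun y hy =>
    (Real.differentiableAt_Gamma (Dig_ne y hy)).hasDerivAt.log (Real.Gamma_pos_of_pos hy).ne'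
  have hs : ∀ y : ℝ, 0 < y → slope (Real.log ∘ Real.Gamma) y (y + 1) = Real.log y := by
    intro y hy
    rw [slope_def_field, add_sub_cancel_left, div_one, Function.comp_apply, Function.comp_apply,
      Real.Gamma_add_one hy.ne', Real.log_mul hy.ne' (Real.Gamma_pos_of_pos hy).ne']
    ring
  constructor
  · rw [← hs x hx]
    exact Real.convexOn_log_Gamma.slope_le_of_hasDerivAt hx (show (0 : ℝ) < x + 1 by linarith)
      (by linarith) (hd _ (by linarith))
  · rw [← hs (x + 1) (by linarith)]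
    exact Real.convexOn_log_Gamma.le_slope_of_hasDerivAt (show (0 : ℝ) < x + 1 by linarith)
      (show (0 : ℝ) < x + 1 + 1 by linarith) (by linarith) (hd _ (by linarith))

/-- `Γ` is logarithmically convex on the positive reals (`Real.convexOn_log_Gamma`) and
`Γ(z+1) = z Γ(z)`, so `log z ≤ ψ(1+z) ≤ log (z+1) ≤ log z + 1` for `z ≥ 1`. -/
theorem dig_log (z : ℝ) (hz : 1 ≤ z) :
    (Complex.digamma (1 + z)).im = 0 ∧ |(Complex.digamma (1 + z)).re - Real.log z| ≤ 1 := by
  have hz0 : 0 < z := by linarith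
  have h1 : (1 : ℂ) + (z : ℂ) = ((z + 1 : ℝ) : ℂ) := by
    push_cast
    ring
  rw [h1, Dig_real (z + 1) (by linarith)]
  refine ⟨Complex.ofReal_im _, ?_⟩
  rw [Complex.ofReal_re]
  obtain ⟨h2, h3⟩ := Dig_bounds z hz0
  have h4 : Real.log (z + 1) - Real.log z ≤ 1 := by
    rw [← Real.log_div (by linarith) (by linarith)]
    refine (Real.log_le_sub_one_of_pos (div_pos (by linarith) hz0)).trans ?_
    rw [div_sub_one hz0.ne', div_le_one hz0]
    linarith
  rw [abs_le]
  constructor <;> linarith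

theorem Dig_norm (s : ℂ) (hs : 0 < s.re) (n : ℕ) : (n : ℝ) + 1 ≤ ‖(n : ℂ) + 1 + s‖ := by
  refine le_trans ?_ (Complex.re_le_norm _)
  rw [Complex.add_re, Complex.add_re, Complex.natCast_re, Complex.one_re]
  linarith

theorem Dig_summable : Summable (fun n : ℕ => 1 / ((n : ℝ) + 1) ^ 2) := by
  have h := (summable_nat_add_iff 1).2 (Real.summable_one_div_nat_pow.2 one_lt_two)
  simpa using h

theorem Dig_bd (s : ℂ) (hs : 0 < s.re) (n : ℕ) :
    ‖1 / (((n : ℂ) + 1) * ((n : ℂ) + 1 + s))‖ ≤ 1 / ((n : ℝ) + 1) ^ 2 := by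
  have h1 := Dig_norm s hs n
  have h2 : ‖(n : ℂ) + 1‖ = (n : ℝ) + 1 := by
    have : ((n : ℂ) + 1) = (((n : ℝ) + 1 : ℝ) : ℂ) := by push_cast; ring
    rw [this, Complex.norm_real, Real.norm_of_nonneg (by positivity)]
  have h3 : (0 : ℝ) < (n : ℝ) + 1 := by positivity
  rw [norm_div, norm_one, norm_mul, h2, sq]
  exact one_div_le_one_div_of_le (by positivity) (mul_le_mul_of_nonneg_left h1 h3.le)

theorem Dig_left : DifferentiableOn ℂ
    (fun s : ℂ => s * ∑' n : ℕ, 1 / (((n : ℂ) + 1) * ((n : ℂ) + 1 + s))) {s : ℂ | 0 < s.re} := by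
  have hU : IsOpen {s : ℂ | 0 < s.re} := isOpen_lt continuous_const Complex.continuous_re
  refine differentiableOn_id.mul (Complex.differentiableOn_tsum_of_summable_norm
    (F := fun (n : ℕ) (s : ℂ) => 1 / (((n : ℂ) + 1) * ((n : ℂ) + 1 + s)))
    Dig_summable (fun n => ?_) hU fun n w hw => Dig_bd w hw n)
  intro s hs
  have h0 : ((n : ℂ) + 1) ≠ 0 := by exact_mod_cast n.succ_ne_zero
  have h1 : ((n : ℂ) + 1 + s) ≠ 0 := by
    intro h
    have h2 := Dig_norm s hs n
    rw [h, norm_zero] at h2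
    have : (0 : ℝ) ≤ n := Nat.cast_nonneg n
    linarith
  refine DifferentiableAt.differentiableWithinAt ?_
  refine DifferentiableAt.div (differentiableAt_const _) ?_ (mul_ne_zero h0 h1)
  fun_prop

theorem Dig_right : DifferentiableOn ℂ (fun s : ℂ => Complex.digamma (1 + s) +
      Real.eulerMascheroniConstant) {s : ℂ | 0 < s.re} := by
  have hU : IsOpen {s : ℂ | 0 < s.re} := isOpen_lt continuous_const Complex.continuous_re
  have hG : DifferentiableOn ℂ Complex.Gamma {s : ℂ | 0 < s.re} := fun s hs =>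
    (Complex.differentiableAt_Gamma s (Dig_ne' s hs)).differentiableWithinAt
  have hd : DifferentiableOn ℂ Complex.digamma {s : ℂ | 0 < s.re} := by
    intro s hs
    have h1 : DifferentiableAt ℂ (deriv Complex.Gamma) s := (hG.deriv hU).differentiableAt
      (hU.mem_nhds hs)
    have h2 := h1.div (Complex.differentiableAt_Gamma s (Dig_ne' s hs))
      (Complex.Gamma_ne_zero (Dig_ne' s hs))
    exact h2.differentiableWithinAt
  refine DifferentiableOn.add_const _ ?_
  refine hd.comp (g := Complex.digamma) (f := fun s : ℂ => 1 + s) (by fun_prop) fun s hs => ?_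
  have hs' : 0 < s.re := hs
  show 0 < (1 + s).re
  rw [Complex.add_re, Complex.one_re]
  linarith

theorem Dig_terms (s : ℂ) (hs : 0 < s.re) :
    HasSum (fun n : ℕ => 1 / (((n : ℂ) + 1) * ((n : ℂ) + 1 + s)))
      (∫ u in Set.Ioi (0 : ℝ), (om u : ℂ) * Complex.exp (-(s * u))) := by
  have hre : ∀ n : ℕ, (-((n : ℂ) + 1 + s)).re < 0 := by
    intro n
    rw [Complex.neg_re, Complex.add_re, Complex.add_re, Complex.natCast_re, Complex.one_re]
    have : (0 : ℝ) ≤ n := Nat.cast_nonneg n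
    linarith
  have hint : ∀ n : ℕ, Integrable (fun u : ℝ => (1 / ((n : ℂ) + 1)) *
      Complex.exp (-((n : ℂ) + 1 + s) * u)) (volume.restrict (Set.Ioi (0 : ℝ))) := fun n =>
    (integrableOn_exp_mul_complex_Ioi (hre n) 0).const_mul _
  have hnorm : ∀ n : ℕ, (∫ u : ℝ in Set.Ioi 0, ‖(1 / ((n : ℂ) + 1)) *
      Complex.exp (-((n : ℂ) + 1 + s) * u)‖) = 1 / ((n : ℝ) + 1) * (1 / ((n : ℝ) + 1 + s.re)) := by
    intro n
    have h3 : (0 : ℝ) < (n : ℝ) + 1 := by positivity
    have h1 : ∀ u : ℝ, ‖(1 / ((n : ℂ) + 1)) * Complex.exp (-((n : ℂ) + 1 + s) * u)‖ =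
        1 / ((n : ℝ) + 1) * Real.exp (-((n : ℝ) + 1 + s.re) * u) := by
      intro u
      have h2 : ((n : ℂ) + 1) = (((n : ℝ) + 1 : ℝ) : ℂ) := by push_cast; ring
      rw [norm_mul, Complex.norm_exp, norm_div, norm_one, h2, Complex.norm_real,
        Real.norm_of_nonneg h3.le]
      congr 2
      rw [Complex.mul_re, Complex.ofReal_re, Complex.ofReal_im, mul_zero, sub_zero,
        Complex.neg_re, Complex.add_re, Complex.ofReal_re]
    simp only [h1]
    rw [integral_const_mul, integral_exp_mul_Ioi (by linarith), mul_zero, Real.exp_zero]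
    congr 1
    rw [neg_div_neg_eq]
  have hsum : Summable fun n : ℕ => ∫ u : ℝ in Set.Ioi 0, ‖(1 / ((n : ℂ) + 1)) *
      Complex.exp (-((n : ℂ) + 1 + s) * u)‖ := by
    refine Summable.of_nonneg_of_le (fun n => integral_nonneg fun u => norm_nonneg _) (fun n => ?_)
      Dig_summable
    have h3 : (0 : ℝ) < (n : ℝ) + 1 := by positivity
    rw [hnorm, one_div_mul_one_div, sq]
    exact one_div_le_one_div_of_le (by positivity) (by nlinarith)
  have h := hasSum_integral_of_summable_integral_norm hint hsum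
  have h1 : ∀ n : ℕ, (∫ u : ℝ in Set.Ioi 0, (1 / ((n : ℂ) + 1)) *
      Complex.exp (-((n : ℂ) + 1 + s) * u)) = 1 / (((n : ℂ) + 1) * ((n : ℂ) + 1 + s)) := by
    intro n
    rw [integral_const_mul, integral_exp_mul_complex_Ioi (hre n), Complex.ofReal_zero, mul_zero,
      Complex.exp_zero, neg_div_neg_eq, one_div_mul_one_div]
  have h2 : (∫ u : ℝ in Set.Ioi 0, ∑' n : ℕ, (1 / ((n : ℂ) + 1)) *
      Complex.exp (-((n : ℂ) + 1 + s) * u)) =
      ∫ u in Set.Ioi (0 : ℝ), (om u : ℂ) * Complex.exp (-(s * u)) := by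
    refine setIntegral_congr_fun measurableSet_Ioi fun u hu => ?_
    have hu' : 0 < u := hu
    have h3 : |Real.exp (-u)| < 1 := by
      rw [abs_of_pos (Real.exp_pos _), Real.exp_lt_one_iff]
      linarith
    have h4 := Real.hasSum_pow_div_log_of_abs_lt_one h3
    have h5 : HasSum (fun n : ℕ => ((Real.exp (-u) ^ (n + 1) / ((n : ℝ) + 1) : ℝ) : ℂ))
        ((om u : ℝ) : ℂ) := Complex.hasSum_ofReal.2 h4
    have h6 := h5.mul_right (Complex.exp (-(s * u)))
    rw [← h6.tsum_eq]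
    refine tsum_congr fun n => ?_
    have h7 : Complex.exp (-((n : ℂ) + 1 + s) * u) =
        Complex.exp (-u) ^ (n + 1) * Complex.exp (-(s * u)) := by
      rw [← Complex.exp_nat_mul, ← Complex.exp_add]
      congr 1
      push_cast
      ring
    rw [h7]
    push_cast
    ring
  rw [h2] at h
  refine h.congr_fun ?_
  exact fun n => (h1 n).symm

theorem Dig_log_lim (c : ℝ) : Filter.Tendsto (fun N : ℕ => Real.log (c + N) - Real.log N)
    Filter.atTop (nhds 0) := by
  have h1 : Filter.Tendsto (fun N : ℕ => c / (N : ℝ) + 1) Filter.atTop (nhds (0 + 1)) :=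
    (tendsto_const_div_atTop_nhds_zero_nat c).add_const 1
  rw [zero_add] at h1
  have h2 := (Real.continuousAt_log one_ne_zero).tendsto.comp h1
  rw [Real.log_one] at h2
  refine h2.congr' ?_
  filter_upwards [Filter.eventually_gt_atTop (Nat.ceil |c|)] with N hN
  have h3 : |c| < N := (Nat.le_ceil _).trans_lt (by exact_mod_cast hN)
  have h4 := neg_abs_le c
  have h5 : (0 : ℝ) < N := (abs_nonneg c).trans_lt h3
  rw [Function.comp_apply, ← Real.log_div (by linarith) h5.ne', add_div, div_self h5.ne']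

theorem Dig_psi_add (y : ℝ) (hy : 0 < y) : Dig_psi (y + 1) = Dig_psi y + y⁻¹ := by
  have h := Complex.digamma_apply_add_one (y : ℂ) (Dig_ne' _ (by simpa using hy))
  have h1 : (y : ℂ) + 1 = ((y + 1 : ℝ) : ℂ) := by push_cast; ring
  rw [h1, Dig_real _ hy, Dig_real _ (by linarith)] at h
  exact_mod_cast h

theorem Dig_partialSum (x : ℝ) (hx : 0 < x) (N : ℕ) :
    ∑ n ∈ Finset.range N, (1 / ((n : ℝ) + 1) - 1 / ((n : ℝ) + 1 + x)) =
      harmonic N + Dig_psi (x + 1) - Dig_psi (x + N + 1) := by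
  induction N with
  | zero => simp
  | succ N ih =>
    have h0 : (0 : ℝ) ≤ N := Nat.cast_nonneg N
    have h1 := Dig_psi_add (x + N + 1) (by linarith)
    have h2 : x + ((N + 1 : ℕ) : ℝ) + 1 = x + N + 1 + 1 := by push_cast; ring
    rw [Finset.sum_range_succ, ih, h2, h1, harmonic_succ]
    have h3 : (N : ℝ) + 1 + x = x + N + 1 := by ring
    rw [h3]
    push_cast
    ring

theorem Dig_eq_real (x : ℝ) (hx : 0 < x) :
    (x : ℂ) * (∑' n : ℕ, 1 / (((n : ℂ) + 1) * ((n : ℂ) + 1 + (x : ℂ)))) =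
      Complex.digamma (1 + (x : ℂ)) + Real.eulerMascheroniConstant := by
  have h1 : (1 : ℂ) + (x : ℂ) = ((x + 1 : ℝ) : ℂ) := by
    push_cast
    ring
  rw [h1, Dig_real (x + 1) (by linarith)]
  have h2 : Filter.Tendsto (fun N : ℕ => ∑ n ∈ Finset.range N,
      (1 / ((n : ℝ) + 1) - 1 / ((n : ℝ) + 1 + x))) Filter.atTop
      (nhds (Dig_psi (x + 1) + Real.eulerMascheroniConstant)) := by
    have h3 : Filter.Tendsto (fun N : ℕ => Dig_psi (x + N + 1) - Real.log N) Filter.atTop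
        (nhds 0) := by
      refine tendsto_of_tendsto_of_tendsto_of_le_of_le (Dig_log_lim x) (Dig_log_lim (x + 1))
        (fun N => ?_) fun N => ?_
      · have := (Dig_bounds (x + N) (by positivity)).1
        show Real.log (x + N) - Real.log N ≤ Dig_psi (x + N + 1) - Real.log N
        linarith
      · have := (Dig_bounds (x + N) (by positivity)).2
        show Dig_psi (x + N + 1) - Real.log N ≤ Real.log (x + 1 + N) - Real.log N
        have h4 : x + 1 + (N : ℝ) = x + N + 1 := by ring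
        rw [h4]
        linarith
    have h5 := (Real.tendsto_harmonic_sub_log.sub h3).add_const (Dig_psi (x + 1))
    rw [sub_zero, add_comm Real.eulerMascheroniConstant] at h5
    refine h5.congr fun N => ?_
    rw [Dig_partialSum x hx N]
    ring
  have h6 := (Dig_terms (x : ℂ) (by simpa using hx)).summable.hasSum.mul_left (x : ℂ)
  have h7 := h6.tendsto_sum_nat
  have h8 : Filter.Tendsto (fun N : ℕ => ((∑ n ∈ Finset.range N,
      (1 / ((n : ℝ) + 1) - 1 / ((n : ℝ) + 1 + x)) : ℝ) : ℂ)) Filter.atTop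
      (nhds ((Dig_psi (x + 1) + Real.eulerMascheroniConstant : ℝ) : ℂ)) :=
    (Complex.continuous_ofReal.tendsto _).comp h2
  rw [← Complex.ofReal_add]
  refine tendsto_nhds_unique h7 (h8.congr fun N => ?_)
  rw [Complex.ofReal_sum]
  refine Finset.sum_congr rfl fun n _ => ?_
  have h9 : (0 : ℝ) < (n : ℝ) + 1 := by positivity
  have h10 : (x : ℂ) * (1 / (((n : ℂ) + 1) * ((n : ℂ) + 1 + (x : ℂ)))) =
      ((x * (1 / (((n : ℝ) + 1) * ((n : ℝ) + 1 + x))) : ℝ) : ℂ) := by push_cast; ring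
  rw [h10]
  congr 1
  field_simp
  ring

/-- Gauss' integral in the form `s ∫_0^∞ om u e^{-su} du = ψ(1+s) + γ`.  Integrate by parts
(`om' u = -e^{-u}/(1-e^{-u})`): the left side is `φ(s) = ∫_0^∞ (1 - e^{-su}) e^{-u}/(1-e^{-u}) du`.  For
real `s ≥ 0`: `φ(s+1) - φ(s) = 1/(s+1)`, as for `ψ(1+s)` (`Complex.digamma_apply_add_one`), both
functions are monotone in `s`, and `φ(0) = 0 = ψ(1) + γ` (`Complex.digamma_one`); so
`d(s) = ψ(1+s) + γ - φ(s)` has period one, vanishes at the natural numbers, and for `0 ≤ s ≤ 1`,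
`|d(s)| = |d(s+n)| ≤ 2/(n+1)` by monotonicity.  Then for complex `s` by the identity theorem (both sides are
holomorphic on `Re s > 0`).  Another proof: `B(1,ε) - B(1+s,ε) = ∫_0^1 (1-t^s)(1-t)^{ε-1} dt` and let
`ε → 0+`, with `B(1,ε) - B(1+s,ε) = ε⁻¹ (1 - Γ(1+s)Γ(1+ε)/Γ(1+s+ε)) → ψ(1+s) - ψ(1)`. -/
theorem dig_int (s : ℂ) (hs : 0 < s.re) :
    s * ∫ u in Set.Ioi (0 : ℝ), (om u : ℂ) * Complex.exp (-(s * u)) =
      Complex.digamma (1 + s) + Real.eulerMascheroniConstant := by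
  have hU : IsOpen {s : ℂ | 0 < s.re} := isOpen_lt continuous_const Complex.continuous_re
  have hf : AnalyticOnNhd ℂ (fun s : ℂ => s * ∑' n : ℕ, 1 / (((n : ℂ) + 1) * ((n : ℂ) + 1 + s)))
      {s : ℂ | 0 < s.re} := Dig_left.analyticOnNhd hU
  have hg : AnalyticOnNhd ℂ (fun s : ℂ => Complex.digamma (1 + s) +
      Real.eulerMascheroniConstant) {s : ℂ | 0 < s.re} := Dig_right.analyticOnNhd hU
  have hpre : IsPreconnected {s : ℂ | 0 < s.re} := (convex_halfSpace_re_gt 0).isPreconnected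
  have h1 : Filter.Tendsto (fun k : ℕ => (((1 : ℝ) + 1 / ((k : ℝ) + 1) : ℝ) : ℂ)) Filter.atTop
      (nhdsWithin 1 {1}ᶜ) := by
    refine tendsto_nhdsWithin_iff.2 ⟨?_, Filter.Eventually.of_forall fun k => ?_⟩
    · have h2 : Filter.Tendsto (fun k : ℕ => (1 : ℝ) + 1 / ((k : ℝ) + 1)) Filter.atTop
          (nhds (1 + 0)) := tendsto_one_div_add_atTop_nhds_zero_nat.const_add 1
      have h3 := (Complex.continuous_ofReal.tendsto (1 + 0)).comp h2
      simpa [Function.comp_def] using h3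
    · rw [Set.mem_compl_iff, Set.mem_singleton_iff]
      intro h2
      have h3 : (1 : ℝ) + 1 / ((k : ℝ) + 1) = 1 := by exact_mod_cast h2
      have h4 : (0 : ℝ) < 1 / ((k : ℝ) + 1) := by positivity
      linarith
  have h2 : ∃ᶠ z in nhdsWithin (1 : ℂ) {1}ᶜ,
      z * (∑' n : ℕ, 1 / (((n : ℂ) + 1) * ((n : ℂ) + 1 + z))) =
        Complex.digamma (1 + z) + Real.eulerMascheroniConstant := by
    refine h1.frequently (Filter.Frequently.of_forall fun k => ?_)
    exact Dig_eq_real _ (by positivity)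
  have h3 := hf.eqOn_of_preconnected_of_frequently_eq hg hpre
    (show (1 : ℂ) ∈ {s : ℂ | 0 < s.re} by simp) h2 hs
  have h4 := (Dig_terms s hs).tsum_eq
  rw [← h4]
  exact h3

end W3283l
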