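import Mathlib

set_option autoImplicit false

namespace W3283l

open MeasureTheory

/-- Uniqueness for Laplace transforms of continuous functions.  `h u = g u e^{-(a+1)u}` for `u > 0`, `0`
for `u ≤ 0`, is integrable over `ℝ` and its Fourier transform vanishes (`hyp` on the line
`Re s = a + 1`), so by Fourier inversion (`MeasureTheory.Integrable.fourierInv_fourier_eq` /
`Real.fourierIntegralInv_fourierIntegral_eq`-type lemma at the points of continuity `u > 0`) `h u = 0`;
`g 0 = 0` by continuity.  (Or use the Gaussian regularization.) -/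
theorem lap_unique (g : ℝ → ℝ) (hg : ContinuousOn g (Set.Ici 0)) (a C : ℝ)
    (hb : ∀ u : ℝ, 0 ≤ u → |g u| ≤ C * Real.exp (a * u))
    (hyp : ∀ s : ℂ, a < s.re → ∫ u in Set.Ioi (0 : ℝ), (g u : ℂ) * Complex.exp (-(s * u)) = 0)
    (u : ℝ) (hu : 0 ≤ u) : g u = 0 := by
  classical
  -- positive points
  have key : ∀ v : ℝ, 0 < v → g v = 0 := by
    set h0 : ℝ → ℂ := fun u => (g u : ℂ) * Complex.exp (-(((a : ℂ) + 1) * u)) with hh0
    set h : ℝ → ℂ := (Set.Ioi (0 : ℝ)).indicator h0 with hh
    have hgc : ContinuousOn g (Set.Ioi 0) := hg.mono Set.Ioi_subset_Ici_self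
    have hh0c : ContinuousOn h0 (Set.Ioi 0) := by
      refine ContinuousOn.mul ?_ ?_
      · exact Complex.continuous_ofReal.comp_continuousOn hgc
      · exact Continuous.continuousOn (by fun_prop)
    have hC : 0 ≤ C := by
      have := hb 0 le_rfl
      simp only [mul_zero, Real.exp_zero, mul_one] at this
      exact le_trans (abs_nonneg _) this
    have hint : IntegrableOn h0 (Set.Ioi 0) := by
      have h1 : IntegrableOn (fun u : ℝ => C * Real.exp (-1 * u)) (Set.Ioi 0) := by
        exact (integrableOn_exp_mul_Ioi (by norm_num) 0).const_mul C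
      refine h1.mono' (hh0c.aestronglyMeasurable measurableSet_Ioi) ?_
      refine (ae_restrict_iff' measurableSet_Ioi).2 (Filter.Eventually.of_forall ?_)
      intro u hu
      have hu' : (0 : ℝ) < u := hu
      simp only [hh0, norm_mul, Complex.norm_real, Real.norm_eq_abs, Complex.norm_exp]
      have e1 : (-(((a : ℂ) + 1) * u)).re = -((a + 1) * u) := by
        simp
      rw [e1]
      calc |g u| * Real.exp (-((a + 1) * u)) ≤ (C * Real.exp (a * u)) * Real.exp (-((a + 1) * u)) :=
            mul_le_mul_of_nonneg_right (hb u hu'.le) (Real.exp_pos _).le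
        _ = C * Real.exp (-1 * u) := by
            rw [mul_assoc, ← Real.exp_add]; congr 2; ring
    have hhi : Integrable h := (integrable_indicator_iff measurableSet_Ioi).2 hint
    have hF : (FourierTransform.fourier h : ℝ → ℂ) = fun _ => 0 := by
      funext ξ
      rw [Real.fourier_real_eq_integral_exp_smul]
      have e2 : ∀ v : ℝ, Complex.exp (((-2 * Real.pi * v * ξ : ℝ) : ℂ) * Complex.I) • h v
          = (Set.Ioi (0 : ℝ)).indicator (fun v : ℝ => (g v : ℂ) *
            Complex.exp (-((((a : ℂ) + 1) + 2 * Real.pi * ξ * Complex.I) * v))) v := by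
        intro v
        by_cases hv : v ∈ Set.Ioi (0 : ℝ)
        · rw [hh, Set.indicator_of_mem hv, Set.indicator_of_mem hv, hh0]
          simp only [smul_eq_mul]
          rw [mul_left_comm, ← Complex.exp_add]
          congr 2
          push_cast
          ring
        · rw [hh, Set.indicator_of_notMem hv, Set.indicator_of_notMem hv, smul_zero]
      simp_rw [e2]
      rw [integral_indicator measurableSet_Ioi]
      apply hyp
      simp
    intro v hv
    have hcont : ContinuousAt h v := by
      have h1 : ContinuousAt h0 v := hh0c.continuousAt (Ioi_mem_nhds hv)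
      refine h1.congr ?_
      filter_upwards [Ioi_mem_nhds hv] with w hw
      rw [hh, Set.indicator_of_mem hw]
    have hFi : Integrable (FourierTransform.fourier h : ℝ → ℂ) := by
      rw [hF]; exact integrable_zero _ _ _
    have hinv := MeasureTheory.Integrable.fourierInv_fourier_eq hhi hFi hcont
    rw [hF] at hinv
    have h2 : h v = 0 := by
      rw [← hinv, Real.fourierInv_eq]
      simp
    rw [hh, Set.indicator_of_mem (show v ∈ Set.Ioi (0 : ℝ) from hv), hh0] at h2
    simp only [mul_eq_zero, Complex.exp_ne_zero, or_false] at h2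
    exact_mod_cast h2
  rcases hu.eq_or_lt with h | h
  · subst h
    -- continuity at zero
    have hc : ContinuousWithinAt g (Set.Ici 0) 0 := hg 0 Set.self_mem_Ici
    have hc' : Filter.Tendsto g (nhdsWithin 0 (Set.Ioi 0)) (nhds (g 0)) :=
      hc.mono_left (nhdsWithin_mono _ Set.Ioi_subset_Ici_self)
    have hz : Filter.Tendsto g (nhdsWithin 0 (Set.Ioi 0)) (nhds 0) := by
      refine Filter.Tendsto.congr' ?_ tendsto_const_nhds
      filter_upwards [self_mem_nhdsWithin] with w hw
      exact (key w hw).symm
    exact tendsto_nhds_unique hc' hz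
  · exact key u h

end W3283l
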