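import Pool.Agent.W_3283e1_lw.Fam
import Pool.Agent.W_3283e1_lw.Uni
import Pool.Agent.W_3283e1_lw.Cos
import Pool.Agent.W_3283e1_h53.Ces

set_option autoImplicit false

namespace W3283l

open Complex W3283e1 W3283f MeasureTheory Filter Topology

theorem Exp_ds (n j : ℕ) : DS (fun i => vL i * cA (aL n j) i) vL (1 - 1 / 2) :=
  ds_mul (ds_cA (aL n j) (1 / 2) (by norm_num) (by norm_num) (aL_bd n j))

theorem Exp_split (f1 f2 f3 f4 : ℝ → ℂ) (i1 : IntegrableOn f1 (Set.Ioi 0))
    (i2 : IntegrableOn f2 (Set.Ioi 0)) (i3 : IntegrableOn f3 (Set.Ioi 0))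
    (i4 : IntegrableOn f4 (Set.Ioi 0)) :
    ∫ u in Set.Ioi (0 : ℝ), (f1 u - f2 u - f3 u + f4 u) =
      (∫ u in Set.Ioi (0 : ℝ), f1 u) - (∫ u in Set.Ioi (0 : ℝ), f2 u) -
        (∫ u in Set.Ioi (0 : ℝ), f3 u) + ∫ u in Set.Ioi (0 : ℝ), f4 u := by
  rw [integral_add (f := fun u => f1 u - f2 u - f3 u) (g := f4) ((i1.sub i2).sub i3) i4,
    integral_sub (f := fun u => f1 u - f2 u) (g := f3) (i1.sub i2) i3, integral_sub i1 i2]

theorem Exp_split2 (f1 f2 : ℝ → ℂ) (c : ℂ) (i1 : IntegrableOn f1 (Set.Ioi 0))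
    (i2 : IntegrableOn f2 (Set.Ioi 0)) :
    ∫ u in Set.Ioi (0 : ℝ), (-f1 u - c * f2 u) =
      -(∫ u in Set.Ioi (0 : ℝ), f1 u) - c * ∫ u in Set.Ioi (0 : ℝ), f2 u := by
  rw [integral_sub (f := fun u => -f1 u) (g := fun u => c * f2 u) i1.neg (i2.const_mul c),
    integral_neg, integral_const_mul]

/-- `∫_0^∞ u e^{-su} du = 1/s²`. -/
theorem Exp_id (s : ℂ) (hs : 0 < s.re) :
    IntegrableOn (fun u : ℝ => (u : ℂ) * Complex.exp (-(s * u))) (Set.Ioi 0) ∧
    s * ∫ u in Set.Ioi (0 : ℝ), (u : ℂ) * Complex.exp (-(s * u)) = 1 / s := by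
  have hs0 : s ≠ 0 := by
    rintro rfl
    simp at hs
  have hre : (-s).re < 0 := by
    rw [Complex.neg_re]
    linarith
  constructor
  · have hI := (integrableOn_exp_mul_Ioi (a := -(s.re / 2)) (by linarith) 0).const_mul
      (2 / s.re)
    refine Integrable.mono' hI ?_ ?_
    · refine Continuous.aestronglyMeasurable ?_
      fun_prop
    · refine (ae_restrict_iff' measurableSet_Ioi).2 (Filter.Eventually.of_forall fun u hu => ?_)
      have hu0 : (0 : ℝ) < u := hu
      rw [norm_mul, Ser_norm, Complex.norm_real, Real.norm_of_nonneg hu0.le]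
      have h1 : u ≤ 2 / s.re * Real.exp (s.re / 2 * u) := by
        have h2 := Real.add_one_le_exp (s.re / 2 * u)
        have h3 : 2 / s.re * (s.re / 2 * u) ≤ 2 / s.re * Real.exp (s.re / 2 * u) :=
          mul_le_mul_of_nonneg_left (by linarith) (by positivity)
        refine le_trans (le_of_eq ?_) h3
        field_simp
      have h4 : 2 / s.re * Real.exp (-(s.re / 2) * u) =
          2 / s.re * Real.exp (s.re / 2 * u) * Real.exp (-(s.re * u)) := by
        rw [mul_assoc, ← Real.exp_add]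
        congr 2
        ring
      rw [h4]
      exact mul_le_mul_of_nonneg_right h1 (Real.exp_pos _).le
  · have h1 := W3283g.Ces_fub (fun _ => 1) measurable_const s hs (by
      have := integrableOn_exp_mul_Ioi (a := -s.re) (by linarith) 0
      refine this.congr_fun (fun u _ => ?_) measurableSet_Ioi
      simp)
    have h2 : ∫ u in Set.Ioi (0 : ℝ), ((1 : ℝ) : ℂ) * Complex.exp (-(s * u)) = 1 / s := by
      have h3 := integral_exp_mul_complex_Ioi hre 0
      simp only [neg_mul, Complex.ofReal_zero, mul_zero, Complex.exp_zero] at h3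
      simp only [Complex.ofReal_one, one_mul]
      rw [h3, neg_div_neg_eq]
    rw [h2] at h1
    rw [← h1]
    congr 1
    refine setIntegral_congr_fun measurableSet_Ioi fun u hu => ?_
    have hu0 : (0 : ℝ) < u := hu
    show (u : ℂ) * Complex.exp (-(s * u)) =
      ((∫ t in Set.Ioc 0 u, (1 : ℝ) : ℝ) : ℂ) * Complex.exp (-(s * u))
    rw [setIntegral_const, smul_eq_mul, mul_one, Real.volume_real_Ioc_of_le hu0.le, sub_zero]

/-- Bound and measurability: `st_bd` with `σ = 5/8`, `st_meas` (`ds_cA`, `ds_mul`, `aL_bd`),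
`r u ≤ r' e^{3u/4}`. -/
theorem AF_bd (n j r : ℕ) : Measurable (AF n j r) ∧
    ∃ C : ℝ, ∀ u : ℝ, 0 ≤ u → |AF n j r u| ≤ C * Real.exp (3 / 4 * u) := by
  have hDS := Exp_ds n j
  refine ⟨((st_meas hDS).neg).sub (measurable_const.mul measurable_id), ?_⟩
  obtain ⟨S, hS⟩ : ∃ S : ℝ, S = ∑' i, |vL i * cA (aL n j) i| * Real.exp (-(5 / 8 * vL i)) :=
    ⟨_, rfl⟩
  have hS0 : 0 ≤ S := by
    rw [hS]
    exact tsum_nonneg fun i => by positivity
  refine ⟨S + 4 / 3 * r, fun u hu => ?_⟩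
  have h1 := (st_bd hDS (5 / 8) (by norm_num) u).2
  rw [← hS] at h1
  unfold AF SS
  have h2 : Real.exp (5 / 8 * u) ≤ Real.exp (3 / 4 * u) := Real.exp_le_exp.2 (by linarith)
  have h3 : u ≤ 4 / 3 * Real.exp (3 / 4 * u) := by
    have := Real.add_one_le_exp (3 / 4 * u)
    linarith
  have hr : (0 : ℝ) ≤ r := Nat.cast_nonneg r
  refine (abs_sub _ _).trans ?_
  rw [abs_neg, abs_of_nonneg (mul_nonneg hr hu)]
  have h4 : Real.exp (5 / 8 * u) * S ≤ Real.exp (3 / 4 * u) * S :=
    mul_le_mul_of_nonneg_right h2 hS0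
  have h5 : (r : ℝ) * u ≤ r * (4 / 3 * Real.exp (3 / 4 * u)) := mul_le_mul_of_nonneg_left h3 hr
  linarith

/-- The Laplace transform of `AF` for `Re s > 3/4`, by `st_lap`, `log_id`, `dig_int`:
`∫ AF e^{-su} = -ES(vL cA)/s - r/s² = (log (πκ) + γ_E)/s - ∫ om e^{-su} + Σ 2m/(s²+γ²)`. -/
theorem AF_lap (n j : ℕ) (hj : j = 0 ∨ j = 1) (hn : Odd n) (hs : Squarefree n)
    (hRH : ∀ s : ℂ, 0 < s.re → LLF n j (1 + s) ≠ 0) (r : ℕ)
    (hr : analyticOrderNatAt (fF' n j) 0 = r) (s : ℂ) (h : 3 / 4 < s.re) :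
    ∫ u in Set.Ioi (0 : ℝ), (AF n j r u : ℂ) * Complex.exp (-(s * u)) =
      (Real.log (Real.pi * kF n j) + Real.eulerMascheroniConstant) / s -
        (∫ u in Set.Ioi (0 : ℝ), (om u : ℂ) * Complex.exp (-(s * u))) +
        ∑' i, 2 * (muF n j i : ℂ) / (s ^ 2 + (gaF n j i : ℂ) ^ 2) := by
  have hs0 : 0 < s.re := by linarith
  have hsn : s ≠ 0 := by
    rintro rfl
    simp at hs0
  obtain ⟨hI1, hv1⟩ := st_lap (Exp_ds n j) s (by linarith)
  obtain ⟨hI2, hv2⟩ := Exp_id s hs0
  obtain ⟨hsum, hid⟩ := log_id n j hj hn hs hRH s (by linarith)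
  have hdig := dig_int s hs0
  rw [hr] at hid
  have hfun : ∀ u : ℝ, (AF n j r u : ℂ) * Complex.exp (-(s * u)) =
      -((St (fun i => vL i * cA (aL n j) i) vL u : ℂ) * Complex.exp (-(s * u))) -
        (r : ℂ) * ((u : ℂ) * Complex.exp (-(s * u))) := by
    intro u
    unfold AF SS
    push_cast
    ring
  simp_rw [hfun]
  rw [Exp_split2 _ _ _ hI1 hI2]
  have hts : ∑' i, 2 * (muF n j i : ℂ) * s / (s ^ 2 + (gaF n j i : ℂ) ^ 2) =
      s * ∑' i, 2 * (muF n j i : ℂ) / (s ^ 2 + (gaF n j i : ℂ) ^ 2) := by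
    rw [← tsum_mul_left]
    refine tsum_congr fun i => ?_
    ring
  rw [hts] at hid
  apply mul_left_cancel₀ hsn
  have e1 : s * ((r : ℂ) * ∫ u in Set.Ioi (0 : ℝ), (u : ℂ) * Complex.exp (-(s * u))) =
      (r : ℂ) / s := by
    rw [mul_left_comm, hv2]
    ring
  rw [mul_sub, mul_neg, hv1, e1, hid, mul_add, mul_sub, hdig]
  field_simp
  ring

theorem Exp_prim (f : ℝ → ℝ) (hf : ∀ T : ℝ, IntegrableOn f (Set.Icc 0 T)) :
    ContinuousOn (fun u => ∫ t in Set.Ioc 0 u, f t) (Set.Ici 0) := by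
  intro x hx
  have hx0 : (0 : ℝ) ≤ x := hx
  have h1 : ContinuousOn (fun u => ∫ t in Set.Ioc 0 u, f t) (Set.Icc 0 (x + 1)) :=
    intervalIntegral.continuousOn_primitive (hf (x + 1))
  have h2 := h1 x ⟨hx0, by linarith⟩
  refine h2.mono_of_mem_nhdsWithin ?_
  rw [mem_nhdsWithin]
  exact ⟨Set.Iio (x + 1), isOpen_Iio, Set.mem_Iio.2 (by linarith),
    fun y hy => ⟨hy.2, (Set.mem_Iio.1 hy.1).le⟩⟩

theorem Exp_int (f : ℝ → ℝ) (hf : ContinuousOn f (Set.Ici 0)) (C : ℝ)
    (hb : ∀ u : ℝ, 0 ≤ u → |f u| ≤ C * Real.exp u) (s : ℂ) (hs : 1 < s.re) :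
    IntegrableOn (fun u : ℝ => (f u : ℂ) * Complex.exp (-(s * u))) (Set.Ioi 0) := by
  have h1 := (integrableOn_exp_mul_Ioi (a := 1 - s.re) (by linarith) 0).const_mul C
  refine Integrable.mono' h1 ?_ ?_
  · refine ContinuousOn.aestronglyMeasurable ?_ measurableSet_Ioi
    refine ContinuousOn.mul ?_ (by fun_prop)
    exact Complex.continuous_ofReal.comp_continuousOn (hf.mono Set.Ioi_subset_Ici_self)
  · refine (ae_restrict_iff' measurableSet_Ioi).2 (Filter.Eventually.of_forall fun u hu => ?_)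
    have hu0 : (0 : ℝ) < u := hu
    rw [norm_mul, Ser_norm, Complex.norm_real, Real.norm_eq_abs]
    have h2 := hb u hu0.le
    have h3 : C * Real.exp ((1 - s.re) * u) =
        C * Real.exp u * Real.exp (-(s.re * u)) := by
      rw [mul_assoc, ← Real.exp_add]
      congr 2
      ring
    rw [h3]
    exact mul_le_mul_of_nonneg_right h2 (Real.exp_pos _).le

/-- The explicit formula.  `g u = ∫_0^u AF - Σ 2m/γ² (1 - cos γu) - c3 u + ∫_0^u om`,
`c3 = log (πκ) + γ_E`, is continuous, `|g u| ≤ C e^{3u/4}`, and for `Re s > 3/4` its transform times `s` is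
`∫ AF e^{-su} - Σ 2m/(s²+γ²) - c3/s + ∫ om e^{-su} = 0` (Fubini as in `W3283g.Ces_fub`, `AF_lap`,
`cos_lap`); `lap_unique` with `a = 3/4`. -/
theorem ef_fam (n j : ℕ) (hj : j = 0 ∨ j = 1) (hn : Odd n) (hs : Squarefree n)
    (hRH : ∀ s : ℂ, 0 < s.re → LLF n j (1 + s) ≠ 0) (r : ℕ)
    (hr : analyticOrderNatAt (fF' n j) 0 = r) : EF (gaF n j) (muF n j) (AF n j r) := by
  obtain ⟨hm, C, hC⟩ := AF_bd n j r
  have hZ := zd_fam n j hj hn hs hRH
  obtain ⟨hcosc, ⟨Cc, hCc⟩, hcosl⟩ := cos_lap (gaF n j) (muF n j) hZ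
  have hC0 : 0 ≤ C := by
    have h1 := hC 0 le_rfl
    rw [mul_zero, Real.exp_zero, mul_one] at h1
    exact (abs_nonneg _).trans h1
  have hCc0 : 0 ≤ Cc := (abs_nonneg _).trans (hCc 0)
  refine ⟨hm, ⟨C, hC⟩, ?_⟩
  obtain ⟨c3, hc3⟩ : ∃ c3 : ℝ, c3 = Real.log (Real.pi * kF n j) + Real.eulerMascheroniConstant :=
    ⟨_, rfl⟩
  refine ⟨c3, ?_⟩
  -- the four functions
  have hAint : ∀ T : ℝ, IntegrableOn (AF n j r) (Set.Icc 0 T) := by
    intro T
    refine Measure.integrableOn_of_bounded (M := C * Real.exp (3 / 4 * T)) (by simp)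
      hm.aestronglyMeasurable ?_
    refine (ae_restrict_iff' measurableSet_Icc).2 (Filter.Eventually.of_forall fun u hu => ?_)
    exact (hC u hu.1).trans (mul_le_mul_of_nonneg_left
      (Real.exp_le_exp.2 (by linarith [hu.2])) hC0)
  have hOint : ∀ T : ℝ, IntegrableOn om (Set.Icc 0 T) := by
    intro T
    rw [integrableOn_Icc_iff_integrableOn_Ioc]
    exact om_int.mono_set Set.Ioc_subset_Ioi_self
  have hcA : ContinuousOn (fun u => ∫ t in Set.Ioc 0 u, AF n j r t) (Set.Ici 0) :=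
    Exp_prim _ hAint
  have hcO : ContinuousOn (fun u => ∫ t in Set.Ioc 0 u, om t) (Set.Ici 0) :=
    Exp_prim _ hOint
  obtain ⟨W, hWdef⟩ : ∃ W : ℝ, W = ∫ t in Set.Ioi (0 : ℝ), om t := ⟨_, rfl⟩
  have hW0 : 0 ≤ W := by
    rw [hWdef]
    exact setIntegral_nonneg measurableSet_Ioi fun t ht => om_nonneg t ht
  have hbA : ∀ u : ℝ, 0 ≤ u → |∫ t in Set.Ioc 0 u, AF n j r t| ≤ 4 * C * Real.exp u := by
    intro u hu
    have h1 : ‖∫ t in Set.Ioc 0 u, AF n j r t‖ ≤ C * Real.exp (3 / 4 * u) * volume.real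
        (Set.Ioc 0 u) := by
      refine norm_setIntegral_le_of_norm_le_const (by simp) ?_
      intro t ht
      exact (hC t ht.1.le).trans (mul_le_mul_of_nonneg_left
        (Real.exp_le_exp.2 (by linarith [ht.2])) hC0)
    rw [Real.volume_real_Ioc_of_le hu, sub_zero, Real.norm_eq_abs] at h1
    have h2 : u ≤ 4 * Real.exp (1 / 4 * u) := by
      have := Real.add_one_le_exp (1 / 4 * u)
      linarith
    have h3 : Real.exp u = Real.exp (3 / 4 * u) * Real.exp (1 / 4 * u) := by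
      rw [← Real.exp_add]
      congr 1
      ring
    rw [h3]
    have h4 : C * Real.exp (3 / 4 * u) * u ≤ C * Real.exp (3 / 4 * u) *
        (4 * Real.exp (1 / 4 * u)) := mul_le_mul_of_nonneg_left h2 (by positivity)
    linarith
  have hbO : ∀ u : ℝ, 0 ≤ u → |∫ t in Set.Ioc 0 u, om t| ≤ W * Real.exp u := by
    intro u hu
    have h2 : 0 ≤ ∫ t in Set.Ioc 0 u, om t :=
      setIntegral_nonneg measurableSet_Ioc fun t ht => om_nonneg t ht.1
    have h3 : ∫ t in Set.Ioc 0 u, om t ≤ W := by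
      rw [hWdef]
      refine setIntegral_mono_set om_int ?_ ?_
      · exact (ae_restrict_iff' measurableSet_Ioi).2
          (Filter.Eventually.of_forall fun t ht => om_nonneg t ht)
      · exact Filter.Eventually.of_forall fun t ht => ht.1
    rw [abs_of_nonneg h2]
    have h4 : 1 ≤ Real.exp u := Real.one_le_exp hu
    nlinarith
  have hbc : ∀ u : ℝ, 0 ≤ u → |∑' i, 2 * muF n j i / (gaF n j i) ^ 2 *
      (1 - Real.cos (gaF n j i * u))| ≤ Cc * Real.exp u := by
    intro u hu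
    have h4 : 1 ≤ Real.exp u := Real.one_le_exp hu
    have h5 := hCc u
    nlinarith
  have hbl : ∀ u : ℝ, 0 ≤ u → |c3 * u| ≤ |c3| * Real.exp u := by
    intro u hu
    rw [abs_mul, abs_of_nonneg hu]
    have h4 := Real.add_one_le_exp u
    exact mul_le_mul_of_nonneg_left (by linarith) (abs_nonneg _)
  have key : ∀ u : ℝ, 0 ≤ u → (fun u : ℝ => (∫ t in Set.Ioc 0 u, AF n j r t) -
      (∑' i, 2 * muF n j i / (gaF n j i) ^ 2 * (1 - Real.cos (gaF n j i * u))) - c3 * u +
      ∫ t in Set.Ioc 0 u, om t) u = 0 := by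
    refine lap_unique _ ?_ 1 (4 * C + Cc + |c3| + W) ?_ ?_
    · exact (((hcA.sub hcosc.continuousOn).sub (by fun_prop)).add hcO)
    · intro u hu
      have h1 := hbA u hu
      have h2 := hbO u hu
      have h3 := hbc u hu
      have h4 := hbl u hu
      rw [abs_le] at h1 h2 h3 h4 ⊢
      rw [one_mul]
      constructor
      · linarith [h1.1, h2.1, h3.2, h4.2]
      · linarith [h1.2, h2.2, h3.1, h4.1]
    · intro s hs1
      have hs0 : 0 < s.re := by linarith
      have hsn : s ≠ 0 := by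
        rintro rfl
        simp at hs0
      have i1 := Exp_int _ hcA _ hbA s hs1
      have i2 := Exp_int _ (hcosc.continuousOn) _ hbc s hs1
      have i3 := Exp_int (fun u : ℝ => c3 * u) (by fun_prop) _ hbl s hs1
      have i4 := Exp_int _ hcO _ hbO s hs1
      have hfun : ∀ u : ℝ, (((∫ t in Set.Ioc 0 u, AF n j r t) -
          (∑' i, 2 * muF n j i / (gaF n j i) ^ 2 * (1 - Real.cos (gaF n j i * u))) - c3 * u +
          ∫ t in Set.Ioc 0 u, om t : ℝ) : ℂ) * Complex.exp (-(s * u)) =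
          ((∫ t in Set.Ioc 0 u, AF n j r t : ℝ) : ℂ) * Complex.exp (-(s * u)) -
          ((∑' i, 2 * muF n j i / (gaF n j i) ^ 2 * (1 - Real.cos (gaF n j i * u)) : ℝ) : ℂ) *
            Complex.exp (-(s * u)) - ((c3 * u : ℝ) : ℂ) * Complex.exp (-(s * u)) +
          ((∫ t in Set.Ioc 0 u, om t : ℝ) : ℂ) * Complex.exp (-(s * u)) := by
        intro u
        rw [Complex.ofReal_add, Complex.ofReal_sub, Complex.ofReal_sub]
        ring
      simp_rw [hfun]
      rw [Exp_split _ _ _ _ i1 i2 i3 i4]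
      have f1 := W3283g.Ces_fub (AF n j r) hm s hs0 (by
        have h1 := (integrableOn_exp_mul_Ioi (a := 3 / 4 - s.re) (by linarith) 0).const_mul C
        refine Integrable.mono' h1 (hm.mul (by fun_prop)).aestronglyMeasurable ?_
        refine (ae_restrict_iff' measurableSet_Ioi).2 (Filter.Eventually.of_forall fun u hu => ?_)
        have hu0 : (0 : ℝ) < u := hu
        rw [norm_mul, Real.norm_of_nonneg (Real.exp_pos _).le, Real.norm_eq_abs]
        have h2 := hC u hu0.le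
        have h3 : C * Real.exp ((3 / 4 - s.re) * u) =
            C * Real.exp (3 / 4 * u) * Real.exp (-(s.re * u)) := by
          rw [mul_assoc, ← Real.exp_add]
          congr 2
          ring
        rw [h3]
        exact mul_le_mul_of_nonneg_right h2 (Real.exp_pos _).le)
      have f4 := W3283g.Ces_fub om om_meas s hs0 (by
        refine Integrable.mono' om_int (om_meas.mul (by fun_prop)).aestronglyMeasurable ?_
        refine (ae_restrict_iff' measurableSet_Ioi).2 (Filter.Eventually.of_forall fun u hu => ?_)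
        have hu0 : (0 : ℝ) < u := hu
        rw [norm_mul, Real.norm_of_nonneg (Real.exp_pos _).le,
          Real.norm_of_nonneg (om_nonneg u hu0)]
        have h2 : Real.exp (-(s.re * u)) ≤ 1 := by
          rw [Real.exp_le_one_iff]
          have : 0 ≤ s.re * u := by positivity
          linarith
        have h3 := om_nonneg u hu0
        nlinarith)
      have f2 := hcosl s hs0
      have f3 : s * ∫ u in Set.Ioi (0 : ℝ), ((c3 * u : ℝ) : ℂ) * Complex.exp (-(s * u)) =
          (c3 : ℂ) / s := by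
        have h1 := (Exp_id s hs0).2
        have h2 : ∀ u : ℝ, ((c3 * u : ℝ) : ℂ) * Complex.exp (-(s * u)) =
            (c3 : ℂ) * ((u : ℂ) * Complex.exp (-(s * u))) := by
          intro u
          push_cast
          ring
        simp_rw [h2]
        rw [integral_const_mul, mul_left_comm, h1]
        ring
      have hlap := AF_lap n j hj hn hs hRH r hr s (by linarith)
      apply mul_left_cancel₀ hsn
      rw [mul_zero, mul_add, mul_sub, mul_sub, f1, f2, f3, f4, hlap, hc3]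
      push_cast
      ring
  intro u hu
  have h1 := key u hu
  simp only at h1
  linarith

end W3283l
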