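import Pool.Agent.W_MP_3283e1_h19.ET3

set_option autoImplicit false

namespace W3283l

open Complex Filter Topology

/-- The logarithmic derivative of an even function without zeros in a ball.  As in `even_slow`:
`u = exp l` on the ball of radius `R`, `l 0 = 0`, `Λ z = (l z + l (-z))/2` is even; `u` even gives
`exp (l z) = exp (l (-z))`, so `l z - l (-z)` is constant (`2πi ℤ`-valued and continuous), `0` at `0`,
and `l` itself is even.  `Re l ≤ a`, so `‖l z‖ ≤ 2a ‖z‖/(R-‖z‖)` (Borel-Caratheodory), `≤ 2a` for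
`‖z‖ ≤ R/2`; even and holomorphic, so `‖l z‖ ≤ 8 a ‖z‖²/R²` for `‖z‖ ≤ R/2` (Schwarz lemma of order two), and
Cauchy's estimate on the disc of radius `‖z‖` about `z` (contained in the ball of radius `2‖z‖ ≤ R/2`):
`‖l' z‖ ≤ 8a (2‖z‖)²/(R² ‖z‖) = 32 a ‖z‖/R²`.  And `u'/u = l'`. -/
theorem even_log (u : ℂ → ℂ) (hu : Differentiable ℂ u) (h0 : u 0 = 1) (hev : ∀ z, u (-z) = u z)
    (R a : ℝ) (hR : 0 < R) (ha : 0 < a) (hne : ∀ z, ‖z‖ < R → u z ≠ 0)
    (hb : ∀ z, ‖z‖ < R → ‖u z‖ ≤ Real.exp a) (z : ℂ) (hz : ‖z‖ < R / 4) :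
    ‖deriv u z / u z‖ ≤ 32 * a * ‖z‖ / R ^ 2 := by
  have hd : Differentiable ℂ (deriv u) := fun s => (hu.analyticAt s).deriv.differentiableAt
  have hg : DifferentiableOn ℂ (fun z => deriv u z / u z) (Metric.ball 0 R) := fun z hz =>
    ((hd z).div (hu z) (hne z (by simpa using hz))).differentiableWithinAt
  obtain ⟨l, hl0, hl⟩ := (hg.isExactOn_ball).with_val_at 0 0
  have hF : ∀ z ∈ Metric.ball (0 : ℂ) R,
      HasDerivAt (fun z => u z * Complex.exp (-l z)) 0 z := by
    intro z hz
    have hz0 : u z ≠ 0 := hne z (by simpa using hz)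
    have h1 := ((hu z).hasDerivAt).mul ((hl z hz).neg.cexp)
    have h2 : deriv u z * Complex.exp (-l z) +
        u z * (Complex.exp (-l z) * -(deriv u z / u z)) = 0 := by
      field_simp [hz0]
      ring
    exact h1.congr_deriv h2
  have h0m : (0 : ℂ) ∈ Metric.ball (0 : ℂ) R := Metric.mem_ball_self hR
  have hexp : ∀ z ∈ Metric.ball (0 : ℂ) R, u z = Complex.exp (l z) := by
    intro z hz
    have h1 := Metric.isOpen_ball.is_const_of_deriv_eq_zero
      (convex_ball (0 : ℂ) R).isPreconnected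
      (fun w hw => (hF w hw).differentiableAt.differentiableWithinAt)
      (fun w hw => (hF w hw).deriv) hz h0m
    simp only [h0, hl0, neg_zero, Complex.exp_zero, mul_one] at h1
    rw [Complex.exp_neg] at h1
    have h2 := Complex.exp_ne_zero (l z)
    field_simp at h1
    exact h1
  have hneg : ∀ w ∈ Metric.ball (0 : ℂ) R, -w ∈ Metric.ball (0 : ℂ) R := by
    intro w hw
    rw [mem_ball_zero_iff] at hw ⊢
    rwa [norm_neg]
  have hre : Set.MapsTo l (Metric.ball 0 R) {z | z.re ≤ a} := by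
    intro w hw
    show (l w).re ≤ a
    have h1 := hb w (by simpa using hw)
    rw [hexp w hw, Complex.norm_exp] at h1
    exact Real.exp_le_exp.1 h1
  have hld : DifferentiableOn ℂ l (Metric.ball 0 R) := fun w hw =>
    (hl w hw).differentiableAt.differentiableWithinAt
  have hbc : ∀ w : ℂ, ‖w‖ < R / 2 → ‖l w‖ ≤ 2 * a := by
    intro w hw
    have hwR : w ∈ Metric.ball (0 : ℂ) R := by
      rw [mem_ball_zero_iff]
      linarith
    have h1 := Complex.borelCaratheodory_zero ha hld hre hR hwR hl0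
    refine h1.trans ?_
    have h2 : 0 < R - ‖w‖ := by linarith
    rw [div_le_iff₀ h2]
    exact mul_le_mul_of_nonneg_left (by linarith) (by linarith)
  have hdev : ∀ w : ℂ, deriv u (-w) = -deriv u w := by
    intro w
    have h1 : HasDerivAt (fun w => u (-w)) (deriv u (-w) * (-1)) w :=
      ((hu (-w)).hasDerivAt).comp w (hasDerivAt_neg w)
    have h2 : (fun w => u (-w)) = u := funext hev
    rw [h2] at h1
    rw [h1.deriv]
    ring
  -- the logarithm is even
  have hodd : ∀ w ∈ Metric.ball (0 : ℂ) R,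
      HasDerivAt (fun w => l w - l (-w)) 0 w := by
    intro w hw
    have h1 := hl w hw
    have h2 : HasDerivAt (fun w => l (-w)) ((deriv u (-w) / u (-w)) * (-1)) w :=
      (hl (-w) (hneg w hw)).comp w (hasDerivAt_neg w)
    refine (h1.sub h2).congr_deriv ?_
    rw [hdev, hev]
    ring
  have hevl : ∀ w ∈ Metric.ball (0 : ℂ) R, l (-w) = l w := by
    intro w hw
    have h1 := Metric.isOpen_ball.is_const_of_deriv_eq_zero
      (convex_ball (0 : ℂ) R).isPreconnected
      (fun w hw => (hodd w hw).differentiableAt.differentiableWithinAt)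
      (fun w hw => (hodd w hw).deriv) hw h0m
    simp only [neg_zero, sub_self] at h1
    exact (sub_eq_zero.1 h1).symm
  have hhalf : ∀ w ∈ Metric.ball (0 : ℂ) (R / 2), w ∈ Metric.ball (0 : ℂ) R := by
    intro w hw
    rw [mem_ball_zero_iff] at hw ⊢
    linarith
  have hLd : DifferentiableOn ℂ l (Metric.ball 0 (R / 2)) := fun w hw =>
    (hl w (hhalf w hw)).differentiableAt.differentiableWithinAt
  have hLmaps : Set.MapsTo l (Metric.ball 0 (R / 2)) (Metric.closedBall (l 0) (2 * a)) := by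
    intro w hw
    rw [hl0, mem_closedBall_zero_iff]
    exact hbc w (by simpa using hw)
  have hdu0 : deriv u 0 = 0 := by
    have h1 := hdev 0
    rw [neg_zero] at h1
    have h2 : (2 : ℂ) * deriv u 0 = 0 := by linear_combination h1
    simpa using h2
  have hLo : (fun w => l w - l 0) =o[nhds (0 : ℂ)] (fun w => ‖w - 0‖ ^ 1) := by
    have h1 := (hl 0 h0m).isLittleO
    simp only [pow_one]
    refine Asymptotics.IsLittleO.norm_right ?_
    refine h1.congr_left ?_
    intro w
    rw [hdu0]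
    simp
  have hS : ∀ w : ℂ, ‖w‖ < R / 2 → ‖l w‖ ≤ 8 * a * ‖w‖ ^ 2 / R ^ 2 := by
    intro w hw
    have hwm : w ∈ Metric.ball (0 : ℂ) (R / 2) := by
      rw [mem_ball_zero_iff]
      exact hw
    have hS := Complex.dist_le_mul_div_pow_of_mapsTo_ball_of_isLittleO (n := 1) hLd hLmaps hLo hwm
    rw [hl0, dist_zero_right, dist_zero_right] at hS
    refine hS.trans (le_of_eq ?_)
    rw [div_div_eq_mul_div, div_pow, mul_pow]
    ring
  have hzm : z ∈ Metric.ball (0 : ℂ) R := by
    rw [mem_ball_zero_iff]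
    linarith
  rcases eq_or_ne z 0 with h0z | h0z
  · subst h0z
    rw [hdu0]
    simp
  have hzpos : 0 < ‖z‖ := norm_pos_iff.2 h0z
  have hcl : ∀ w ∈ Metric.closedBall z ‖z‖, ‖w‖ ≤ 2 * ‖z‖ := by
    intro w hw
    rw [mem_closedBall_iff_norm] at hw
    have h1 := norm_add_le (w - z) z
    rw [sub_add_cancel] at h1
    linarith
  have hdc : DiffContOnCl ℂ l (Metric.ball z ‖z‖) := by
    refine DifferentiableOn.diffContOnCl ?_
    rw [closure_ball z hzpos.ne']
    intro w hw
    have h1 := hcl w hw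
    have h2 : w ∈ Metric.ball (0 : ℂ) R := by
      rw [mem_ball_zero_iff]
      linarith
    exact (hl w h2).differentiableAt.differentiableWithinAt
  have hC : ∀ w ∈ Metric.sphere z ‖z‖, ‖l w‖ ≤ 8 * a * (2 * ‖z‖) ^ 2 / R ^ 2 := by
    intro w hw
    have h1 := hcl w (Metric.sphere_subset_closedBall hw)
    refine (hS w (by linarith)).trans ?_
    gcongr
  have hfin := Complex.norm_deriv_le_of_forall_mem_sphere_norm_le hzpos hdc hC
  rw [(hl z hzm).deriv] at hfin
  refine hfin.trans (le_of_eq ?_)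
  field_simp
  ring

end W3283l
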