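import Pool.Agent.W_MP_3283e1_h19.ET4
import Pool.Agent.W_3283e1_lw.Hev

set_option autoImplicit false

namespace W3283l

open Complex W3283f Filter Topology

/-- The positive ordinates of the zeros on the imaginary axis. -/
abbrev ZI (f : ℂ → ℂ) : Type := {γ : ℝ // 0 < γ ∧ f (γ * I) = 0}

/-- The zeros in a bounded part of the axis are finitely many (isolated zeros, compactness). -/
theorem zi_finite (f : ℂ → ℂ) (hf : Differentiable ℂ f) (hne : ∃ z, f z ≠ 0) (R : ℝ) :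
    {i : ZI f | (i : ℝ) < R}.Finite := by
  by_contra hinf
  have hinf' : {i : ZI f | (i : ℝ) < R}.Infinite := hinf
  have hinj : Set.InjOn (fun i : ZI f => ((i : ℝ) : ℂ) * I) {i : ZI f | (i : ℝ) < R} := by
    intro i _ j _ hij
    have h1 : ((i : ℝ) : ℂ) = ((j : ℝ) : ℂ) := mul_right_cancel₀ I_ne_zero hij
    exact Subtype.ext (by exact_mod_cast h1)
  have h2 := hinf'.image hinj
  obtain ⟨x, -, hx⟩ := h2.exists_accPt_of_subset_isCompact
    (isCompact_closedBall (0 : ℂ) R) (by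
      rintro z ⟨i, hi, rfl⟩
      have hi' : (i : ℝ) < R := hi
      rw [mem_closedBall_zero_iff, norm_mul, norm_I, mul_one, norm_real, Real.norm_eq_abs,
        abs_of_pos i.2.1]
      exact hi'.le)
  rw [accPt_iff_frequently_nhdsNE] at hx
  obtain ⟨z, hz⟩ := hne
  have hA : AnalyticOnNhd ℂ f Set.univ := fun w _ => hf.analyticAt w
  have h3 := hA.eqOn_zero_of_preconnected_of_frequently_eq_zero isPreconnected_univ
    (Set.mem_univ x) (hx.mono (by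
      rintro y ⟨i, -, rfl⟩
      exact i.2.2))
  exact hz (h3 (Set.mem_univ z))

/-- One radius; compare `exp_type_R` (module `ET4` of W_MP_3283e1_h19), whose beginning gives (without
`hcount`, with `zi_finite` in place of `et4_finite`): for `R ≥ 1` and `Γ` the set of the `γ < R`,
`f s = s^{n0} ∏ (s²+γ²)^{mγ} h s`, `h` even without zeros in `‖s‖ < R`, `u = h/h(0)`,
`‖u‖ ≤ exp (C (1+2R)^{3/2} + a0)` on `‖s‖ ≤ 2R`, `a0` independent of `R`.  Then
`f'/f(s) = n0/s + Σ 2 m s/(s²+γ²) + u'/u(s)` and `even_log`. -/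
theorem had_R (f : ℂ → ℂ) (hf : Differentiable ℂ f) (hne : ∃ z, f z ≠ 0) (ε : ℂ)
    (hε : ε = 1 ∨ ε = -1) (hsym : ∀ s, f (-s) = ε * f s) (C : ℝ) (hC : 0 < C)
    (hgr : ∀ s, ‖f s‖ ≤ Real.exp (C * (1 + ‖s‖) ^ (3 / 2 : ℝ)))
    (hre : ∀ s, f s = 0 → s.re = 0) :
    ∃ a0 : ℝ, 0 < a0 ∧ ∀ (R : ℝ) (Γ : Finset (ZI f)), 1 ≤ R → (∀ i : ZI f, i ∈ Γ ↔ (i : ℝ) < R) →
      ∀ s : ℂ, 0 < s.re → ‖s‖ < R / 4 →
        ‖deriv f s / f s - (analyticOrderNatAt f 0 : ℂ) / s -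
          ∑ i ∈ Γ, 2 * (analyticOrderNatAt f ((i : ℝ) * I) : ℂ) * s / (s ^ 2 + ((i : ℝ) : ℂ) ^ 2)‖ ≤
            32 * (C * (1 + 2 * R) ^ (3 / 2 : ℝ) + a0) * ‖s‖ / R ^ 2 := by
  classical
  obtain ⟨g, hg, hfg, hg0, -⟩ := et2_single f hf hne 0
  set n0 := analyticOrderNatAt f 0 with hn0
  have hc0 : 0 < ‖g 0‖ := norm_pos_iff.2 hg0
  refine ⟨|Real.log ‖g 0‖| + 1, by positivity, ?_⟩
  intro R Γ₀ hR hΓ₀ s hsre hs
  have hR0 : 0 < R := by linarith
  set Γ : Finset ℝ := Γ₀.map ⟨Subtype.val, Subtype.val_injective⟩ with hΓdef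
  have hΓ : ∀ γ, γ ∈ Γ ↔ 0 < γ ∧ γ < R ∧ f (γ * I) = 0 := by
    intro γ
    rw [hΓdef, Finset.mem_map]
    constructor
    · rintro ⟨i, hi, rfl⟩
      exact ⟨i.2.1, (hΓ₀ i).1 hi, i.2.2⟩
    · rintro ⟨h1, h2, h3⟩
      exact ⟨⟨γ, h1, h3⟩, (hΓ₀ _).2 h2, rfl⟩
  have hpos : ∀ γ ∈ Γ, 0 < γ := fun γ hγ => ((hΓ γ).1 hγ).1
  obtain ⟨h, hd, hfh, h0, hΓh⟩ := divide f hf hne Γ hpos
    (fun γ => order_symm f hf ε hε hsym (γ * I))
  rw [← hn0] at hfh
  set m : ℝ → ℕ := fun γ => analyticOrderNatAt f (γ * I) with hm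
  have heven : ∀ s, h (-s) = h s :=
    et4_even f ε hsym Γ hpos n0 m h hd hfh h0
  -- the value at the centre
  have hg0h : g 0 = (∏ γ ∈ Γ, ((γ : ℂ) ^ 2) ^ m γ) * h 0 := by
    have hPc : Continuous (fun s : ℂ => (∏ γ ∈ Γ, (s ^ 2 + (γ : ℂ) ^ 2) ^ m γ) * h s) := by
      have := hd.continuous
      fun_prop
    have e1 : Filter.Tendsto g (nhdsWithin 0 {0}ᶜ) (nhds (g 0)) :=
      (hg.continuous.tendsto 0).mono_left nhdsWithin_le_nhds
    have e2 : Filter.Tendsto (fun s : ℂ => (∏ γ ∈ Γ, (s ^ 2 + (γ : ℂ) ^ 2) ^ m γ) * h s)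
        (nhdsWithin 0 {0}ᶜ) (nhds ((∏ γ ∈ Γ, ((0 : ℂ) ^ 2 + (γ : ℂ) ^ 2) ^ m γ) * h 0)) :=
      (hPc.tendsto 0).mono_left nhdsWithin_le_nhds
    have e3 : g =ᶠ[nhdsWithin 0 {0}ᶜ]
        fun s : ℂ => (∏ γ ∈ Γ, (s ^ 2 + (γ : ℂ) ^ 2) ^ m γ) * h s := by
      filter_upwards [self_mem_nhdsWithin] with w hw
      have hw' : w ≠ 0 := hw
      have h1 := hfg w
      rw [hfh w, sub_zero, mul_assoc] at h1
      exact (mul_left_cancel₀ (pow_ne_zero _ hw') h1).symm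
    have e4 := tendsto_nhds_unique (e1.congr' e3) e2
    rw [e4]
    simp
  -- norms
  set Q : ℝ := ∏ γ ∈ Γ, (γ ^ 2) ^ m γ with hQ
  have hQpos : 0 < Q := Finset.prod_pos fun γ hγ => by
    have := hpos γ hγ
    positivity
  have hQn : ‖∏ γ ∈ Γ, ((γ : ℂ) ^ 2) ^ m γ‖ = Q := by
    rw [norm_prod, hQ]
    refine Finset.prod_congr rfl fun γ _ => ?_
    rw [norm_pow, norm_pow, Complex.norm_real, Real.norm_eq_abs, sq_abs]
  have hg0n : ‖g 0‖ = Q * ‖h 0‖ := by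
    rw [hg0h, norm_mul, hQn]
  -- `h` does not vanish in the ball
  have hnz : ∀ z : ℂ, ‖z‖ < R → h z ≠ 0 := by
    intro z hz hz0
    have hfz : f z = 0 := by rw [hfh, hz0, mul_zero]
    have hzre := hre z hfz
    have hzI : z = (z.im : ℂ) * I := by
      apply Complex.ext
      · simp [hzre]
      · simp
    have hzn : |z.im| < R := by
      have := Complex.abs_im_le_norm z
      linarith
    rcases lt_trichotomy z.im 0 with hi | hi | hi
    · have h1 : f ((-z.im : ℝ) * I) = 0 := by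
        have h2 : ((-z.im : ℝ) : ℂ) * I = -z := by
          push_cast
          rw [neg_mul, ← hzI]
        rw [h2, hsym, hfz, mul_zero]
      have h3 : (-z.im) ∈ Γ := (hΓ _).2 ⟨by linarith, by
        rw [abs_of_neg hi] at hzn
        exact hzn, h1⟩
      apply (hΓh _ h3).2
      have h4 : -(((-z.im : ℝ) : ℂ) * I) = z := by
        push_cast
        rw [neg_mul, neg_neg, ← hzI]
      rw [h4]
      exact hz0
    · apply h0
      have h4 : z = 0 := by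
        rw [hzI, hi]
        simp
      rw [h4] at hz0
      exact hz0
    · have h3 : z.im ∈ Γ := (hΓ _).2 ⟨hi, by
        rw [abs_of_pos hi] at hzn
        exact hzn, by rw [← hzI]; exact hfz⟩
      apply (hΓh _ h3).1
      rw [← hzI]
      exact hz0
  -- the bound of `h` on the circle of radius `2 R`
  set a : ℝ := C * (1 + 2 * R) ^ (3 / 2 : ℝ) + (|Real.log ‖g 0‖| + 1) with ha
  have hapos : 0 < a := by
    have : 0 < (1 + 2 * R) ^ (3 / 2 : ℝ) := Real.rpow_pos_of_pos (by linarith) _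
    have h2 := abs_nonneg (Real.log ‖g 0‖)
    have h3 := mul_pos hC this
    linarith
  have hcirc : ∀ z : ℂ, ‖z‖ = 2 * R → ‖h z / h 0‖ ≤ Real.exp a := by
    intro z hz
    have h1 : 1 ≤ ‖z‖ ^ n0 := one_le_pow₀ (by rw [hz]; linarith)
    have h2 : Q ≤ ‖∏ γ ∈ Γ, (z ^ 2 + (γ : ℂ) ^ 2) ^ m γ‖ := by
      rw [norm_prod, hQ]
      refine Finset.prod_le_prod (fun γ _ => by positivity) fun γ hγ => ?_
      rw [norm_pow]
      refine pow_le_pow_left₀ (by positivity) ?_ _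
      have h3 := ((hΓ γ).1 hγ).2.1
      have h4 := hpos γ hγ
      have h5 : ‖z ^ 2‖ - ‖(γ : ℂ) ^ 2‖ ≤ ‖z ^ 2 + (γ : ℂ) ^ 2‖ := by
        have := norm_sub_norm_le (z ^ 2) (-(γ : ℂ) ^ 2)
        rw [norm_neg, sub_neg_eq_add] at this
        exact this
      rw [norm_pow, norm_pow, Complex.norm_real, Real.norm_eq_abs, sq_abs, hz] at h5
      nlinarith
    have h3 : ‖f z‖ = ‖z‖ ^ n0 * ‖∏ γ ∈ Γ, (z ^ 2 + (γ : ℂ) ^ 2) ^ m γ‖ * ‖h z‖ := by
      rw [hfh z, norm_mul, norm_mul, norm_pow]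
    have h4 : Q * ‖h z‖ ≤ ‖f z‖ := by
      rw [h3]
      refine mul_le_mul_of_nonneg_right ?_ (norm_nonneg _)
      calc Q = 1 * Q := (one_mul _).symm
        _ ≤ _ := mul_le_mul h1 h2 hQpos.le (by positivity)
    have h5 := hgr z
    rw [hz] at h5
    have h6 : Real.exp (C * (1 + 2 * R) ^ (3 / 2 : ℝ)) ≤ ‖g 0‖ * Real.exp a := by
      have h7 : ‖g 0‖ = Real.exp (Real.log ‖g 0‖) := (Real.exp_log hc0).symm
      have h8 : ‖g 0‖ * Real.exp a = Real.exp (Real.log ‖g 0‖ + a) := by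
        rw [Real.exp_add (Real.log ‖g 0‖) a, ← h7]
      rw [h8]
      refine Real.exp_le_exp.2 ?_
      have := neg_abs_le (Real.log ‖g 0‖)
      rw [ha]
      linarith
    have h7 : Q * ‖h z‖ ≤ (Q * ‖h 0‖) * Real.exp a := by
      rw [← hg0n]
      exact h4.trans (h5.trans h6)
    have h8 : ‖h z‖ ≤ ‖h 0‖ * Real.exp a := by
      rw [mul_assoc] at h7
      exact le_of_mul_le_mul_left h7 hQpos
    rw [norm_div, div_le_iff₀ (norm_pos_iff.2 h0), mul_comm (Real.exp a)]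
    exact h8
  have hud : Differentiable ℂ (fun z => h z / h 0) := hd.div_const _
  have hball : ∀ z : ℂ, ‖z‖ < R → ‖h z / h 0‖ ≤ Real.exp a := by
    intro z hz
    exact et4_max _ hud (2 * R) _ (by linarith) hcirc z (by linarith)
  have hlog := even_log (fun z => h z / h 0) hud (div_self h0)
    (fun z => by simp only [heven]) R a hR0 hapos
    (fun z hz => div_ne_zero (hnz z hz) h0) hball s hs
  -- logarithmic derivatives
  have hs0 : s ≠ 0 := by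
    rintro rfl
    simp at hsre
  have hquad : ∀ γ : ℝ, 0 < γ → s ^ 2 + (γ : ℂ) ^ 2 ≠ 0 := by
    intro γ hγ hq
    have h1 : (s - γ * I) * (s + γ * I) = 0 := by
      have : (s - γ * I) * (s + γ * I) = s ^ 2 + (γ : ℂ) ^ 2 := by
        linear_combination (-(γ : ℂ) ^ 2) * I_sq
      rw [this, hq]
    rcases mul_eq_zero.1 h1 with h2 | h2
    · have h3 := congrArg Complex.re h2
      simp at h3
      linarith
    · have h3 := congrArg Complex.re h2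
      simp at h3
      linarith
  have hhs : h s ≠ 0 := hnz s (by linarith [norm_nonneg s])
  have e1 : logDeriv (fun z => h z / h 0) s = logDeriv h s := by
    have : (fun z => h z / h 0) = fun z => h z * (h 0)⁻¹ := by
      funext z
      rw [div_eq_mul_inv]
    rw [this]
    exact logDeriv_mul_const s _ (inv_ne_zero h0)
  have e2 : logDeriv f s = (n0 : ℂ) / s +
      ∑ γ ∈ Γ, 2 * (m γ : ℂ) * s / (s ^ 2 + (γ : ℂ) ^ 2) + logDeriv h s := by
    have hf' : f = fun s => s ^ n0 * (∏ γ ∈ Γ, (s ^ 2 + (γ : ℂ) ^ 2) ^ m γ) * h s :=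
      funext hfh
    have hP : (∏ γ ∈ Γ, (s ^ 2 + (γ : ℂ) ^ 2) ^ m γ) ≠ 0 :=
      Finset.prod_ne_zero_iff.2 fun γ hγ => pow_ne_zero _ (hquad γ (hpos γ hγ))
    rw [hf', logDeriv_mul (f := fun s => s ^ n0 * (∏ γ ∈ Γ, (s ^ 2 + (γ : ℂ) ^ 2) ^ m γ)) (g := h)
      s (mul_ne_zero (pow_ne_zero _ hs0) hP) hhs (by fun_prop)
      (hd.differentiableAt), logDeriv_mul (f := fun s => s ^ n0)
      (g := fun s => ∏ γ ∈ Γ, (s ^ 2 + (γ : ℂ) ^ 2) ^ m γ) s (pow_ne_zero _ hs0) hP (by fun_prop)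
      (by fun_prop), logDeriv_pow, logDeriv_prod (f := fun (γ : ℝ) (s : ℂ) => (s ^ 2 + (γ : ℂ) ^ 2) ^ m γ)
        (fun γ hγ => pow_ne_zero _ (hquad γ (hpos γ hγ)))
        (fun γ _ => by fun_prop)]
    congr 2
    refine Finset.sum_congr rfl fun γ _ => ?_
    rw [logDeriv_fun_pow (by fun_prop), logDeriv_apply]
    have : deriv (fun s : ℂ => s ^ 2 + (γ : ℂ) ^ 2) s = 2 * s := by
      rw [deriv_add_const, deriv_pow_field]
      norm_num
    rw [this]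
    ring
  have e3 : (∑ i ∈ Γ₀, 2 * (analyticOrderNatAt f ((i : ℝ) * I) : ℂ) * s /
      (s ^ 2 + ((i : ℝ) : ℂ) ^ 2)) = ∑ γ ∈ Γ, 2 * (m γ : ℂ) * s / (s ^ 2 + (γ : ℂ) ^ 2) := by
    rw [hΓdef, Finset.sum_map]
    rfl
  rw [e3, ← logDeriv_apply, e2]
  have e4 : (n0 : ℂ) / s + ∑ γ ∈ Γ, 2 * (m γ : ℂ) * s / (s ^ 2 + (γ : ℂ) ^ 2) + logDeriv h s -
      (n0 : ℂ) / s - ∑ γ ∈ Γ, 2 * (m γ : ℂ) * s / (s ^ 2 + (γ : ℂ) ^ 2) = logDeriv h s := by
    ring
  rw [e4, ← e1, logDeriv_apply]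
  exact hlog

/-- The multiplicities are positive at the zeros. -/
theorem zi_one (f : ℂ → ℂ) (hf : Differentiable ℂ f) (hne : ∃ z, f z ≠ 0) (i : ZI f) :
    (1 : ℝ) ≤ analyticOrderNatAt f ((i : ℝ) * I) := by
  have h3 : f ((i : ℝ) * I) = 0 := i.2.2
  have h4 := et2_ne_top f hf hne ((i : ℝ) * I)
  have h5 : analyticOrderAt f ((i : ℝ) * I) ≠ 0 := by
    intro h6
    exact ((hf.analyticAt _).analyticOrderAt_eq_zero.1 h6) h3
  have h7 : analyticOrderNatAt f ((i : ℝ) * I) ≠ 0 := by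
    unfold analyticOrderNatAt
    intro h8
    rw [ENat.toNat_eq_zero] at h8
    exact h8.elim h5 h4
  exact_mod_cast Nat.one_le_iff_ne_zero.2 h7

/-- The Hadamard product in terms of logarithmic derivatives: let `R → ∞` in `had_R`
(`(1+2R)^{3/2}/R² → 0`).  At `s = 1` the terms are nonnegative and their sums over the `γ < R` are
bounded, so `Σ m/(1+γ²) < ∞`, hence `Σ m/γ² < ∞` (finitely many `γ ≤ 1`, `zi_finite`).  For `Re s > 0` the series
converges absolutely (`‖s²+γ²‖ ≥ γ²/2` for large `γ`) and its sum is the limit of the sums over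
`γ < R`. -/
theorem had (f : ℂ → ℂ) (hf : Differentiable ℂ f) (hne : ∃ z, f z ≠ 0) (ε : ℂ)
    (hε : ε = 1 ∨ ε = -1) (hsym : ∀ s, f (-s) = ε * f s) (C : ℝ)
    (hgr : ∀ s, ‖f s‖ ≤ Real.exp (C * (1 + ‖s‖) ^ (3 / 2 : ℝ)))
    (hre : ∀ s, f s = 0 → s.re = 0) :
    Summable (fun i : ZI f => (analyticOrderNatAt f ((i : ℝ) * I) : ℝ) / (i : ℝ) ^ 2) ∧
    ∀ s : ℂ, 0 < s.re →
      Summable (fun i : ZI f =>
        2 * (analyticOrderNatAt f ((i : ℝ) * I) : ℂ) * s / (s ^ 2 + ((i : ℝ) : ℂ) ^ 2)) ∧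
      deriv f s / f s = (analyticOrderNatAt f 0 : ℂ) / s +
        ∑' i : ZI f, 2 * (analyticOrderNatAt f ((i : ℝ) * I) : ℂ) * s / (s ^ 2 + ((i : ℝ) : ℂ) ^ 2) := by
  classical
  obtain ⟨a0, ha0, hbd⟩ := had_R f hf hne ε hε hsym (max C 1)
    (lt_of_lt_of_le one_pos (le_max_right _ _)) (fun s => (hgr s).trans (Real.exp_le_exp.2
      (mul_le_mul_of_nonneg_right (le_max_left _ _) (by positivity)))) hre
  set C1 := max C 1 with hC1
  have hC1p : 0 < C1 := lt_of_lt_of_le one_pos (le_max_right _ _)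
  set n0 := analyticOrderNatAt f 0 with hn0
  set m : ZI f → ℕ := fun i => analyticOrderNatAt f ((i : ℝ) * I) with hm
  -- the error tends to zero
  have herr : ∀ s : ℂ, Filter.Tendsto (fun R : ℝ => 32 * (C1 * (1 + 2 * R) ^ (3 / 2 : ℝ) + a0) *
      ‖s‖ / R ^ 2) Filter.atTop (nhds 0) := by
    intro s
    have hup : Filter.Tendsto (fun R : ℝ => 32 * (C1 * (3 : ℝ) ^ (3 / 2 : ℝ) *
        R ^ (-(1 / 2 : ℝ)) + a0 * R ^ (-(2 : ℝ))) * ‖s‖) Filter.atTop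
        (nhds (32 * (C1 * (3 : ℝ) ^ (3 / 2 : ℝ) * 0 + a0 * 0) * ‖s‖)) := by
      refine Filter.Tendsto.mul_const _ (Filter.Tendsto.const_mul _ (Filter.Tendsto.add ?_ ?_))
      · exact (tendsto_rpow_neg_atTop (by norm_num)).const_mul _
      · exact (tendsto_rpow_neg_atTop (by norm_num)).const_mul _
    have hup0 : (32 * (C1 * (3 : ℝ) ^ (3 / 2 : ℝ) * 0 + a0 * 0) * ‖s‖) = 0 := by ring
    rw [hup0] at hup
    refine tendsto_of_tendsto_of_tendsto_of_le_of_le' tendsto_const_nhds hup ?_ ?_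
    · filter_upwards [Filter.eventually_ge_atTop (1 : ℝ)] with R hR
      have h2 : 0 ≤ (1 + 2 * R) ^ (3 / 2 : ℝ) := Real.rpow_nonneg (by linarith) _
      positivity
    · filter_upwards [Filter.eventually_ge_atTop (1 : ℝ)] with R hR
      have hR0 : 0 < R := by linarith
      have h2 : (1 + 2 * R) ^ (3 / 2 : ℝ) ≤ (3 : ℝ) ^ (3 / 2 : ℝ) * R ^ (3 / 2 : ℝ) := by
        rw [← Real.mul_rpow (by norm_num) hR0.le]
        exact Real.rpow_le_rpow (by linarith) (by linarith) (by norm_num)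
      have h3 : R ^ (3 / 2 : ℝ) / R ^ 2 = R ^ (-(1 / 2 : ℝ)) := by
        rw [← Real.rpow_natCast R 2, ← Real.rpow_sub hR0]
        norm_num
      have h4 : 1 / R ^ 2 = R ^ (-(2 : ℝ)) := by
        rw [Real.rpow_neg hR0.le, one_div]
        norm_cast
      have h5 : 32 * (C1 * (1 + 2 * R) ^ (3 / 2 : ℝ) + a0) * ‖s‖ / R ^ 2 ≤
          32 * (C1 * ((3 : ℝ) ^ (3 / 2 : ℝ) * R ^ (3 / 2 : ℝ)) + a0) * ‖s‖ / R ^ 2 := by
        gcongr
      refine h5.trans (le_of_eq ?_)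
      rw [← h3, ← h4]
      ring
  -- the finite sets
  set G : ℝ → Finset (ZI f) := fun R => (zi_finite f hf hne R).toFinset with hG
  have hGm : ∀ (R : ℝ) (i : ZI f), i ∈ G R ↔ (i : ℝ) < R := by
    intro R i
    rw [hG, Set.Finite.mem_toFinset]
    rfl
  have hGmono : Monotone G := by
    intro R R' hRR i hi
    rw [hGm] at hi ⊢
    linarith
  have hGtop : Filter.Tendsto G Filter.atTop Filter.atTop :=
    Filter.tendsto_atTop_finset_of_monotone hGmono fun i => ⟨(i : ℝ) + 1, (hGm _ _).2 (by linarith)⟩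
  -- the limit of the partial sums
  have hpart : ∀ s : ℂ, 0 < s.re → Filter.Tendsto (fun R : ℝ => ∑ i ∈ G R,
      2 * (m i : ℂ) * s / (s ^ 2 + ((i : ℝ) : ℂ) ^ 2)) Filter.atTop
      (nhds (deriv f s / f s - (n0 : ℂ) / s)) := by
    intro s hs
    rw [tendsto_iff_norm_sub_tendsto_zero]
    refine squeeze_zero' (Filter.Eventually.of_forall fun R => norm_nonneg _) ?_ (herr s)
    filter_upwards [Filter.eventually_ge_atTop (1 : ℝ),
      Filter.eventually_gt_atTop (4 * ‖s‖)] with R hR hR2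
    rw [← norm_neg, neg_sub]
    exact hbd R (G R) hR (hGm R) s hs (by linarith)
  -- summability at `s = 1`
  have h1 : Summable fun i : ZI f => 2 * (m i : ℝ) / (1 + (i : ℝ) ^ 2) := by
    have hp := (hpart 1 (by simp)).norm
    obtain ⟨M, hM⟩ : ∃ M : ℝ, ∀ᶠ R : ℝ in Filter.atTop, ‖∑ i ∈ G R,
        2 * (m i : ℂ) * 1 / ((1 : ℂ) ^ 2 + ((i : ℝ) : ℂ) ^ 2)‖ ≤ M :=
      ⟨_, hp.eventually_le_const (lt_add_one _)⟩
    refine summable_of_sum_le (c := M) (fun i => by positivity) fun u => ?_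
    have hu : ∀ᶠ R in Filter.atTop, u ≤ G R := hGtop.eventually_ge_atTop u
    obtain ⟨R, hR1, hR2⟩ := (hM.and hu).exists
    have h2 : ∑ i ∈ u, 2 * (m i : ℝ) / (1 + (i : ℝ) ^ 2) ≤
        ∑ i ∈ G R, 2 * (m i : ℝ) / (1 + (i : ℝ) ^ 2) :=
      Finset.sum_le_sum_of_subset_of_nonneg hR2 fun i _ _ => by positivity
    have h3 : (∑ i ∈ G R, 2 * (m i : ℂ) * 1 / ((1 : ℂ) ^ 2 + ((i : ℝ) : ℂ) ^ 2)) =
        ((∑ i ∈ G R, 2 * (m i : ℝ) / (1 + (i : ℝ) ^ 2) : ℝ) : ℂ) := by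
      push_cast
      refine Finset.sum_congr rfl fun i _ => ?_
      rw [mul_one, one_pow]
    rw [h3, norm_real] at hR1
    exact h2.trans ((le_abs_self _).trans hR1)
  have h2 : Summable (fun i : ZI f => (m i : ℝ) / (i : ℝ) ^ 2) := by
    refine h1.of_norm_bounded_eventually ?_
    have hfin : {i : ZI f | (i : ℝ) < 1}ᶜ ∈ (Filter.cofinite : Filter (ZI f)) :=
      (zi_finite f hf hne 1).compl_mem_cofinite
    filter_upwards [hfin] with i hi
    have hi' : 1 ≤ (i : ℝ) := not_lt.1 hi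
    have hi2 : 1 ≤ (i : ℝ) ^ 2 := one_le_pow₀ hi'
    rw [Real.norm_of_nonneg (by positivity), div_le_div_iff₀ (by positivity) (by positivity)]
    have hm0 : (0 : ℝ) ≤ m i := Nat.cast_nonneg _
    nlinarith
  refine ⟨h2, fun s hs => ?_⟩
  have h3 : Summable (fun i : ZI f => 2 * (m i : ℂ) * s / (s ^ 2 + ((i : ℝ) : ℂ) ^ 2)) := by
    refine (h2.mul_left (4 * ‖s‖)).of_norm_bounded_eventually ?_
    have hfin : {i : ZI f | (i : ℝ) < 2 * ‖s‖}ᶜ ∈ (Filter.cofinite : Filter (ZI f)) :=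
      (zi_finite f hf hne (2 * ‖s‖)).compl_mem_cofinite
    filter_upwards [hfin] with i hi
    have hi' : 2 * ‖s‖ ≤ (i : ℝ) := not_lt.1 hi
    have hipos : 0 < (i : ℝ) := i.2.1
    have hs0 : 0 ≤ ‖s‖ := norm_nonneg s
    have h5 : ‖((i : ℝ) : ℂ) ^ 2‖ - ‖s ^ 2‖ ≤ ‖s ^ 2 + ((i : ℝ) : ℂ) ^ 2‖ := by
      have := norm_sub_norm_le (((i : ℝ) : ℂ) ^ 2) (-s ^ 2)
      rw [norm_neg, sub_neg_eq_add, add_comm] at this
      exact this
    rw [norm_pow, norm_pow, norm_real, Real.norm_eq_abs, sq_abs] at h5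
    have h6 : (i : ℝ) ^ 2 / 2 ≤ ‖s ^ 2 + ((i : ℝ) : ℂ) ^ 2‖ := by nlinarith
    have h7 : 0 < (i : ℝ) ^ 2 / 2 := by positivity
    rw [norm_div, norm_mul, norm_mul, norm_natCast, RCLike.norm_ofNat]
    calc 2 * (m i : ℝ) * ‖s‖ / ‖s ^ 2 + ((i : ℝ) : ℂ) ^ 2‖
        ≤ 2 * (m i : ℝ) * ‖s‖ / ((i : ℝ) ^ 2 / 2) := by gcongr
      _ = 4 * ‖s‖ * ((m i : ℝ) / (i : ℝ) ^ 2) := by
          field_simp
          ring
  refine ⟨h3, ?_⟩
  have h4 := h3.hasSum.comp hGtop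
  have h5 := tendsto_nhds_unique h4 (hpart s hs)
  rw [h5]
  ring

end W3283l
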