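import Pool.Agent.W_3283e1_lw.ArD
import Pool.Agent.W_3283e1_lw.Had
import Pool.Agent.W_3283e1_lw.Dig
import Pool.Agent.W_3283e1_lw.Defs

set_option autoImplicit false

namespace W3283l

open Complex W3283e1 W3283f MeasureTheory Filter Topology

/-- The completed L-function of the family. -/
noncomputable def fF' (n j : ℕ) : ℂ → ℂ := LamG (aFam n j) (kF n j)

/-- The ordinates of its zeros on the positive imaginary axis and the multiplicities. -/
noncomputable def gaF (n j : ℕ) (i : ZI (fF' n j)) : ℝ := (i : ℝ)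

noncomputable def muF (n j : ℕ) (i : ZI (fF' n j)) : ℝ := analyticOrderNatAt (fF' n j) ((i : ℝ) * I)

theorem Fam_order (f : ℂ → ℂ) (hf : AnalyticAt ℂ f 0) (r : ℕ) (l : ℂ) (hl : l ≠ 0)
    (h : Tendsto (fun s : ℂ => f s / s ^ r) (𝓝[≠] 0) (𝓝 l)) : analyticOrderNatAt f 0 = r := by
  have hself : ∀ᶠ s : ℂ in 𝓝[≠] 0, s ≠ 0 := self_mem_nhdsWithin
  have hpow : ∀ m : ℕ, m ≠ 0 → Tendsto (fun s : ℂ => s ^ m) (𝓝[≠] 0) (𝓝 0) := by
    intro m hm
    have h1 : Tendsto (fun s : ℂ => s ^ m) (𝓝 0) (𝓝 (0 ^ m)) := (continuous_pow m).tendsto 0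
    rw [zero_pow hm] at h1
    exact h1.mono_left nhdsWithin_le_nhds
  have htop : analyticOrderAt f 0 ≠ ⊤ := by
    intro h0
    rw [analyticOrderAt_eq_top] at h0
    have h1 : Tendsto (fun s : ℂ => f s / s ^ r) (𝓝[≠] 0) (𝓝 0) := by
      refine Tendsto.congr' ?_ tendsto_const_nhds
      filter_upwards [h0.filter_mono nhdsWithin_le_nhds] with s hs
      rw [hs, zero_div]
    exact hl (tendsto_nhds_unique h h1)
  obtain ⟨g, hg, hg0, hfg⟩ := hf.analyticOrderAt_ne_top.1 htop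
  set k := analyticOrderNatAt f 0 with hk
  have hgt : Tendsto g (𝓝[≠] 0) (𝓝 (g 0)) := hg.continuousAt.tendsto.mono_left nhdsWithin_le_nhds
  have hfg' : ∀ᶠ s : ℂ in 𝓝[≠] 0, f s = s ^ k * g s := by
    filter_upwards [hfg.filter_mono nhdsWithin_le_nhds] with s hs
    rw [hs, sub_zero, smul_eq_mul]
  by_contra hne
  rcases lt_or_gt_of_ne hne with hlt | hgt'
  · -- k < r
    have h1 : Tendsto (fun s : ℂ => f s / s ^ r * s ^ (r - k)) (𝓝[≠] 0) (𝓝 (l * 0)) :=
      h.mul (hpow (r - k) (by omega))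
    rw [mul_zero] at h1
    have h2 : Tendsto (fun s : ℂ => f s / s ^ r * s ^ (r - k)) (𝓝[≠] 0) (𝓝 (g 0)) := by
      refine Tendsto.congr' ?_ hgt
      filter_upwards [hfg', hself] with s hs hs0
      rw [hs]
      have h3 : s ^ r = s ^ k * s ^ (r - k) := by
        rw [← pow_add]
        congr 1
        omega
      rw [h3]
      field_simp
    exact hg0 (tendsto_nhds_unique h2 h1)
  · have h1 : Tendsto (fun s : ℂ => s ^ (k - r) * g s) (𝓝[≠] 0) (𝓝 (0 * g 0)) :=
      (hpow (k - r) (by omega)).mul hgt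
    rw [zero_mul] at h1
    have h2 : Tendsto (fun s : ℂ => f s / s ^ r) (𝓝[≠] 0) (𝓝 0) := by
      refine Tendsto.congr' ?_ h1
      filter_upwards [hfg', hself] with s hs hs0
      rw [hs]
      have h3 : s ^ k = s ^ r * s ^ (k - r) := by
        rw [← pow_add]
        congr 1
        omega
      rw [h3]
      field_simp
    exact hl (tendsto_nhds_unique h h2)

/-- Under the Riemann hypothesis all the zeros of `LamG` are on the imaginary axis: `LamG_zero`, the
functional equation (`LamG_basic`), and `LLF n j s = LG s * uF n j s`. -/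
theorem fF_re (n j : ℕ) (hj : j = 0 ∨ j = 1) (hn : Odd n) (hs : Squarefree n)
    (hRH : ∀ s : ℂ, 0 < s.re → LLF n j (1 + s) ≠ 0) (s : ℂ) (h : fF' n j s = 0) : s.re = 0 := by
  have hT := thData_fam n j hj hn hs
  have key : ∀ z : ℂ, fF' n j z = 0 → ¬ 0 < z.re := by
    intro z hz hpos
    have h1 := LamG_zero _ _ _ hT z (by linarith) hz
    refine hRH z hpos ?_
    unfold LLF
    rw [h1, zero_mul]
  have h1 := key s h
  have h2 : fF' n j (-s) = 0 := by
    unfold fF'
    rw [(LamG_basic _ _ _ hT).2.1 s]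
    unfold fF' at h
    rw [h, mul_zero]
  have h3 := key (-s) h2
  rw [Complex.neg_re] at h3
  linarith

/-- The order at the centre: `LamG_order` with `z = 0`; `LLF n j (1+s) = LG (1+s) * uF (1+s)`, `uF` is
analytic and nonzero at `1` (`uF_good`), and `LLF n j (1+s)/s^r → l' ≠ 0`. -/
theorem fF_zero (n j : ℕ) (hj : j = 0 ∨ j = 1) (hn : Odd n) (hs : Squarefree n) (r : ℕ) (l : ℝ)
    (hl : l ≠ 0)
    (hlim : Tendsto (fun s : ℂ => LLF n j (1 + s) / s ^ r) (𝓝[≠] 0) (𝓝 (l : ℂ))) :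
    analyticOrderNatAt (fF' n j) 0 = r := by
  have hT := thData_fam n j hj hn hs
  unfold fF'
  rw [LamG_order _ _ _ hT 0 (by simp)]
  have hu := uF_good n j hn 1 (by simp; norm_num)
  have hd := LG_diff _ _ _ hT
  refine Fam_order _ ?_ r ((l : ℂ) / uF n j 1) (div_ne_zero (by exact_mod_cast hl) hu.2) ?_
  · exact (hd.comp (differentiable_id.const_add 1)).analyticAt 0
  · have h1 : Tendsto (fun s : ℂ => 1 + s) (𝓝[≠] 0) (𝓝 1) := by
      have h2 : Tendsto (fun s : ℂ => 1 + s) (𝓝 0) (𝓝 (1 + 0)) :=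
        (continuous_const.add continuous_id).tendsto 0
      rw [add_zero] at h2
      exact h2.mono_left nhdsWithin_le_nhds
    have h2 : Tendsto (fun s : ℂ => uF n j (1 + s)) (𝓝[≠] 0) (𝓝 (uF n j 1)) :=
      hu.1.continuousAt.tendsto.comp h1
    have h3 := hlim.div h2 hu.2
    refine Tendsto.congr' ?_ h3
    filter_upwards [h2.eventually_ne hu.2] with s hs0
    simp only [Pi.div_apply]
    unfold LLF
    field_simp

theorem Fam_ne (n j : ℕ) (hj : j = 0 ∨ j = 1) (hn : Odd n) (hs : Squarefree n)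
    (hRH : ∀ s : ℂ, 0 < s.re → LLF n j (1 + s) ≠ 0) : ∃ z, fF' n j z ≠ 0 := by
  refine ⟨1, fun h => ?_⟩
  have := fF_re n j hj hn hs hRH 1 h
  simp at this

/-- Logarithmic derivatives for `Re s > 1/2`: by `LG_exp`, `es_deriv` and
`LG (1+s) = (πκ)^{1+s} Γ(1+s)⁻¹ LamG s` (`LamG_fac_eq`), `had`:
`-ES (vL cA) vL s = log (πκ) - ψ(1+s) + r/s + Σ 2 m s/(s²+γ²)`. -/
theorem log_id (n j : ℕ) (hj : j = 0 ∨ j = 1) (hn : Odd n) (hs : Squarefree n)
    (hRH : ∀ s : ℂ, 0 < s.re → LLF n j (1 + s) ≠ 0) (s : ℂ) (h : 1 / 2 < s.re) :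
    Summable (fun i => 2 * (muF n j i : ℂ) * s / (s ^ 2 + (gaF n j i : ℂ) ^ 2)) ∧
    -ES (fun i => vL i * cA (aL n j) i) vL s =
      Real.log (Real.pi * kF n j) - Complex.digamma (1 + s) +
        (analyticOrderNatAt (fF' n j) 0 : ℂ) / s +
        ∑' i, 2 * (muF n j i : ℂ) * s / (s ^ 2 + (gaF n j i : ℂ) ^ 2) := by
  have hT := thData_fam n j hj hn hs
  obtain ⟨hd, hsym, C, hgr⟩ := LamG_basic _ _ _ hT
  have hne := Fam_ne n j hj hn hs hRH
  have hs0 : 0 < s.re := by linarith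
  have hhad := (had (fF' n j) hd hne (eF n j : ℂ) (by
    rcases hT.eps with h1 | h1
    · left; rw [h1]; simp
    · right; rw [h1]; simp) hsym C hgr (fun z hz => fF_re n j hj hn hs hRH z hz)).2 s hs0
  have hmu : ∀ i : ZI (fF' n j), ((muF n j i : ℝ) : ℂ) =
      (analyticOrderNatAt (fF' n j) ((i : ℝ) * I) : ℂ) := by
    intro i
    unfold muF
    exact Complex.ofReal_natCast _
  have hga : ∀ i : ZI (fF' n j), ((gaF n j i : ℝ) : ℂ) = ((i : ℝ) : ℂ) := fun i => rfl
  simp only [hmu, hga]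
  refine ⟨hhad.1, ?_⟩
  have hLam : LamG (aFam n j) (kF n j) s ≠ 0 := by
    intro h0
    have := fF_re n j hj hn hs hRH s h0
    linarith
  have hfac := LamG_fac_ne (kF n j) hT.κpos s (by linarith)
  have hDS := ds_cA (aL n j) (1 / 2) (by norm_num) (by norm_num) (aL_bd n j)
  have hES : HasDerivAt (ES (cA (aL n j)) vL) (-ES (fun i => vL i * cA (aL n j) i) vL s) s :=
    es_deriv hDS s (by linarith)
  -- logarithmic derivative of the product
  have h1 : logDeriv (fun z => LamG_fac (kF n j) z * LamG (aFam n j) (kF n j) z) s =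
      logDeriv (LamG_fac (kF n j)) s + logDeriv (LamG (aFam n j) (kF n j)) s :=
    logDeriv_mul s hfac hLam (LamG_fac_diff _ hT.κpos s) (hd s)
  have h2 : (fun z => LamG_fac (kF n j) z * LamG (aFam n j) (kF n j) z) =ᶠ[𝓝 s]
      fun z => Complex.exp (ES (cA (aL n j)) vL z) := by
    have ho : {z : ℂ | 1 / 2 < z.re} ∈ 𝓝 s :=
      (isOpen_lt continuous_const Complex.continuous_re).mem_nhds h
    filter_upwards [ho] with z hz
    rw [← LamG_fac_eq]
    exact LG_exp n j hj hn hs z hz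
  have h3 : logDeriv (fun z => LamG_fac (kF n j) z * LamG (aFam n j) (kF n j) z) s =
      -ES (fun i => vL i * cA (aL n j) i) vL s := by
    have h2' : LamG_fac (kF n j) s * LamG (aFam n j) (kF n j) s =
        Complex.exp (ES (cA (aL n j)) vL s) := h2.self_of_nhds
    rw [logDeriv_apply, h2.deriv_eq, h2', hES.cexp.deriv]
    rw [mul_comm, mul_div_assoc, div_self (Complex.exp_ne_zero _), mul_one]
  have h4 : logDeriv (LamG_fac (kF n j)) s =
      Real.log (Real.pi * kF n j) - Complex.digamma (1 + s) := by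
    have hpk := LG_pk_pos (kF n j) hT.κpos
    have hpkn := LG_pk_ne (kF n j) hT.κpos
    have hG : Complex.Gamma (1 + s) ≠ 0 := Complex.Gamma_ne_zero_of_re_pos (by
      rw [Complex.add_re, Complex.one_re]
      linarith)
    have hGd : DifferentiableAt ℂ Complex.Gamma (1 + s) :=
      Complex.differentiableAt_Gamma _ (fun m hm => by
        have := congrArg Complex.re hm
        rw [Complex.add_re, Complex.one_re, Complex.neg_re, Complex.natCast_re] at this
        have h5 : (0 : ℝ) ≤ m := Nat.cast_nonneg m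
        linarith)
    have e1 : logDeriv (fun z : ℂ => ((Real.pi * kF n j : ℝ) : ℂ) ^ (1 + z)) s =
        Real.log (Real.pi * kF n j) := by
      rw [logDeriv_apply]
      have h6 : HasDerivAt (fun z : ℂ => ((Real.pi * kF n j : ℝ) : ℂ) ^ (1 + z))
          (((Real.pi * kF n j : ℝ) : ℂ) ^ (1 + s) * Complex.log ((Real.pi * kF n j : ℝ) : ℂ) * 1)
          s := ((hasDerivAt_id s).const_add 1).const_cpow (Or.inl hpkn)
      rw [h6.deriv, mul_one, mul_comm, mul_div_assoc, div_self, mul_one, Complex.ofReal_log hpk.le]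
      rw [Ne, Complex.cpow_eq_zero_iff]
      exact fun h' => hpkn h'.1
    have e2 : logDeriv (fun z : ℂ => Complex.Gamma (1 + z)) s = Complex.digamma (1 + s) := by
      rw [logDeriv_apply, Complex.digamma_def, logDeriv_apply]
      rw [deriv_comp_const_add]
    have e3 : logDeriv (fun z : ℂ => ((Real.pi * kF n j : ℝ) : ℂ) ^ (1 + z) /
        Complex.Gamma (1 + z)) s = logDeriv (fun z : ℂ => ((Real.pi * kF n j : ℝ) : ℂ) ^ (1 + z)) s
          - logDeriv (fun z : ℂ => Complex.Gamma (1 + z)) s := by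
      refine logDeriv_div s ?_ hG ?_ ?_
      · rw [Ne, Complex.cpow_eq_zero_iff]
        exact fun h' => hpkn h'.1
      · exact (differentiableAt_id.const_add 1).const_cpow (Or.inl hpkn)
      · exact hGd.comp s (differentiableAt_id.const_add 1)
    have e4 : LamG_fac (kF n j) = fun z : ℂ => ((Real.pi * kF n j : ℝ) : ℂ) ^ (1 + z) /
        Complex.Gamma (1 + z) := by
      funext z
      unfold LamG_fac
      rw [div_eq_mul_inv]
    rw [e4, e3, e1, e2]
  have h5 : logDeriv (LamG (aFam n j) (kF n j)) s = (analyticOrderNatAt (fF' n j) 0 : ℂ) / s +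
      ∑' i : ZI (fF' n j), 2 * (analyticOrderNatAt (fF' n j) ((i : ℝ) * I) : ℂ) * s /
        (s ^ 2 + ((i : ℝ) : ℂ) ^ 2) := by
    rw [logDeriv_apply]
    exact hhad.2
  rw [← h3, h1, h4, h5]
  ring

/-- The zeros: `had` for the summability, `zi_one`; the asymptotic formula is `log_id` at real `z ≥ 1`:
`ES` is bounded there (`|ES| ≤ Σ |c| e^{-v}`), `0 ≤ r/z ≤ r`, `dig_log`. -/
theorem zd_fam (n j : ℕ) (hj : j = 0 ∨ j = 1) (hn : Odd n) (hs : Squarefree n)
    (hRH : ∀ s : ℂ, 0 < s.re → LLF n j (1 + s) ≠ 0) : ZD (gaF n j) (muF n j) := by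
  have hT := thData_fam n j hj hn hs
  obtain ⟨hd, hsym, C, hgr⟩ := LamG_basic _ _ _ hT
  have hne := Fam_ne n j hj hn hs hRH
  have hhad := had (fF' n j) hd hne (eF n j : ℂ) (by
    rcases hT.eps with h1 | h1
    · left; rw [h1]; simp
    · right; rw [h1]; simp) hsym C hgr (fun z hz => fF_re n j hj hn hs hRH z hz)
  have hDS := ds_mul (ds_cA (aL n j) (1 / 2) (by norm_num) (by norm_num) (aL_bd n j))
  refine ⟨fun i => i.2.1, fun i => zi_one (fF' n j) hd hne i, hhad.1, ?_⟩
  set n0 : ℝ := (analyticOrderNatAt (fF' n j) 0 : ℝ) with hn0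
  set S1 : ℝ := ∑' i, |vL i * cA (aL n j) i| * Real.exp (-(1 * vL i)) with hS1
  refine ⟨S1 + |Real.log (Real.pi * kF n j)| + n0 + 1, fun z hz => ?_⟩
  have hz0 : 0 < z := by linarith
  obtain ⟨hsum, hid⟩ := log_id n j hj hn hs hRH (z : ℂ) (by rw [Complex.ofReal_re]; linarith)
  have hterm : ∀ i, 2 * ((muF n j i : ℝ) : ℂ) * (z : ℂ) / ((z : ℂ) ^ 2 + ((gaF n j i : ℝ) : ℂ) ^ 2) =
      ((2 * muF n j i * z / (z ^ 2 + gaF n j i ^ 2) : ℝ) : ℂ) := by
    intro i
    push_cast
    ring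
  simp only [hterm] at hid
  rw [← Complex.ofReal_tsum] at hid
  set Sz : ℝ := ∑' i, 2 * muF n j i * z / (z ^ 2 + gaF n j i ^ 2) with hSz
  have hre := congrArg Complex.re hid
  obtain ⟨hdim, hdlog⟩ := dig_log z hz
  have e1 : ((analyticOrderNatAt (fF' n j) 0 : ℂ) / (z : ℂ)).re = n0 / z := by
    have : ((analyticOrderNatAt (fF' n j) 0 : ℂ) / (z : ℂ)) = ((n0 / z : ℝ) : ℂ) := by
      rw [hn0]
      push_cast
      rfl
    rw [this, Complex.ofReal_re]
  rw [Complex.add_re, Complex.add_re, Complex.sub_re, Complex.ofReal_re, Complex.ofReal_re,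
    e1, Complex.neg_re] at hre
  have hEb : |(ES (fun i => vL i * cA (aL n j) i) vL (z : ℂ)).re| ≤ S1 := by
    refine (Complex.abs_re_le_norm _).trans ?_
    unfold ES
    refine tsum_of_norm_bounded (hDS.sm 1 (by norm_num)).hasSum fun i => ?_
    rw [norm_mul, Ser_norm, Complex.norm_real, Real.norm_eq_abs, Complex.ofReal_re]
    refine mul_le_mul_of_nonneg_left (Real.exp_le_exp.2 ?_) (abs_nonneg _)
    have hv := hDS.vpos i
    have h4 : 1 * vL i ≤ z * vL i := mul_le_mul_of_nonneg_right hz (by linarith)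
    linarith
  have hn00 : 0 ≤ n0 := Nat.cast_nonneg _
  have hnz : 0 ≤ n0 / z := by positivity
  have hnz1 : n0 / z ≤ n0 := div_le_self hn00 hz
  have hl := abs_le.1 hdlog
  have hE := abs_le.1 hEb
  have hL1 := le_abs_self (Real.log (Real.pi * kF n j))
  have hL2 := neg_abs_le (Real.log (Real.pi * kF n j))
  rw [abs_le]
  constructor
  · linarith [hl.1, hl.2, hE.1, hE.2]
  · linarith [hl.1, hl.2, hE.1, hE.2]

end W3283l
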