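import Pool.Agent.W_3283e1_lw.FinA
import Pool.Agent.W_3283e1_h53.FinH2

set_option autoImplicit false

namespace W3283l

open Complex W3283e1 W3283f MeasureTheory Filter Topology

/-- The constant of Goldfeld. -/
noncomputable def CG (r : ℕ) (l : ℝ) : ℝ :=
  Real.sqrt 2 * Real.exp (r * Real.eulerMascheroniConstant) / |l|

theorem CG_pos (r : ℕ) (l : ℝ) (hl : l ≠ 0) : 0 < CG r l := by
  have : 0 < |l| := abs_pos.2 hl
  unfold CG
  positivity

/-- `h.hP` and `P > 0` (`W3283g.bsd_pos`). -/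
theorem P_er (k : ℕ) (c : ℤ) (n f i j : ℕ) (L : ℂ → ℂ) (r : ℕ) (l V : ℝ)
    (h : W3283g.SU k c n f i j L r l V) (u : ℝ) (hu : 0 < u) (hk : Real.log k ≤ u) :
    bsdProd (c * k ^ 2) 0 (Real.exp u) =
      CG r l * u ^ r * Real.exp (W3283g.er (alF n j) (lGold (l / V) r) r u) := by
  have hx1 : 1 < Real.exp u := Real.one_lt_exp_iff.2 hu
  have hx : (k : ℝ) ≤ Real.exp u := by
    have hk0 : (0 : ℝ) < k := by exact_mod_cast h.hk
    rw [← Real.exp_log hk0]
    exact Real.exp_le_exp.2 hk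
  have h1 := h.hP _ hx hx1
  rw [Real.log_exp] at h1
  have hC : 0 < CG r l * u ^ r := mul_pos (CG_pos r l h.hl) (pow_pos hu r)
  have hP : 0 < bsdProd (c * k ^ 2) 0 (Real.exp u) := W3283g.bsd_pos _ _ _
  have h2 : Real.exp (W3283g.er (alF n j) (lGold (l / V) r) r u) =
      bsdProd (c * k ^ 2) 0 (Real.exp u) / (CG r l * u ^ r) := by
    rw [← h1]
    exact Real.exp_log (div_pos hP hC)
  rw [h2, mul_div_cancel₀ _ hC.ne']

theorem FinB_ev (r : ℕ) (K δ : ℝ) (hδ : 0 < δ) :
    ∃ X : ℝ, ∀ x : ℝ, X ≤ x → K + r * Real.log (Real.log x) ≤ x ^ δ := by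
  have h1 : ∀ᶠ x : ℝ in atTop, ‖Real.log x‖ ≤ 1 / (2 * ((r : ℝ) + 1)) * ‖x ^ δ‖ :=
    (isLittleO_log_rpow_atTop hδ).bound (by positivity)
  have h2 : ∀ᶠ x : ℝ in atTop, 2 * K ≤ x ^ δ := (tendsto_rpow_atTop hδ).eventually_ge_atTop _
  obtain ⟨X, hX⟩ := eventually_atTop.1 (h1.and (h2.and (eventually_ge_atTop (1 : ℝ))))
  refine ⟨X, fun x hx => ?_⟩
  obtain ⟨h3, h4, h5⟩ := hX x hx
  have hlog : 0 ≤ Real.log x := Real.log_nonneg h5
  have h6 : Real.log (Real.log x) ≤ Real.log x := Real.log_le_self hlog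
  rw [Real.norm_of_nonneg hlog, Real.norm_of_nonneg (by positivity)] at h3
  have h7 : (r : ℝ) * Real.log (Real.log x) ≤ ((r : ℝ) + 1) * Real.log x := by
    have hr : (0 : ℝ) ≤ r := Nat.cast_nonneg r
    nlinarith
  have h8 : ((r : ℝ) + 1) * Real.log x ≤ x ^ δ / 2 := by
    have hr : (0 : ℝ) < (r : ℝ) + 1 := by positivity
    calc ((r : ℝ) + 1) * Real.log x ≤ ((r : ℝ) + 1) * (1 / (2 * ((r : ℝ) + 1)) * x ^ δ) :=
          mul_le_mul_of_nonneg_left h3 hr.le
      _ = x ^ δ / 2 := by field_simp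
  linarith

theorem FinB_zero (k : ℕ) (c : ℤ) (n f i j : ℕ) (L : ℂ → ℂ) (r : ℕ) (l V : ℝ)
    (h : W3283g.SU k c n f i j L r l V) (s : ℂ) (hs : 1 < s.re) (hL : L s = 0) :
    LLF n j s = 0 := by
  by_contra h1
  exact W3283g.FinH2_L k c n f i j L r l V h s hs h1 hL

/-- If the Riemann hypothesis is false: `rh_gen` (contrapositive, `η = 1`; `dataR_fam`) with
`δ < Re s - 1` gives arbitrarily large `x` with `AA x > x^δ`; `P = e^{AA} · const`
(`W3283g.FinH2_AA`), larger than `C (log x)^r (1 + |lam|)` for large `x`. -/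
theorem false_up (k : ℕ) (c : ℤ) (n f i j : ℕ) (L : ℂ → ℂ) (r : ℕ) (l V : ℝ)
    (h : W3283g.SU k c n f i j L r l V) (hz : ∃ s : ℂ, 1 < s.re ∧ L s = 0) (M X : ℝ) :
    ∃ x : ℝ, X ≤ x ∧ CG r l * (Real.log x) ^ r * M ≤ bsdProd (c * k ^ 2) 0 x := by
  obtain ⟨s0, hs0, hL0⟩ := hz
  by_contra hcon
  push Not at hcon
  obtain ⟨c0, hc0⟩ := W3283g.FinH2_AA k c n f i j L r l V h
  have hD := dataR_fam n j h.hj h.hn h.hs
  have hδ : 0 < (s0.re - 1) / 2 := by linarith
  have hM1 : 0 < max M 1 := lt_max_of_lt_right one_pos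
  have hC := CG_pos r l h.hl
  obtain ⟨X1, hX1⟩ := FinB_ev r (Real.log (CG r l) + Real.log (max M 1) - c0) ((s0.re - 1) / 2) hδ
  refine rh_gen (alF n j) (LLF n j) WW hD 1 ((s0.re - 1) / 2)
    (max (max X X1) (max k (Real.exp 1))) hδ (Or.inl rfl) ?_ ?_ s0 (by linarith)
    (FinB_zero k c n f i j L r l V h s0 hs0 hL0)
  · exact le_trans (by linarith [Real.add_one_le_exp (1 : ℝ)])
      ((le_max_right _ _).trans (le_max_right _ _))
  · intro x hx
    have hxX : X ≤ x := ((le_max_left _ _).trans (le_max_left _ _)).trans hx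
    have hxX1 : X1 ≤ x := ((le_max_right _ _).trans (le_max_left _ _)).trans hx
    have hxk : (k : ℝ) ≤ x := ((le_max_left _ _).trans (le_max_right _ _)).trans hx
    have hxe : Real.exp 1 ≤ x := ((le_max_right _ _).trans (le_max_right _ _)).trans hx
    have hx1 : 1 < x := by linarith [Real.add_one_lt_exp (one_ne_zero : (1 : ℝ) ≠ 0)]
    have hlog : 0 < Real.log x := Real.log_pos hx1
    have h1 := hc0 x hxk hx1
    have h2 := hcon x hxX
    have h3 : bsdProd (c * k ^ 2) 0 x ≤ CG r l * Real.log x ^ r * max M 1 :=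
      h2.le.trans (mul_le_mul_of_nonneg_left (le_max_left _ _) (by positivity))
    have h4 := Real.log_le_log (W3283g.bsd_pos _ _ _) h3
    rw [Real.log_mul (by positivity) hM1.ne', Real.log_mul hC.ne' (by positivity),
      Real.log_pow] at h4
    have h5 := hX1 x hxX1
    rw [one_mul]
    linarith

/-- The same with `η = -1` (`h.hreal`): `AA x < -x^δ`. -/
theorem false_dn (k : ℕ) (c : ℤ) (n f i j : ℕ) (L : ℂ → ℂ) (r : ℕ) (l V : ℝ)
    (h : W3283g.SU k c n f i j L r l V) (hreal : ∀ σ : ℝ, 1 < σ → L σ ≠ 0)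
    (hz : ∃ s : ℂ, 1 < s.re ∧ L s = 0) (M X : ℝ) (hM : 0 < M) :
    ∃ x : ℝ, X ≤ x ∧ bsdProd (c * k ^ 2) 0 x ≤ CG r l * (Real.log x) ^ r * M := by
  obtain ⟨s0, hs0, hL0⟩ := hz
  by_contra hcon
  push Not at hcon
  obtain ⟨c0, hc0⟩ := W3283g.FinH2_AA k c n f i j L r l V h
  have hD := dataR_fam n j h.hj h.hn h.hs
  have hδ : 0 < (s0.re - 1) / 2 := by linarith
  have hC := CG_pos r l h.hl
  obtain ⟨X1, hX1⟩ := FinB_ev 0 (c0 - Real.log (CG r l) - Real.log M) ((s0.re - 1) / 2) hδ
  refine rh_gen (alF n j) (LLF n j) WW hD (-1) ((s0.re - 1) / 2)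
    (max (max X X1) (max k (Real.exp 1))) hδ
    (Or.inr ⟨rfl, fun σ hσ => h.hreal (Or.inr hreal) σ (hδ.trans hσ)⟩) ?_ ?_ s0 (by linarith)
    (FinB_zero k c n f i j L r l V h s0 hs0 hL0)
  · exact le_trans (by linarith [Real.add_one_le_exp (1 : ℝ)])
      ((le_max_right _ _).trans (le_max_right _ _))
  · intro x hx
    have hxX : X ≤ x := ((le_max_left _ _).trans (le_max_left _ _)).trans hx
    have hxX1 : X1 ≤ x := ((le_max_right _ _).trans (le_max_left _ _)).trans hx
    have hxk : (k : ℝ) ≤ x := ((le_max_left _ _).trans (le_max_right _ _)).trans hx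
    have hxe : Real.exp 1 ≤ x := ((le_max_right _ _).trans (le_max_right _ _)).trans hx
    have hx1 : 1 < x := by linarith [Real.add_one_lt_exp (one_ne_zero : (1 : ℝ) ≠ 0)]
    have hlog1 : 1 ≤ Real.log x := by
      rw [Real.le_log_iff_exp_le (by linarith)]
      exact hxe
    have hlog : 0 < Real.log x := by linarith
    have hll : 0 ≤ Real.log (Real.log x) := Real.log_nonneg hlog1
    have h1 := hc0 x hxk hx1
    have h2 := hcon x hxX
    have h4 := Real.log_le_log (by positivity) h2.le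
    rw [Real.log_mul (by positivity) hM.ne', Real.log_mul hC.ne' (by positivity),
      Real.log_pow] at h4
    have h5 := hX1 x hxX1
    have h6 : 0 ≤ (r : ℝ) * Real.log (Real.log x) := by positivity
    rw [Nat.cast_zero, zero_mul, add_zero] at h5
    linarith

theorem FinB_log (x : ℝ) (hx : Real.exp (Real.exp (Real.exp 1)) ≤ x) :
    1 ≤ Real.log x ∧ 0 ≤ Real.log (Real.log (Real.log x)) ∧
      Real.log (Real.log (Real.log x)) ≤ Real.log (Real.log x) := by
  have hx0 : 0 < x := (Real.exp_pos _).trans_le hx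
  have h1 : Real.exp (Real.exp 1) ≤ Real.log x := (Real.le_log_iff_exp_le hx0).2 hx
  have hl0 : 0 < Real.log x := (Real.exp_pos _).trans_le h1
  have h2 : Real.exp 1 ≤ Real.log (Real.log x) := (Real.le_log_iff_exp_le hl0).2 h1
  have hl1 : 0 < Real.log (Real.log x) := (Real.exp_pos _).trans_le h2
  have h3 : 1 ≤ Real.log (Real.log (Real.log x)) := (Real.le_log_iff_exp_le hl1).2 h2
  refine ⟨?_, by linarith, Real.log_le_self hl1.le⟩
  have h4 : (1 : ℝ) ≤ Real.exp (Real.exp 1) := Real.one_le_exp (Real.exp_pos _).le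
  linarith

/-- Littlewood's theorem for the product.  If the Riemann hypothesis holds: `er_lit` and `P_er` with
`x = e^u`, `exp y ≥ 1 + y`; otherwise `false_up` with `M = 1 + |lam|`, `X ≥ e^{e^e}`
(`log log log x ≤ log x`). -/
theorem main_lit_up (k : ℕ) (c : ℤ) (n f i j : ℕ) (L : ℂ → ℂ) (r : ℕ) (l V : ℝ)
    (h : W3283g.SU k c n f i j L r l V) (lam X : ℝ) (hlam : lam < 1) :
    ∃ x : ℝ, X ≤ x ∧ CG r l * (Real.log x) ^ r *
      (1 + lam * Real.log (Real.log (Real.log x)) / Real.log x) ≤ bsdProd (c * k ^ 2) 0 x := by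
  by_cases hRH : ∀ s : ℂ, 1 < s.re → L s ≠ 0
  · obtain ⟨⟨u, hu1, hu2, hu3⟩, -⟩ := er_lit k c n f i j L r l V h hRH lam (max X (Real.log k)) hlam
    have hu0 : 0 < u := by linarith
    refine ⟨Real.exp u, ?_, ?_⟩
    · have := (le_max_left _ _).trans hu1
      linarith [Real.add_one_le_exp u]
    · rw [P_er k c n f i j L r l V h u hu0 ((le_max_right _ _).trans hu1), Real.log_exp]
      have hC : 0 < CG r l * u ^ r := mul_pos (CG_pos r l h.hl) (pow_pos hu0 r)
      refine mul_le_mul_of_nonneg_left ?_ hC.le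
      have h1 := Real.add_one_le_exp (W3283g.er (alF n j) (lGold (l / V) r) r u)
      have h2 : lam * Real.log (Real.log u) / u ≤ W3283g.er (alF n j) (lGold (l / V) r) r u := by
        rw [div_le_iff₀ hu0]
        linarith
      linarith
  · push Not at hRH
    obtain ⟨x, hx, h1⟩ := false_up k c n f i j L r l V h hRH (1 + |lam|)
      (max X (Real.exp (Real.exp (Real.exp 1))))
    refine ⟨x, (le_max_left _ _).trans hx, le_trans ?_ h1⟩
    obtain ⟨h2, h3, h4⟩ := FinB_log x ((le_max_right _ _).trans hx)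
    have hC : 0 ≤ CG r l * Real.log x ^ r :=
      mul_nonneg (CG_pos r l h.hl).le (pow_nonneg (by linarith) r)
    refine mul_le_mul_of_nonneg_left ?_ hC
    have h5 : lam * Real.log (Real.log (Real.log x)) / Real.log x ≤ |lam| := by
      rw [div_le_iff₀ (by linarith)]
      calc lam * Real.log (Real.log (Real.log x)) ≤ |lam| * Real.log (Real.log (Real.log x)) :=
            mul_le_mul_of_nonneg_right (le_abs_self _) h3
        _ ≤ |lam| * Real.log x := mul_le_mul_of_nonneg_left (by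
            have := Real.log_le_self (show 0 ≤ Real.log x by linarith)
            linarith) (abs_nonneg _)
    linarith

theorem FinB_ev2 (δ : ℝ) (hδ : 0 < δ) :
    ∃ U : ℝ, ∀ u : ℝ, U ≤ u → Real.log (Real.log u) ≤ δ * u := by
  have h1 : ∀ᶠ x : ℝ in atTop, ‖Real.log x‖ ≤ δ * ‖x‖ := Real.isLittleO_log_id_atTop.bound hδ
  obtain ⟨X, hX⟩ := eventually_atTop.1 (h1.and (eventually_ge_atTop (1 : ℝ)))
  refine ⟨X, fun x hx => ?_⟩
  obtain ⟨h3, h5⟩ := hX x hx
  have hlog : 0 ≤ Real.log x := Real.log_nonneg h5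
  rw [Real.norm_of_nonneg hlog, Real.norm_of_nonneg (by linarith)] at h3
  exact (Real.log_le_self hlog).trans h3

/-- `er_lit` with `lam < lam' < 1`, `0 < lam'`, and `e^{-y} ≤ 1 - y + y²` for
`0 ≤ y = lam' log log u/u`, `y² ≤ (lam' - lam) log log u/u` for large `u`; otherwise `false_dn` with
`M = 1/2` (`|lam| log log log x/log x ≤ 1/2` for large `x`). -/
theorem main_lit_dn (k : ℕ) (c : ℤ) (n f i j : ℕ) (L : ℂ → ℂ) (r : ℕ) (l V : ℝ)
    (h : W3283g.SU k c n f i j L r l V) (hreal : ∀ σ : ℝ, 1 < σ → L σ ≠ 0) (lam X : ℝ)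
    (hlam : lam < 1) :
    ∃ x : ℝ, X ≤ x ∧ bsdProd (c * k ^ 2) 0 x ≤ CG r l * (Real.log x) ^ r *
      (1 - lam * Real.log (Real.log (Real.log x)) / Real.log x) := by
  by_cases hRH : ∀ s : ℂ, 1 < s.re → L s ≠ 0
  · set lam' : ℝ := (max lam 0 + 1) / 2 with hlam'
    have hm1 : lam ≤ max lam 0 := le_max_left _ _
    have hm2 : 0 ≤ max lam 0 := le_max_right _ _
    have hm3 : max lam 0 < 1 := max_lt hlam one_pos
    have h0 : 0 < lam' := by rw [hlam']; linarith
    have h1 : lam' < 1 := by rw [hlam']; linarith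
    have hd : 0 < lam' - lam := by rw [hlam']; linarith
    obtain ⟨U, hU⟩ := FinB_ev2 (lam' - lam) hd
    obtain ⟨-, u, hu1, hu2, hu3⟩ := er_lit k c n f i j L r l V h hRH lam'
      (max (max X U) (Real.log k)) h1
    have huX : X ≤ u := ((le_max_left _ _).trans (le_max_left _ _)).trans hu1
    have huU : U ≤ u := ((le_max_right _ _).trans (le_max_left _ _)).trans hu1
    have hu0 : 0 < u := by linarith
    refine ⟨Real.exp u, ?_, ?_⟩
    · linarith [Real.add_one_le_exp u]
    · rw [P_er k c n f i j L r l V h u hu0 ((le_max_right _ _).trans hu1), Real.log_exp]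
      have hC : 0 < CG r l * u ^ r := mul_pos (CG_pos r l h.hl) (pow_pos hu0 r)
      refine mul_le_mul_of_nonneg_left ?_ hC.le
      have hlog1 : 1 ≤ Real.log u := by
        rw [Real.le_log_iff_exp_le hu0]
        linarith [Real.exp_one_lt_d9]
      set y : ℝ := Real.log (Real.log u) with hy
      have hy0 : 0 ≤ y := Real.log_nonneg hlog1
      have hyU : y ≤ (lam' - lam) * u := hU u huU
      set z : ℝ := lam' * y / u with hz
      have hz0 : 0 ≤ z := by positivity
      have h2 : W3283g.er (alF n j) (lGold (l / V) r) r u ≤ -z := by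
        rw [hz, ← neg_div, le_div_iff₀ hu0]
        linarith
      have h3 : Real.exp (-z) ≤ 1 - z + z ^ 2 := by
        rw [Real.exp_neg]
        have h4 := Real.add_one_le_exp z
        have h5 : 0 < z + 1 := by linarith
        calc (Real.exp z)⁻¹ ≤ (z + 1)⁻¹ := inv_anti₀ h5 h4
          _ ≤ 1 - z + z ^ 2 := by
              rw [inv_le_iff_one_le_mul₀ h5]
              nlinarith [pow_nonneg hz0 3]
      have h6 : z ^ 2 ≤ (lam' - lam) * y / u := by
        have h7 : z ^ 2 = lam' ^ 2 * y * y / u / u := by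
          rw [hz]
          ring
        rw [h7, div_le_div_iff_of_pos_right hu0, div_le_iff₀ hu0]
        have h8 : lam' ^ 2 ≤ 1 := by nlinarith
        calc lam' ^ 2 * y * y = lam' ^ 2 * (y * y) := by ring
          _ ≤ 1 * (y * y) := mul_le_mul_of_nonneg_right h8 (by positivity)
          _ = y * y := one_mul _
          _ ≤ y * ((lam' - lam) * u) := mul_le_mul_of_nonneg_left hyU hy0
          _ = (lam' - lam) * y * u := by ring
      have h9 : (lam' - lam) * y / u = z - lam * y / u := by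
        rw [hz]
        ring
      have h10 := Real.exp_le_exp.2 h2
      linarith
  · push Not at hRH
    obtain ⟨U, hU⟩ := FinB_ev2 (1 / (2 * (|lam| + 1))) (by positivity)
    obtain ⟨x, hx, h1⟩ := false_dn k c n f i j L r l V h hreal hRH (1 / 2)
      (max (max X (Real.exp U)) (Real.exp (Real.exp (Real.exp 1)))) (by norm_num)
    have hxX : X ≤ x := ((le_max_left _ _).trans (le_max_left _ _)).trans hx
    have hxU : Real.exp U ≤ x := ((le_max_right _ _).trans (le_max_left _ _)).trans hx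
    have hx0 : 0 < x := (Real.exp_pos _).trans_le hxU
    refine ⟨x, hxX, h1.trans ?_⟩
    obtain ⟨h2, h3, h4⟩ := FinB_log x ((le_max_right _ _).trans hx)
    have hC : 0 ≤ CG r l * Real.log x ^ r :=
      mul_nonneg (CG_pos r l h.hl).le (pow_nonneg (by linarith) r)
    refine mul_le_mul_of_nonneg_left ?_ hC
    have h5 := hU (Real.log x) ((Real.le_log_iff_exp_le hx0).2 hxU)
    have h6 : lam * Real.log (Real.log (Real.log x)) / Real.log x ≤ 1 / 2 := by
      rw [div_le_iff₀ (by linarith)]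
      have hlam0 : 0 ≤ |lam| := abs_nonneg _
      calc lam * Real.log (Real.log (Real.log x)) ≤ |lam| * Real.log (Real.log (Real.log x)) :=
            mul_le_mul_of_nonneg_right (le_abs_self _) h3
        _ ≤ (|lam| + 1) * Real.log (Real.log (Real.log x)) :=
            mul_le_mul_of_nonneg_right (by linarith) h3
        _ ≤ (|lam| + 1) * (1 / (2 * (|lam| + 1)) * Real.log x) :=
            mul_le_mul_of_nonneg_left h5 (by linarith)
        _ = 1 / 2 * Real.log x := by field_simp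
    linarith

end W3283l
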