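import Pool.Agent.W_3283e1_lw.FinC
import Pool.Agent.W_3283e1_sm.Main

set_option autoImplicit false

/-- Oscillations and crossings of the Birch and Swinnerton-Dyer product `P` of `y² = x³ + c k² x`,
`c = ±1`.  `L` is the L-function (Euler factors at the primes not dividing `2k`), `r`, `l` its order and
leading coefficient at `1`, `C = √2 e^{rγ}/|l|`.  If `L` has no real zero beyond `1` (in particular for
small `k`) then for every `K > 0` there are, up to `T`, at least `c' log T` alternations of `P` between values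
`≥ C (log x)^r (1 + K/log x)` and values `≤ C (log x)^r (1 - K/log x)`, and between any two of these
points one where `P` is `C (log y)^r (1 + O(y^{-1/2}))`. -/
theorem W3283l.frequent_crossings
    (k : ℕ) (hk : 0 < k) (c : ℤ) (hc : c = 1 ∨ c = -1) :
    ∃ L : ℂ → ℂ, Differentiable ℂ L ∧
      (∀ s : ℂ, 3 / 2 < s.re → HasProd (fun p : {p : ℕ // p.Prime ∧ ¬ p ∣ 2 * k} =>
        (1 - ((p : ℂ) + 1 - (W3283e1.npts (c * k ^ 2) 0 p : ℂ)) * (p : ℂ) ^ (-s)
          + (p : ℂ) ^ (1 - 2 * s))⁻¹) (L s)) ∧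
      ∃ (r : ℕ) (l : ℝ), l ≠ 0 ∧
        Filter.Tendsto (fun s : ℂ => L s / (s - 1) ^ r) (nhdsWithin 1 {1}ᶜ) (nhds (l : ℂ)) ∧
        ((∀ σ : ℝ, 1 < σ → L σ ≠ 0) → ∀ K : ℝ, 0 < K → ∃ (c' T0 : ℝ), 0 < c' ∧
          ∀ T : ℝ, T0 ≤ T → ∃ (N : ℕ) (x y : ℕ → ℝ),
            c' * Real.log T ≤ N ∧ 1 < x 0 ∧ x N ≤ T ∧
            (∀ a < N, x a < y a ∧ y a < x (a + 1) ∧
              |W3283e1.bsdProd (c * k ^ 2) 0 (y a) /
                (Real.sqrt 2 * Real.exp (r * Real.eulerMascheroniConstant) / |l| *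
                  (Real.log (y a)) ^ r) - 1| ≤ 5 / Real.sqrt (y a)) ∧
            ∀ a ≤ N,
              (Even a → Real.sqrt 2 * Real.exp (r * Real.eulerMascheroniConstant) / |l| *
                (Real.log (x a)) ^ r * (1 + K / Real.log (x a)) ≤
                  W3283e1.bsdProd (c * k ^ 2) 0 (x a)) ∧
              (¬ Even a → W3283e1.bsdProd (c * k ^ 2) 0 (x a) ≤
                Real.sqrt 2 * Real.exp (r * Real.eulerMascheroniConstant) / |l| *
                  (Real.log (x a)) ^ r * (1 - K / Real.log (x a)))) ∧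
        (((c = -1 ∧ k ≤ 7) ∨ (c = 1 ∧ k ≤ 4)) → ∀ σ : ℝ, 1 < σ → L σ ≠ 0) := by
  obtain ⟨n, f, i, j, L, r, l, V, h⟩ := W3283g.setup k hk c hc
  refine ⟨L, h.hL, h.hprod, r, l, h.hl, h.hlim,
    fun hreal K hK => W3283l.main_alt k c n f i j L r l V h hreal K hK, fun hsm σ hσ => ?_⟩
  have h1 := W3283s.no_real k c L ⟨hk, hc, h.hL, h.hprod⟩ hsm (σ - 1) (by linarith)
  have h2 : (1 : ℂ) + ((σ - 1 : ℝ) : ℂ) = (σ : ℂ) := by push_cast; ring
  rwa [h2] at h1
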