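import Pool.Agent.W_3283e1_lw.LitP

set_option autoImplicit false

namespace W3283l

open MeasureTheory Filter

variable {ι : Type} {γ m : ι → ℝ}

/-- `log` is small compared with the identity. -/
theorem lit_big (δ C1 C2 : ℝ) (hδ : 0 < δ) (hC1 : 0 ≤ C1) (hC2 : 0 ≤ C2) :
    ∃ z : ℝ, 1 ≤ z ∧ C1 * Real.log (2 + Real.log z) + C2 < δ * Real.log z := by
  set s : ℝ := (2 * C1 + C2 + 2 * δ + 1) / δ + 2 with hs
  have h0 : 0 ≤ (2 * C1 + C2 + 2 * δ + 1) / δ := by positivity
  have hs2 : 2 ≤ s := by rw [hs]; linarith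
  have hsδ : δ * s = (2 * C1 + C2 + 2 * δ + 1) + 2 * δ := by
    rw [hs]; field_simp
  have hL : 0 ≤ s ^ 2 - 2 := by nlinarith
  refine ⟨Real.exp (s ^ 2 - 2), Real.one_le_exp hL, ?_⟩
  rw [Real.log_exp]
  have h1 : Real.log (2 + (s ^ 2 - 2)) = 2 * Real.log s := by
    rw [show 2 + (s ^ 2 - 2) = s ^ 2 by ring, Real.log_pow]
    norm_num
  have h2 : Real.log s ≤ s := by
    have := Real.log_le_sub_one_of_pos (show 0 < s by linarith)
    linarith
  rw [h1]
  have h3 : C1 * (2 * Real.log s) ≤ C1 * (2 * s) := by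
    apply mul_le_mul_of_nonneg_left _ hC1
    linarith
  have h4 : δ * s ^ 2 = ((2 * C1 + C2 + 2 * δ + 1) + 2 * δ) * s := by
    rw [← hsδ]; ring
  have h5 : C2 + 2 * δ + 1 ≤ (C2 + 2 * δ + 1 + 2 * δ) * s := by nlinarith
  nlinarith

/-- The common end of the two arguments. -/
theorem lit_end (hZ : ZD γ m) (lam X C0 K' : ℝ) (h0 : 0 < lam) (h1 : lam < 1) (hX : 1 ≤ X)
    (H : ∀ z U C : ℝ, 1 ≤ z → X ≤ U → 3 ≤ U →
      (∀ η : ℝ, (η = 1 ∨ η = -1) → |Vz γ m η z U - η * Real.log z| ≤ C) →
      Real.log z - C - C0 ≤ lam * Real.log (Real.log U) + K') : False := by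
  obtain ⟨C, hC, hper⟩ := lit_period hZ ((1 - lam) / (2 * lam)) X
    (div_pos (by linarith) (by linarith)) hX
  obtain ⟨z, hz, hbig⟩ := lit_big ((1 - lam) / 2) (lam * C) (lam * C + C + |C0| + |K'|)
    (by linarith) (by positivity) (by positivity)
  obtain ⟨U, hXU, h3U, hll, hV⟩ := hper z hz
  have h2 := H z U C hz hXU h3U hV
  have h3 : lam * Real.log (Real.log U) ≤ lam * ((1 + (1 - lam) / (2 * lam)) * Real.log z +
      C * Real.log (2 + Real.log z) + C) := mul_le_mul_of_nonneg_left hll h0.le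
  have h4 : lam * ((1 + (1 - lam) / (2 * lam)) * Real.log z +
      C * Real.log (2 + Real.log z) + C) = (1 + lam) / 2 * Real.log z +
      lam * C * Real.log (2 + Real.log z) + lam * C := by
    field_simp
    ring
  have h5 := le_abs_self C0
  have h6 := le_abs_self K'
  nlinarith

theorem lit_loglog (U a : ℝ) (hU : 3 ≤ U) (ha : 0 ≤ a) :
    Real.log (Real.log (U + a)) ≤ Real.log (Real.log U) + a := by
  have hl : 1 ≤ Real.log U := by
    rw [Real.le_log_iff_exp_le (by linarith)]
    have := Real.exp_one_lt_d9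
    linarith
  have h1 : Real.log (U + a) ≤ Real.log U + a := by
    have h2 : U + a = U * (1 + a / U) := by field_simp
    rw [h2, Real.log_mul (by linarith) (by positivity)]
    have h3 : Real.log (1 + a / U) ≤ a / U := by
      have := Real.log_le_sub_one_of_pos (show 0 < 1 + a / U by positivity)
      linarith
    have h4 : a / U ≤ a := div_le_self ha (by linarith)
    linarith
  have h5 : Real.log (Real.log (U + a)) ≤ Real.log (Real.log U + a) :=
    Real.log_le_log (Real.log_pos (by linarith)) h1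
  have h6 : Real.log U + a = Real.log U * (1 + a / Real.log U) := by field_simp
  have h7 : Real.log (Real.log U + a) = Real.log (Real.log U) + Real.log (1 + a / Real.log U) := by
    conv_lhs => rw [h6]
    rw [Real.log_mul (by linarith) (by positivity)]
  have h8 : Real.log (1 + a / Real.log U) ≤ a / Real.log U := by
    have := Real.log_le_sub_one_of_pos (show 0 < 1 + a / Real.log U by positivity)
    linarith
  have h9 : a / Real.log U ≤ a := div_le_self ha hl
  linarith

theorem lit_loglog_nonneg (U : ℝ) (hU : 3 ≤ U) : 0 ≤ Real.log (Real.log U) := by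
  apply Real.log_nonneg
  rw [Real.le_log_iff_exp_le (by linarith)]
  have := Real.exp_one_lt_d9
  linarith

/-- Littlewood's theorem, upper part.  Suppose `A u < lam log log u + K` for all `u ≥ X` (`X ≥ 3`,
`0 < lam`; for `lam ≤ 0` replace `lam` by `1/2` and enlarge `X`).  With `U ≥ X` from `lit_period`,
`smo_pos`: `log z - C ≤ z ∫ A(U+a) e^{-za} da ≤ lam (log log U + 1) + |K|`
(`log log (U+a) ≤ log log U + a` for `U ≥ 3`, `z ∫ a e^{-za} = 1/z ≤ 1`), and
`log log U ≤ (1+ε) log z + o(log z)` with `lam (1+ε) < 1`: a contradiction for large `z`. -/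
theorem lit_up (hZ : ZD γ m) (A : ℝ → ℝ) (hA : EF γ m A) (lam K X : ℝ) (hlam : lam < 1) :
    ∃ u : ℝ, X ≤ u ∧ 3 ≤ u ∧ lam * Real.log (Real.log u) + K ≤ A u := by
  by_contra hcon
  push Not at hcon
  obtain ⟨C0, hC0, hsmo⟩ := smo_pos hZ A hA
  obtain ⟨C4, hC4⟩ := hA.bd
  set l : ℝ := max lam (1 / 2) with hl
  have hl0 : 0 < l := lt_of_lt_of_le (by norm_num) (le_max_right _ _)
  have hl1 : l < 1 := max_lt hlam (by norm_num)
  have hll : lam ≤ l := le_max_left _ _
  have hub : ∀ u, X ≤ u → 3 ≤ u → A u ≤ l * Real.log (Real.log u) + |K| := by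
    intro u h1 h2
    have h3 := hcon u h1 h2
    have h4 := lit_loglog_nonneg u h2
    have h5 := le_abs_self K
    nlinarith
  refine lit_end hZ l (max X 1) C0 (2 + |K|) hl0 hl1 (le_max_right _ _) ?_
  intro z U C hz hXU h3U hV
  have hXU' : X ≤ U := le_trans (le_max_left _ _) hXU
  have h1 := hV 1 (Or.inl rfl)
  have h2 := hsmo z U hz (by linarith)
  have hz0 : 0 < z := by linarith
  -- integrability
  have hC4' : 0 ≤ C4 := by
    have := le_trans (abs_nonneg _) (hC4 0 le_rfl)
    simpa using this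
  have hint : IntegrableOn (fun a : ℝ => A (U + a) * Real.exp (-(z * a))) (Set.Ioi 0) := by
    have hb : IntegrableOn (fun a : ℝ => (C4 * Real.exp (3 / 4 * U)) * Real.exp ((-1 / 4) * a))
        (Set.Ioi 0) := (integrableOn_exp_mul_Ioi (by norm_num) 0).const_mul _
    refine Integrable.mono' hb ?_ ?_
    · exact ((hA.meas.comp (measurable_const.add measurable_id)).mul
        (Real.measurable_exp.comp (measurable_const.mul measurable_id).neg)).aestronglyMeasurable
    · refine (ae_restrict_iff' measurableSet_Ioi).2 (Eventually.of_forall fun a ha => ?_)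
      have ha0 : 0 < a := ha
      rw [norm_mul, Real.norm_eq_abs, Real.norm_eq_abs, abs_of_pos (Real.exp_pos _)]
      have h3 := hC4 (U + a) (by linarith)
      have h4 : Real.exp (-(z * a)) ≤ Real.exp (-a) := by
        apply Real.exp_le_exp.2
        nlinarith
      calc |A (U + a)| * Real.exp (-(z * a))
          ≤ (C4 * Real.exp (3 / 4 * (U + a))) * Real.exp (-a) :=
            mul_le_mul h3 h4 (Real.exp_pos _).le (by positivity)
        _ = C4 * (Real.exp (3 / 4 * (U + a)) * Real.exp (-a)) := by ring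
        _ = C4 * (Real.exp (3 / 4 * U) * Real.exp ((-1 / 4) * a)) := by
            rw [← Real.exp_add, ← Real.exp_add]; ring_nf
        _ = _ := by ring
  have hint1 : IntegrableOn (fun a : ℝ => Real.exp (-z * a)) (Set.Ioi 0) :=
    integrableOn_exp_mul_Ioi (by linarith) 0
  have hint2 : IntegrableOn (fun a : ℝ => Real.exp ((1 / 2 - z) * a)) (Set.Ioi 0) :=
    integrableOn_exp_mul_Ioi (by linarith) 0
  have hv1 : ∫ a in Set.Ioi (0 : ℝ), Real.exp (-z * a) = 1 / z := by
    rw [integral_exp_mul_Ioi (by linarith) 0]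
    simp
  have hv2 : ∫ a in Set.Ioi (0 : ℝ), Real.exp ((1 / 2 - z) * a) = 1 / (z - 1 / 2) := by
    rw [integral_exp_mul_Ioi (by linarith) 0]
    simp only [mul_zero, Real.exp_zero]
    rw [neg_div, ← div_neg]
    congr 1
    ring
  have hle : ∫ a in Set.Ioi (0 : ℝ), A (U + a) * Real.exp (-(z * a)) ≤
      ∫ a in Set.Ioi (0 : ℝ), ((l * Real.log (Real.log U) + |K|) * Real.exp (-z * a) +
        Real.exp ((1 / 2 - z) * a)) := by
    refine setIntegral_mono_on hint ((hint1.const_mul _).add hint2) measurableSet_Ioi ?_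
    intro a ha
    have ha0 : 0 < a := ha
    have h3 := hub (U + a) (by linarith) (by linarith)
    have h4 := lit_loglog U a h3U ha0.le
    have h5 : a ≤ Real.exp (1 / 2 * a) := by
      have h6 := Real.quadratic_le_exp_of_nonneg (show 0 ≤ 1 / 2 * a by linarith)
      nlinarith [sq_nonneg (a - 2)]
    have h6 : A (U + a) ≤ l * Real.log (Real.log U) + |K| + Real.exp (1 / 2 * a) := by
      nlinarith
    have h7 : Real.exp ((1 / 2 - z) * a) = Real.exp (1 / 2 * a) * Real.exp (-z * a) := by
      rw [← Real.exp_add]; ring_nf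
    have h8 : Real.exp (-(z * a)) = Real.exp (-z * a) := by ring_nf
    rw [h7, h8, ← add_mul]
    exact mul_le_mul_of_nonneg_right h6 (Real.exp_pos _).le
  rw [integral_add (hint1.const_mul _) hint2, integral_const_mul, hv1, hv2] at hle
  have h9 : z * (∫ a in Set.Ioi (0 : ℝ), A (U + a) * Real.exp (-(z * a))) ≤
      z * ((l * Real.log (Real.log U) + |K|) * (1 / z) + 1 / (z - 1 / 2)) :=
    mul_le_mul_of_nonneg_left hle hz0.le
  have h10 : z * ((l * Real.log (Real.log U) + |K|) * (1 / z) + 1 / (z - 1 / 2)) =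
      l * Real.log (Real.log U) + |K| + z / (z - 1 / 2) := by
    field_simp
  have h11 : z / (z - 1 / 2) ≤ 2 := by
    rw [div_le_iff₀ (by linarith)]
    linarith
  have h12 := (abs_le.1 h1).1
  have h13 := (abs_le.1 h2).1
  rw [h10] at h9
  linarith

/-- Lower part: suppose `A u > -(lam log log u + K)` for all `u ≥ X`.  With `U ≥ X + 3` from
`lit_period` and `smo_neg`: `-log z + C ≥ z ∫_0^U A(U-a) e^{-za} da`; on `a ≤ U - X` the integrand is at least
`-(lam log log U + |K|) e^{-za}` (`log log` is increasing, `X ≥ 3`), and on `a > U - X` it is at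
least `-sup_{[0,X]} |A| e^{-za}` (`hA.bd`). -/
theorem lit_dn (hZ : ZD γ m) (A : ℝ → ℝ) (hA : EF γ m A) (lam K X : ℝ) (hlam : lam < 1) :
    ∃ u : ℝ, X ≤ u ∧ 3 ≤ u ∧ A u ≤ -(lam * Real.log (Real.log u) + K) := by
  by_contra hcon
  push Not at hcon
  obtain ⟨C0, hC0, hsmo⟩ := smo_neg hZ A hA
  obtain ⟨C4, hC4⟩ := hA.bd
  have hC4' : 0 ≤ C4 := by
    have := le_trans (abs_nonneg _) (hC4 0 le_rfl)
    simpa using this
  set l : ℝ := max lam (1 / 2) with hl
  have hl0 : 0 < l := lt_of_lt_of_le (by norm_num) (le_max_right _ _)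
  have hl1 : l < 1 := max_lt hlam (by norm_num)
  have hll : lam ≤ l := le_max_left _ _
  set X' : ℝ := max X 3 with hX'
  have hX3 : 3 ≤ X' := le_max_right _ _
  have hlb : ∀ u, X' ≤ u → -(l * Real.log (Real.log u) + |K|) ≤ A u := by
    intro u h1
    have h2 : 3 ≤ u := le_trans hX3 h1
    have h3 := hcon u (le_trans (le_max_left _ _) h1) h2
    have h4 := lit_loglog_nonneg u h2
    have h5 := le_abs_self K
    nlinarith
  set M : ℝ := C4 * Real.exp (3 / 4 * X') with hM
  have hM0 : 0 ≤ M := by positivity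
  refine lit_end hZ l X' C0 (|K| + M) hl0 hl1 (by linarith) ?_
  intro z U C hz hXU h3U hV
  have h1 := hV (-1) (Or.inr rfl)
  have h2 := hsmo z U hz (by linarith)
  have hz0 : 0 < z := by linarith
  have hU0 := lit_loglog_nonneg U h3U
  have hall : ∀ a ∈ Set.Ioc (0 : ℝ) U,
      -(l * Real.log (Real.log U) + |K| + M) ≤ A (U - a) := by
    intro a ha
    rcases le_total X' (U - a) with h | h
    · have h3 := hlb (U - a) h
      have h4 : Real.log (Real.log (U - a)) ≤ Real.log (Real.log U) := by
        apply Real.log_le_log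
        · exact Real.log_pos (by linarith)
        · exact Real.log_le_log (by linarith) (by linarith [ha.1])
      nlinarith
    · have h3 := hC4 (U - a) (by linarith [ha.2])
      have h4 : C4 * Real.exp (3 / 4 * (U - a)) ≤ M := by
        rw [hM]
        apply mul_le_mul_of_nonneg_left _ hC4'
        apply Real.exp_le_exp.2
        linarith
      have h5 := (abs_le.1 (le_trans h3 h4)).1
      have h6 : 0 ≤ l * Real.log (Real.log U) := by positivity
      have h7 := abs_nonneg K
      linarith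
  have hint : IntegrableOn (fun a : ℝ => A (U - a) * Real.exp (-(z * a))) (Set.Ioc 0 U) := by
    have hb : IntegrableOn (fun _ : ℝ => C4 * Real.exp (3 / 4 * U)) (Set.Ioc 0 U) :=
      integrableOn_const (by simp)
    refine Integrable.mono' hb ?_ ?_
    · exact ((hA.meas.comp (measurable_const.sub measurable_id)).mul
        (Real.measurable_exp.comp (measurable_const.mul measurable_id).neg)).aestronglyMeasurable
    · refine (ae_restrict_iff' measurableSet_Ioc).2 (Eventually.of_forall fun a ha => ?_)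
      rw [norm_mul, Real.norm_eq_abs, Real.norm_eq_abs, abs_of_pos (Real.exp_pos _)]
      have h3 := hC4 (U - a) (by linarith [ha.2])
      have h4 : Real.exp (-(z * a)) ≤ 1 := by
        apply Real.exp_le_one_iff.2
        have := mul_pos hz0 ha.1
        linarith
      have h5 : Real.exp (3 / 4 * (U - a)) ≤ Real.exp (3 / 4 * U) := by
        apply Real.exp_le_exp.2
        linarith [ha.1]
      calc |A (U - a)| * Real.exp (-(z * a))
          ≤ (C4 * Real.exp (3 / 4 * (U - a))) * 1 :=
            mul_le_mul h3 h4 (Real.exp_pos _).le (by positivity)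
        _ ≤ (C4 * Real.exp (3 / 4 * U)) * 1 := by
            apply mul_le_mul_of_nonneg_right _ zero_le_one
            exact mul_le_mul_of_nonneg_left h5 hC4'
        _ = _ := by ring
  have hint1 : IntegrableOn (fun a : ℝ => Real.exp (-z * a)) (Set.Ioi 0) :=
    integrableOn_exp_mul_Ioi (by linarith) 0
  have hv1 : ∫ a in Set.Ioi (0 : ℝ), Real.exp (-z * a) = 1 / z := by
    rw [integral_exp_mul_Ioi (by linarith) 0]
    simp
  have hv2 : ∫ a in Set.Ioc (0 : ℝ) U, Real.exp (-z * a) ≤ 1 / z := by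
    rw [← hv1]
    exact setIntegral_mono_set hint1 (Eventually.of_forall fun a => (Real.exp_pos _).le)
      (Set.Ioc_subset_Ioi_self.eventuallyLE)
  have hle : ∫ a in Set.Ioc (0 : ℝ) U, -(l * Real.log (Real.log U) + |K| + M) *
      Real.exp (-z * a) ≤ ∫ a in Set.Ioc (0 : ℝ) U, A (U - a) * Real.exp (-(z * a)) := by
    refine setIntegral_mono_on ((hint1.mono_set Set.Ioc_subset_Ioi_self).const_mul _) hint
      measurableSet_Ioc ?_
    intro a ha
    have h8 : Real.exp (-(z * a)) = Real.exp (-z * a) := by ring_nf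
    rw [h8]
    exact mul_le_mul_of_nonneg_right (hall a ha) (Real.exp_pos _).le
  rw [integral_const_mul] at hle
  have hG : 0 ≤ l * Real.log (Real.log U) + |K| + M := by positivity
  have h9 : z * (-(l * Real.log (Real.log U) + |K| + M) *
      ∫ a in Set.Ioc (0 : ℝ) U, Real.exp (-z * a)) ≤
      z * ∫ a in Set.Ioc (0 : ℝ) U, A (U - a) * Real.exp (-(z * a)) :=
    mul_le_mul_of_nonneg_left hle hz0.le
  have h10 : -(l * Real.log (Real.log U) + |K| + M) ≤
      z * (-(l * Real.log (Real.log U) + |K| + M) *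
      ∫ a in Set.Ioc (0 : ℝ) U, Real.exp (-z * a)) := by
    have h11 : z * ∫ a in Set.Ioc (0 : ℝ) U, Real.exp (-z * a) ≤ 1 := by
      have := mul_le_mul_of_nonneg_left hv2 hz0.le
      rwa [mul_one_div, div_self hz0.ne'] at this
    nlinarith [mul_le_mul_of_nonneg_left h11 hG]
  have h12 := (abs_le.1 h1).2
  have h13 := (abs_le.1 h2).2
  linarith

end W3283l
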