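import Pool.Agent.W_3283e1_lw.SmoP
import Pool.Agent.W_3283e1_lw.SmoN
import Pool.Agent.W_3283e1_lw.Dir

set_option autoImplicit false

namespace W3283l

open MeasureTheory Filter

variable {ι : Type} {γ m : ι → ℝ}

/-- The almost periods.  For every `ε > 0` and `X ≥ 1` there is a constant `C` such that for every
`z ≥ 1` there is `U ≥ X` with `log log U ≤ (1 + ε) log z + C log (2 + log z) + C`, `log U ≥ 1` and
`|Vz η z U - η log z| ≤ C` for both signs `η`.  WLOG `ε ≤ 1/2`.  Take `Y = z^{1+ε}`,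
`q = ⌈z²⌉`, `s` the finite set of the `i` with `γ i ≤ Y` (`cnt_fin`), `N = card s ≤ Σ_s m ≤ Y (log Y + C)`
(`cnt`), `T1 = X + 3`, `θ i = γ i T1/(2π)` in `dirichlet`: `t ≤ q^N`, `U = t T1`; `dir_trig` with
`e = 1/q` and `at_period` with `2π/q` in place of `q`: the error is
`C (2π Y/q + z (log Y + 1)/Y)`, bounded since `Y ≤ z²` and `(log Y + 1) z^{-ε}` is bounded; and
`h.asy`.  `log U ≤ log T1 + N log q`, `N log q ≤ C' z^{1+ε} (1 + log z)²`. -/
theorem lit_period (h : ZD γ m) (ε X : ℝ) (hε : 0 < ε) (hX : 1 ≤ X) :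
    ∃ C : ℝ, 0 ≤ C ∧ ∀ z : ℝ, 1 ≤ z → ∃ U : ℝ, X ≤ U ∧ 3 ≤ U ∧
      Real.log (Real.log U) ≤ (1 + ε) * Real.log z + C * Real.log (2 + Real.log z) + C ∧
      ∀ η : ℝ, (η = 1 ∨ η = -1) → |Vz γ m η z U - η * Real.log z| ≤ C := by
  obtain ⟨C1, hC1, hcnt⟩ := cnt h
  obtain ⟨C2, hC2, hper⟩ := at_period h
  obtain ⟨C3, hC3⟩ := h.asy
  have hC3' : 0 ≤ C3 := le_trans (abs_nonneg _) (hC3 1 le_rfl)
  set e : ℝ := min ε (1 / 2) with he
  have he0 : 0 < e := lt_min hε (by norm_num)
  have he1 : e ≤ 1 / 2 := min_le_right _ _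
  have heε : e ≤ ε := min_le_left _ _
  set T1 : ℝ := X + 3 with hT1
  have hT1' : 4 ≤ T1 := by rw [hT1]; linarith
  set K : ℝ := 2 * (2 + C1) + Real.log T1 with hK
  have hlogT1 : 0 ≤ Real.log T1 := Real.log_nonneg (by linarith)
  have hK4 : 4 ≤ K := by rw [hK]; linarith
  have hlogK : 0 ≤ Real.log K := Real.log_nonneg (by linarith)
  set B : ℝ := 2 * Real.pi + ((1 + e) / e + 1) with hB
  have hB0 : 0 ≤ B := by
    have : 0 ≤ (1 + e) / e := by positivity
    have := Real.pi_pos
    rw [hB]; linarith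
  refine ⟨2 + Real.log K + C2 * B + C3, by positivity, ?_⟩
  intro z hz
  have hz0 : 0 < z := by linarith
  set L : ℝ := Real.log z with hL
  have hL0 : 0 ≤ L := Real.log_nonneg hz
  set Y : ℝ := z ^ (1 + e) with hY
  have hY1 : 1 ≤ Y := Real.one_le_rpow hz (by linarith)
  have hY0 : 0 < Y := by linarith
  have hlogY : Real.log Y = (1 + e) * L := by rw [hY, Real.log_rpow hz0]
  set q : ℕ := ⌈z ^ 2⌉₊ with hq
  have hz2 : 1 ≤ z ^ 2 := one_le_pow₀ hz
  have hqz : z ^ 2 ≤ q := Nat.le_ceil _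
  have hq1' : (1 : ℝ) ≤ q := le_trans hz2 hqz
  have hq1 : 1 ≤ q := by exact_mod_cast hq1'
  have hq0 : (0 : ℝ) < q := by linarith
  have hqle : (q : ℝ) ≤ 2 * z ^ 2 := by
    have := Nat.ceil_lt_add_one (show 0 ≤ z ^ 2 by positivity)
    rw [← hq] at this
    linarith
  have hlogq : Real.log q ≤ 2 * (1 + L) := by
    have h1 : Real.log q ≤ Real.log (2 * z ^ 2) := Real.log_le_log hq0 hqle
    have h2 : Real.log (2 * z ^ 2) = Real.log 2 + 2 * L := by
      rw [Real.log_mul (by norm_num) (by positivity), Real.log_pow, ← hL]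
      push_cast
      ring
    have h3 : Real.log 2 ≤ 1 := by
      have := Real.log_two_lt_d9
      linarith
    linarith
  have hlogq0 : 0 ≤ Real.log q := Real.log_nonneg hq1'
  have hfin : {i | γ i ≤ Y}.Finite := cnt_fin h Y
  set s : Finset ι := hfin.toFinset with hs
  have hmem : ∀ i, i ∈ s ↔ γ i ≤ Y := by
    intro i
    rw [hs, Set.Finite.mem_toFinset]
    rfl
  have hcard : (s.card : ℝ) ≤ Y * ((1 + e) * L + C1) := by
    have h1 := ((hcnt Y hY1).1 s (fun i hi => (hmem i).1 hi)).1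
    rw [hlogY] at h1
    have h2 : (s.card : ℝ) ≤ ∑ i ∈ s, m i := by
      have : (s.card : ℝ) = ∑ i ∈ s, (1 : ℝ) := by simp
      rw [this]
      exact Finset.sum_le_sum (fun i _ => h.one i)
    linarith
  obtain ⟨t, ht1, htq, htk⟩ := dirichlet s (fun i => γ i * T1 / (2 * Real.pi)) q hq1
  have ht1' : (1 : ℝ) ≤ t := by exact_mod_cast ht1
  have htq' : (t : ℝ) ≤ (q : ℝ) ^ s.card := by exact_mod_cast htq
  set U : ℝ := t * T1 with hU
  have hUT : T1 ≤ U := by
    rw [hU]
    nlinarith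
  have hU3 : 3 ≤ U := by linarith
  have hUX : X ≤ U := by linarith
  have htrig : ∀ i, γ i ≤ Y → |Real.cos (γ i * U) - 1| ≤ 2 * Real.pi * (1 / q) ∧
      |Real.sin (γ i * U)| ≤ 2 * Real.pi * (1 / q) := by
    intro i hi
    obtain ⟨k, hk⟩ := htk i ((hmem i).2 hi)
    refine dir_trig (γ i * U) k (1 / q) ?_
    have : γ i * U / (2 * Real.pi) = γ i * T1 / (2 * Real.pi) * t := by
      rw [hU]; ring
    rw [this]
    exact hk
  refine ⟨U, hUX, hU3, ?_, ?_⟩
  · -- log log U
    have hlogU : Real.log U ≤ z ^ (1 + e) * (1 + L) ^ 2 * K := by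
      have h1 : Real.log U = Real.log t + Real.log T1 := by
        rw [hU, Real.log_mul (by positivity) (by positivity)]
      have h2 : Real.log t ≤ s.card * Real.log q := by
        have := Real.log_le_log (by positivity) htq'
        rwa [Real.log_pow] at this
      have h3 : (s.card : ℝ) * Real.log q ≤ (Y * ((1 + e) * L + C1)) * (2 * (1 + L)) := by
        have h4 : (s.card : ℝ) * Real.log q ≤ (Y * ((1 + e) * L + C1)) * Real.log q :=
          mul_le_mul_of_nonneg_right hcard hlogq0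
        have h5 : 0 ≤ Y * ((1 + e) * L + C1) := by positivity
        exact le_trans h4 (mul_le_mul_of_nonneg_left hlogq h5)
      have h6 : (1 + e) * L + C1 ≤ (2 + C1) * (1 + L) := by nlinarith [mul_nonneg hC1 hL0]
      have h7 : (Y * ((1 + e) * L + C1)) * (2 * (1 + L)) ≤
          (Y * ((2 + C1) * (1 + L))) * (2 * (1 + L)) := by
        apply mul_le_mul_of_nonneg_right _ (by positivity)
        exact mul_le_mul_of_nonneg_left h6 hY0.le
      have h8 : Real.log T1 ≤ Y * (1 + L) ^ 2 * Real.log T1 := by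
        have : 1 ≤ Y * (1 + L) ^ 2 := by
          have h9 : 1 ≤ (1 + L) ^ 2 := one_le_pow₀ (by linarith)
          nlinarith
        nlinarith
      rw [h1]
      have h10 : z ^ (1 + e) * (1 + L) ^ 2 * K =
          (Y * ((2 + C1) * (1 + L))) * (2 * (1 + L)) + Y * (1 + L) ^ 2 * Real.log T1 := by
        rw [hK, ← hY]; ring
      rw [h10]
      linarith
    have hlogU0 : 0 < Real.log U := Real.log_pos (by linarith)
    have h1 : Real.log (Real.log U) ≤ Real.log (z ^ (1 + e) * (1 + L) ^ 2 * K) :=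
      Real.log_le_log hlogU0 hlogU
    have h2 : Real.log (z ^ (1 + e) * (1 + L) ^ 2 * K) =
        (1 + e) * L + 2 * Real.log (1 + L) + Real.log K := by
      rw [Real.log_mul (by positivity) (by positivity), Real.log_mul (by positivity) (by positivity),
        Real.log_rpow hz0, Real.log_pow, ← hL]
      push_cast
      ring
    have h3 : Real.log (1 + L) ≤ Real.log (2 + L) := Real.log_le_log (by positivity) (by linarith)
    have h4 : 0 ≤ Real.log (2 + L) := Real.log_nonneg (by linarith)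
    have h5 : (1 + e) * L ≤ (1 + ε) * L := mul_le_mul_of_nonneg_right (by linarith) hL0
    have h6 : 2 * Real.log (2 + L) ≤ (2 + Real.log K + C2 * B + C3) * Real.log (2 + L) := by
      apply mul_le_mul_of_nonneg_right _ h4
      have : 0 ≤ C2 * B := mul_nonneg hC2 hB0
      linarith
    have h7 : 0 ≤ C2 * B := mul_nonneg hC2 hB0
    linarith
  · intro η hη
    have h1 := hper η z U Y (2 * Real.pi * (1 / q)) hη hz hY1 (by positivity) htrig
    have h2 := hC3 z hz
    have h3 : 2 * Real.pi * (1 / q) * Y ≤ 2 * Real.pi := by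
      have h4 : Y ≤ z ^ 2 := by
        rw [hY, ← Real.rpow_natCast z 2]
        exact Real.rpow_le_rpow_of_exponent_le hz (by push_cast; linarith)
      have h5 : (1 / (q : ℝ)) * Y ≤ 1 := by
        rw [one_div, inv_mul_le_iff₀ hq0]
        linarith
      have := mul_le_mul_of_nonneg_left h5 (show 0 ≤ 2 * Real.pi by positivity)
      calc 2 * Real.pi * (1 / q) * Y = 2 * Real.pi * ((1 / q) * Y) := by ring
        _ ≤ 2 * Real.pi * 1 := this
        _ = 2 * Real.pi := by ring
    have h6 : z * (Real.log Y + 1) / Y ≤ (1 + e) / e + 1 := by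
      have hze : 0 < z ^ e := Real.rpow_pos_of_pos hz0 e
      have hze1 : 1 ≤ z ^ e := Real.one_le_rpow hz he0.le
      have h7 : Y = z * z ^ e := by
        rw [hY, Real.rpow_add hz0, Real.rpow_one]
      have h8 : L ≤ z ^ e / e := Real.log_le_rpow_div hz0.le he0
      rw [hlogY, h7, mul_div_mul_left _ _ hz0.ne', div_le_iff₀ hze]
      have h9 : (1 + e) * L ≤ (1 + e) * (z ^ e / e) := mul_le_mul_of_nonneg_left h8 (by linarith)
      have h10 : (1 + e) * (z ^ e / e) = (1 + e) / e * z ^ e := by ring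
      nlinarith
    have h11 : C2 * (2 * Real.pi * (1 / q) * Y + z * (Real.log Y + 1) / Y) ≤ C2 * B := by
      apply mul_le_mul_of_nonneg_left _ hC2
      rw [hB]; linarith
    have h12 : |η| = 1 := by
      rcases hη with rfl | rfl <;> simp
    have h13 : |η * (∑' i, 2 * m i * z / (z ^ 2 + (γ i) ^ 2)) - η * L| ≤ C3 := by
      rw [← mul_sub, abs_mul, h12, one_mul]
      exact h2
    have h14 : |Vz γ m η z U - η * L| ≤
        |Vz γ m η z U - η * ∑' i, 2 * m i * z / (z ^ 2 + (γ i) ^ 2)| +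
        |η * (∑' i, 2 * m i * z / (z ^ 2 + (γ i) ^ 2)) - η * L| := abs_sub_le _ _ _
    linarith

end W3283l
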