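import Mathlib

set_option autoImplicit false

namespace W3283l

open Complex

theorem Near_conn : IsConnected {s : ℂ | 0 < s.re} := by
  refine ⟨⟨1, by simp⟩, ?_⟩
  exact (convex_halfSpace_re_gt 0).isPreconnected

theorem Near_fin (f : ℂ → ℂ) (hf : ∀ s : ℂ, 0 < s.re → AnalyticAt ℂ f s)
    (hne : ∃ s : ℂ, 0 < s.re ∧ f s ≠ 0) {K : Set ℂ} (hK : IsCompact K)
    (hKU : K ⊆ {s : ℂ | 0 < s.re}) : {s : ℂ | s ∈ K ∧ f s = 0}.Finite := by
  obtain ⟨s0, h0, h1⟩ := hne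
  have ha : AnalyticOnNhd ℂ f {s : ℂ | 0 < s.re} := fun s hs => hf s hs
  have h2 := ha.preimage_zero_mem_codiscreteWithin h1 h0 Near_conn
  have h3 : f ⁻¹' {0}ᶜ ∈ Filter.codiscreteWithin K := Filter.codiscreteWithin_mono hKU h2
  refine (hK.finite_sdiff_of_mem_codiscreteWithin h3).subset ?_
  rintro s ⟨hs, hs0⟩
  exact ⟨hs, fun h => h hs0⟩

/-- The set of the zeros in `Re s > 0` is countable (isolated zeros, `f` is not identically zero there). -/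
theorem zeros_countable (f : ℂ → ℂ) (hf : ∀ s : ℂ, 0 < s.re → AnalyticAt ℂ f s)
    (hne : ∃ s : ℂ, 0 < s.re ∧ f s ≠ 0) : {s : ℂ | 0 < s.re ∧ f s = 0}.Countable := by
  have h1 : {s : ℂ | 0 < s.re ∧ f s = 0} ⊆
      ⋃ n : ℕ, {s : ℂ | s ∈ Metric.closedBall (0 : ℂ) n ∩ {s : ℂ | 1 / ((n : ℝ) + 1) ≤ s.re} ∧
        f s = 0} := by
    rintro s ⟨hs, hs0⟩
    obtain ⟨n, hn⟩ := exists_nat_ge (max ‖s‖ (1 / s.re))
    refine Set.mem_iUnion.2 ⟨n, ⟨⟨?_, ?_⟩, hs0⟩⟩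
    · simpa using (le_max_left _ _).trans hn
    · have h2 : 1 / s.re ≤ (n : ℝ) + 1 := by linarith [(le_max_right ‖s‖ (1 / s.re)).trans hn]
      show 1 / ((n : ℝ) + 1) ≤ s.re
      rw [div_le_iff₀ hs] at h2
      rw [div_le_iff₀ (by positivity)]
      linarith
  refine Set.Countable.mono h1 (Set.countable_iUnion fun n => Set.Finite.countable ?_)
  refine Near_fin f hf hne ?_ ?_
  · exact (isCompact_closedBall _ _).inter_right (isClosed_le continuous_const continuous_re)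
  · rintro s ⟨-, hs⟩
    have : (0 : ℝ) < 1 / ((n : ℝ) + 1) := by positivity
    exact this.trans_le hs

theorem Near_normSq (x : ℝ) (s : ℂ) : ‖(x : ℂ) - s‖ ^ 2 = x ^ 2 - 2 * x * s.re + ‖s‖ ^ 2 := by
  rw [← Complex.normSq_eq_norm_sq, ← Complex.normSq_eq_norm_sq, Complex.normSq_apply,
    Complex.normSq_apply]
  simp
  ring

theorem Near_sub {s t : ℂ} (hs : 0 < s.im) (ht : 0 < t.im) (hst : s ≠ t) :
    {x : ℝ | ‖(x : ℂ) - s‖ = ‖(x : ℂ) - t‖}.Subsingleton := by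
  have key : ∀ x : ℝ, ‖(x : ℂ) - s‖ = ‖(x : ℂ) - t‖ →
      2 * x * (s.re - t.re) = ‖s‖ ^ 2 - ‖t‖ ^ 2 := by
    intro x hx
    have h := congrArg (· ^ 2) hx
    simp only [Near_normSq] at h
    linarith
  intro x hx y hy
  have h1 := key x hx
  have h2 := key y hy
  have h3 : (x - y) * (s.re - t.re) = 0 := by linarith
  rcases mul_eq_zero.1 h3 with h | h
  · linarith
  · exfalso
    have hre : s.re = t.re := by linarith
    have h4 : ‖s‖ ^ 2 = ‖t‖ ^ 2 := by rw [hre] at h1; linarith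
    rw [← Complex.normSq_eq_norm_sq, ← Complex.normSq_eq_norm_sq, Complex.normSq_apply,
      Complex.normSq_apply, hre] at h4
    have h5 : s.im * s.im = t.im * t.im := by linarith
    have h6 : s.im = t.im := by nlinarith
    exact hst (Complex.ext hre h6)

theorem Near_conj (x : ℝ) (s : ℂ) : ‖(x : ℂ) - starRingEnd ℂ s‖ = ‖(x : ℂ) - s‖ := by
  have : (x : ℂ) - starRingEnd ℂ s = starRingEnd ℂ ((x : ℂ) - s) := by
    rw [map_sub, Complex.conj_ofReal]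
  rw [this, Complex.norm_conj]

/-- A real point for which the nearest zeros in the right half plane are one pair.  Let `ρ'` be a zero
with `Re ρ' > 0`; for `x > ‖ρ'‖²/(2 Re ρ')` we have `‖x - ρ'‖ < x`.  Two different zeros `ρ1, ρ2` with positive
imaginary part have the same distance from at most one real `x` (`‖x - ρ1‖² = ‖x - ρ2‖²` is linear in
`x`; if its coefficient `Re ρ1 - Re ρ2` is `0` then `|Im|` agree and `ρ1 = ρ2`), so (countably many zeros) there is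
`x > x0` of this kind for which no two do.  The zeros in the compact set
`‖s - x‖ ≤ ‖ρ' - x‖` (contained in `Re s > 0`) are finitely many; take `ρ` with the smallest distance and
`Im ρ > 0` (the zeros are symmetric and not real), `R = ‖x - ρ‖ < x`; the next distance, or
`x`, is larger than `R`. -/
theorem near_zero (f : ℂ → ℂ) (hf : ∀ s : ℂ, 0 < s.re → AnalyticAt ℂ f s)
    (hne : ∃ s : ℂ, 0 < s.re ∧ f s ≠ 0) (hreal : ∀ x : ℝ, 0 < x → f x ≠ 0)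
    (hsym : ∀ s : ℂ, 0 < s.re → f s = 0 → f (starRingEnd ℂ s) = 0)
    (hz : ∃ s : ℂ, 0 < s.re ∧ f s = 0) (x0 : ℝ) :
    ∃ (x R' : ℝ) (ρ : ℂ), x0 < x ∧ 0 < ρ.re ∧ 0 < ρ.im ∧ f ρ = 0 ∧ ‖(x : ℂ) - ρ‖ < R' ∧ R' < x ∧
      ∀ s : ℂ, ‖(x : ℂ) - s‖ < R' → f s = 0 → s = ρ ∨ s = starRingEnd ℂ ρ := by
  have hc := zeros_countable f hf hne
  have him : ∀ s : ℂ, 0 < s.re → f s = 0 → s.im ≠ 0 := by
    intro s hs h0 hi
    have : s = ((s.re : ℝ) : ℂ) := Complex.ext (by simp) (by simp [hi])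
    exact hreal s.re hs (this ▸ h0)
  obtain ⟨ρ', hρ', hfρ', hiρ'⟩ : ∃ ρ' : ℂ, 0 < ρ'.re ∧ f ρ' = 0 ∧ 0 < ρ'.im := by
    obtain ⟨s, hs, h0⟩ := hz
    rcases lt_or_gt_of_ne (him s hs h0) with h | h
    · exact ⟨starRingEnd ℂ s, by simpa using hs, hsym s hs h0, by simpa using h⟩
    · exact ⟨s, hs, h0, h⟩
  -- the exceptional set
  have hB : (⋃ s ∈ {s : ℂ | 0 < s.re ∧ f s = 0}, ⋃ t ∈ {s : ℂ | 0 < s.re ∧ f s = 0},
      {x : ℝ | (0 < s.im ∧ 0 < t.im ∧ s ≠ t) ∧ ‖(x : ℂ) - s‖ = ‖(x : ℂ) - t‖}).Countable := by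
    refine hc.biUnion fun s _ => hc.biUnion fun t _ => ?_
    by_cases h : 0 < s.im ∧ 0 < t.im ∧ s ≠ t
    · refine (Near_sub h.1 h.2.1 h.2.2).countable.mono ?_
      rintro x ⟨-, hx⟩
      exact hx
    · refine Set.countable_empty.mono ?_
      rintro x ⟨hx, -⟩
      exact h hx
  obtain ⟨x, hx1, hx2⟩ := (hB.dense_compl ℝ).inter_open_nonempty
    (Set.Ioi (max x0 (‖ρ'‖ ^ 2 / (2 * ρ'.re)))) isOpen_Ioi Set.nonempty_Ioi
  have hx1' : max x0 (‖ρ'‖ ^ 2 / (2 * ρ'.re)) < x := hx1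
  have hxx0 : x0 < x := (le_max_left _ _).trans_lt hx1'
  have hxr : ‖ρ'‖ ^ 2 / (2 * ρ'.re) < x := (le_max_right _ _).trans_lt hx1'
  have hxpos : 0 < x := lt_of_le_of_lt (by positivity) hxr
  have hdist : ∀ s t : ℂ, 0 < s.re → f s = 0 → 0 < t.re → f t = 0 → 0 < s.im → 0 < t.im → s ≠ t →
      ‖(x : ℂ) - s‖ ≠ ‖(x : ℂ) - t‖ := by
    intro s t hs hfs ht hft his hit hst he
    apply hx2
    simp only [Set.mem_iUnion]
    exact ⟨s, ⟨hs, hfs⟩, t, ⟨ht, hft⟩, ⟨his, hit, hst⟩, he⟩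
  have hlt : ‖(x : ℂ) - ρ'‖ < x := by
    rw [div_lt_iff₀ (by positivity)] at hxr
    have h1 := Near_normSq x ρ'
    have h2 : ‖(x : ℂ) - ρ'‖ ^ 2 < x ^ 2 := by rw [h1]; nlinarith
    exact lt_of_pow_lt_pow_left₀ 2 hxpos.le h2
  obtain ⟨r1, hr1, hr1x⟩ := exists_between hlt
  have hre : ∀ s : ℂ, ‖(x : ℂ) - s‖ ≤ r1 → 0 < s.re := by
    intro s hs
    have h1 : |((x : ℂ) - s).re| ≤ ‖(x : ℂ) - s‖ := Complex.abs_re_le_norm _
    have h2 : ((x : ℂ) - s).re = x - s.re := by simp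
    rw [h2] at h1
    have h3 := (abs_le.1 h1).2
    linarith
  have hFfin : {s : ℂ | s ∈ Metric.closedBall (x : ℂ) r1 ∧ f s = 0}.Finite := by
    refine Near_fin f hf hne (isCompact_closedBall _ _) ?_
    intro s hs
    rw [mem_closedBall_iff_norm'] at hs
    exact hre s hs
  have hF1 : {s : ℂ | ‖(x : ℂ) - s‖ ≤ r1 ∧ f s = 0 ∧ 0 < s.im}.Finite := by
    refine hFfin.subset ?_
    rintro s ⟨h1, h2, -⟩
    exact ⟨mem_closedBall_iff_norm'.2 h1, h2⟩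
  obtain ⟨ρ, ⟨hρr, hρ0, hρi⟩, hρmin⟩ := Set.exists_min_image _ (fun s => ‖(x : ℂ) - s‖) hF1
    ⟨ρ', hr1.le, hfρ', hiρ'⟩
  have hρre := hre ρ hρr
  have hρlt : ‖(x : ℂ) - ρ‖ < r1 := (hρmin ρ' ⟨hr1.le, hfρ', hiρ'⟩).trans_lt hr1
  have hG : {s : ℂ | (‖(x : ℂ) - s‖ ≤ r1 ∧ f s = 0 ∧ 0 < s.im) ∧ s ≠ ρ}.Finite :=
    hF1.subset fun s hs => hs.1
  have hev : ∀ᶠ R' in nhdsWithin ‖(x : ℂ) - ρ‖ (Set.Ioi ‖(x : ℂ) - ρ‖),
      ∀ s ∈ {s : ℂ | (‖(x : ℂ) - s‖ ≤ r1 ∧ f s = 0 ∧ 0 < s.im) ∧ s ≠ ρ}, R' < ‖(x : ℂ) - s‖ := by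
    rw [Filter.eventually_all_finite hG]
    rintro s ⟨⟨h1, h2, h3⟩, h4⟩
    have h5 : ‖(x : ℂ) - ρ‖ < ‖(x : ℂ) - s‖ := by
      refine lt_of_le_of_ne (hρmin s ⟨h1, h2, h3⟩) ?_
      exact hdist ρ s hρre hρ0 (hre s h1) h2 hρi h3 (Ne.symm h4)
    exact (eventually_lt_nhds h5).filter_mono nhdsWithin_le_nhds
  have hev2 : ∀ᶠ R' in nhdsWithin ‖(x : ℂ) - ρ‖ (Set.Ioi ‖(x : ℂ) - ρ‖), R' < r1 :=
    (eventually_lt_nhds hρlt).filter_mono nhdsWithin_le_nhds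
  have hev3 : ∀ᶠ R' in nhdsWithin ‖(x : ℂ) - ρ‖ (Set.Ioi ‖(x : ℂ) - ρ‖), ‖(x : ℂ) - ρ‖ < R' :=
    self_mem_nhdsWithin
  obtain ⟨R', h1, h2, h3⟩ := (hev.and (hev2.and hev3)).exists
  refine ⟨x, R', ρ, hxx0, hρre, hρi, hρ0, h3, h2.trans hr1x, ?_⟩
  intro s hs hs0
  have hsr : ‖(x : ℂ) - s‖ ≤ r1 := hs.le.trans h2.le
  have hsre := hre s hsr
  rcases lt_or_gt_of_ne (him s hsre hs0) with h | h
  · right
    by_contra hne'
    have h5 : starRingEnd ℂ s ≠ ρ := by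
      intro he
      apply hne'
      rw [← he, Complex.conj_conj]
    have h6 := h1 (starRingEnd ℂ s) ⟨⟨by rw [Near_conj]; exact hsr, hsym s hsre hs0,
      by simpa using h⟩, h5⟩
    rw [Near_conj] at h6
    linarith
  · left
    by_contra hne'
    have h6 := h1 s ⟨⟨hsr, hs0, h⟩, hne'⟩
    linarith

end W3283l
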