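import Mathlib

set_option autoImplicit false

namespace W3283l

open MeasureTheory

/-- Coefficients and exponents of a general Dirichlet series which converges absolutely for
`Re s > a`. -/
structure DS {ι : Type} (c v : ι → ℝ) (a : ℝ) : Prop where
  cnt : Countable ι
  apos : 0 ≤ a
  vpos : ∀ i, 1 ≤ v i
  sm : ∀ σ : ℝ, a < σ → Summable (fun i => |c i| * Real.exp (-(σ * v i)))

/-- The series. -/
noncomputable def ES {ι : Type} (c v : ι → ℝ) (s : ℂ) : ℂ :=
  ∑' i, (c i : ℂ) * Complex.exp (-(s * v i))

/-- The summatory function. -/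
noncomputable def St {ι : Type} (c v : ι → ℝ) (u : ℝ) : ℝ :=
  ∑' i, if v i ≤ u then c i else 0

variable {ι : Type} {c v : ι → ℝ} {a : ℝ}

theorem Ser_norm (s : ℂ) (x : ℝ) : ‖Complex.exp (-(s * x))‖ = Real.exp (-(s.re * x)) := by
  rw [Complex.norm_exp]
  simp

/-- `v e^{-σv} ≤ C e^{-σ'v}` for `a < σ' < σ`. -/
theorem ds_mul (h : DS c v a) : DS (fun i => v i * c i) v a := by
  refine ⟨h.cnt, h.apos, h.vpos, fun σ hσ => ?_⟩
  have hσ' : a < (a + σ) / 2 := by linarith
  have hδ : 0 < (σ - a) / 2 := by linarith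
  refine Summable.of_nonneg_of_le (fun i => by positivity) (fun i => ?_)
    ((h.sm _ hσ').mul_left (1 / ((σ - a) / 2)))
  have hv := h.vpos i
  have h1 : v i * Real.exp (-((σ - a) / 2 * v i)) ≤ 1 / ((σ - a) / 2) := by
    rw [le_div_iff₀ hδ, Real.exp_neg, ← div_eq_mul_inv, div_mul_eq_mul_div,
      div_le_one (Real.exp_pos _)]
    have h2 := Real.add_one_le_exp ((σ - a) / 2 * v i)
    linarith
  have h3 : Real.exp (-(σ * v i)) =
      Real.exp (-((σ - a) / 2 * v i)) * Real.exp (-((a + σ) / 2 * v i)) := by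
    rw [← Real.exp_add]
    congr 1
    ring
  show |v i * c i| * Real.exp (-(σ * v i)) ≤ _
  rw [abs_mul, abs_of_pos (by linarith : 0 < v i), h3]
  calc v i * |c i| * (Real.exp (-((σ - a) / 2 * v i)) * Real.exp (-((a + σ) / 2 * v i)))
      = v i * Real.exp (-((σ - a) / 2 * v i)) * (|c i| * Real.exp (-((a + σ) / 2 * v i))) := by
        ring
    _ ≤ 1 / ((σ - a) / 2) * (|c i| * Real.exp (-((a + σ) / 2 * v i))) :=
        mul_le_mul_of_nonneg_right h1 (by positivity)

/-- Differentiation term by term (`hasDerivAt_tsum_of_isPreconnected` or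
`differentiableOn_tsum_of_summable_norm` and `hasSum_deriv...`; dominated on `Re s > σ'`). -/
theorem es_deriv (h : DS c v a) (s : ℂ) (hs : a < s.re) :
    HasDerivAt (ES c v) (-ES (fun i => v i * c i) v s) s := by
  obtain ⟨σ, h1, h2⟩ : ∃ σ, a < σ ∧ σ < s.re := exists_between hs
  have key := hasDerivAt_tsum_of_isPreconnected (𝕜 := ℂ) (F := ℂ)
    (g := fun i z => (c i : ℂ) * Complex.exp (-(z * v i)))
    (g' := fun i z => -(((v i * c i : ℝ) : ℂ) * Complex.exp (-(z * v i))))
    (t := {z : ℂ | σ < z.re}) (y := s) (y₀ := s)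
    (u := fun i => |v i * c i| * Real.exp (-(σ * v i)))
    ((ds_mul h).sm σ h1) (isOpen_lt continuous_const Complex.continuous_re)
    (convex_halfSpace_re_gt σ).isPreconnected ?_ ?_ h2 ?_ h2
  · rw [tsum_neg] at key
    exact key
  · intro i z _
    have h3 : HasDerivAt (fun y : ℂ => (c i : ℂ) * Complex.exp (-(y * (v i : ℂ))))
        ((c i : ℂ) * (Complex.exp (-(z * (v i : ℂ))) * -(1 * (v i : ℂ)))) z :=
      (((hasDerivAt_id z).mul_const (v i : ℂ)).neg.cexp).const_mul (c i : ℂ)
    refine h3.congr_deriv ?_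
    push_cast
    ring
  · intro i z hz
    have hz' : σ < z.re := hz
    rw [norm_neg, norm_mul, Ser_norm, Complex.norm_real, Real.norm_eq_abs]
    refine mul_le_mul_of_nonneg_left (Real.exp_le_exp.2 ?_) (abs_nonneg _)
    have hv := h.vpos i
    have h4 : σ * v i ≤ z.re * v i := mul_le_mul_of_nonneg_right hz'.le (by linarith)
    linarith
  · refine Summable.of_norm_bounded (h.sm s.re hs) fun i => ?_
    rw [norm_mul, Ser_norm, Complex.norm_real, Real.norm_eq_abs]

/-- The terms with `v i ≤ u` are absolutely summable: `|c i| ≤ e^{σu} |c i| e^{-σ v i}`. -/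
theorem st_bd (h : DS c v a) (σ : ℝ) (hσ : a < σ) (u : ℝ) :
    Summable (fun i => if v i ≤ u then c i else 0) ∧
    |St c v u| ≤ Real.exp (σ * u) * ∑' i, |c i| * Real.exp (-(σ * v i)) := by
  have h0 : 0 < σ := lt_of_le_of_lt h.apos hσ
  have hle : ∀ i, ‖(if v i ≤ u then c i else 0)‖ ≤
      Real.exp (σ * u) * (|c i| * Real.exp (-(σ * v i))) := by
    intro i
    split_ifs with hv
    · have h1 : 1 ≤ Real.exp (σ * u) * Real.exp (-(σ * v i)) := by
        rw [← Real.exp_add]
        refine Real.one_le_exp ?_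
        have h2 : σ * v i ≤ σ * u := mul_le_mul_of_nonneg_left hv h0.le
        linarith
      calc ‖c i‖ = |c i| * 1 := by rw [mul_one, Real.norm_eq_abs]
        _ ≤ |c i| * (Real.exp (σ * u) * Real.exp (-(σ * v i))) :=
            mul_le_mul_of_nonneg_left h1 (abs_nonneg _)
        _ = Real.exp (σ * u) * (|c i| * Real.exp (-(σ * v i))) := by ring
    · rw [norm_zero]
      positivity
  have hs := (h.sm σ hσ).mul_left (Real.exp (σ * u))
  refine ⟨Summable.of_norm_bounded hs hle, ?_⟩
  rw [← tsum_mul_left]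
  exact tsum_of_norm_bounded hs.hasSum hle

theorem Ser_mono (h : DS c v a) (hc : ∀ i, 0 ≤ c i) : Monotone (St c v) := by
  intro x y hxy
  refine Summable.tsum_le_tsum (fun i => ?_) (st_bd h (a + 1) (by linarith) x).1
    (st_bd h (a + 1) (by linarith) y).1
  split_ifs with h1 h2 h2
  · exact le_rfl
  · exact absurd (h1.trans hxy) h2
  · exact hc i
  · exact le_rfl

theorem Ser_le (h : DS c v a) (c' : ι → ℝ) (hc : ∀ i, |c' i| ≤ |c i|) : DS c' v a :=
  ⟨h.cnt, h.apos, h.vpos, fun σ hσ => Summable.of_nonneg_of_le (fun i => by positivity)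
    (fun i => mul_le_mul_of_nonneg_right (hc i) (Real.exp_pos _).le) (h.sm σ hσ)⟩

/-- A countable sum of multiples of indicator functions (`Measurable.tsum` or a limit of finite sums). -/
theorem st_meas (h : DS c v a) : Measurable (St c v) := by
  have h1 : DS (fun i => max (c i) 0) v a := Ser_le h _ fun i => by
    rw [abs_of_nonneg (le_max_right _ _)]
    exact max_le (le_abs_self _) (abs_nonneg _)
  have h2 : DS (fun i => max (-c i) 0) v a := Ser_le h _ fun i => by
    rw [abs_of_nonneg (le_max_right _ _)]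
    exact max_le (neg_le_abs _) (abs_nonneg _)
  have h3 : St c v = fun u => St (fun i => max (c i) 0) v u - St (fun i => max (-c i) 0) v u := by
    funext u
    unfold St
    rw [← Summable.tsum_sub (st_bd h1 (a + 1) (by linarith) u).1
      (st_bd h2 (a + 1) (by linarith) u).1]
    refine tsum_congr fun i => ?_
    split_ifs
    · exact (max_zero_sub_max_neg_zero_eq_self (c i)).symm
    · rw [sub_zero]
  rw [h3]
  exact (Ser_mono h1 fun i => le_max_right _ _).measurable.sub
    (Ser_mono h2 fun i => le_max_right _ _).measurable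

/-- `∫_0^∞ 1_{v ≤ u} e^{-su} du = e^{-sv}/s`, and interchange of sum and integral
(`integral_tsum` / `hasSum_integral_of_summable_norm`): `Σ |c| e^{-σv}/σ < ∞`. -/
theorem st_lap (h : DS c v a) (s : ℂ) (hs : a < s.re) :
    IntegrableOn (fun u : ℝ => (St c v u : ℂ) * Complex.exp (-(s * u))) (Set.Ioi 0) ∧
    s * ∫ u in Set.Ioi (0 : ℝ), (St c v u : ℂ) * Complex.exp (-(s * u)) = ES c v s := by
  have := h.cnt
  have h0 : 0 < s.re := lt_of_le_of_lt h.apos hs
  have hs0 : s ≠ 0 := by
    rintro rfl
    simp at h0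
  have hre : (-s).re < 0 := by
    rw [Complex.neg_re]
    linarith
  constructor
  · obtain ⟨σ, h1, h2⟩ : ∃ σ, a < σ ∧ σ < s.re := exists_between hs
    have hI := (integrableOn_exp_mul_Ioi (a := σ - s.re) (by linarith) 0).const_mul
      (∑' i, |c i| * Real.exp (-(σ * v i)))
    refine Integrable.mono' hI ?_ (Filter.Eventually.of_forall fun u => ?_)
    · refine Measurable.aestronglyMeasurable ?_
      exact (Complex.measurable_ofReal.comp (st_meas h)).mul (by fun_prop)
    · rw [norm_mul, Ser_norm, Complex.norm_real, Real.norm_eq_abs]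
      refine (mul_le_mul_of_nonneg_right (st_bd h σ h1 u).2 (Real.exp_pos _).le).trans
        (le_of_eq ?_)
      have h3 : Real.exp ((σ - s.re) * u) = Real.exp (σ * u) * Real.exp (-(s.re * u)) := by
        rw [← Real.exp_add]
        congr 1
        ring
      rw [h3]
      ring
  · have hF : ∀ i, (fun u : ℝ => ((if v i ≤ u then c i else 0 : ℝ) : ℂ) *
        Complex.exp (-(s * u))) =
        (Set.Ici (v i)).indicator (fun u : ℝ => (c i : ℂ) * Complex.exp (-s * u)) := by
      intro i
      funext u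
      by_cases hv : v i ≤ u
      · rw [if_pos hv, Set.indicator_of_mem (Set.mem_Ici.2 hv), neg_mul]
      · rw [if_neg hv, Set.indicator_of_notMem (fun h => hv (Set.mem_Ici.1 h)),
          Complex.ofReal_zero, zero_mul]
    have hN : ∀ i, (fun u : ℝ => ‖((if v i ≤ u then c i else 0 : ℝ) : ℂ) *
        Complex.exp (-(s * u))‖) =
        (Set.Ici (v i)).indicator (fun u : ℝ => |c i| * Real.exp (-s.re * u)) := by
      intro i
      funext u
      by_cases hv : v i ≤ u
      · rw [if_pos hv, Set.indicator_of_mem (Set.mem_Ici.2 hv), norm_mul, Ser_norm,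
          Complex.norm_real, Real.norm_eq_abs, neg_mul]
      · rw [if_neg hv, Set.indicator_of_notMem (fun h => hv (Set.mem_Ici.1 h)),
          Complex.ofReal_zero, zero_mul, norm_zero]
    have hset : ∀ i, Set.Ioi (0 : ℝ) ∩ Set.Ici (v i) = Set.Ici (v i) := by
      intro i
      refine Set.inter_eq_right.2 fun x hx => ?_
      have hv := h.vpos i
      have hx' : v i ≤ x := hx
      exact Set.mem_Ioi.2 (by linarith)
    have hint : ∀ i, Integrable (fun u : ℝ => ((if v i ≤ u then c i else 0 : ℝ) : ℂ) *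
        Complex.exp (-(s * u))) (volume.restrict (Set.Ioi 0)) := by
      intro i
      rw [hF i]
      exact ((integrableOn_exp_mul_complex_Ioi hre 0).const_mul (c i : ℂ)).indicator
        measurableSet_Ici
    have hval : ∀ i, ∫ u in Set.Ioi (0 : ℝ), ((if v i ≤ u then c i else 0 : ℝ) : ℂ) *
        Complex.exp (-(s * u)) = (c i : ℂ) * Complex.exp (-(s * v i)) / s := by
      intro i
      rw [hF i, setIntegral_indicator measurableSet_Ici, hset i, integral_Ici_eq_integral_Ioi,
        integral_const_mul, integral_exp_mul_complex_Ioi hre, neg_div_neg_eq, neg_mul]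
      ring
    have hnorm : ∀ i, ∫ u in Set.Ioi (0 : ℝ), ‖((if v i ≤ u then c i else 0 : ℝ) : ℂ) *
        Complex.exp (-(s * u))‖ = |c i| * Real.exp (-(s.re * v i)) / s.re := by
      intro i
      rw [hN i, setIntegral_indicator measurableSet_Ici, hset i, integral_Ici_eq_integral_Ioi,
        integral_const_mul, integral_exp_mul_Ioi (by linarith), neg_div_neg_eq, neg_mul]
      ring
    have key := hasSum_integral_of_summable_integral_norm (μ := volume.restrict (Set.Ioi 0))
      (F := fun i (u : ℝ) => ((if v i ≤ u then c i else 0 : ℝ) : ℂ) * Complex.exp (-(s * u)))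
      hint (by
        simp only [hnorm]
        exact (h.sm s.re hs).div_const _)
    have h5 : ∀ u : ℝ, ∑' i, ((if v i ≤ u then c i else 0 : ℝ) : ℂ) * Complex.exp (-(s * u)) =
        (St c v u : ℂ) * Complex.exp (-(s * u)) := by
      intro u
      rw [tsum_mul_right, St, Complex.ofReal_tsum]
    simp only [h5, hval] at key
    have h6 := key.tsum_eq
    rw [tsum_div_const] at h6
    rw [← h6]
    unfold ES
    field_simp

end W3283l
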