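import Pool.Agent.W_3283e1_lw.Om
import Pool.Agent.W_3283e1_lw.Cnt

set_option autoImplicit false

namespace W3283l

open MeasureTheory

theorem Smo_expIoi (z : ℝ) (hz : 0 < z) (b : ℝ) :
    IntegrableOn (fun a : ℝ => Real.exp (-(z * a))) (Set.Ici b) ∧
      ∫ a in Set.Ici b, Real.exp (-(z * a)) = Real.exp (-(z * b)) / z := by
  have h1 := integrableOn_exp_mul_Ioi (a := -z) (by linarith) b
  have h2 := integral_exp_mul_Ioi (a := -z) (by linarith) b
  simp only [neg_mul] at h1 h2
  refine ⟨?_, ?_⟩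
  · rw [integrableOn_Ici_iff_integrableOn_Ioi]
    exact h1
  · rw [integral_Ici_eq_integral_Ioi, h2]
    rw [neg_div_neg_eq]

theorem Smo_fub (f : ℝ → ℝ) (hf : Measurable f) (S : Set ℝ) (z : ℝ)
    (hz : 0 < z) (hint : IntegrableOn (fun b : ℝ => f b * Real.exp (-(z * b))) S) :
    ∫ a in S, (∫ b in S ∩ Set.Iic a, f b) * Real.exp (-(z * a)) =
      ∫ b in S, f b * ∫ a in S ∩ Set.Ici b, Real.exp (-(z * a)) := by
  set μ : Measure ℝ := volume.restrict S with hμ
  set D : Set (ℝ × ℝ) := {p : ℝ × ℝ | p.2 ≤ p.1} with hD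
  have hDm : MeasurableSet D := measurableSet_le measurable_snd measurable_fst
  set g : ℝ → ℝ → ℝ := fun a b => D.indicator
    (fun p : ℝ × ℝ => f p.2 * Real.exp (-(z * p.1))) (a, b) with hg
  have hgm : Measurable (Function.uncurry g) := by
    have h1 : Measurable (fun p : ℝ × ℝ => f p.2 * Real.exp (-(z * p.1))) := by
      apply (hf.comp measurable_snd).mul
      fun_prop
    exact h1.indicator hDm
  have hg1 : ∀ b a : ℝ, g a b = (Set.Ici b).indicator
      (fun a : ℝ => f b * Real.exp (-(z * a))) a := by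
    intro b a
    by_cases h : b ≤ a
    · rw [Set.indicator_of_mem (show a ∈ Set.Ici b from h)]
      exact Set.indicator_of_mem (show (a, b) ∈ D from h) _
    · rw [Set.indicator_of_notMem (show a ∉ Set.Ici b from h)]
      exact Set.indicator_of_notMem (show (a, b) ∉ D from h) _
  have hg2 : ∀ a b : ℝ, g a b = (Set.Iic a).indicator
      (fun b : ℝ => f b * Real.exp (-(z * a))) b := by
    intro a b
    by_cases h : b ≤ a
    · rw [Set.indicator_of_mem (show b ∈ Set.Iic a from h)]
      exact Set.indicator_of_mem (show (a, b) ∈ D from h) _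
    · rw [Set.indicator_of_notMem (show b ∉ Set.Iic a from h)]
      exact Set.indicator_of_notMem (show (a, b) ∉ D from h) _
  have hint1 : ∀ b : ℝ, Integrable (fun a => g a b) μ := by
    intro b
    have h1 : (fun a => g a b) = (Set.Ici b).indicator
      (fun a : ℝ => f b * Real.exp (-(z * a))) := funext fun a => hg1 b a
    rw [h1, integrable_indicator_iff measurableSet_Ici]
    exact (((Smo_expIoi z hz b).1.const_mul (f b))).mono_measure
      (Measure.restrict_mono le_rfl Measure.restrict_le_self)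
  have hnorm : ∀ b : ℝ, ∫ a, ‖g a b‖ ∂μ = |f b| * ∫ a in S ∩ Set.Ici b, Real.exp (-(z * a)) := by
    intro b
    have h1 : (fun a => ‖g a b‖) = (Set.Ici b).indicator
      (fun a : ℝ => |f b| * Real.exp (-(z * a))) := by
      funext a
      rw [hg1 b a, norm_indicator_eq_indicator_norm]
      congr 1
      funext a
      rw [norm_mul, Real.norm_eq_abs, Real.norm_of_nonneg (Real.exp_pos _).le]
    rw [h1, hμ, setIntegral_indicator measurableSet_Ici, integral_const_mul]
  have hle : ∀ b : ℝ, ∫ a in S ∩ Set.Ici b, Real.exp (-(z * a)) ≤ Real.exp (-(z * b)) / z := by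
    intro b
    rw [← (Smo_expIoi z hz b).2]
    exact setIntegral_mono_set (Smo_expIoi z hz b).1
      (Filter.Eventually.of_forall fun a => (Real.exp_pos _).le)
      (Filter.Eventually.of_forall fun a ha => ha.2)
  have hprod : Integrable (Function.uncurry g) (μ.prod μ) := by
    have hae : AEStronglyMeasurable (Function.uncurry g) (μ.prod μ) := hgm.aestronglyMeasurable
    rw [integrable_prod_iff' hae]
    refine ⟨Filter.Eventually.of_forall fun b => hint1 b, ?_⟩
    have h1 : Integrable (fun b : ℝ => ‖f b * Real.exp (-(z * b))‖ * (1 / z)) μ :=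
      hint.norm.mul_const _
    refine Integrable.mono' h1 ?_ (Filter.Eventually.of_forall fun b => ?_)
    · have h2 : StronglyMeasurable (fun p : ℝ × ℝ => ‖Function.uncurry g p.swap‖) :=
        (hgm.comp measurable_swap).norm.stronglyMeasurable
      exact (h2.integral_prod_right (ν := μ)).aestronglyMeasurable
    · simp only [Function.uncurry_apply_pair]
      rw [hnorm b, Real.norm_eq_abs, abs_mul, abs_abs,
        abs_of_nonneg (integral_nonneg fun a => (Real.exp_pos _).le), norm_mul, Real.norm_eq_abs,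
        Real.norm_of_nonneg (Real.exp_pos _).le, mul_assoc]
      refine mul_le_mul_of_nonneg_left ((hle b).trans (le_of_eq ?_)) (abs_nonneg _)
      rw [mul_one_div]
  have hsw := integral_integral_swap (μ := μ) (ν := μ) (f := g) hprod
  have hL : ∀ a : ℝ, ∫ b, g a b ∂μ = (∫ b in S ∩ Set.Iic a, f b) * Real.exp (-(z * a)) := by
    intro a
    have h1 : (fun b => g a b) = (Set.Iic a).indicator
      (fun b : ℝ => f b * Real.exp (-(z * a))) := funext fun b => hg2 a b
    rw [h1, hμ, setIntegral_indicator measurableSet_Iic, integral_mul_const]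
  have hR : ∀ b : ℝ, ∫ a, g a b ∂μ = f b * ∫ a in S ∩ Set.Ici b, Real.exp (-(z * a)) := by
    intro b
    have h1 : (fun a => g a b) = (Set.Ici b).indicator
      (fun a : ℝ => f b * Real.exp (-(z * a))) := funext fun a => hg1 b a
    rw [h1, hμ, setIntegral_indicator measurableSet_Ici, integral_const_mul]
  simp only [hL, hR] at hsw
  exact hsw


/-- Integration by parts.  By Fubini
`∫_{a>0} (∫_0^a A(U+b) db) e^{-za} da = ∫_{b>0} A(U+b) (e^{-zb}/z) db` (`|A(U+b)| ≤ C e^{3U/4} e^{3b/4}`,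
`z ≥ 1`); compare `W3283g.Ces_fub`. -/
theorem ibp_pos (A : ℝ → ℝ) (hA : Measurable A) (C : ℝ)
    (hb : ∀ u : ℝ, 0 ≤ u → |A u| ≤ C * Real.exp (3 / 4 * u)) (z U : ℝ) (hz : 1 ≤ z)
    (hU : 0 ≤ U) :
    z * ∫ a in Set.Ioi (0 : ℝ), A (U + a) * Real.exp (-(z * a)) =
      z ^ 2 * ∫ a in Set.Ioi (0 : ℝ), (∫ t in Set.Ioc U (U + a), A t) * Real.exp (-(z * a)) := by
  have hz0 : 0 < z := by linarith
  have hm : Measurable (fun b : ℝ => A (U + b)) := hA.comp (measurable_const_add U)
  have hint : IntegrableOn (fun b : ℝ => A (U + b) * Real.exp (-(z * b))) (Set.Ioi 0) := by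
    have h1 : IntegrableOn (fun b : ℝ => C * Real.exp (3 / 4 * U) *
        Real.exp (-((z - 3 / 4) * b))) (Set.Ioi 0) :=
      ((Smo_expIoi (z - 3 / 4) (by linarith) 0).1.mono_set Set.Ioi_subset_Ici_self).const_mul _
    refine Integrable.mono' h1 ?_ ?_
    · exact (hm.mul (by fun_prop)).aestronglyMeasurable
    · refine (ae_restrict_iff' measurableSet_Ioi).2 (Filter.Eventually.of_forall fun b hb0 => ?_)
      have hb1 : (0 : ℝ) < b := hb0
      rw [norm_mul, Real.norm_eq_abs, Real.norm_of_nonneg (Real.exp_pos _).le]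
      have h2 := mul_le_mul_of_nonneg_right (hb (U + b) (by linarith)) (Real.exp_pos (-(z * b))).le
      refine h2.trans (le_of_eq ?_)
      rw [mul_assoc, mul_assoc, ← Real.exp_add, ← Real.exp_add]
      congr 2
      ring
  have h := Smo_fub (fun b : ℝ => A (U + b)) hm (Set.Ioi 0) z hz0 hint
  have hL : ∫ a in Set.Ioi (0 : ℝ), (∫ b in Set.Ioi (0 : ℝ) ∩ Set.Iic a, A (U + b)) *
      Real.exp (-(z * a)) =
      ∫ a in Set.Ioi (0 : ℝ), (∫ t in Set.Ioc U (U + a), A t) * Real.exp (-(z * a)) := by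
    refine setIntegral_congr_fun measurableSet_Ioi fun a ha => ?_
    have ha0 : (0 : ℝ) < a := ha
    have h1 : Set.Ioi (0 : ℝ) ∩ Set.Iic a = Set.Ioc 0 a := rfl
    have h2 := intervalIntegral.integral_comp_add_left (a := 0) (b := a) A U
    rw [add_zero, intervalIntegral.integral_of_le ha0.le,
      intervalIntegral.integral_of_le (by linarith)] at h2
    simp only [h1, h2]
  have hR : ∫ b in Set.Ioi (0 : ℝ), A (U + b) *
      ∫ a in Set.Ioi (0 : ℝ) ∩ Set.Ici b, Real.exp (-(z * a)) =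
      (∫ a in Set.Ioi (0 : ℝ), A (U + a) * Real.exp (-(z * a))) / z := by
    rw [← integral_div]
    refine setIntegral_congr_fun measurableSet_Ioi fun b hb0 => ?_
    have hb1 : (0 : ℝ) < b := hb0
    have h1 : Set.Ioi (0 : ℝ) ∩ Set.Ici b = Set.Ici b :=
      Set.inter_eq_right.2 fun x hx => lt_of_lt_of_le hb1 hx
    simp only [h1, (Smo_expIoi z hz0 b).2]
    ring
  rw [hL, hR] at h
  rw [h]
  field_simp

/-- By Fubini on the triangle: `∫_0^U A(U-b) (∫_b^U e^{-za} da) db`,
`z ∫_b^U e^{-za} da = e^{-zb} - e^{-zU}`. -/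
theorem ibp_neg (A : ℝ → ℝ) (hA : Measurable A) (C : ℝ)
    (hb : ∀ u : ℝ, 0 ≤ u → |A u| ≤ C * Real.exp (3 / 4 * u)) (z U : ℝ) (hz : 1 ≤ z)
    (hU : 0 ≤ U) :
    z * ∫ a in Set.Ioc (0 : ℝ) U, A (U - a) * Real.exp (-(z * a)) =
      z * Real.exp (-(z * U)) * (∫ t in Set.Ioc 0 U, A t) +
      z ^ 2 * ∫ a in Set.Ioc (0 : ℝ) U,
        (∫ t in Set.Ioc (U - a) U, A t) * Real.exp (-(z * a)) := by
  have hz0 : 0 < z := by linarith
  have hm : Measurable (fun b : ℝ => A (U - b)) := hA.comp (measurable_const.sub measurable_id)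
  have hC0 : 0 ≤ C := by
    have h1 := (abs_nonneg _).trans (hb 0 le_rfl)
    rw [mul_zero, Real.exp_zero, mul_one] at h1
    exact h1
  have hfin : volume (Set.Ioc (0 : ℝ) U) ≠ ⊤ := by simp
  have hbd : ∀ b ∈ Set.Ioc (0 : ℝ) U, |A (U - b)| ≤ C * Real.exp (3 / 4 * U) := by
    intro b hb0
    refine (hb (U - b) (by linarith [hb0.2])).trans ?_
    exact mul_le_mul_of_nonneg_left (Real.exp_le_exp.2 (by linarith [hb0.1])) hC0
  have hint0 : IntegrableOn (fun b : ℝ => A (U - b)) (Set.Ioc 0 U) := by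
    have h1 : IntegrableOn (fun _ : ℝ => C * Real.exp (3 / 4 * U)) (Set.Ioc 0 U) :=
      integrableOn_const hfin
    refine Integrable.mono' h1 hm.aestronglyMeasurable ?_
    exact (ae_restrict_iff' measurableSet_Ioc).2 (Filter.Eventually.of_forall fun b hb0 =>
      hbd b hb0)
  have hint : IntegrableOn (fun b : ℝ => A (U - b) * Real.exp (-(z * b))) (Set.Ioc 0 U) := by
    have h1 : IntegrableOn (fun _ : ℝ => C * Real.exp (3 / 4 * U)) (Set.Ioc 0 U) :=
      integrableOn_const hfin
    refine Integrable.mono' h1 (hm.mul (by fun_prop)).aestronglyMeasurable ?_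
    refine (ae_restrict_iff' measurableSet_Ioc).2 (Filter.Eventually.of_forall fun b hb0 => ?_)
    rw [norm_mul, Real.norm_eq_abs, Real.norm_of_nonneg (Real.exp_pos _).le]
    refine (mul_le_mul (hbd b hb0) (?_ : Real.exp (-(z * b)) ≤ 1) (Real.exp_pos _).le
      (by positivity)).trans (le_of_eq (mul_one _))
    rw [Real.exp_le_one_iff]
    have := mul_pos hz0 hb0.1
    linarith
  have h := Smo_fub (fun b : ℝ => A (U - b)) hm (Set.Ioc 0 U) z hz0 hint
  have hL : ∫ a in Set.Ioc (0 : ℝ) U, (∫ b in Set.Ioc (0 : ℝ) U ∩ Set.Iic a, A (U - b)) *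
      Real.exp (-(z * a)) =
      ∫ a in Set.Ioc (0 : ℝ) U, (∫ t in Set.Ioc (U - a) U, A t) * Real.exp (-(z * a)) := by
    refine setIntegral_congr_fun measurableSet_Ioc fun a ha => ?_
    have h1 : Set.Ioc (0 : ℝ) U ∩ Set.Iic a = Set.Ioc 0 a := by
      ext x
      simp only [Set.mem_inter_iff, Set.mem_Ioc, Set.mem_Iic]
      exact ⟨fun hx => ⟨hx.1.1, hx.2⟩, fun hx => ⟨⟨hx.1, hx.2.trans ha.2⟩, hx.2⟩⟩
    have h2 := intervalIntegral.integral_comp_sub_left (a := 0) (b := a) A U
    rw [sub_zero, intervalIntegral.integral_of_le ha.1.le,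
      intervalIntegral.integral_of_le (by linarith [ha.1])] at h2
    simp only [h1, h2]
  have hE : ∀ b ∈ Set.Ioc (0 : ℝ) U, ∫ a in Set.Icc b U, Real.exp (-(z * a)) =
      (Real.exp (-(z * b)) - Real.exp (-(z * U))) / z := by
    intro b hb0
    rw [integral_Icc_eq_integral_Ioc, ← intervalIntegral.integral_of_le hb0.2]
    have h3 := intervalIntegral.integral_comp_mul_left (a := b) (b := U)
      (fun x => Real.exp x) (c := -z) (by linarith : -z ≠ 0)
    simp only [neg_mul, integral_exp, smul_eq_mul] at h3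
    rw [h3]
    field_simp
    ring
  have hR : ∫ b in Set.Ioc (0 : ℝ) U, A (U - b) *
      ∫ a in Set.Ioc (0 : ℝ) U ∩ Set.Ici b, Real.exp (-(z * a)) =
      ((∫ a in Set.Ioc (0 : ℝ) U, A (U - a) * Real.exp (-(z * a))) -
        Real.exp (-(z * U)) * ∫ a in Set.Ioc (0 : ℝ) U, A (U - a)) / z := by
    rw [← integral_const_mul, ← integral_sub hint (hint0.const_mul _), ← integral_div]
    refine setIntegral_congr_fun measurableSet_Ioc fun b hb0 => ?_
    have h1 : Set.Ioc (0 : ℝ) U ∩ Set.Ici b = Set.Icc b U := by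
      ext x
      simp only [Set.mem_inter_iff, Set.mem_Ioc, Set.mem_Ici, Set.mem_Icc]
      exact ⟨fun hx => ⟨hx.2, hx.1.2⟩, fun hx => ⟨⟨lt_of_lt_of_le hb0.1 hx.1, hx.2⟩, hx.1⟩⟩
    simp only [h1, hE b hb0]
    ring
  have hA0 : ∫ a in Set.Ioc (0 : ℝ) U, A (U - a) = ∫ t in Set.Ioc 0 U, A t := by
    have h2 := intervalIntegral.integral_comp_sub_left (a := 0) (b := U) A U
    rw [sub_zero, sub_self, intervalIntegral.integral_of_le hU,
      intervalIntegral.integral_of_le hU] at h2
    exact h2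
  rw [hL, hR, hA0] at h
  rw [h]
  field_simp
  ring

variable {ι : Type} {γ m : ι → ℝ}

theorem Smo_re (a b : ℝ) : ((a : ℂ) + (b : ℂ) * Complex.I).re = a := by simp

theorem Smo_im (a b : ℝ) : ((a : ℂ) + (b : ℂ) * Complex.I).im = b := by simp

theorem Smo_mul (a b c d : ℝ) : ((a : ℂ) + (b : ℂ) * Complex.I) * ((c : ℂ) + (d : ℂ) * Complex.I) =
    ((a * c - b * d : ℝ) : ℂ) + ((a * d + b * c : ℝ) : ℂ) * Complex.I := by
  apply Complex.ext <;> simp

theorem Smo_trig (g z : ℝ) (hz : 0 < z) :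
    (IntegrableOn (fun a : ℝ => Real.cos (g * a) * Real.exp (-(z * a))) (Set.Ioi 0) ∧
      ∫ a in Set.Ioi (0 : ℝ), Real.cos (g * a) * Real.exp (-(z * a)) = z / (z ^ 2 + g ^ 2)) ∧
    (IntegrableOn (fun a : ℝ => Real.sin (g * a) * Real.exp (-(z * a))) (Set.Ioi 0) ∧
      ∫ a in Set.Ioi (0 : ℝ), Real.sin (g * a) * Real.exp (-(z * a)) = g / (z ^ 2 + g ^ 2)) := by
  set c : ℂ := (-z : ℝ) + (g : ℝ) * Complex.I with hc
  have hre : c.re < 0 := by
    simp [hc]
    exact hz
  have h1 := integrableOn_exp_mul_complex_Ioi hre 0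
  have h2 := integral_exp_mul_complex_Ioi hre 0
  have hval : ∀ a : ℝ, Complex.exp (c * a) =
      ((Real.cos (g * a) * Real.exp (-(z * a)) : ℝ) : ℂ) +
      ((Real.sin (g * a) * Real.exp (-(z * a)) : ℝ) : ℂ) * Complex.I := by
    intro a
    have h3 : c * a = ((-(z * a) : ℝ) : ℂ) + ((g * a : ℝ) : ℂ) * Complex.I := by
      rw [hc]
      push_cast
      ring
    rw [h3, Complex.exp_add, Complex.exp_mul_I, ← Complex.ofReal_exp, ← Complex.ofReal_cos,
      ← Complex.ofReal_sin]
    push_cast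
    ring
  have hrv : ∀ a : ℝ, (Complex.exp (c * a)).re = Real.cos (g * a) * Real.exp (-(z * a)) := by
    intro a
    rw [hval a, Smo_re]
  have hiv : ∀ a : ℝ, (Complex.exp (c * a)).im = Real.sin (g * a) * Real.exp (-(z * a)) := by
    intro a
    rw [hval a, Smo_im]
  have hne : z ^ 2 + g ^ 2 ≠ 0 := by positivity
  have hI : ∫ a in Set.Ioi (0 : ℝ), Complex.exp (c * a) =
      ((z / (z ^ 2 + g ^ 2) : ℝ) : ℂ) + ((g / (z ^ 2 + g ^ 2) : ℝ) : ℂ) * Complex.I := by
    have h2' : ∫ a in Set.Ioi (0 : ℝ), Complex.exp (c * a) = -1 / c := by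
      have h4 := h2
      simp only [Complex.ofReal_zero, mul_zero, Complex.exp_zero] at h4
      exact h4
    rw [h2']
    have hc0 : c ≠ 0 := by
      intro h
      rw [h] at hre
      simp at hre
    rw [div_eq_iff hc0, hc, Smo_mul]
    have e1 : z / (z ^ 2 + g ^ 2) * -z - g / (z ^ 2 + g ^ 2) * g = -1 := by
      field_simp
      ring
    have e2 : z / (z ^ 2 + g ^ 2) * g + g / (z ^ 2 + g ^ 2) * -z = 0 := by
      field_simp
      ring
    rw [e1, e2]
    simp
  have hr := integral_re h1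
  have hi := integral_im h1
  simp only [RCLike.re_to_complex, RCLike.im_to_complex] at hr hi
  refine ⟨⟨?_, ?_⟩, ⟨?_, ?_⟩⟩
  · have h5 := h1.re
    simp only [RCLike.re_to_complex, hrv] at h5
    exact h5
  · have h6 : ∫ a in Set.Ioi (0 : ℝ), (Complex.exp (c * a)).re =
        ∫ a in Set.Ioi (0 : ℝ), Real.cos (g * a) * Real.exp (-(z * a)) := by simp only [hrv]
    rw [← h6, hr, hI, Smo_re]
  · have h5 := h1.im
    simp only [RCLike.im_to_complex, hiv] at h5
    exact h5
  · have h6 : ∫ a in Set.Ioi (0 : ℝ), (Complex.exp (c * a)).im =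
        ∫ a in Set.Ioi (0 : ℝ), Real.sin (g * a) * Real.exp (-(z * a)) := by simp only [hiv]
    rw [← h6, hi, hI, Smo_im]

/-- One frequency: `∫_{a>0} cos (γ a) e^{-za} da = z/(z²+γ²)`, `∫ sin (γ a) e^{-za} = γ/(z²+γ²)` (real
and imaginary parts of `∫ e^{-(z - iγ) a} da = 1/(z - iγ)`) and the addition theorem. -/
theorem trig_one (g η z U : ℝ) (hη : η = 1 ∨ η = -1) (hz : 0 < z) :
    IntegrableOn (fun a : ℝ =>
      η * (Real.cos (g * U) - Real.cos (g * (U + η * a))) * Real.exp (-(z * a))) (Set.Ioi 0) ∧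
    z ^ 2 * ∫ a in Set.Ioi (0 : ℝ),
        η * (Real.cos (g * U) - Real.cos (g * (U + η * a))) * Real.exp (-(z * a)) =
      g * z * (z * Real.sin (g * U) + η * g * Real.cos (g * U)) / (z ^ 2 + g ^ 2) := by
  obtain ⟨⟨hc1, hc2⟩, ⟨hs1, hs2⟩⟩ := Smo_trig g z hz
  have he1 : IntegrableOn (fun a : ℝ => Real.exp (-(z * a))) (Set.Ioi 0) :=
    (Smo_expIoi z hz 0).1.mono_set Set.Ioi_subset_Ici_self
  have he2 : ∫ a in Set.Ioi (0 : ℝ), Real.exp (-(z * a)) = 1 / z := by
    have h := (Smo_expIoi z hz 0).2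
    rw [integral_Ici_eq_integral_Ioi, mul_zero, neg_zero, Real.exp_zero] at h
    exact h
  have hf : ∀ a : ℝ, η * (Real.cos (g * U) - Real.cos (g * (U + η * a))) * Real.exp (-(z * a)) =
      η * Real.cos (g * U) * Real.exp (-(z * a)) -
        η * Real.cos (g * U) * (Real.cos (g * a) * Real.exp (-(z * a))) +
        Real.sin (g * U) * (Real.sin (g * a) * Real.exp (-(z * a))) := by
    intro a
    rcases hη with rfl | rfl
    · rw [show g * (U + 1 * a) = g * U + g * a by ring, Real.cos_add]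
      ring
    · rw [show g * (U + -1 * a) = g * U - g * a by ring, Real.cos_sub]
      ring
  have hi1 := he1.const_mul (η * Real.cos (g * U))
  have hi2 := hc1.const_mul (η * Real.cos (g * U))
  have hi3 := hs1.const_mul (Real.sin (g * U))
  have hi12 : Integrable (fun a : ℝ => η * Real.cos (g * U) * Real.exp (-(z * a)) -
        η * Real.cos (g * U) * (Real.cos (g * a) * Real.exp (-(z * a))))
        (volume.restrict (Set.Ioi 0)) := hi1.sub hi2
  simp only [hf]
  refine ⟨hi12.add hi3, ?_⟩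
  rw [integral_add hi12 hi3, integral_sub hi1 hi2, integral_const_mul,
    integral_const_mul, integral_const_mul, he2, hc2, hs2]
  have hne : z ^ 2 + g ^ 2 ≠ 0 := by positivity
  field_simp
  ring

/-- `trig_one` summed with the weights `2m/γ²` (`integral_tsum` or `hasSum_integral_of_summable_norm`:
the terms are at most `4 m/γ² e^{-za}`). -/
theorem trig_sum (h : ZD γ m) (η z U : ℝ) (hη : η = 1 ∨ η = -1) (hz : 1 ≤ z) :
    IntegrableOn (fun a : ℝ => (∑' i, 2 * m i / (γ i) ^ 2 *
      (η * (Real.cos (γ i * U) - Real.cos (γ i * (U + η * a))))) * Real.exp (-(z * a)))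
        (Set.Ioi 0) ∧
    z ^ 2 * ∫ a in Set.Ioi (0 : ℝ), (∑' i, 2 * m i / (γ i) ^ 2 *
      (η * (Real.cos (γ i * U) - Real.cos (γ i * (U + η * a))))) * Real.exp (-(z * a)) =
      Vz γ m η z U := by
  have hz0 : 0 < z := by linarith
  have hw : ∀ i, 0 < m i / (γ i) ^ 2 := fun i => by
    have h1 := h.pos i
    have h2 := h.one i
    positivity
  have hcount : Countable ι := by
    have h1 := h.sm.countable_support
    have h2 : Function.support (fun i => m i / (γ i) ^ 2) = Set.univ := by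
      ext i
      simp only [Function.mem_support, Set.mem_univ, iff_true]
      exact (hw i).ne'
    rw [h2] at h1
    exact Set.countable_univ_iff.1 h1
  have hηabs : |η| = 1 := by
    rcases hη with rfl | rfl <;> simp
  have hterm : ∀ (i : ι) (a : ℝ), ‖2 * m i / (γ i) ^ 2 *
      (η * (Real.cos (γ i * U) - Real.cos (γ i * (U + η * a))))‖ ≤ 4 * (m i / (γ i) ^ 2) := by
    intro i a
    have h1 : |Real.cos (γ i * U) - Real.cos (γ i * (U + η * a))| ≤ 2 := by
      rw [abs_le]
      constructor <;> linarith [Real.cos_le_one (γ i * U), Real.neg_one_le_cos (γ i * U),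
        Real.cos_le_one (γ i * (U + η * a)), Real.neg_one_le_cos (γ i * (U + η * a))]
    rw [norm_mul, norm_mul, Real.norm_eq_abs, Real.norm_eq_abs, Real.norm_eq_abs, hηabs, one_mul]
    have h2 : |2 * m i / (γ i) ^ 2| = 2 * (m i / (γ i) ^ 2) := by
      rw [abs_of_nonneg (by have := hw i; rw [mul_div_assoc]; positivity), mul_div_assoc]
    rw [h2]
    nlinarith [hw i]
  have hsum4 : Summable (fun i => 4 * (m i / (γ i) ^ 2)) := h.sm.mul_left 4
  have hcont : Continuous (fun a : ℝ => ∑' i, 2 * m i / (γ i) ^ 2 *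
      (η * (Real.cos (γ i * U) - Real.cos (γ i * (U + η * a))))) :=
    continuous_tsum (fun i => by fun_prop) hsum4 fun i a => hterm i a
  have he1 : IntegrableOn (fun a : ℝ => Real.exp (-(z * a))) (Set.Ioi 0) :=
    (Smo_expIoi z hz0 0).1.mono_set Set.Ioi_subset_Ici_self
  have he2 : ∫ a in Set.Ioi (0 : ℝ), Real.exp (-(z * a)) = 1 / z := by
    have h := (Smo_expIoi z hz0 0).2
    rw [integral_Ici_eq_integral_Ioi, mul_zero, neg_zero, Real.exp_zero] at h
    exact h
  have hint : IntegrableOn (fun a : ℝ => (∑' i, 2 * m i / (γ i) ^ 2 *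
      (η * (Real.cos (γ i * U) - Real.cos (γ i * (U + η * a))))) * Real.exp (-(z * a)))
        (Set.Ioi 0) := by
    refine Integrable.mono' (he1.const_mul (∑' i, 4 * (m i / (γ i) ^ 2))) ?_ ?_
    · exact (hcont.mul (by fun_prop)).aestronglyMeasurable
    · refine Filter.Eventually.of_forall fun a => ?_
      rw [norm_mul, Real.norm_of_nonneg (Real.exp_pos (-(z * a))).le]
      refine mul_le_mul_of_nonneg_right ?_ (Real.exp_pos _).le
      exact tsum_of_norm_bounded hsum4.hasSum fun i => hterm i a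
  refine ⟨hint, ?_⟩
  set F : ι → ℝ → ℝ := fun i a => 2 * m i / (γ i) ^ 2 *
      (η * (Real.cos (γ i * U) - Real.cos (γ i * (U + η * a)))) * Real.exp (-(z * a)) with hF
  have hFint : ∀ i, Integrable (F i) (volume.restrict (Set.Ioi (0 : ℝ))) := by
    intro i
    have h1 := ((trig_one (γ i) η z U hη hz0).1).const_mul (2 * m i / (γ i) ^ 2)
    refine h1.congr (Filter.Eventually.of_forall fun a => ?_)
    simp only [hF]
    ring
  have hFsum : Summable fun i => ∫ a in Set.Ioi (0 : ℝ), ‖F i a‖ := by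
    refine Summable.of_nonneg_of_le (fun i => integral_nonneg fun a => norm_nonneg _)
      (fun i => ?_) (hsum4.mul_right (1 / z))
    rw [← he2, ← integral_const_mul]
    refine integral_mono (hFint i).norm (he1.const_mul _) fun a => ?_
    simp only [hF]
    rw [norm_mul, Real.norm_of_nonneg (Real.exp_pos (-(z * a))).le]
    exact mul_le_mul_of_nonneg_right (hterm i a) (Real.exp_pos _).le
  have hhs := hasSum_integral_of_summable_integral_norm hFint hFsum
  have heq : ∫ a in Set.Ioi (0 : ℝ), (∑' i, 2 * m i / (γ i) ^ 2 *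
      (η * (Real.cos (γ i * U) - Real.cos (γ i * (U + η * a))))) * Real.exp (-(z * a)) =
      ∑' i, ∫ a in Set.Ioi (0 : ℝ), F i a := by
    rw [hhs.tsum_eq]
    refine integral_congr_ae (Filter.Eventually.of_forall fun a => ?_)
    simp only [hF]
    rw [tsum_mul_right]
  rw [heq, ← tsum_mul_left]
  unfold Vz
  refine tsum_congr fun i => ?_
  have h1 := (trig_one (γ i) η z U hη hz0).2
  have h2 : ∫ a in Set.Ioi (0 : ℝ), F i a = 2 * m i / (γ i) ^ 2 * ∫ a in Set.Ioi (0 : ℝ),
        η * (Real.cos (γ i * U) - Real.cos (γ i * (U + η * a))) * Real.exp (-(z * a)) := by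
    rw [← integral_const_mul]
    refine integral_congr_ae (Filter.Eventually.of_forall fun a => ?_)
    simp only [hF]
    ring
  rw [h2, mul_left_comm, h1]
  have h3 := h.pos i
  have h4 : z ^ 2 + (γ i) ^ 2 ≠ 0 := by positivity
  field_simp

end W3283l
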