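import Pool.Agent.W_3283e1_lw.SmoN

set_option autoImplicit false

namespace W3283l

open MeasureTheory

variable {ι : Type} {γ m : ι → ℝ}

/-- `∫_U^{U+a} A = Σ 2m/γ² (cos γU - cos γ(U+a)) + c3 a - ∫_U^{U+a} om` (difference of `hA.ex` at
`U + a` and `U`; the sums converge absolutely), so by `ibp_pos` and `trig_sum` with `η = 1` the
difference is `z² ∫ c3 a e^{-za} - z² ∫ (∫_U^{U+a} om) e^{-za}`; the first is `c3`, and
`0 ≤ ∫_U^{U+a} om ≤ a om 1` for `U ≥ 1`. -/
theorem smo_pos (hZ : ZD γ m) (A : ℝ → ℝ) (hA : EF γ m A) : ∃ C : ℝ, 0 ≤ C ∧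
    ∀ z U : ℝ, 1 ≤ z → 1 ≤ U →
      |z * (∫ a in Set.Ioi (0 : ℝ), A (U + a) * Real.exp (-(z * a))) - Vz γ m 1 z U| ≤ C := by
  obtain ⟨C₀, hC₀⟩ := hA.bd
  obtain ⟨c3, hex⟩ := hA.ex
  have hom : 0 ≤ om 1 := om_nonneg _ one_pos
  have hc3 := abs_nonneg c3
  refine ⟨|c3| + om 1, by positivity, fun z U hz hU => ?_⟩
  have hz0 : 0 < z := by linarith
  have hU0 : 0 ≤ U := by linarith
  have hz2 : 0 < z ^ 2 := by positivity
  obtain ⟨hi1, hv1⟩ := SmoN_exp1 z hz
  -- integrability of A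
  have hC0 : 0 ≤ C₀ := by
    have h1 := hC₀ 0 le_rfl
    rw [mul_zero, Real.exp_zero, mul_one] at h1
    exact (abs_nonneg _).trans h1
  have hAi : ∀ u, IntegrableOn A (Set.Ioc 0 u) := by
    intro v
    refine Measure.integrableOn_of_bounded (M := C₀ * Real.exp (3 / 4 * v)) (by simp)
      hA.meas.aestronglyMeasurable ?_
    refine (ae_restrict_iff' measurableSet_Ioc).2 (Filter.Eventually.of_forall fun u hu => ?_)
    refine (hC₀ u hu.1.le).trans (mul_le_mul_of_nonneg_left ?_ hC0)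
    exact Real.exp_le_exp.2 (by linarith [hu.2])
  have homi : ∀ u, IntegrableOn om (Set.Ioc 0 u) := fun u =>
    om_int.mono_set Set.Ioc_subset_Ioi_self
  have homi' : ∀ u, IntegrableOn om (Set.Ioc U u) := fun u =>
    om_int.mono_set fun t ht => lt_of_le_of_lt hU0 ht.1
  -- the functions
  let T : ℝ → ℝ := fun a => ∑' i, 2 * m i / (γ i) ^ 2 *
      (1 * (Real.cos (γ i * U) - Real.cos (γ i * (U + 1 * a))))
  let Pf : ℝ → ℝ := fun a => ∫ t in Set.Ioc U (U + a), om t
  let IA : ℝ → ℝ := fun a => ∫ t in Set.Ioc U (U + a), A t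
  obtain ⟨hTi, hTv⟩ := trig_sum hZ 1 z U (Or.inl rfl) hz
  have hTi' : IntegrableOn (fun a => T a * Real.exp (-(z * a))) (Set.Ioi 0) := hTi
  have hTv' : z ^ 2 * ∫ a in Set.Ioi (0 : ℝ), T a * Real.exp (-(z * a)) = Vz γ m 1 z U := hTv
  have hcos : ∀ x : ℝ, |1 - Real.cos x| ≤ 2 := fun x => by
    rw [abs_le]
    constructor <;> linarith [Real.cos_le_one x, Real.neg_one_le_cos x]
  have hIA : ∀ a, 0 ≤ a → IA a = T a + c3 * a - Pf a := by
    intro a ha
    have h1 := hex U hU0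
    have h2 := hex (U + a) (by linarith)
    have h3 := SmoN_split A (U + a) a (hAi _) ha (by linarith)
    have h4 := SmoN_split om (U + a) a (homi _) ha (by linarith)
    rw [add_sub_cancel_right] at h3 h4
    have h5 : T a = (∑' i, 2 * m i / (γ i) ^ 2 * (1 - Real.cos (γ i * (U + a)))) -
        ∑' i, 2 * m i / (γ i) ^ 2 * (1 - Real.cos (γ i * U)) := by
      rw [← (SmoN_tsum hZ _ fun i => hcos (γ i * (U + a))).1.tsum_sub
        (SmoN_tsum hZ _ fun i => hcos (γ i * U)).1]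
      refine tsum_congr fun i => ?_
      rw [one_mul, one_mul]
      ring
    change ∫ t in Set.Ioc U (U + a), A t = T a + c3 * a - ∫ t in Set.Ioc U (U + a), om t
    rw [h3, h4, h1, h2, h5]
    ring
  have hPf : ∀ a, 0 ≤ a → 0 ≤ Pf a ∧ Pf a ≤ om 1 * a := by
    intro a ha
    have h0 : 0 ≤ Pf a := setIntegral_nonneg measurableSet_Ioc fun t ht =>
      om_nonneg t (lt_of_le_of_lt hU0 ht.1)
    refine ⟨h0, ?_⟩
    have h3 : Pf a ≤ ∫ t in Set.Ioc U (U + a), om 1 := by
      refine setIntegral_mono_on (homi' _) (by simp) measurableSet_Ioc fun t ht => ?_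
      exact om_anti 1 t one_pos (by linarith [ht.1])
    rw [setIntegral_const, smul_eq_mul] at h3
    have h4 : volume.real (Set.Ioc U (U + a)) = a := by
      rw [Real.volume_real_Ioc_of_le (by linarith)]
      ring
    rw [h4] at h3
    linarith
  have hPm : Measurable Pf := by
    refine Monotone.measurable fun a b hab => ?_
    refine setIntegral_mono_set (homi' _) ?_ ?_
    · exact (ae_restrict_iff' measurableSet_Ioc).2
        (Filter.Eventually.of_forall fun t ht => om_nonneg t (lt_of_le_of_lt hU0 ht.1))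
    · exact Filter.Eventually.of_forall fun t ht => ⟨ht.1, ht.2.trans (by linarith)⟩
  have hbd : ∀ a ∈ Set.Ioi (0 : ℝ), ‖(c3 * a - Pf a) * Real.exp (-(z * a))‖ ≤
      (|c3| + om 1) * (a * Real.exp (-(z * a))) := by
    intro a ha0
    have ha0' : (0 : ℝ) < a := ha0
    obtain ⟨hp1, hp2⟩ := hPf a ha0'.le
    rw [Real.norm_eq_abs, abs_mul, abs_of_pos (Real.exp_pos _), ← mul_assoc]
    refine mul_le_mul_of_nonneg_right ?_ (Real.exp_pos _).le
    have h5 : |c3 * a| = |c3| * a := by rw [abs_mul, abs_of_pos ha0']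
    have h6 := abs_sub (c3 * a) (Pf a)
    rw [h5, abs_of_nonneg hp1] at h6
    nlinarith
  have hRi : IntegrableOn (fun a => (c3 * a - Pf a) * Real.exp (-(z * a))) (Set.Ioi 0) := by
    refine Integrable.mono' (hi1.const_mul (|c3| + om 1)) ?_ ?_
    · refine Measurable.aestronglyMeasurable ?_
      exact ((measurable_const.mul measurable_id).sub hPm).mul (by fun_prop)
    · exact (ae_restrict_iff' measurableSet_Ioi).2 (Filter.Eventually.of_forall hbd)
  have hI := ibp_pos A hA.meas C₀ hC₀ z U hz hU0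
  have hsum : ∫ a in Set.Ioi (0 : ℝ), (∫ t in Set.Ioc U (U + a), A t) * Real.exp (-(z * a)) =
      (∫ a in Set.Ioi (0 : ℝ), T a * Real.exp (-(z * a))) +
        ∫ a in Set.Ioi (0 : ℝ), (c3 * a - Pf a) * Real.exp (-(z * a)) := by
    rw [← integral_add hTi' hRi]
    refine setIntegral_congr_fun measurableSet_Ioi fun a ha => ?_
    have ha0' : (0 : ℝ) < a := ha
    have h1 := hIA a ha0'.le
    have h2 : ∫ t in Set.Ioc U (U + a), A t = T a + c3 * a - Pf a := h1
    rw [h2]
    ring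
  have hb3 : |∫ a in Set.Ioi (0 : ℝ), (c3 * a - Pf a) * Real.exp (-(z * a))| ≤
      (|c3| + om 1) * ∫ a in Set.Ioi (0 : ℝ), a * Real.exp (-(z * a)) := by
    rw [← integral_const_mul, ← Real.norm_eq_abs]
    exact norm_integral_le_of_norm_le (hi1.const_mul _)
      ((ae_restrict_iff' measurableSet_Ioi).2 (Filter.Eventually.of_forall hbd))
  rw [hI, hsum, mul_add, hTv', add_sub_cancel_left, abs_mul, abs_of_pos hz2]
  have h1 := mul_le_mul_of_nonneg_left hb3 hz2.le
  have h2 : z ^ 2 * ((|c3| + om 1) *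
      ∫ a in Set.Ioi (0 : ℝ), a * Real.exp (-(z * a))) = |c3| + om 1 := by
    linear_combination (|c3| + om 1) * hv1
  linarith

end W3283l
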