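import Mathlib

set_option autoImplicit false

namespace W3283l

open MeasureTheory

/-- `f` takes values of alternating signs at `n + 1` increasing points of `S`: `n` changes of sign. -/
def Alt (f : ℝ → ℝ) (S : Set ℝ) (n : ℕ) : Prop :=
  ∃ (η : ℝ) (x : ℕ → ℝ), (η = 1 ∨ η = -1) ∧ (∀ i < n, x i < x (i + 1)) ∧
    ∀ i ≤ n, x i ∈ S ∧ 0 < η * (-1) ^ i * f (x i)

/-- The mean value theorem: between two points of a strictly alternating sequence the derivative has
the sign of the increment. -/
theorem alt_deriv (b b' : ℝ → ℝ) (hb : ∀ x, HasDerivAt b (b' x) x) (n : ℕ)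
    (h : Alt b Set.univ (n + 1)) : Alt b' Set.univ n := by
  obtain ⟨η, x, hη, hx, hs⟩ := h
  have hmvt : ∀ i : ℕ, i ≤ n → ∃ ξ, x i < ξ ∧ ξ < x (i + 1) ∧
      b' ξ = (b (x (i + 1)) - b (x i)) / (x (i + 1) - x i) := by
    intro i hi
    have hlt := hx i (by omega)
    obtain ⟨ξ, hξ, he⟩ := exists_hasDerivAt_eq_slope b b' hlt
      (fun y _ => (hb y).continuousAt.continuousWithinAt) (fun y _ => hb y)
    exact ⟨ξ, hξ.1, hξ.2, he⟩
  choose! y hy1 hy2 hy3 using hmvt
  refine ⟨-η, y, by rcases hη with h | h <;> simp [h], ?_, ?_⟩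
  · intro i hi
    exact (hy2 i hi.le).trans (hy1 (i + 1) hi)
  · intro i hi
    refine ⟨Set.mem_univ _, ?_⟩
    have h1 := (hs i (by omega)).2
    have h2 := (hs (i + 1) (by omega)).2
    have hlt := hx i (by omega)
    rw [hy3 i hi, mul_div_assoc']
    apply div_pos _ (by linarith)
    rw [pow_succ] at h2
    have e : -η * (-1) ^ i * (b (x (i + 1)) - b (x i))
        = η * ((-1) ^ i * -1) * b (x (i + 1)) + η * (-1) ^ i * b (x i) := by ring
    rw [e]
    exact add_pos h2 h1

/-- The Mellin moments `∫_{[u0,R]} u^x f` and their derivatives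
(`hasDerivAt_integral_of_dominated_loc_of_deriv_le`; `f` bounded, `u^x |log u|` bounded for
`u ∈ [u0,R]`, `x` in a ball).  With the factor `c^{-x}`. -/
theorem mom_deriv (f : ℝ → ℝ) (hf : Measurable f) (M : ℝ) (hM : ∀ u, |f u| ≤ M) (u0 R c : ℝ)
    (h0 : 0 < u0) (hc : 0 < c) (x : ℝ) :
    HasDerivAt (fun x : ℝ => c ^ (-x) * ∫ u in Set.Icc u0 R, u ^ x * f u)
      (c ^ (-x) * ∫ u in Set.Icc u0 R, u ^ x * (Real.log (u / c) * f u)) x := by
  have hM0 : 0 ≤ M := le_trans (abs_nonneg _) (hM 0)
  set S : Set ℝ := Set.Icc u0 R with hS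
  have hSm : MeasurableSet S := measurableSet_Icc
  have hSpos : ∀ u ∈ S, 0 < u := fun u hu => lt_of_lt_of_le h0 hu.1
  -- continuity of integrands in `u` on `S`
  have hF : HasDerivAt (fun x : ℝ => ∫ u in S, u ^ x * f u)
      (∫ u in S, u ^ x * Real.log u * f u) x := by
    set K : ℝ := |Real.log u0| + |Real.log R| with hK
    have hlog : ∀ u ∈ S, |Real.log u| ≤ K := by
      intro u hu
      have h1 : Real.log u0 ≤ Real.log u := Real.log_le_log h0 hu.1
      have h2 : Real.log u ≤ Real.log R := Real.log_le_log (hSpos u hu) hu.2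
      rw [abs_le]
      constructor
      · have := neg_abs_le (Real.log u0); have := abs_nonneg (Real.log R); linarith
      · have := le_abs_self (Real.log R); have := abs_nonneg (Real.log u0); linarith
    have hK0 : 0 ≤ K := by positivity
    have hpow : ∀ u ∈ S, ∀ y : ℝ, |y| ≤ |x| + 1 → u ^ y ≤ Real.exp (K * (|x| + 1)) := by
      intro u hu y hy
      rw [Real.rpow_def_of_pos (hSpos u hu)]
      apply Real.exp_le_exp.2
      calc Real.log u * y ≤ |Real.log u * y| := le_abs_self _
        _ = |Real.log u| * |y| := abs_mul _ _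
        _ ≤ K * (|x| + 1) := mul_le_mul (hlog u hu) hy (abs_nonneg _) hK0
    have hmeas : ∀ y : ℝ, Measurable (fun u : ℝ => u ^ y) := fun y => by fun_prop
    have hfin : volume S ≠ ⊤ := by rw [hS]; exact (measure_Icc_lt_top).ne
    have hfm : IsFiniteMeasure (volume.restrict S) := ⟨by
      rw [Measure.restrict_apply_univ]; exact lt_of_le_of_ne le_top hfin⟩
    have hres := hasDerivAt_integral_of_dominated_loc_of_deriv_le
      (μ := volume.restrict S) (F := fun (y : ℝ) (u : ℝ) => u ^ y * f u)
      (F' := fun (y : ℝ) (u : ℝ) => u ^ y * Real.log u * f u) (x₀ := x) (s := Metric.ball x 1)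
      (bound := fun _ => Real.exp (K * (|x| + 1)) * K * M)
      (Metric.ball_mem_nhds x one_pos)
      (Filter.Eventually.of_forall fun y => ((hmeas y).mul hf).aestronglyMeasurable)
      (by
        refine Integrable.of_bound ((hmeas x).mul hf).aestronglyMeasurable
          (Real.exp (K * (|x| + 1)) * M) ?_
        refine (ae_restrict_iff' hSm).2 (Filter.Eventually.of_forall fun u hu => ?_)
        rw [Real.norm_eq_abs, abs_mul, abs_of_nonneg (Real.rpow_nonneg (hSpos u hu).le _)]
        exact mul_le_mul (hpow u hu x (by linarith)) (hM u) (abs_nonneg _) (Real.exp_pos _).le)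
      ((((hmeas x).mul Real.measurable_log).mul hf).aestronglyMeasurable)
      ((ae_restrict_iff' hSm).2 (Filter.Eventually.of_forall fun u hu y hy => by
        rw [Real.norm_eq_abs, abs_mul, abs_mul, abs_of_nonneg (Real.rpow_nonneg (hSpos u hu).le _)]
        have hy' : |y| ≤ |x| + 1 := by
          have h1 : |y - x| < 1 := by rwa [← Real.dist_eq, ← Metric.mem_ball]
          have h2 : |y| ≤ |y - x| + |x| := by
            calc |y| = |(y - x) + x| := by ring_nf
              _ ≤ _ := abs_add_le _ _
          linarith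
        refine mul_le_mul (mul_le_mul (hpow u hu y hy') (hlog u hu) (abs_nonneg _)
          (Real.exp_pos _).le) (hM u) (abs_nonneg _) (by positivity)))
      (integrable_const _)
      ((ae_restrict_iff' hSm).2 (Filter.Eventually.of_forall fun u hu y _ => by
        have h1 : HasDerivAt (fun y : ℝ => u ^ y) (u ^ y * Real.log u) y :=
          (Real.hasStrictDerivAt_const_rpow (hSpos u hu) y).hasDerivAt
        exact h1.mul_const (f u)))
    exact hres.2
  have hG : HasDerivAt (fun x : ℝ => c ^ (-x)) (-(c ^ (-x) * Real.log c)) x := by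
    have h1 : HasDerivAt (fun y : ℝ => c ^ y) (c ^ (-x) * Real.log c) (-x) :=
      (Real.hasStrictDerivAt_const_rpow hc (-x)).hasDerivAt
    have h2 := h1.comp x (hasDerivAt_neg x)
    simpa [Function.comp_def] using h2
  have hmul := hG.mul hF
  refine hmul.congr_deriv ?_
  have hint : ∀ g : ℝ → ℝ, Measurable g → (∃ B, ∀ u ∈ S, |g u| ≤ B) → IntegrableOn g S := by
    intro g hg ⟨B, hB⟩
    have hfin : volume S < ⊤ := by rw [hS]; exact measure_Icc_lt_top
    exact Measure.integrableOn_of_bounded hfin.ne hg.aestronglyMeasurable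
      ((ae_restrict_iff' hSm).2 (Filter.Eventually.of_forall hB))
  have hcontpow : ∃ B, ∀ u ∈ S, |u ^ x| ≤ B := by
    have hc1 : ContinuousOn (fun u : ℝ => |u ^ x|) S := by
      refine ContinuousOn.abs ?_
      exact ContinuousOn.rpow_const continuousOn_id (fun u hu => Or.inl (hSpos u hu).ne')
    obtain ⟨B, hB⟩ := (isCompact_Icc (a := u0) (b := R)).bddAbove_image hc1
    exact ⟨B, fun u hu => hB ⟨u, hu, rfl⟩⟩
  have hcontlog : ∃ B, ∀ u ∈ S, |Real.log u| ≤ B := by
    have hc1 : ContinuousOn (fun u : ℝ => |Real.log u|) S := by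
      refine ContinuousOn.abs ?_
      exact ContinuousOn.log continuousOn_id (fun u hu => (hSpos u hu).ne')
    obtain ⟨B, hB⟩ := (isCompact_Icc (a := u0) (b := R)).bddAbove_image hc1
    exact ⟨B, fun u hu => hB ⟨u, hu, rfl⟩⟩
  obtain ⟨B1, hB1⟩ := hcontpow
  obtain ⟨B2, hB2⟩ := hcontlog
  have hi1 : IntegrableOn (fun u => u ^ x * f u) S := by
    refine hint _ (by fun_prop) ⟨|B1| * M, fun u hu => ?_⟩
    rw [abs_mul]
    exact mul_le_mul ((hB1 u hu).trans (le_abs_self _)) (hM u) (abs_nonneg _) (abs_nonneg _)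
  have hi2 : IntegrableOn (fun u => u ^ x * Real.log u * f u) S := by
    refine hint _ (by fun_prop) ⟨|B1| * |B2| * M, fun u hu => ?_⟩
    rw [abs_mul, abs_mul]
    exact mul_le_mul (mul_le_mul ((hB1 u hu).trans (le_abs_self _))
      ((hB2 u hu).trans (le_abs_self _)) (abs_nonneg _) (abs_nonneg _)) (hM u) (abs_nonneg _)
      (by positivity)
  have e1 : ∫ u in S, u ^ x * (Real.log (u / c) * f u)
      = (∫ u in S, u ^ x * Real.log u * f u) - Real.log c * ∫ u in S, u ^ x * f u := by
    rw [← integral_const_mul, ← integral_sub hi2 (hi1.const_mul _)]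
    refine setIntegral_congr_fun hSm fun u hu => ?_
    rw [Real.log_div (hSpos u hu).ne' hc.ne']
    ring
  rw [e1]
  ring

/-- Removing the first change of sign.  Let `c₊ = inf {f > 0}`, `c₋ = inf {f < 0}` on `[u0,R]` (both sets
nonempty), `c = max c₊ c₋`; say `c₊ ≤ c₋ = c` (else replace `f` by `-f`).  Then `f ≥ 0` on
`[u0, c)`, so `f1 = log (u/c) f` is `≤ 0` on `[u0,c]`, and has the sign of `f` beyond `c`.  Let `v_0 < ... < v_n`
be alternating for `f1`.  If `f1 v_0 < 0` and `v_0 < c`: `f v_0 > 0`, all other `v_i > c` (`f1 v_1 > 0`),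
and there is `w` with `f w < 0`, `v_0 < w < v_1` (`c = inf {f < 0}`): `v_0, w, v_1, ...` has `n + 1` changes.
If `v_0 > c` and `f v_0 < 0`: there is `w < v_0` with `f w > 0` (`c₊ < v_0`); if `v_0 > c` and `f v_0 > 0`:
there is `w < v_0` with `f w < 0`.  Put `w` in front. -/
theorem alt_step (f : ℝ → ℝ) (u0 R : ℝ) (h0 : 0 < u0) (hp : ∃ u ∈ Set.Icc u0 R, 0 < f u)
    (hn : ∃ u ∈ Set.Icc u0 R, f u < 0) :
    ∃ c ∈ Set.Icc u0 R, ∀ n : ℕ, Alt (fun u => Real.log (u / c) * f u) (Set.Icc u0 R) n →
      Alt f (Set.Icc u0 R) (n + 1) := by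
  classical
  set S : Set ℝ := Set.Icc u0 R with hS
  -- the one-sided statement
  have aux : ∀ (g : ℝ → ℝ) (c : ℝ), c ∈ S → (∀ u ∈ S, u < c → 0 ≤ g u) →
      (∀ t > c, ∃ w ∈ S, w < t ∧ 0 < g w) → (∀ t > c, ∃ w ∈ S, w < t ∧ c ≤ w ∧ g w < 0) →
      (∃ w ∈ S, c ≤ w ∧ g w < 0) → ∀ n : ℕ, Alt (fun u => Real.log (u / c) * g u) S n →
      Alt g S (n + 1) := by
    intro g c hc hnn hP hN hN' n hA
    obtain ⟨η, v, hη, hv, hs⟩ := hA
    have hcpos : 0 < c := lt_of_lt_of_le h0 hc.1
    have hne : ∀ i ≤ n, v i ≠ c := by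
      intro i hi he
      have := (hs i hi).2
      simp [he, div_self hcpos.ne'] at this
    have hlogpos : ∀ u, c < u → 0 < Real.log (u / c) := fun u hu =>
      Real.log_pos ((one_lt_div hcpos).2 hu)
    have hmono : ∀ i, i + 1 ≤ n → v 0 < v (i + 1) := by
      intro i
      induction i with
      | zero => intro hi; exact hv 0 (by omega)
      | succ k ih => intro hi; exact (ih (by omega)).trans (hv (k + 1) (by omega))
    by_cases h0c : v 0 < c
    · -- case A
      have hv0 := hs 0 (Nat.zero_le _)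
      have hlogneg : Real.log (v 0 / c) < 0 := by
        have hpos : 0 < v 0 := lt_of_lt_of_le h0 hv0.1.1
        exact Real.log_neg (div_pos hpos hcpos) ((div_lt_one hcpos).2 h0c)
      have hg0 : 0 < g (v 0) := by
        have h1 := hnn (v 0) hv0.1 h0c
        rcases h1.eq_or_lt with h | h
        · exfalso
          have h2 := hv0.2
          simp [← h] at h2
        · exact h
      have hηm : η = -1 := by
        rcases hη with h | h
        · exfalso
          have h2 := hv0.2
          simp only [pow_zero, mul_one, h, one_mul] at h2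
          exact absurd h2 (not_lt.2 (mul_nonpos_of_nonpos_of_nonneg hlogneg.le hg0.le))
        · exact h
      -- all later points are beyond `c`
      have hbig : ∀ i, 1 ≤ i → i ≤ n → c < v i := by
        intro i hi hin
        have h1 : c < v 1 := by
          have h1n : 1 ≤ n := hi.trans hin
          rcases lt_trichotomy (v 1) c with hlt | heq | hgt
          · exfalso
            have h2 := (hs 1 h1n)
            have hpos1 : 0 < v 1 := lt_of_lt_of_le h0 h2.1.1
            have hl1 : Real.log (v 1 / c) < 0 :=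
              Real.log_neg (div_pos hpos1 hcpos) ((div_lt_one hcpos).2 hlt)
            have h3 := hnn (v 1) h2.1 hlt
            have h4 := h2.2
            simp only [hηm, pow_one, mul_neg, mul_one, neg_neg, one_mul] at h4
            exact absurd h4 (not_lt.2 (mul_nonpos_of_nonpos_of_nonneg hl1.le h3))
          · exact absurd heq (hne 1 h1n)
          · exact hgt
        obtain ⟨k, rfl⟩ : ∃ k, i = k + 1 := ⟨i - 1, by omega⟩
        clear hi
        induction k with
        | zero => exact h1
        | succ k ih => exact (ih (by omega)).trans (hv (k + 1) (by omega))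
      -- the new point
      obtain ⟨w, hwS, hcw, hgw, hwn⟩ : ∃ w ∈ S, c ≤ w ∧ g w < 0 ∧ (1 ≤ n → w < v 1) := by
        by_cases hn1 : 1 ≤ n
        · obtain ⟨w, hw, h1, h2, h3⟩ := hN (v 1) (hbig 1 le_rfl hn1)
          exact ⟨w, hw, h2, h3, fun _ => h1⟩
        · obtain ⟨w, hw, h2, h3⟩ := hN'
          exact ⟨w, hw, h2, h3, fun h => absurd h hn1⟩
      refine ⟨1, fun i => if i = 0 then v 0 else if i = 1 then w else v (i - 1), Or.inl rfl, ?_, ?_⟩
      · intro i hi
        rcases Nat.lt_or_ge i 1 with h | h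
        · have : i = 0 := by omega
          subst this
          simp only [if_true, zero_add, one_ne_zero, if_false]
          exact lt_of_lt_of_le h0c hcw
        · rcases Nat.lt_or_ge i 2 with h' | h'
          · have : i = 1 := by omega
            subst this
            simp only [one_ne_zero, if_false, if_true]
            norm_num
            exact hwn (by omega)
          · obtain ⟨k, rfl⟩ : ∃ k, i = k + 2 := ⟨i - 2, by omega⟩
            have e1 : (k + 2 = 0) = False := by simp
            have e2 : (k + 2 = 1) = False := by simp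
            have e3 : (k + 2 + 1 = 0) = False := by simp
            have e4 : (k + 2 + 1 = 1) = False := by simp
            simp only [e1, e2, e3, e4, if_false]
            have := hv (k + 1) (by omega)
            simpa using this
      · intro i hi
        rcases Nat.lt_or_ge i 1 with h | h
        · have : i = 0 := by omega
          subst this
          simp only [if_true, pow_zero, mul_one, one_mul]
          exact ⟨hv0.1, hg0⟩
        · rcases Nat.lt_or_ge i 2 with h' | h'
          · have : i = 1 := by omega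
            subst this
            simp only [one_ne_zero, if_false, if_true, pow_one, one_mul]
            exact ⟨hwS, by linarith⟩
          · obtain ⟨k, rfl⟩ : ∃ k, i = k + 2 := ⟨i - 2, by omega⟩
            have e1 : (k + 2 = 0) = False := by simp
            have e2 : (k + 2 = 1) = False := by simp
            simp only [e1, e2, if_false]
            have e5 : k + 2 - 1 = k + 1 := by omega
            rw [e5]
            have h1 := hs (k + 1) (by omega)
            refine ⟨h1.1, ?_⟩
            have h2 := hlogpos _ (hbig (k + 1) (by omega) (by omega))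
            have h3 := h1.2
            rw [hηm] at h3
            have e6 : (-1 : ℝ) * (-1) ^ (k + 1) * (Real.log (v (k + 1) / c) * g (v (k + 1)))
                = Real.log (v (k + 1) / c) * (1 * (-1) ^ (k + 2) * g (v (k + 1))) := by ring
            rw [e6] at h3
            exact (pos_iff_pos_of_mul_pos h3).1 h2
    · -- case B
      have hc0 : c < v 0 := lt_of_le_of_ne (not_lt.1 h0c) (hne 0 (Nat.zero_le _)).symm
      have hbig : ∀ i ≤ n, c < v i := by
        intro i hi
        rcases Nat.eq_zero_or_pos i with h | h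
        · rw [h]; exact hc0
        · obtain ⟨k, rfl⟩ : ∃ k, i = k + 1 := ⟨i - 1, by omega⟩
          exact hc0.trans (hmono k hi)
      have hsg : ∀ i ≤ n, 0 < η * (-1) ^ i * g (v i) := by
        intro i hi
        have h2 := hlogpos _ (hbig i hi)
        have h3 := (hs i hi).2
        have e6 : η * (-1) ^ i * (Real.log (v i / c) * g (v i))
            = Real.log (v i / c) * (η * (-1) ^ i * g (v i)) := by ring
        rw [e6] at h3
        exact (pos_iff_pos_of_mul_pos h3).1 h2
      obtain ⟨w, hwS, hwv, hgw⟩ : ∃ w ∈ S, w < v 0 ∧ 0 < -η * g w := by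
        rcases hη with h | h
        · obtain ⟨w, hw, h1, _, h3⟩ := hN (v 0) hc0
          exact ⟨w, hw, h1, by rw [h]; linarith⟩
        · obtain ⟨w, hw, h1, h3⟩ := hP (v 0) hc0
          exact ⟨w, hw, h1, by rw [h]; linarith⟩
      refine ⟨-η, fun i => if i = 0 then w else v (i - 1), by rcases hη with h | h <;> simp [h],
        ?_, ?_⟩
      · intro i hi
        rcases Nat.eq_zero_or_pos i with h | h
        · subst h
          simp only [if_true, zero_add, one_ne_zero, if_false]
          simpa using hwv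
        · obtain ⟨k, rfl⟩ : ∃ k, i = k + 1 := ⟨i - 1, by omega⟩
          have e1 : (k + 1 = 0) = False := by simp
          have e3 : (k + 1 + 1 = 0) = False := by simp
          simp only [e1, e3, if_false]
          simpa using hv k (by omega)
      · intro i hi
        rcases Nat.eq_zero_or_pos i with h | h
        · subst h
          simp only [if_true, pow_zero, mul_one]
          exact ⟨hwS, hgw⟩
        · obtain ⟨k, rfl⟩ : ∃ k, i = k + 1 := ⟨i - 1, by omega⟩
          have e1 : (k + 1 = 0) = False := by simp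
          simp only [e1, if_false]
          have e5 : k + 1 - 1 = k := by omega
          rw [e5]
          refine ⟨(hs k (by omega)).1, ?_⟩
          have := hsg k (by omega)
          calc 0 < η * (-1) ^ k * g (v k) := this
            _ = -η * (-1) ^ (k + 1) * g (v k) := by ring
  -- infima
  set Sp : Set ℝ := {u | u ∈ S ∧ 0 < f u} with hSp
  set Sn : Set ℝ := {u | u ∈ S ∧ f u < 0} with hSn
  have hpne : Sp.Nonempty := by obtain ⟨u, h1, h2⟩ := hp; exact ⟨u, h1, h2⟩
  have hnne : Sn.Nonempty := by obtain ⟨u, h1, h2⟩ := hn; exact ⟨u, h1, h2⟩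
  have hpb : BddBelow Sp := ⟨u0, fun u hu => hu.1.1⟩
  have hnb : BddBelow Sn := ⟨u0, fun u hu => hu.1.1⟩
  have hpS : sInf Sp ∈ S := by
    obtain ⟨u, hu⟩ := hpne
    exact ⟨le_csInf ⟨u, hu⟩ fun w hw => hw.1.1, (csInf_le hpb hu).trans hu.1.2⟩
  have hnS : sInf Sn ∈ S := by
    obtain ⟨u, hu⟩ := hnne
    exact ⟨le_csInf ⟨u, hu⟩ fun w hw => hw.1.1, (csInf_le hnb hu).trans hu.1.2⟩
  rcases le_total (sInf Sp) (sInf Sn) with hle | hle
  · refine ⟨sInf Sn, hnS, ?_⟩
    apply aux f (sInf Sn) hnS
    · intro u hu hlt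
      by_contra hcon
      exact absurd (csInf_le hnb ⟨hu, not_le.1 hcon⟩) (not_le.2 hlt)
    · intro t ht
      obtain ⟨w, hw, hwt⟩ := exists_lt_of_csInf_lt hpne (lt_of_le_of_lt hle ht)
      exact ⟨w, hw.1, hwt, hw.2⟩
    · intro t ht
      obtain ⟨w, hw, hwt⟩ := exists_lt_of_csInf_lt hnne ht
      exact ⟨w, hw.1, hwt, csInf_le hnb hw, hw.2⟩
    · obtain ⟨w, hw⟩ := hnne
      exact ⟨w, hw.1, csInf_le hnb hw, hw.2⟩
  · refine ⟨sInf Sp, hpS, ?_⟩
    intro n hA
    have hA' : Alt (fun u => Real.log (u / sInf Sp) * (-f u)) S n := by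
      obtain ⟨η, v, hη, hv, hs⟩ := hA
      refine ⟨-η, v, by rcases hη with h | h <;> simp [h], hv, fun i hi => ⟨(hs i hi).1, ?_⟩⟩
      calc 0 < _ := (hs i hi).2
        _ = _ := by ring
    have hB := aux (fun u => -f u) (sInf Sp) hpS ?_ ?_ ?_ ?_ n hA'
    · obtain ⟨η, v, hη, hv, hs⟩ := hB
      refine ⟨-η, v, by rcases hη with h | h <;> simp [h], hv, fun i hi => ⟨(hs i hi).1, ?_⟩⟩
      calc 0 < _ := (hs i hi).2
        _ = _ := by ring
    · intro u hu hlt
      by_contra hcon
      have hcon' : 0 < f u := by simp only [not_le] at hcon; linarith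
      exact absurd (csInf_le hpb ⟨hu, hcon'⟩) (not_le.2 hlt)
    · intro t ht
      obtain ⟨w, hw, hwt⟩ := exists_lt_of_csInf_lt hnne (lt_of_le_of_lt hle ht)
      exact ⟨w, hw.1, hwt, by have := hw.2; linarith⟩
    · intro t ht
      obtain ⟨w, hw, hwt⟩ := exists_lt_of_csInf_lt hpne ht
      exact ⟨w, hw.1, hwt, csInf_le hpb hw, by have := hw.2; linarith⟩
    · obtain ⟨w, hw⟩ := hpne
      exact ⟨w, hw.1, csInf_le hpb hw, by have := hw.2; linarith⟩

/-- Descartes' rule for Mellin moments: the function `x ↦ ∫_{[u0,R]} u^x f u du` has at most as many changes of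
sign as `f`.  Induction on `n` (for all `f`).  `n = 0`: the integral is not zero, so `f` is not zero
everywhere on `[u0,R]`.  `n + 1`: the moments take both signs, so does `f`; `c` from `alt_step`; multiply the
moments by `c^{-x} > 0`, `mom_deriv`, `alt_deriv`, the induction hypothesis for `log (u/c) f`
(set it to `0` outside `[u0,R]` to keep it bounded, or bound it on `[u0,R]` only), `alt_step`. -/
theorem descartes (f : ℝ → ℝ) (hf : Measurable f) (M : ℝ) (hM : ∀ u, |f u| ≤ M) (u0 R : ℝ)
    (h0 : 0 < u0) (n : ℕ)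
    (h : Alt (fun x : ℝ => ∫ u in Set.Icc u0 R, u ^ x * f u) Set.univ n) :
    Alt f (Set.Icc u0 R) n := by
  classical
  induction n generalizing f M with
  | zero =>
    obtain ⟨η, x, hη, _, hs⟩ := h
    have h1 := (hs 0 le_rfl).2
    simp only [pow_zero, mul_one] at h1
    by_cases hz : ∀ u ∈ Set.Icc u0 R, f u = 0
    · exfalso
      have h2 : ∫ u in Set.Icc u0 R, u ^ (x 0) * f u = 0 := by
        rw [setIntegral_congr_fun (g := fun _ => (0 : ℝ)) measurableSet_Icc
          (fun u hu => by simp [hz u hu])]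
        simp
      rw [h2] at h1
      simp at h1
    · push Not at hz
      obtain ⟨u, hu, hfu⟩ := hz
      rcases lt_or_gt_of_ne hfu with h | h
      · refine ⟨-1, fun _ => u, Or.inr rfl, fun i hi => absurd hi (Nat.not_lt_zero _), ?_⟩
        intro i hi
        have : i = 0 := by omega
        subst this
        exact ⟨hu, by simp; exact h⟩
      · refine ⟨1, fun _ => u, Or.inl rfl, fun i hi => absurd hi (Nat.not_lt_zero _), ?_⟩
        intro i hi
        have : i = 0 := by omega
        subst this
        exact ⟨hu, by simp; exact h⟩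
  | succ n ih =>
    have hpos : ∀ y : ℝ, 0 < ∫ u in Set.Icc u0 R, u ^ y * f u → ∃ u ∈ Set.Icc u0 R, 0 < f u := by
      intro y hy
      by_contra hcon
      push Not at hcon
      have : ∫ u in Set.Icc u0 R, u ^ y * f u ≤ 0 := by
        apply setIntegral_nonpos measurableSet_Icc
        intro u hu
        exact mul_nonpos_of_nonneg_of_nonpos (Real.rpow_nonneg (h0.le.trans hu.1) _) (hcon u hu)
      linarith
    have hneg : ∀ y : ℝ, ∫ u in Set.Icc u0 R, u ^ y * f u < 0 → ∃ u ∈ Set.Icc u0 R, f u < 0 := by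
      intro y hy
      by_contra hcon
      push Not at hcon
      have : 0 ≤ ∫ u in Set.Icc u0 R, u ^ y * f u := by
        apply setIntegral_nonneg measurableSet_Icc
        intro u hu
        exact mul_nonneg (Real.rpow_nonneg (h0.le.trans hu.1) _) (hcon u hu)
      linarith
    have hboth : (∃ u ∈ Set.Icc u0 R, 0 < f u) ∧ (∃ u ∈ Set.Icc u0 R, f u < 0) := by
      obtain ⟨η, x, hη, _, hs⟩ := h
      have h1 := (hs 0 (by omega)).2
      have h2 := (hs 1 (by omega)).2
      simp only [pow_zero, mul_one, pow_one, mul_neg] at h1 h2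
      rcases hη with h | h
      · rw [h] at h1 h2
        exact ⟨hpos (x 0) (by linarith), hneg (x 1) (by linarith)⟩
      · rw [h] at h1 h2
        exact ⟨hpos (x 1) (by linarith), hneg (x 0) (by linarith)⟩
    obtain ⟨c, hc, hstep⟩ := alt_step f u0 R h0 hboth.1 hboth.2
    have hc0 : 0 < c := lt_of_lt_of_le h0 hc.1
    have hb := fun x => mom_deriv f hf M hM u0 R c h0 hc0 x
    have hA : Alt (fun x : ℝ => c ^ (-x) * ∫ u in Set.Icc u0 R, u ^ x * f u) Set.univ (n + 1) := by
      obtain ⟨η, x, hη, hx, hs⟩ := h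
      refine ⟨η, x, hη, hx, fun i hi => ⟨Set.mem_univ _, ?_⟩⟩
      have h1 := (hs i hi).2
      have h2 : 0 < c ^ (-(x i)) := Real.rpow_pos_of_pos hc0 _
      calc 0 < c ^ (-(x i)) * (η * (-1) ^ i * ∫ u in Set.Icc u0 R, u ^ (x i) * f u) :=
            mul_pos h2 h1
        _ = _ := by ring
    have hD := alt_deriv _ _ hb n hA
    -- the new function
    set f1 : ℝ → ℝ := (Set.Icc u0 R).indicator (fun u => Real.log (u / c) * f u) with hf1
    have hf1m : Measurable f1 := by
      rw [hf1]
      exact Measurable.indicator (by fun_prop) measurableSet_Icc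
    have hM0 : 0 ≤ M := le_trans (abs_nonneg _) (hM 0)
    obtain ⟨B, hB⟩ : ∃ B, ∀ u ∈ Set.Icc u0 R, |Real.log (u / c)| ≤ B := by
      have hc1 : ContinuousOn (fun u : ℝ => |Real.log (u / c)|) (Set.Icc u0 R) := by
        refine ContinuousOn.abs ?_
        refine ContinuousOn.log (continuousOn_id.div_const c) (fun u hu => ?_)
        exact (div_pos (lt_of_lt_of_le h0 hu.1) hc0).ne'
      obtain ⟨B, hB⟩ := (isCompact_Icc (a := u0) (b := R)).bddAbove_image hc1
      exact ⟨B, fun u hu => hB ⟨u, hu, rfl⟩⟩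
    have hf1b : ∀ u, |f1 u| ≤ |B| * M := by
      intro u
      by_cases hu : u ∈ Set.Icc u0 R
      · rw [hf1, Set.indicator_of_mem hu, abs_mul]
        exact mul_le_mul ((hB u hu).trans (le_abs_self _)) (hM u) (abs_nonneg _) (abs_nonneg _)
      · rw [hf1, Set.indicator_of_notMem hu, abs_zero]
        positivity
    have hI : ∀ x : ℝ, ∫ u in Set.Icc u0 R, u ^ x * f1 u
        = ∫ u in Set.Icc u0 R, u ^ x * (Real.log (u / c) * f u) := by
      intro x
      refine setIntegral_congr_fun measurableSet_Icc fun u hu => ?_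
      rw [hf1, Set.indicator_of_mem hu]
    have hE : Alt (fun x : ℝ => ∫ u in Set.Icc u0 R, u ^ x * f1 u) Set.univ n := by
      obtain ⟨η, x, hη, hx, hs⟩ := hD
      refine ⟨η, x, hη, hx, fun i hi => ⟨Set.mem_univ _, ?_⟩⟩
      have h1 := (hs i hi).2
      have h2 : 0 < c ^ (-(x i)) := Real.rpow_pos_of_pos hc0 _
      simp only [hI]
      have e : η * (-1) ^ i * (c ^ (-(x i)) * ∫ u in Set.Icc u0 R,
          u ^ (x i) * (Real.log (u / c) * f u)) = c ^ (-(x i)) * (η * (-1) ^ i *
          ∫ u in Set.Icc u0 R, u ^ (x i) * (Real.log (u / c) * f u)) := by ring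
      rw [e] at h1
      exact (pos_iff_pos_of_mul_pos h1).1 h2
    have hIH := ih f1 hf1m (|B| * M) hf1b hE
    apply hstep n
    obtain ⟨η, x, hη, hx, hs⟩ := hIH
    refine ⟨η, x, hη, hx, fun i hi => ⟨(hs i hi).1, ?_⟩⟩
    have h1 := (hs i hi).2
    rw [hf1, Set.indicator_of_mem (hs i hi).1] at h1
    exact h1

end W3283l
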